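import Mathlib

/-!
# Polynomials in two variables as coefficient arrays
-/

set_option autoImplicit false

open Polynomial Finset

namespace Pool.Agent.Pack

/-- The value at `(x, y)` of the polynomial with coefficients `c i j`, `i, j ≤ d`. -/
noncomputable def ev (d : ℕ) (c : ℕ → ℕ → ℝ) (x y : ℝ) : ℝ :=
  ∑ i ∈ range (d + 1), ∑ j ∈ range (d + 1), c i j * x ^ i * y ^ j

/-- The coefficient of `x ^ i`, a polynomial in `y`. -/
noncomputable def row (d : ℕ) (c : ℕ → ℕ → ℝ) (i : ℕ) : ℝ[X] :=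
  ∑ j ∈ range (d + 1), C (c i j) * X ^ j

/-- The polynomial in `x` for fixed `y`. -/
noncomputable def hor (d : ℕ) (c : ℕ → ℕ → ℝ) (y : ℝ) : ℝ[X] :=
  ∑ i ∈ range (d + 1), C ((row d c i).eval y) * X ^ i

/-- The leading form on the line `x = 1`. -/
noncomputable def top (d : ℕ) (c : ℕ → ℕ → ℝ) : ℝ[X] :=
  ∑ j ∈ range (d + 1), C (c (d - j) j) * X ^ j

theorem row_eval (d : ℕ) (c : ℕ → ℕ → ℝ) (i : ℕ) (y : ℝ) :
    (row d c i).eval y = ∑ j ∈ range (d + 1), c i j * y ^ j := by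
  simp [row, eval_finsetSum]

theorem top_eval (d : ℕ) (c : ℕ → ℕ → ℝ) (t : ℝ) :
    (top d c).eval t = ∑ j ∈ range (d + 1), c (d - j) j * t ^ j := by
  simp [top, eval_finsetSum]

theorem row_coeff (d : ℕ) (c : ℕ → ℕ → ℝ) (i j : ℕ) :
    (row d c i).coeff j = if j ≤ d then c i j else 0 := by
  simp only [row, finsetSum_coeff, coeff_C_mul, coeff_X_pow, mul_ite, mul_one, mul_zero]
  rw [Finset.sum_ite_eq (range (d + 1)) j]
  simp

theorem top_coeff (d : ℕ) (c : ℕ → ℕ → ℝ) (j : ℕ) :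
    (top d c).coeff j = if j ≤ d then c (d - j) j else 0 := by
  simp only [top, finsetSum_coeff, coeff_C_mul, coeff_X_pow, mul_ite, mul_one, mul_zero]
  rw [Finset.sum_ite_eq (range (d + 1)) j]
  simp

theorem top_natDegree_le (d : ℕ) (c : ℕ → ℕ → ℝ) : (top d c).natDegree ≤ d := by
  rw [natDegree_le_iff_coeff_eq_zero]
  intro j hj
  rw [top_coeff, if_neg (by omega)]

theorem row_natDegree_le (d : ℕ) (c : ℕ → ℕ → ℝ) (i : ℕ) : (row d c i).natDegree ≤ d := by
  rw [natDegree_le_iff_coeff_eq_zero]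
  intro j hj
  rw [row_coeff, if_neg (by omega)]

theorem row_natDegree_le' {d : ℕ} {c : ℕ → ℕ → ℝ} (hc : ∀ i j, d < i + j → c i j = 0) {i : ℕ}
    (hi : i ≤ d) : (row d c i).natDegree ≤ d - i := by
  rw [natDegree_le_iff_coeff_eq_zero]
  intro j hj
  rw [row_coeff]
  split_ifs with h
  · exact hc i j (by omega)
  · rfl

theorem hor_eval (d : ℕ) (c : ℕ → ℕ → ℝ) (x y : ℝ) : (hor d c y).eval x = ev d c x y := by
  simp only [hor, eval_finsetSum, eval_mul, eval_C, eval_pow, eval_X, row_eval, ev]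
  refine Finset.sum_congr rfl fun i _ => ?_
  rw [Finset.sum_mul]
  exact Finset.sum_congr rfl fun j _ => by ring

theorem hor_coeff (d : ℕ) (c : ℕ → ℕ → ℝ) (y : ℝ) (i : ℕ) :
    (hor d c y).coeff i = if i ≤ d then (row d c i).eval y else 0 := by
  simp only [hor, finsetSum_coeff, coeff_C_mul, coeff_X_pow, mul_ite, mul_one, mul_zero]
  rw [Finset.sum_ite_eq (range (d + 1)) i]
  simp

theorem hor_natDegree_le {d : ℕ} {c : ℕ → ℕ → ℝ} {D : ℕ} (hD : ∀ i, D < i → row d c i = 0)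
    (y : ℝ) : (hor d c y).natDegree ≤ D := by
  rw [natDegree_le_iff_coeff_eq_zero]
  intro i hi
  rw [hor_coeff]
  split_ifs
  · rw [hD i hi]; simp
  · rfl

theorem ev_continuous (d : ℕ) (c : ℕ → ℕ → ℝ) : Continuous fun p : ℝ × ℝ => ev d c p.1 p.2 := by
  unfold ev
  fun_prop

/-- Leading form estimate on a bounded set of slopes. -/
theorem ev_sub_top_le {d : ℕ} (hd : 1 ≤ d) {c : ℕ → ℕ → ℝ} (hc : ∀ i j, d < i + j → c i j = 0)
    (M : ℝ) : ∃ K : ℝ, 0 ≤ K ∧ ∀ x t : ℝ, 1 ≤ x → |t| ≤ M →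
      |ev d c x (t * x) - x ^ d * (top d c).eval t| ≤ K * x ^ (d - 1) := by
  set M' : ℝ := max M 1 with hM'
  have hM1 : 1 ≤ M' := le_max_right _ _
  refine ⟨∑ i ∈ range (d + 1), ∑ j ∈ range (d + 1), |c i j| * M' ^ j, by positivity, ?_⟩
  intro x t hx ht
  have ht' : |t| ≤ M' := ht.trans (le_max_left _ _)
  have e1 : x ^ d * (top d c).eval t = ∑ i ∈ range (d + 1), ∑ j ∈ range (d + 1),
      if i + j = d then c i j * x ^ i * (t * x) ^ j else 0 := by
    rw [top_eval, Finset.mul_sum, Finset.sum_comm]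
    refine Finset.sum_congr rfl fun j hj => ?_
    have hj' : j ≤ d := Nat.lt_succ_iff.1 (mem_range.1 hj)
    rw [Finset.sum_eq_single (d - j)]
    · rw [if_pos (by omega), mul_pow]
      have : x ^ d = x ^ (d - j) * x ^ j := by rw [← pow_add]; congr 1; omega
      rw [this]; ring
    · intro i _ hij
      rw [if_neg (by omega)]
    · intro h
      exact absurd (mem_range.2 (by omega)) h
  rw [e1, ev, ← Finset.sum_sub_distrib]
  have e2 : ∀ i ∈ range (d + 1), |(∑ j ∈ range (d + 1), c i j * x ^ i * (t * x) ^ j) -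
      ∑ j ∈ range (d + 1), (if i + j = d then c i j * x ^ i * (t * x) ^ j else 0)| ≤
      ∑ j ∈ range (d + 1), |c i j| * M' ^ j * x ^ (d - 1) := by
    intro i _
    rw [← Finset.sum_sub_distrib]
    refine (Finset.abs_sum_le_sum_abs _ _).trans (Finset.sum_le_sum fun j _ => ?_)
    split_ifs with h
    · simp only [sub_self, abs_zero]
      positivity
    · rw [sub_zero]
      by_cases h2 : d < i + j
      · rw [hc i j h2]
        simp
      · have h3 : i + j ≤ d - 1 := by omega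
        rw [abs_mul, abs_mul, abs_pow, abs_pow, abs_mul, abs_of_pos (by linarith : 0 < x), mul_pow]
        have h4 : x ^ i * (|t| ^ j * x ^ j) = |t| ^ j * x ^ (i + j) := by rw [pow_add]; ring
        rw [mul_assoc, h4, mul_assoc]
        refine mul_le_mul_of_nonneg_left ?_ (abs_nonneg _)
        exact mul_le_mul (pow_le_pow_left₀ (abs_nonneg _) ht' _) (pow_le_pow_right₀ hx h3)
          (by positivity) (by positivity)
  refine (Finset.abs_sum_le_sum_abs _ _).trans ?_
  refine (Finset.sum_le_sum e2).trans (le_of_eq ?_)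
  rw [Finset.sum_mul]
  exact Finset.sum_congr rfl fun i _ => by rw [Finset.sum_mul]

end Pool.Agent.Pack
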