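import Mathlib

/-!
# Counting by fibres
-/

set_option autoImplicit false

open Finset

namespace Pool.Agent.Pack

theorem ncard_le_sum_fibers {α β : Type*} (A : Set α) (φ : α → β) (I : Finset β)
    (k : β → ℝ) (hφ : ∀ v ∈ A, φ v ∈ I)
    (hk : ∀ b ∈ I, ∀ S : Finset α, (∀ v ∈ S, v ∈ A ∧ φ v = b) → (S.card : ℝ) ≤ k b) :
    A.Finite ∧ (A.ncard : ℝ) ≤ ∑ b ∈ I, k b := by
  classical
  have hfib : ∀ b ∈ I, {v ∈ A | φ v = b}.Finite := by
    intro b hb
    by_contra hinf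
    obtain ⟨S, hS, hcard⟩ := Set.Infinite.exists_subset_card_eq hinf (⌊k b⌋₊ + 1)
    have h1 := hk b hb S (fun v hv => hS hv)
    rw [hcard] at h1
    push_cast at h1
    linarith [Nat.lt_floor_add_one (k b)]
  have hfin : A.Finite := by
    refine (Set.Finite.biUnion I.finite_toSet (t := fun b => {v ∈ A | φ v = b}) hfib).subset ?_
    intro v hv
    simp only [Set.mem_iUnion]
    exact ⟨φ v, hφ v hv, hv, rfl⟩
  refine ⟨hfin, ?_⟩
  rw [Set.ncard_eq_toFinset_card A hfin]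
  rw [Finset.card_eq_sum_card_fiberwise (f := φ) (t := I) (fun v hv => by
    simpa using hφ v ((Set.Finite.mem_toFinset hfin).1 hv))]
  push_cast
  refine Finset.sum_le_sum fun b hb => hk b hb _ fun v hv => ?_
  rw [Finset.mem_filter, Set.Finite.mem_toFinset] at hv
  exact hv

/-- Points of `ℤ × ℤ` with given first coordinate are counted by their second coordinates. -/
theorem ncard_le_sum_fst (A : Set (ℤ × ℤ)) (I : Finset ℤ) (k : ℤ → ℝ)
    (hI : ∀ v ∈ A, v.1 ∈ I)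
    (hk : ∀ x ∈ I, ∀ S : Finset ℤ, (∀ y ∈ S, (x, y) ∈ A) → (S.card : ℝ) ≤ k x) :
    A.Finite ∧ (A.ncard : ℝ) ≤ ∑ x ∈ I, k x := by
  classical
  refine ncard_le_sum_fibers A Prod.fst I k hI fun x hx S hS => ?_
  have h1 : (S.image Prod.snd).card = S.card := by
    refine Finset.card_image_of_injOn fun v hv w hw hvw => ?_
    exact Prod.ext ((hS v hv).2.trans (hS w hw).2.symm) hvw
  rw [← h1]
  refine hk x hx _ fun y hy => ?_
  obtain ⟨v, hv, rfl⟩ := Finset.mem_image.1 hy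
  have := hS v hv
  rw [← this.2]
  exact this.1

/-- Points of `ℤ × ℤ` with given second coordinate are counted by their first coordinates. -/
theorem ncard_le_sum_snd (A : Set (ℤ × ℤ)) (I : Finset ℤ) (k : ℤ → ℝ)
    (hI : ∀ v ∈ A, v.2 ∈ I)
    (hk : ∀ y ∈ I, ∀ S : Finset ℤ, (∀ x ∈ S, (x, y) ∈ A) → (S.card : ℝ) ≤ k y) :
    A.Finite ∧ (A.ncard : ℝ) ≤ ∑ y ∈ I, k y := by
  classical
  refine ncard_le_sum_fibers A Prod.snd I k hI fun y hy S hS => ?_
  have h1 : (S.image Prod.fst).card = S.card := by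
    refine Finset.card_image_of_injOn fun v hv w hw hvw => ?_
    exact Prod.ext hvw ((hS v hv).2.trans (hS w hw).2.symm)
  rw [← h1]
  refine hk y hy _ fun x hx => ?_
  obtain ⟨v, hv, rfl⟩ := Finset.mem_image.1 hx
  have := hS v hv
  rw [← this.2]
  exact this.1

/-- Integers of an interval of length `L`. -/
theorem card_le_of_mem_Icc (S : Finset ℤ) (a b : ℝ) (h : ∀ s ∈ S, a ≤ (s : ℝ) ∧ (s : ℝ) ≤ b)
    (hab : a ≤ b) : (S.card : ℝ) ≤ b - a + 1 := by
  have h1 : S ⊆ Finset.Icc ⌈a⌉ ⌊b⌋ := by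
    intro s hs
    rw [Finset.mem_Icc]
    exact ⟨Int.ceil_le.2 (h s hs).1, Int.le_floor.2 (h s hs).2⟩
  have h2 := Finset.card_le_card h1
  rw [Int.card_Icc] at h2
  have h3 : ((S.card : ℤ)) ≤ max (⌊b⌋ + 1 - ⌈a⌉) 0 := by
    rw [← Int.toNat_eq_max]; exact_mod_cast h2
  rcases le_total (⌊b⌋ + 1 - ⌈a⌉) 0 with h4 | h4
  · rw [max_eq_right h4] at h3
    have : (S.card : ℝ) ≤ 0 := by exact_mod_cast h3
    linarith
  · rw [max_eq_left h4] at h3
    have h5 : (S.card : ℝ) ≤ (⌊b⌋ : ℝ) + 1 - ⌈a⌉ := by exact_mod_cast h3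
    linarith [Int.floor_le b, Int.le_ceil a]

end Pool.Agent.Pack
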