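import Pool.Agent.Pack.Rat

/-!
# A local obstruction: `a (x - B(y))² + E(y)` with `E` quadratic misses natural numbers
-/

set_option autoImplicit false

open Polynomial

namespace Pool.Agent.Pack

theorem jacobi_neg (K : ℕ) (hK : 0 < K) (p : ℕ) (hp : Odd p) (hmod : p % (4 * K) = 4 * K - 1) :
    jacobiSym (-(K : ℤ)) p = -1 := by
  have h4 : (4 * K - 1) % 4 = 3 := by omega
  have hodd : Odd (4 * K - 1) := by
    rw [Nat.odd_iff]; omega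
  rw [jacobiSym.mod_right _ hp, Int.natAbs_neg, Int.natAbs_natCast, hmod,
    jacobiSym.neg _ hodd, ZMod.χ₄_nat_three_mod_four h4]
  have h1 : jacobiSym ((2 : ℤ) ^ 2 * K) (4 * K - 1) = 1 := by
    rw [jacobiSym.mod_left]
    have h2 : ((2 : ℤ) ^ 2 * K) % ((4 * K - 1 : ℕ) : ℤ) = 1 % ((4 * K - 1 : ℕ) : ℤ) := by
      refine Int.emod_emod_of_dvd _ (dvd_refl _) |>.symm.trans ?_
      have h3 : ((4 * K - 1 : ℕ) : ℤ) = 4 * K - 1 := by
        rw [Nat.cast_sub (by omega)]; push_cast; ring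
      rw [h3]
      have h4 : (2 : ℤ) ^ 2 * K = 1 + (4 * K - 1) * 1 := by ring
      rw [h4, Int.add_mul_emod_self_left, Int.emod_emod_of_dvd _ (dvd_refl _)]
    rw [h2, ← jacobiSym.mod_left, jacobiSym.one_left]
  rw [jacobiSym.mul_left, jacobiSym.sq_one', one_mul] at h1
  · rw [h1]; norm_num
  · have h5 : Nat.Coprime 2 (4 * K - 1) := by
      rw [Nat.coprime_two_left]; exact hodd
    simpa [Int.gcd] using h5

theorem dvd_of_dvd_form (K : ℕ) (p : ℕ) [Fact p.Prime] (hj : jacobiSym (-(K : ℤ)) p = -1)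
    (U V : ℤ) (h : (p : ℤ) ∣ K * U ^ 2 + V ^ 2) : (p : ℤ) ∣ U ∧ (p : ℤ) ∣ V := by
  rw [← jacobiSym.legendreSym.to_jacobiSym, legendreSym.eq_neg_one_iff] at hj
  have h1 : ((K : ZMod p)) * (U : ZMod p) ^ 2 + (V : ZMod p) ^ 2 = 0 := by
    have := (ZMod.intCast_zmod_eq_zero_iff_dvd _ p).2 h
    push_cast at this
    exact this
  have hU : (U : ZMod p) = 0 := by
    by_contra hne
    apply hj
    refine ⟨(V : ZMod p) / U, ?_⟩
    push_cast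
    field_simp
    linear_combination -h1
  rw [hU] at h1
  have hV : (V : ZMod p) = 0 := by simpa using h1
  exact ⟨(ZMod.intCast_zmod_eq_zero_iff_dvd _ p).1 hU, (ZMod.intCast_zmod_eq_zero_iff_dvd _ p).1 hV⟩

theorem exists_not_form (K : ℕ) (hK : 0 < K) (s : ℕ) (hs : 0 < s) (r : ℤ) :
    ∃ m : ℕ, ∀ U V : ℤ, (s : ℤ) * m + r ≠ K * U ^ 2 + V ^ 2 := by
  obtain ⟨p, hps, hp, hpmod⟩ := Nat.forall_exists_prime_gt_and_zmodEq (s + 4 * K) (q := 4 * K)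
    (a := -1) (by omega) (by
      rw [Int.isCoprime_iff_gcd_eq_one]; simp)
  have : Fact p.Prime := ⟨hp⟩
  have hmod : p % (4 * K) = 4 * K - 1 := by
    have h1 : ((p : ℤ)) % ((4 * K : ℕ) : ℤ) = (-1) % ((4 * K : ℕ) : ℤ) := hpmod
    have h2 : (-1 : ℤ) % ((4 * K : ℕ) : ℤ) = 4 * K - 1 := by
      have h3 : (-1 : ℤ) % ((4 * K : ℕ) : ℤ) = (4 * K - 1) % ((4 * K : ℕ) : ℤ) := by
        have : (4 * (K : ℤ) - 1) = -1 + ((4 * K : ℕ) : ℤ) * 1 := by push_cast; ring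
        rw [this, Int.add_mul_emod_self_left]
      rw [h3]
      refine Int.emod_eq_of_lt (by omega) (by push_cast; omega)
    rw [h2] at h1
    omega
  have hpodd : Odd p := by
    rcases hp.eq_two_or_odd' with h | h
    · omega
    · exact h
  have hj := jacobi_neg K hK p hpodd hmod
  have hcop : IsCoprime (s : ℤ) ((p ^ 2 : ℕ) : ℤ) := by
    rw [Nat.isCoprime_iff_coprime]
    refine Nat.Coprime.pow_right 2 ?_
    rw [Nat.coprime_comm]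
    refine (Nat.Prime.coprime_iff_not_dvd hp).2 fun hd => ?_
    have := Nat.le_of_dvd hs hd
    omega
  obtain ⟨a, b, hab⟩ := hcop
  -- `m ≡ a (p - r)` modulo `p²`
  have hp2 : (0 : ℤ) < ((p ^ 2 : ℕ) : ℤ) := by
    have := hp.pos
    positivity
  refine ⟨((a * (p - r)) % ((p ^ 2 : ℕ) : ℤ)).toNat, fun U V heq => ?_⟩
  have hm : ((((a * (p - r)) % ((p ^ 2 : ℕ) : ℤ)).toNat : ℕ) : ℤ) =
      (a * (p - r)) % ((p ^ 2 : ℕ) : ℤ) := Int.toNat_of_nonneg (Int.emod_nonneg _ hp2.ne')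
  rw [hm] at heq
  have hdiv := Int.emod_add_mul_ediv (a * (p - r)) ((p ^ 2 : ℕ) : ℤ)
  set t := (a * (p - r)) / ((p ^ 2 : ℕ) : ℤ) with ht
  have e1 : (s : ℤ) * ((a * (p - r)) % ((p ^ 2 : ℕ) : ℤ)) + r =
      p + ((p ^ 2 : ℕ) : ℤ) * (-(s * t) - b * (p - r)) := by
    have e2 : (a * (p - r)) % ((p ^ 2 : ℕ) : ℤ) = a * (p - r) - ((p ^ 2 : ℕ) : ℤ) * t := by linarith
    rw [e2]
    linear_combination (p - r) * hab
  rw [e1] at heq
  have hdvd : (p : ℤ) ∣ K * U ^ 2 + V ^ 2 := by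
    rw [← heq]
    refine dvd_add (dvd_refl _) (Dvd.dvd.mul_right ?_ _)
    push_cast
    exact dvd_pow_self _ (by norm_num)
  obtain ⟨⟨U', rfl⟩, ⟨V', rfl⟩⟩ := dvd_of_dvd_form K p hj U V hdvd
  have h5 : (p : ℤ) ^ 2 ∣ p := by
    have h6 : (p : ℤ) = (p : ℤ) ^ 2 * (K * U' ^ 2 + V' ^ 2 - (-(s * t) - b * (p - r))) := by
      push_cast at heq
      linear_combination heq
    exact ⟨_, h6⟩
  have h7 : p ^ 2 ∣ p := by exact_mod_cast h5
  have h8 := Nat.le_of_dvd hp.pos h7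
  have h9 := hp.two_le
  nlinarith

/-- The local obstruction. -/
theorem obstruction (a e₂ e₁ e₀ : ℚ) (ha : 0 < a) (he : 0 < e₂) (B : ℚ[X]) :
    ∃ m : ℕ, ∀ x y : ℤ, (m : ℝ) ≠ a * ((x : ℝ) - (B.map (algebraMap ℚ ℝ)).eval (y : ℝ)) ^ 2 +
      (e₂ * y ^ 2 + e₁ * y + e₀) := by
  obtain ⟨N₀, hN₀, R, hR⟩ := exists_int_multiple B
  -- a common denominator
  set N : ℕ := N₀ * (a.den * (e₂.den * (e₁.den * e₀.den))) with hN
  have hNpos : 0 < N := by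
    have h1 := a.den_pos
    have h2 := e₂.den_pos
    have h3 := e₁.den_pos
    have h4 := e₀.den_pos
    positivity
  have hmul : ∀ q : ℚ, q.den ∣ N → ∃ z : ℤ, (N : ℝ) * (q : ℝ) = z := by
    rintro q ⟨k, hk⟩
    refine ⟨k * q.num, ?_⟩
    have h1 : (q.den : ℝ) * (q : ℝ) = q.num := by
      have := Rat.den_mul_eq_num q
      exact_mod_cast this
    rw [hk]
    push_cast
    rw [← h1]; ring
  obtain ⟨za, hza⟩ := hmul a ⟨N₀ * (e₂.den * (e₁.den * e₀.den)), by rw [hN]; ring⟩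
  obtain ⟨z₂, hz₂⟩ := hmul e₂ ⟨N₀ * (a.den * (e₁.den * e₀.den)), by rw [hN]; ring⟩
  obtain ⟨z₁, hz₁⟩ := hmul e₁ ⟨N₀ * (a.den * (e₂.den * e₀.den)), by rw [hN]; ring⟩
  obtain ⟨z₀, hz₀⟩ := hmul e₀ ⟨N₀ * (a.den * (e₂.den * e₁.den)), by rw [hN]; ring⟩
  have hNr : (0 : ℝ) < N := by exact_mod_cast hNpos
  have hza0 : 0 < za := by
    have : (0 : ℝ) < za := by rw [← hza]; exact mul_pos hNr (by exact_mod_cast ha)
    exact_mod_cast this
  have hz₂0 : 0 < z₂ := by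
    have : (0 : ℝ) < z₂ := by rw [← hz₂]; exact mul_pos hNr (by exact_mod_cast he)
    exact_mod_cast this
  lift za to ℕ using hza0.le
  lift z₂ to ℕ using hz₂0.le
  have hza1 : 0 < za := by exact_mod_cast hza0
  have hz₂1 : 0 < z₂ := by exact_mod_cast hz₂0
  obtain ⟨m, hm⟩ := exists_not_form (4 * z₂ * za) (by positivity) (4 * N ^ 3 * z₂) (by positivity)
    ((N : ℤ) ^ 2 * (z₁ ^ 2 - 4 * z₂ * z₀))
  refine ⟨m, fun x y heq => ?_⟩
  -- the integer value of `N B(y)`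
  have hBy : (N₀ : ℝ) * (B.map (algebraMap ℚ ℝ)).eval (y : ℝ) = ((R.eval y : ℤ) : ℝ) := by
    have h1 := congrArg (fun p : ℝ[X] => p.eval (y : ℝ)) hR
    simp only [eval_mul, eval_C] at h1
    rw [← h1, eval_map, eval₂_at_intCast]
    simp
  set b := (B.map (algebraMap ℚ ℝ)).eval (y : ℝ) with hb
  set K₁ : ℕ := a.den * (e₂.den * (e₁.den * e₀.den)) with hK₁
  have hNb : (N : ℝ) * b = ((K₁ * R.eval y : ℤ) : ℝ) := by
    rw [hN]
    push_cast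
    rw [← hBy]
    push_cast
    rw [hK₁]
    push_cast
    ring
  refine hm (N * x - K₁ * R.eval y) (N * (2 * z₂ * y + z₁)) ?_
  have e1 : ((4 * N ^ 3 * z₂ : ℕ) : ℝ) * (m : ℝ) + (N : ℝ) ^ 2 * ((z₁ : ℝ) ^ 2 - 4 * z₂ * z₀) =
      ((4 * z₂ * za : ℕ) : ℝ) * (N * x - (K₁ * R.eval y : ℤ)) ^ 2 +
        (N * (2 * z₂ * y + z₁)) ^ 2 := by
    rw [← hNb]
    push_cast
    push_cast at hza hz₂
    rw [← hza, ← hz₂, ← hz₁, ← hz₀, heq]
    ring
  have e2 : (((((4 * N ^ 3 * z₂ : ℕ) : ℤ) * (m : ℤ) + (N : ℤ) ^ 2 * (z₁ ^ 2 - 4 * z₂ * z₀) : ℤ)) : ℝ) =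
      (((((4 * z₂ * za : ℕ) : ℤ) * (N * x - K₁ * R.eval y) ^ 2 +
        (N * (2 * z₂ * y + z₁)) ^ 2 : ℤ)) : ℝ) := by
    push_cast
    push_cast at e1
    linarith
  exact_mod_cast e2

end Pool.Agent.Pack
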