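import Pool.Agent.Pack.RatMain
import Pool.Agent.Pack.Quad

/-!
# Rational directions: the case of a constant coefficient of `x²`
-/

set_option autoImplicit false

open Polynomial Finset Filter Topology

namespace Pool.Agent.Pack

namespace Loc

variable {d : ℕ} {c : ℕ → ℕ → ℝ} {η : ℝ}

theorem ev_quad (hd : 2 ≤ d) (hDmax : ∀ i j, 2 < i → c i j = 0) {a : ℝ} (ha : a ≠ 0)
    (ha2 : row d c 2 = C a) (x y : ℝ) :
    ev d c x y = a * (x - (-(C (1 / (2 * a)) * row d c 1)).eval y) ^ 2 +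
      (row d c 0 - C (1 / (4 * a)) * (row d c 1) ^ 2).eval y := by
  have h1 : (hor d c y).natDegree < 3 :=
    lt_of_le_of_lt (hor_natDegree_le (D := 2) (fun i hi =>
      row_eq_zero (fun j => hDmax i j (by omega))) y) (by norm_num)
  rw [← hor_eval, eval_eq_sum_range' h1, Finset.sum_range_succ, Finset.sum_range_succ,
    Finset.sum_range_one, hor_coeff, hor_coeff, hor_coeff, if_pos (by omega), if_pos (by omega),
    if_pos (by omega), ha2]
  simp only [eval_neg, eval_mul, eval_C, eval_sub, eval_pow]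
  field_simp
  ring

/-- The case of a thin neighbourhood. -/
theorem deg2_thin (h : Loc d c η) (hDmax : ∀ i j, 2 < i → c i j = 0) {a : ℝ} (ha : 0 < a)
    (ha2 : row d c 2 = C a) (C₁ : ℝ)
    (hB : ∀ y : ℕ, (-(C (1 / (2 * a)) * row d c 1)).eval (y : ℝ) ≤ C₁ * (1 + y))
    (ε : ℝ) (hε : 0 < ε) :
    ∃ η' : ℝ, 0 < η' ∧ η' ≤ η ∧ ∀ᶠ n : ℕ in atTop,
      {v : ℤ × ℤ | v ∈ HC η' ∧ ev d c v.1 v.2 ≤ n}.Finite ∧
      (({v : ℤ × ℤ | v ∈ HC η' ∧ ev d c v.1 v.2 ≤ n}.ncard : ℕ) : ℝ) ≤ ε * n := by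
  classical
  have hd := h.hd
  have hη := h.hη
  set K : ℝ := max C₁ 1 with hK
  have hK1 : 1 ≤ K := le_max_right _ _
  set η' : ℝ := min (min (η / 4) (1 / (8 * K))) (ε * a / 16) with hη'
  have hη'0 : 0 < η' := by
    refine lt_min (lt_min (by linarith) (by positivity)) (by positivity)
  have hη'1 : η' ≤ η / 4 := (min_le_left _ _).trans (min_le_left _ _)
  have hη'2 : η' ≤ 1 / (8 * K) := (min_le_left _ _).trans (min_le_right _ _)
  have hη'3 : η' ≤ ε * a / 16 := min_le_right _ _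
  refine ⟨η', hη'0, by linarith, ?_⟩
  have hq := ev_quad (by omega) hDmax ha.ne' ha2
  set B := -(C (1 / (2 * a)) * row d c 1) with hBdef
  set E := row d c 0 - C (1 / (4 * a)) * (row d c 1) ^ 2 with hEdef
  have hlow : ∀ v ∈ HC η', 8 * K ≤ (v.1 : ℝ) → a / 4 * (v.1 : ℝ) ^ 2 ≤ ev d c v.1 v.2 := by
    rintro ⟨x, y⟩ ⟨hx0, hy0, hyx⟩ hx
    simp only at hx0 hy0 hyx hx ⊢
    lift y to ℕ using hy0
    rw [Int.cast_natCast] at *
    have hxr : (0 : ℝ) < x := by exact_mod_cast hx0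
    set x₀ : ℕ := ⌈(y : ℝ) / η⌉₊ + 1 with hx₀
    have hx₀1 : (y : ℝ) / η ≤ x₀ := by
      rw [hx₀]; push_cast; linarith [Nat.le_ceil ((y : ℝ) / η)]
    have hx₀2 : (x₀ : ℝ) ≤ (y : ℝ) / η + 2 := by
      rw [hx₀]; push_cast; linarith [Nat.ceil_lt_add_one (a := (y : ℝ) / η) (by positivity)]
    have hmem : (((x₀ : ℤ), (y : ℤ)) : ℤ × ℤ) ∈ HC η :=
      mem_HC hη (by positivity) (by positivity) (by exact_mod_cast hx₀1)
    have h0 := h.nonneg hmem
    simp only [Int.cast_natCast] at h0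
    rw [hq] at h0
    rw [hq]
    have hBy := hB y
    have hBK : B.eval (y : ℝ) ≤ K * (1 + y) := by
      refine hBy.trans ?_
      exact mul_le_mul_of_nonneg_right (le_max_left _ _) (by positivity)
    have h1 : (y : ℝ) / η ≤ x / 4 := by
      rw [div_le_iff₀ hη]
      nlinarith
    have h2 : K * y ≤ x / 8 := by
      have h3 : K * η' ≤ 1 / 8 := by
        have : K * η' ≤ K * (1 / (8 * K)) := mul_le_mul_of_nonneg_left hη'2 (by linarith)
        refine this.trans (le_of_eq ?_)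
        field_simp
      nlinarith
    have h4 : x / 2 ≤ (x : ℝ) - x₀ := by nlinarith
    have h5 : (x : ℝ) / 2 ≤ x + x₀ - 2 * B.eval (y : ℝ) := by
      have : (0 : ℝ) ≤ x₀ := by positivity
      nlinarith
    have h6 : (x : ℝ) / 2 * (x / 2) ≤ (x - x₀) * (x + x₀ - 2 * B.eval (y : ℝ)) :=
      mul_le_mul h4 h5 (by positivity) (by linarith)
    nlinarith
  have hsm := rpow_small (2 * (8 * K + 2 / Real.sqrt a) + 128 * K ^ 2 * η') (1 / 2) (by norm_num) (ε / 2)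
    (by linarith)
  filter_upwards [hsm, eventually_ge_atTop 1] with n hn hn1
  have hn1r : (1 : ℝ) ≤ n := by exact_mod_cast hn1
  have hsa : 0 < Real.sqrt a := Real.sqrt_pos.2 ha
  set R : ℝ := 8 * K + 2 * Real.sqrt n / Real.sqrt a with hR
  have hsn : 1 ≤ Real.sqrt n := Real.one_le_sqrt.2 hn1r
  have hR0 : 0 ≤ R := by positivity
  have key := ncard_le_sum_fst {v : ℤ × ℤ | v ∈ HC η' ∧ ev d c v.1 v.2 ≤ n}
    (Finset.Icc 1 ⌊R⌋) (fun _ => η' * R + 1)
    (by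
      rintro ⟨x, y⟩ ⟨hv, hn⟩
      have hx0 := hv.1
      simp only at hx0
      rw [Finset.mem_Icc]
      refine ⟨by simp only; omega, Int.le_floor.2 ?_⟩
      by_cases hx : 8 * K ≤ (x : ℝ)
      · have h1 := hlow _ hv hx
        simp only at h1 hn
        have h2 : (x : ℝ) ^ 2 ≤ (2 * Real.sqrt n / Real.sqrt a) ^ 2 := by
          rw [div_pow, mul_pow, Real.sq_sqrt (by positivity), Real.sq_sqrt ha.le,
            le_div_iff₀ ha]
          nlinarith
        have h3 := abs_le_of_sq_le_sq h2 (by positivity)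
        have h4 := (le_abs_self (x : ℝ)).trans h3
        simp only
        linarith
      · push Not at hx
        simp only
        have : 0 ≤ 2 * Real.sqrt n / Real.sqrt a := by positivity
        linarith)
    (fun x hx S hS => by
      rw [Finset.mem_Icc] at hx
      have hxR : (x : ℝ) ≤ R := Int.le_floor.1 hx.2
      have hx1 : (1 : ℝ) ≤ x := by exact_mod_cast hx.1
      have h1 := card_le_of_mem_Icc S 0 (η' * R) (fun y hy => by
        have h2 := (hS y hy).1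
        have h3 : (0 : ℤ) ≤ y := h2.2.1
        have h4 := h2.2.2
        simp only at h4
        refine ⟨by exact_mod_cast h3, h4.trans ?_⟩
        exact mul_le_mul_of_nonneg_left hxR hη'0.le) (by positivity)
      linarith)
  refine ⟨key.1, key.2.trans ?_⟩
  rw [Finset.sum_const, nsmul_eq_mul, Int.card_Icc]
  have h5 : (((⌊R⌋ + 1 - 1 : ℤ).toNat : ℕ) : ℝ) ≤ R := by
    have h6 : (0 : ℤ) ≤ ⌊R⌋ + 1 - 1 := by
      have : (0 : ℤ) ≤ ⌊R⌋ := Int.floor_nonneg.2 hR0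
      omega
    have h7 : ((((⌊R⌋ + 1 - 1 : ℤ).toNat : ℤ)) : ℝ) = ((⌊R⌋ + 1 - 1 : ℤ) : ℝ) := by
      rw [Int.toNat_of_nonneg h6]
    rw [← Int.cast_natCast, h7]
    push_cast
    linarith [Int.floor_le R]
  have h8 : (((⌊R⌋ + 1 - 1 : ℤ).toNat : ℕ) : ℝ) * (η' * R + 1) ≤ R * (η' * R + 1) :=
    mul_le_mul_of_nonneg_right h5 (by positivity)
  refine h8.trans ?_
  rw [← Real.sqrt_eq_rpow] at hn
  have h9 : R ≤ (8 * K + 2 / Real.sqrt a) * Real.sqrt n := by
    rw [hR, add_mul]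
    have : 2 * Real.sqrt n / Real.sqrt a = 2 / Real.sqrt a * Real.sqrt n := by ring
    rw [this]
    nlinarith
  have h10 : R ^ 2 ≤ 128 * K ^ 2 + 8 * n / a := by
    have h11 : (2 * Real.sqrt n / Real.sqrt a) ^ 2 = 4 * n / a := by
      rw [div_pow, mul_pow, Real.sq_sqrt (by positivity), Real.sq_sqrt ha.le]; norm_num
    have h12 : R ^ 2 ≤ 2 * (8 * K) ^ 2 + 2 * (2 * Real.sqrt n / Real.sqrt a) ^ 2 := by
      rw [hR]
      nlinarith [sq_nonneg (8 * K - 2 * Real.sqrt n / Real.sqrt a)]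
    rw [h11] at h12
    have : 2 * (4 * (n : ℝ) / a) = 8 * n / a := by ring
    nlinarith
  have h13 : η' * (8 * n / a) ≤ ε / 2 * n := by
    have h14 : η' * (8 * n / a) ≤ ε * a / 16 * (8 * n / a) :=
      mul_le_mul_of_nonneg_right hη'3 (by positivity)
    refine h14.trans (le_of_eq ?_)
    field_simp
    norm_num
  have h15 : R * (η' * R + 1) = η' * R ^ 2 + R := by ring
  rw [h15]
  have h16 : η' * R ^ 2 ≤ η' * (128 * K ^ 2) + η' * (8 * n / a) := by
    rw [← mul_add]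
    exact mul_le_mul_of_nonneg_left h10 hη'0.le
  have h17 : 0 ≤ 128 * K ^ 2 * η' := by positivity
  have h18 : 0 ≤ (8 * K + 2 / Real.sqrt a) := by positivity
  have h19 : 128 * K ^ 2 * η' ≤ 128 * K ^ 2 * η' * Real.sqrt n := by nlinarith
  have h20 : 0 ≤ (8 * K + 2 / Real.sqrt a) * Real.sqrt n := by positivity
  nlinarith

/-- The values on the axis force `a > 0`. -/
theorem deg2_pos (h : Loc d c η) (hDmax : ∀ i j, 2 < i → c i j = 0) {a : ℝ} (ha : a ≠ 0)
    (ha2 : row d c 2 = C a) : 0 < a := by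
  by_contra hneg
  push Not at hneg
  have hlt : a < 0 := lt_of_le_of_ne hneg ha
  have hd := h.hd
  have hq := ev_quad (by omega) hDmax ha ha2
  set B := -(C (1 / (2 * a)) * row d c 1) with hBdef
  set E := row d c 0 - C (1 / (4 * a)) * (row d c 1) ^ 2 with hEdef
  obtain ⟨n, hn⟩ := exists_nat_gt (B.eval 0 + 1 + |E.eval 0| / (-a))
  obtain ⟨n', hn', hn1⟩ : ∃ n' : ℕ, n ≤ n' ∧ 1 ≤ n' := ⟨n + 1, by omega, by omega⟩
  have hn2 : (n : ℝ) ≤ n' := by exact_mod_cast hn'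
  have h1 := h.nonneg (v := ((n' : ℤ), 0)) (mem_HC h.hη le_rfl (by exact_mod_cast hn1) (by simp))
  simp only [Int.cast_natCast, Int.cast_zero] at h1
  rw [hq] at h1
  have h2 : 0 ≤ |E.eval 0| / (-a) := div_nonneg (abs_nonneg _) (by linarith)
  have h3 : 1 + |E.eval 0| / (-a) ≤ (n' : ℝ) - B.eval 0 := by linarith
  have h4 : 1 + |E.eval 0| / (-a) ≤ ((n' : ℝ) - B.eval 0) ^ 2 := by nlinarith
  have h5 : (-a) * (1 + |E.eval 0| / (-a)) = -a + |E.eval 0| := by
    have h50 : (-a) ≠ 0 := by linarith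
    rw [mul_add, mul_one, ← mul_div_assoc, mul_div_cancel_left₀ _ h50]
  have h6 : (-a) * (1 + |E.eval 0| / (-a)) ≤ (-a) * ((n' : ℝ) - B.eval 0) ^ 2 :=
    mul_le_mul_of_nonneg_left h4 (by linarith)
  have h7 := le_abs_self (E.eval 0)
  nlinarith


/-- The parabola has its vertices in the half cone. -/
theorem deg2_wide (h : Loc d c η) (hDmax : ∀ i j, 2 < i → c i j = 0) {a : ℝ} (ha : 0 < a)
    (ha2 : row d c 2 = C a)
    (hB : ¬ ∃ C₁ : ℝ, ∀ y : ℕ, (-(C (1 / (2 * a)) * row d c 1)).eval (y : ℝ) ≤ C₁ * (1 + y))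
    {c₀ C₀ : ℝ} (hc₀ : 0 < c₀) (hgrow : ∀ v ∈ HC η, c₀ * v.1 - C₀ ≤ ev d c v.1 v.2)
    (hsurj : ∀ m : ℕ, ∃ x y : ℤ, ev d c x y = m)
    (ε : ℝ) (hε : 0 < ε) :
    ∀ᶠ n : ℕ in atTop,
      {v : ℤ × ℤ | v ∈ HC η ∧ ev d c v.1 v.2 ≤ n}.Finite ∧
      (({v : ℤ × ℤ | v ∈ HC η ∧ ev d c v.1 v.2 ≤ n}.ncard : ℕ) : ℝ) ≤ ε * n := by
  classical
  have hd := h.hd
  have hη := h.hη
  have hq := ev_quad (by omega) hDmax ha.ne' ha2
  -- rational coefficients
  obtain ⟨q₂, hq₂⟩ := h.row_rat 2 (by omega)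
  obtain ⟨q₁, hq₁⟩ := h.row_rat 1 (by omega)
  obtain ⟨q₀, hq₀⟩ := h.row_rat 0 (by omega)
  set aq : ℚ := q₂.coeff 0 with haq
  have haqr : ((aq : ℚ) : ℝ) = a := by
    have h1 := congrArg (fun p : ℝ[X] => p.coeff 0) (hq₂.trans ha2)
    simp only [coeff_map, coeff_C_zero] at h1
    exact h1
  set Bq : ℚ[X] := -(C (1 / (2 * aq)) * q₁) with hBq
  set Eq : ℚ[X] := q₀ - C (1 / (4 * aq)) * q₁ ^ 2 with hEq
  have hBmap : Bq.map (algebraMap ℚ ℝ) = -(C (1 / (2 * a)) * row d c 1) := by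
    rw [hBq, Polynomial.map_neg, Polynomial.map_mul, hq₁, Polynomial.map_C, ← haqr]
    simp
  have hEmap : Eq.map (algebraMap ℚ ℝ) = row d c 0 - C (1 / (4 * a)) * (row d c 1) ^ 2 := by
    rw [hEq, Polynomial.map_sub, Polynomial.map_mul, Polynomial.map_pow, hq₁, hq₀,
      Polynomial.map_C, ← haqr]
    simp
  set B := -(C (1 / (2 * a)) * row d c 1) with hBdef
  set E := row d c 0 - C (1 / (4 * a)) * (row d c 1) ^ 2 with hEdef
  -- the degree of `B`
  have hBdeg : 2 ≤ B.natDegree := by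
    by_contra hcon
    push Not at hcon
    apply hB
    refine ⟨|B.coeff 1| + |B.coeff 0|, fun y => ?_⟩
    rw [eval_eq_sum_range' hcon, Finset.sum_range_succ, Finset.sum_range_one, pow_zero, pow_one]
    have h1 := le_abs_self (B.coeff 1)
    have h2 := le_abs_self (B.coeff 0)
    have h3 := abs_nonneg (B.coeff 1)
    have h4 := abs_nonneg (B.coeff 0)
    have h5 : (0 : ℝ) ≤ y := by positivity
    nlinarith
  have hBdeg' : (1 : WithBot ℕ) < B.degree := by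
    have hne : B ≠ 0 := by rintro h0; rw [h0] at hBdeg; simp at hBdeg
    rw [degree_eq_natDegree hne]
    exact_mod_cast hBdeg
  have hBlc : 0 < B.leadingCoeff := by
    by_contra hcon
    push Not at hcon
    apply hB
    have h1 := B.tendsto_atBot_of_leadingCoeff_nonpos (lt_trans (by norm_num) hBdeg') hcon
    have h2 := h1.comp tendsto_natCast_atTop_atTop
    obtain ⟨Y, hY⟩ := eventually_atTop.1 (h2.eventually (eventually_le_atBot (0 : ℝ)))
    refine ⟨∑ y ∈ range Y, |B.eval (y : ℝ)|, fun y => ?_⟩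
    have hs0 : 0 ≤ ∑ y ∈ range Y, |B.eval (y : ℝ)| := by positivity
    have hy0 : (0 : ℝ) ≤ y := by positivity
    rcases le_or_gt Y y with hle | hlt
    · have h3 := hY y hle
      simp only [Function.comp_apply] at h3
      nlinarith
    · have h3 : |B.eval (y : ℝ)| ≤ ∑ y ∈ range Y, |B.eval (y : ℝ)| :=
        Finset.single_le_sum (f := fun y : ℕ => |B.eval (y : ℝ)|) (fun i _ => abs_nonneg _)
          (Finset.mem_range.2 hlt)
      have h4 := le_abs_self (B.eval (y : ℝ))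
      nlinarith
  -- `B` is above the boundary of the half cone
  have hBbig : ∀ᶠ y : ℕ in atTop, (y : ℝ) / η + 1 ≤ B.eval (y : ℝ) := by
    have hdeg1 : (C (1 / η) * X + C 1 : ℝ[X]).degree < B.degree :=
      lt_of_le_of_lt degree_linear_le hBdeg'
    have h1 : (B - (C (1 / η) * X + C 1)).degree = B.degree := degree_sub_eq_left_of_degree_lt hdeg1
    have h2 : (B - (C (1 / η) * X + C 1)).leadingCoeff = B.leadingCoeff :=
      leadingCoeff_sub_of_degree_lt hdeg1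
    have h3 := (B - (C (1 / η) * X + C 1)).tendsto_atTop_of_leadingCoeff_nonneg
      (by rw [h1]; exact lt_trans (by norm_num) hBdeg') (by rw [h2]; exact hBlc.le)
    have h4 := h3.comp tendsto_natCast_atTop_atTop
    filter_upwards [h4.eventually (eventually_ge_atTop (0 : ℝ))] with y hy
    simp only [Function.comp_apply, eval_sub, eval_add, eval_mul, eval_C, eval_X] at hy
    have : 1 / η * (y : ℝ) = y / η := by ring
    rw [this] at hy
    linarith
  have hElow : ∀ᶠ y : ℕ in atTop, c₀ * B.eval (y : ℝ) - C₀ - a ≤ E.eval (y : ℝ) := by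
    filter_upwards [hBbig] with y hy
    have hBy0 : 0 ≤ B.eval (y : ℝ) := le_trans (by positivity) hy
    set x : ℕ := ⌈B.eval (y : ℝ)⌉₊ with hx
    have hx1 : B.eval (y : ℝ) ≤ x := Nat.le_ceil _
    have hx2 : (x : ℝ) < B.eval (y : ℝ) + 1 := Nat.ceil_lt_add_one hBy0
    have hxpos : (0 : ℝ) < x := by
      have : 0 ≤ (y : ℝ) / η := by positivity
      linarith
    have hmem : (((x : ℤ), (y : ℤ)) : ℤ × ℤ) ∈ HC η :=
      mem_HC hη (by positivity) (by exact_mod_cast hxpos) (by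
        simp only [Int.cast_natCast]; linarith)
    have h1 := hgrow _ hmem
    simp only [Int.cast_natCast] at h1
    rw [hq] at h1
    have h2 : ((x : ℝ) - B.eval (y : ℝ)) ^ 2 ≤ 1 := by nlinarith
    nlinarith
  have hBnat : Tendsto (fun y : ℕ => B.eval (y : ℝ)) atTop atTop :=
    (B.tendsto_atTop_of_leadingCoeff_nonneg (lt_trans (by norm_num) hBdeg') hBlc.le).comp
      tendsto_natCast_atTop_atTop
  have hEtop : Tendsto (fun y : ℕ => E.eval (y : ℝ)) atTop atTop := by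
    refine tendsto_atTop_mono' atTop hElow ?_
    have h1 : Tendsto (fun y : ℕ => c₀ * B.eval (y : ℝ)) atTop atTop := hBnat.const_mul_atTop hc₀
    have h2 : Tendsto (fun y : ℕ => c₀ * B.eval (y : ℝ) + (-C₀ - a)) atTop atTop :=
      tendsto_atTop_add_const_right _ _ h1
    refine h2.congr fun y => by ring
  have hEne : E ≠ 0 := by
    intro h0
    rw [h0] at hEtop
    simp only [eval_zero] at hEtop
    exact not_tendsto_const_atTop _ _ hEtop
  have hdegle : B.natDegree ≤ E.natDegree := by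
    by_contra hcon
    push Not at hcon
    have hlt : E.degree < (C c₀ * B).degree := by
      rw [degree_C_mul hc₀.ne']
      exact degree_lt_degree hcon
    have h1 : (E - C c₀ * B).degree = (C c₀ * B).degree := degree_sub_eq_right_of_degree_lt hlt
    have h2 : (E - C c₀ * B).leadingCoeff = -(c₀ * B.leadingCoeff) := by
      rw [leadingCoeff_sub_of_degree_lt' hlt, leadingCoeff_mul, leadingCoeff_C]
    have h3 := (E - C c₀ * B).tendsto_atBot_of_leadingCoeff_nonpos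
      (by rw [h1, degree_C_mul hc₀.ne']; exact lt_trans (by norm_num) hBdeg')
      (by rw [h2]; nlinarith)
    have h4 := h3.comp tendsto_natCast_atTop_atTop
    obtain ⟨y, hy1, hy2⟩ := ((h4.eventually (eventually_lt_atBot (-C₀ - a))).and hElow).exists
    simp only [Function.comp_apply, eval_sub, eval_mul, eval_C] at hy1
    linarith
  have hElc : 0 < E.leadingCoeff := by
    by_contra hcon
    push Not at hcon
    have hdeg : 0 < E.degree := by
      rw [degree_eq_natDegree hEne]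
      exact_mod_cast (by omega : 0 < E.natDegree)
    have h1 := (E.tendsto_atBot_of_leadingCoeff_nonpos hdeg hcon).comp
      tendsto_natCast_atTop_atTop
    obtain ⟨y, hy1, hy2⟩ := ((h1.eventually (eventually_lt_atBot (0 : ℝ))).and
      (hEtop.eventually (eventually_ge_atTop 0))).exists
    simp only [Function.comp_apply] at hy1
    linarith
  -- the quadratic case is excluded by the local obstruction
  have hE3 : 3 ≤ E.natDegree := by
    by_contra hcon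
    have hE2 : E.natDegree = 2 := by omega
    obtain ⟨m, hm⟩ := obstruction aq (Eq.coeff 2) (Eq.coeff 1) (Eq.coeff 0)
      (by
        have : (0 : ℝ) < aq := by rw [haqr]; exact ha
        exact_mod_cast this)
      (by
        have h1 : E.leadingCoeff = ((Eq.coeff 2 : ℚ) : ℝ) := by
          rw [leadingCoeff, hE2, ← hEmap, coeff_map]; rfl
        rw [h1] at hElc
        exact_mod_cast hElc) Bq
    obtain ⟨x, y, hxy⟩ := hsurj m
    apply hm x y
    rw [← hxy, hq, hBmap, haqr]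
    congr 1
    rw [eval_eq_sum_range' (by omega : E.natDegree < 3), Finset.sum_range_succ,
      Finset.sum_range_succ, Finset.sum_range_one, ← hEmap]
    simp only [coeff_map, pow_zero, pow_one, mul_one, eq_ratCast]
    ring
  -- counting
  obtain ⟨C₃, hC₃, Y₂, hY₂⟩ : ∃ C₃ > 0, ∃ Y₂ : ℕ, ∀ y : ℕ, Y₂ ≤ y →
      (y : ℝ) ^ 3 ≤ C₃ * E.eval (y : ℝ) := by
    have h1 : (X ^ 3 : ℝ[X]).degree ≤ E.degree := by
      rw [degree_X_pow, degree_eq_natDegree hEne]
      exact_mod_cast hE3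
    have h2 := (isBigO_atTop_of_degree_le (X ^ 3 : ℝ[X]) E h1).comp_tendsto
      tendsto_natCast_atTop_atTop
    obtain ⟨C₁, hC₁, hb⟩ := h2.exists_pos
    rw [Asymptotics.IsBigOWith] at hb
    obtain ⟨Y, hY⟩ := eventually_atTop.1 (hb.and (hEtop.eventually (eventually_ge_atTop 0)))
    refine ⟨C₁, hC₁, Y, fun y hy => ?_⟩
    obtain ⟨h3, h4⟩ := hY y hy
    simp only [Function.comp_apply, eval_pow, eval_X, Real.norm_eq_abs] at h3
    rw [abs_of_nonneg h4, abs_of_nonneg (by positivity)] at h3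
    exact h3
  have hbound : ∀ n : ℕ, 1 ≤ n → ∀ v ∈ HC η, ev d c v.1 v.2 ≤ n →
      (v.2 : ℝ) ≤ (Y₂ + C₃ ^ ((1 : ℝ) / 3)) * (n : ℝ) ^ ((1 : ℝ) / 3) := by
    rintro n hn ⟨x, y⟩ ⟨_, hy0, _⟩ hle
    simp only at hy0 hle ⊢
    lift y to ℕ using hy0
    rw [Int.cast_natCast] at *
    have hn1 : (1 : ℝ) ≤ (n : ℝ) ^ ((1 : ℝ) / 3) :=
      Real.one_le_rpow (by exact_mod_cast hn) (by norm_num)
    have hC3' : 0 ≤ C₃ ^ ((1 : ℝ) / 3) := by positivity
    rcases le_or_gt Y₂ y with hle2 | hlt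
    · have h1 := hY₂ y hle2
      rw [hq] at hle
      have h2 : E.eval (y : ℝ) ≤ n := by nlinarith [sq_nonneg ((x : ℝ) - B.eval (y : ℝ))]
      have h3 : (y : ℝ) ^ 3 ≤ C₃ * n := h1.trans (mul_le_mul_of_nonneg_left h2 hC₃.le)
      have h4 : (y : ℝ) ≤ (C₃ * n) ^ ((1 : ℝ) / 3) := by
        have h5 : ((y : ℝ) ^ 3) ^ ((1 : ℝ) / 3) ≤ (C₃ * n) ^ ((1 : ℝ) / 3) :=
          Real.rpow_le_rpow (by positivity) h3 (by norm_num)
        rwa [← Real.rpow_natCast, ← Real.rpow_mul (by positivity), Nat.cast_ofNat,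
          mul_one_div_cancel (by norm_num), Real.rpow_one] at h5
      rw [Real.mul_rpow hC₃.le (by positivity)] at h4
      have h6 : 0 ≤ (Y₂ : ℝ) * (n : ℝ) ^ ((1 : ℝ) / 3) := by positivity
      linarith
    · have h1 : (y : ℝ) ≤ Y₂ := by exact_mod_cast hlt.le
      have h6 : 0 ≤ C₃ ^ ((1 : ℝ) / 3) * (n : ℝ) ^ ((1 : ℝ) / 3) := by positivity
      have h7 : (Y₂ : ℝ) ≤ (Y₂ : ℝ) * (n : ℝ) ^ ((1 : ℝ) / 3) := by
        have : (0 : ℝ) ≤ Y₂ := by positivity
        nlinarith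
      linarith
  set K₁ : ℝ := Y₂ + C₃ ^ ((1 : ℝ) / 3) + 1 with hK₁
  have hK₁0 : 0 ≤ K₁ := by positivity
  filter_upwards [rpow_small (K₁ * (2 ^ d * (1 + (2 ^ d : ℝ) ^ ((1 : ℝ) / 2)))) (5 / 6)
    (by norm_num) ε hε, eventually_ge_atTop 1] with n hsm hn
  have hn1 : (1 : ℝ) ≤ n := by exact_mod_cast hn
  set R : ℝ := (Y₂ + C₃ ^ ((1 : ℝ) / 3)) * (n : ℝ) ^ ((1 : ℝ) / 3) with hR
  have hR0 : 0 ≤ R := by positivity
  have hn3 : (1 : ℝ) ≤ (n : ℝ) ^ ((1 : ℝ) / 3) := Real.one_le_rpow hn1 (by norm_num)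
  have hn2 : (1 : ℝ) ≤ (n : ℝ) ^ ((1 : ℝ) / 2) := Real.one_le_rpow hn1 (by norm_num)
  have key := ncard_le_sum_snd {v : ℤ × ℤ | v ∈ HC η ∧ ev d c v.1 v.2 ≤ n}
    (Finset.Icc 0 ⌊R⌋) (fun _ => 2 ^ d * (1 + (2 ^ d * (n : ℝ)) ^ ((1 : ℝ) / 2)))
    (by
      rintro ⟨x, y⟩ ⟨hv, hle⟩
      rw [Finset.mem_Icc]
      exact ⟨hv.2.1, Int.le_floor.2 (hbound n hn _ hv hle)⟩)
    (fun y hy S hS => by
      rw [Finset.mem_Icc] at hy
      refine h.line_sqrt hy.1 ?_ hn1 S (fun x hx => hS x hx)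
      have h1 : (hor d c (y : ℝ)).coeff 2 ≠ 0 := by
        rw [hor_coeff, if_pos (by omega), ha2, eval_C]
        exact ha.ne'
      have h2 := le_natDegree_of_ne_zero h1
      omega)
  refine ⟨key.1, key.2.trans ?_⟩
  rw [Finset.sum_const, nsmul_eq_mul, Int.card_Icc]
  have h5 : (((⌊R⌋ + 1 - 0 : ℤ).toNat : ℕ) : ℝ) ≤ R + 1 := by
    have h6 : (0 : ℤ) ≤ ⌊R⌋ + 1 - 0 := by
      have : (0 : ℤ) ≤ ⌊R⌋ := Int.floor_nonneg.2 hR0
      omega
    have h7 : ((((⌊R⌋ + 1 - 0 : ℤ).toNat : ℤ)) : ℝ) = ((⌊R⌋ + 1 - 0 : ℤ) : ℝ) := by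
      rw [Int.toNat_of_nonneg h6]
    rw [← Int.cast_natCast, h7]
    push_cast
    linarith [Int.floor_le R]
  have h8 : R + 1 ≤ K₁ * (n : ℝ) ^ ((1 : ℝ) / 3) := by
    rw [hR, hK₁]; nlinarith
  have h9 : 2 ^ d * (1 + (2 ^ d * (n : ℝ)) ^ ((1 : ℝ) / 2)) ≤
      (2 ^ d * (1 + (2 ^ d : ℝ) ^ ((1 : ℝ) / 2))) * (n : ℝ) ^ ((1 : ℝ) / 2) := by
    rw [Real.mul_rpow (by positivity) (by positivity), mul_assoc]
    refine mul_le_mul_of_nonneg_left ?_ (by positivity)
    rw [add_mul, one_mul]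
    linarith
  have h10 : (n : ℝ) ^ ((1 : ℝ) / 3) * (n : ℝ) ^ ((1 : ℝ) / 2) = (n : ℝ) ^ ((5 : ℝ) / 6) := by
    rw [← Real.rpow_add (by linarith)]; norm_num
  calc (((⌊R⌋ + 1 - 0 : ℤ).toNat : ℕ) : ℝ) * (2 ^ d * (1 + (2 ^ d * (n : ℝ)) ^ ((1 : ℝ) / 2)))
      ≤ (K₁ * (n : ℝ) ^ ((1 : ℝ) / 3)) *
        ((2 ^ d * (1 + (2 ^ d : ℝ) ^ ((1 : ℝ) / 2))) * (n : ℝ) ^ ((1 : ℝ) / 2)) :=
        mul_le_mul (h5.trans h8) h9 (by positivity) (by positivity)
    _ = (K₁ * (2 ^ d * (1 + (2 ^ d : ℝ) ^ ((1 : ℝ) / 2)))) *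
        ((n : ℝ) ^ ((1 : ℝ) / 3) * (n : ℝ) ^ ((1 : ℝ) / 2)) := by ring
    _ ≤ ε * n := by rw [h10]; exact hsm

/-- The points off the affine lines are negligible near a rational direction. -/
theorem negl (h : Loc d c η)
    {c₀ C₀ : ℝ} (hc₀ : 0 < c₀) (hgrow : ∀ v ∈ HC η, c₀ * v.1 - C₀ ≤ ev d c v.1 v.2)
    (hsurj : ∀ m : ℕ, ∃ x y : ℤ, ev d c x y = m)
    (ε : ℝ) (hε : 0 < ε) :
    ∃ η' : ℝ, 0 < η' ∧ η' ≤ η ∧ ∀ᶠ n : ℕ in atTop,
      {v : ℤ × ℤ | v ∈ HC η' ∧ (hor d c (v.2 : ℝ)).natDegree ≠ 1 ∧ ev d c v.1 v.2 ≤ n}.Finite ∧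
      (({v : ℤ × ℤ | v ∈ HC η' ∧ (hor d c (v.2 : ℝ)).natDegree ≠ 1 ∧
        ev d c v.1 v.2 ≤ n}.ncard : ℕ) : ℝ) ≤ ε * n := by
  have hη := h.hη
  obtain ⟨D, hDd, hDne, hDmax⟩ := h.exists_D
  have hD2 := h.two_le_D hDmax
  by_cases hcase : 3 ≤ D ∨ 1 ≤ (row d c D).natDegree
  · exact ⟨η / 2, by linarith, by linarith,
      h.negl_main hD2 hDd hDne hDmax hcase hc₀ hgrow ε hε⟩
  · push Not at hcase
    have hDeq : D = 2 := by omega
    subst hDeq
    obtain ⟨a, ha2⟩ := natDegree_eq_zero.1 (by omega : (row d c 2).natDegree = 0)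
    have ha : a ≠ 0 := by
      rintro rfl
      obtain ⟨j, hj⟩ := hDne
      have h1 := row_coeff d c 2 j
      rw [← ha2, map_zero, coeff_zero] at h1
      by_cases hjd : j ≤ d
      · rw [if_pos hjd] at h1; exact hj h1.symm
      · exact hj (h.hc 2 j (by omega))
    have hapos := h.deg2_pos hDmax ha ha2.symm
    have hsub : ∀ (ρ : ℝ) (n : ℕ), {v : ℤ × ℤ | v ∈ HC ρ ∧ (hor d c (v.2 : ℝ)).natDegree ≠ 1 ∧
        ev d c v.1 v.2 ≤ n} ⊆ {v : ℤ × ℤ | v ∈ HC ρ ∧ ev d c v.1 v.2 ≤ n} :=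
      fun ρ n v hv => ⟨hv.1, hv.2.2⟩
    by_cases hB : ∃ C₁ : ℝ, ∀ y : ℕ,
        (-(C (1 / (2 * a)) * row d c 1)).eval (y : ℝ) ≤ C₁ * (1 + y)
    · obtain ⟨C₁, hC₁⟩ := hB
      obtain ⟨η', h1, h2, h3⟩ := h.deg2_thin hDmax hapos ha2.symm C₁ hC₁ ε hε
      refine ⟨η', h1, h2, ?_⟩
      filter_upwards [h3] with n hn
      refine ⟨hn.1.subset (hsub η' n), le_trans ?_ hn.2⟩
      exact_mod_cast Set.ncard_le_ncard (hsub η' n) hn.1
    · refine ⟨η, hη, le_rfl, ?_⟩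
      filter_upwards [h.deg2_wide hDmax hapos ha2.symm hB hc₀ hgrow hsurj ε hε] with n hn
      refine ⟨hn.1.subset (hsub η n), le_trans ?_ hn.2⟩
      exact_mod_cast Set.ncard_le_ncard (hsub η n) hn.1

/-- There are finitely many affine lines. -/
theorem finite_affine (h : Loc d c η) : {y : ℕ | (hor d c (y : ℝ)).natDegree = 1}.Finite := by
  classical
  obtain ⟨D, hDd, hDne, hDmax⟩ := h.exists_D
  have hD2 := h.two_le_D hDmax
  have hrow : row d c D ≠ 0 := by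
    obtain ⟨j, hj⟩ := hDne
    intro h0
    have h1 := row_coeff d c D j
    rw [h0, coeff_zero] at h1
    by_cases hjd : j ≤ d
    · rw [if_pos hjd] at h1; exact hj h1.symm
    · exact hj (h.hc D j (by omega))
  have h1 : ((row d c D).roots.toFinset : Set ℝ).Finite := Finset.finite_toSet _
  refine (h1.preimage (f := fun y : ℕ => (y : ℝ)) (Nat.cast_injective.injOn)).subset ?_
  intro y hy
  simp only [Set.mem_ofPred_eq] at hy
  simp only [Set.mem_preimage, Finset.mem_coe, Multiset.mem_toFinset]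
  rw [mem_roots hrow, IsRoot.def]
  by_contra hne
  have h2 : (hor d c (y : ℝ)).coeff D ≠ 0 := by rwa [hor_coeff, if_pos hDd]
  have h3 := le_natDegree_of_ne_zero h2
  omega

/-- On an affine line the values form an arithmetic progression. -/
theorem affine_values (h : Loc d c η) (y : ℕ) (hy : (hor d c (y : ℝ)).natDegree = 1) :
    ∃ (A : ℕ) (b : ℤ), 0 < A ∧ ∀ x : ℝ, ev d c x y = A * x + b := by
  have hint := h.hor_int y
  set N : ℕ := ⌈(y : ℝ) / η⌉₊ + 1 with hN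
  have hmem : ∀ n : ℕ, N ≤ n → (((n : ℤ), (y : ℤ)) : ℤ × ℤ) ∈ HC η := by
    intro n hn
    have h1 : (y : ℝ) / η ≤ n := (Nat.le_ceil _).trans (by exact_mod_cast (by omega))
    exact mem_HC h.hη (by positivity) (by exact_mod_cast (by omega : 0 < n)) (by exact_mod_cast h1)
  have hlin : ∀ x : ℝ, ev d c x y = (hor d c (y : ℝ)).coeff 1 * x + (hor d c (y : ℝ)).coeff 0 := by
    intro x
    rw [← hor_eval, eval_eq_sum_range' (by omega : (hor d c (y : ℝ)).natDegree < 2),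
      Finset.sum_range_succ, Finset.sum_range_one]
    ring
  obtain ⟨m₁, hm₁⟩ := hint N le_rfl
  obtain ⟨m₂, hm₂⟩ := hint (N + 1) (by omega)
  rw [hor_eval, hlin] at hm₁ hm₂
  push_cast at hm₂
  set α := (hor d c (y : ℝ)).coeff 1 with hα
  set β := (hor d c (y : ℝ)).coeff 0 with hβ
  have hαi : α = ((m₂ - m₁ : ℤ) : ℝ) := by push_cast; linarith
  have hβi : β = ((m₁ - (m₂ - m₁) * N : ℤ) : ℝ) := by
    push_cast
    rw [hαi] at hm₁
    push_cast at hm₁
    linarith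
  have hα0 : α ≠ 0 := by
    have hne : hor d c (y : ℝ) ≠ 0 := by intro h0; rw [h0] at hy; simp at hy
    have := leadingCoeff_ne_zero.2 hne
    rwa [leadingCoeff, hy] at this
  have hαpos : 0 < α := by
    by_contra hneg
    push Not at hneg
    have hlt : α < 0 := lt_of_le_of_ne hneg hα0
    obtain ⟨n, hn⟩ := exists_nat_gt (β / (-α))
    have hn' : β / (-α) < ((n + N : ℕ) : ℝ) := by
      push_cast
      have : (0 : ℝ) ≤ N := by positivity
      linarith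
    have h1 := h.nonneg (hmem (n + N) (by omega))
    simp only [Int.cast_natCast] at h1
    rw [hlin] at h1
    rw [div_lt_iff₀ (by linarith)] at hn'
    nlinarith
  have hpos : 0 < m₂ - m₁ := by
    have : (0 : ℝ) < ((m₂ - m₁ : ℤ) : ℝ) := by rw [← hαi]; exact hαpos
    exact_mod_cast this
  refine ⟨(m₂ - m₁).toNat, m₁ - (m₂ - m₁) * N, by omega, fun x => ?_⟩
  have h3 : (((m₂ - m₁).toNat : ℕ) : ℝ) = ((m₂ - m₁ : ℤ) : ℝ) := by
    rw [← Int.cast_natCast, Int.toNat_of_nonneg hpos.le]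
  rw [hlin, h3, ← hαi, hβi]

end Loc

end Pool.Agent.Pack
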