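import Pool.Agent.Pack.Arr

/-!
# Directional derivatives of arrays
-/

set_option autoImplicit false

open Polynomial Finset Filter Topology

namespace Pool.Agent.Pack

/-- The array of the derivative in the direction `(k, l)`. -/
noncomputable def dd (k l : ℝ) (c : ℕ → ℕ → ℝ) : ℕ → ℕ → ℝ :=
  fun i j => k * (i + 1) * c (i + 1) j + l * (j + 1) * c i (j + 1)

theorem dd_vanish {d : ℕ} {c : ℕ → ℕ → ℝ} (hc : ∀ i j, d < i + j → c i j = 0) (k l : ℝ) :
    ∀ i j, d - 1 < i + j → dd k l c i j = 0 := by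
  intro i j hij
  rw [dd, hc (i + 1) j (by omega), hc i (j + 1) (by omega)]
  ring

theorem top_dd {d : ℕ} (hd : 1 ≤ d) (c : ℕ → ℕ → ℝ) (k l : ℝ) :
    top (d - 1) (dd k l c) = C (k * d) * top d c + (C l - C k * X) * derivative (top d c) := by
  obtain ⟨e, rfl⟩ : ∃ e, d = e + 1 := ⟨d - 1, by omega⟩
  rw [Nat.add_sub_cancel]
  ext j
  rw [coeff_add, coeff_C_mul, sub_mul, coeff_sub, coeff_C_mul, mul_assoc (C k) X, coeff_C_mul,
    top_coeff, top_coeff, coeff_derivative, top_coeff]
  rcases j with _ | j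
  · simp only [coeff_X_mul_zero]
    rw [if_pos (by omega), if_pos (by omega), if_pos (by omega), dd]
    simp only [Nat.sub_zero, zero_add, Nat.cast_zero]
    have e2 : e + 1 - 1 = e := by omega
    rw [e2]
    push_cast
    ring
  · rw [coeff_X_mul, coeff_derivative, top_coeff]
    by_cases h1 : j + 1 ≤ e
    · rw [if_pos h1, if_pos (by omega), if_pos (by omega), dd]
      have e1 : e - (j + 1) + 1 = e + 1 - (j + 1) := by omega
      have e2 : e + 1 - (j + 1 + 1) = e - (j + 1) := by omega
      rw [e1, e2]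
      have e3 : ((e - (j + 1) : ℕ) : ℝ) = e - (j + 1) := by
        rw [Nat.cast_sub h1]; push_cast; ring
      rw [e3]
      push_cast
      ring
    · rw [if_neg h1, if_neg (by omega : ¬ (j + 1 + 1 ≤ e + 1))]
      by_cases h2 : j + 1 ≤ e + 1
      · rw [if_pos h2]
        have e4 : j = e := by omega
        subst e4
        push_cast
        ring
      · rw [if_neg h2]
        ring

/-- The polynomial on a line. -/
noncomputable def linep (R : ℕ) (c : ℕ → ℕ → ℝ) (x₀ y₀ k l : ℝ) : ℝ[X] :=
  ∑ i ∈ range (R + 1), ∑ j ∈ range (R + 1),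
    C (c i j) * (C x₀ + C k * X) ^ i * (C y₀ + C l * X) ^ j

theorem linep_eval (R : ℕ) (c : ℕ → ℕ → ℝ) (x₀ y₀ k l t : ℝ) :
    (linep R c x₀ y₀ k l).eval t = ev R c (x₀ + k * t) (y₀ + l * t) := by
  simp [linep, ev, eval_finsetSum]

theorem derivative_linep (R : ℕ) (c : ℕ → ℕ → ℝ) (hc : ∀ i j, R < i + j → c i j = 0)
    (x₀ y₀ k l : ℝ) :
    derivative (linep R c x₀ y₀ k l) = linep R (dd k l c) x₀ y₀ k l := by
  set u : ℝ[X] := C x₀ + C k * X with hu
  set v : ℝ[X] := C y₀ + C l * X with hv
  have hdu : derivative u = C k := by simp [hu]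
  have hdv : derivative v = C l := by simp [hv]
  have h1 : derivative (linep R c x₀ y₀ k l) =
      ∑ i ∈ range (R + 1), ∑ j ∈ range (R + 1), (C (c i j * i * k) * u ^ (i - 1) * v ^ j) +
      ∑ i ∈ range (R + 1), ∑ j ∈ range (R + 1), (C (c i j * j * l) * u ^ i * v ^ (j - 1)) := by
    rw [linep, derivative_sum, ← Finset.sum_add_distrib]
    refine Finset.sum_congr rfl fun i _ => ?_
    rw [derivative_sum, ← Finset.sum_add_distrib]
    refine Finset.sum_congr rfl fun j _ => ?_
    rw [← hu, ← hv, derivative_mul, derivative_mul, derivative_C, derivative_pow, derivative_pow,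
      hdu, hdv]
    simp only [map_mul, map_natCast]
    ring
  have h2 : ∑ i ∈ range (R + 1), ∑ j ∈ range (R + 1), (C (c i j * i * k) * u ^ (i - 1) * v ^ j) =
      ∑ i ∈ range (R + 1), ∑ j ∈ range (R + 1),
        (C (k * (i + 1) * c (i + 1) j) * u ^ i * v ^ j) := by
    refine (Finset.sum_range_succ' _ _).trans (Eq.trans ?_ (Finset.sum_range_succ _ _).symm)
    congr 1
    · refine Finset.sum_congr rfl fun i _ => Finset.sum_congr rfl fun j _ => ?_
      rw [Nat.add_sub_cancel]
      push_cast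
      congr 3
      ring
    · refine (Finset.sum_eq_zero fun j _ => ?_).trans (Finset.sum_eq_zero fun j _ => ?_).symm
      · simp
      · rw [hc (R + 1) j (by omega)]
        simp
  have h3 : ∑ i ∈ range (R + 1), ∑ j ∈ range (R + 1), (C (c i j * j * l) * u ^ i * v ^ (j - 1)) =
      ∑ i ∈ range (R + 1), ∑ j ∈ range (R + 1),
        (C (l * (j + 1) * c i (j + 1)) * u ^ i * v ^ j) := by
    refine Finset.sum_congr rfl fun i _ => ?_
    refine (Finset.sum_range_succ' _ _).trans (Eq.trans ?_ (Finset.sum_range_succ _ _).symm)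
    congr 1
    · refine Finset.sum_congr rfl fun j _ => ?_
      rw [Nat.add_sub_cancel]
      push_cast
      congr 3
      ring
    · rw [hc i (R + 1) (by omega)]
      simp
  rw [h1, h2, h3, ← Finset.sum_add_distrib, linep]
  refine Finset.sum_congr rfl fun i _ => ?_
  rw [← Finset.sum_add_distrib]
  refine Finset.sum_congr rfl fun j _ => ?_
  rw [← hu, ← hv, dd, map_add]
  ring

/-- Iterates of the directional derivative. -/
theorem dd_iterate_vanish {d : ℕ} {c : ℕ → ℕ → ℝ} (hc : ∀ i j, d < i + j → c i j = 0) (k l : ℝ)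
    (m : ℕ) : ∀ i j, d - m < i + j → ((dd k l)^[m] c) i j = 0 := by
  induction m with
  | zero => simpa using hc
  | succ m ih =>
    intro i j hij
    rw [Function.iterate_succ', Function.comp_apply]
    exact dd_vanish ih k l i j (by omega)

theorem iterate_derivative_linep {d : ℕ} {c : ℕ → ℕ → ℝ} (hc : ∀ i j, d < i + j → c i j = 0)
    (x₀ y₀ k l : ℝ) (m : ℕ) :
    derivative^[m] (linep d c x₀ y₀ k l) = linep d ((dd k l)^[m] c) x₀ y₀ k l := by
  induction m with
  | zero => rfl
  | succ m ih =>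
    rw [Function.iterate_succ', Function.comp_apply, ih, Function.iterate_succ',
      Function.comp_apply, derivative_linep]
    intro i j hij
    exact dd_iterate_vanish hc k l m i j (by omega)

theorem ev_of_vanish {d R : ℕ} (hdR : d ≤ R) {c : ℕ → ℕ → ℝ} (hc : ∀ i j, d < i + j → c i j = 0)
    (x y : ℝ) : ev R c x y = ev d c x y := by
  rw [ev, ev]
  have h1 : ∀ i, ∑ j ∈ range (R + 1), c i j * x ^ i * y ^ j =
      ∑ j ∈ range (d + 1), c i j * x ^ i * y ^ j := by
    intro i
    symm
    refine Finset.sum_subset (Finset.range_subset_range.2 (by omega)) fun j _ hj => ?_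
    rw [Finset.mem_range] at hj
    rw [hc i j (by omega)]
    ring
  simp only [h1]
  symm
  refine Finset.sum_subset (Finset.range_subset_range.2 (by omega)) fun i _ hi => ?_
  rw [Finset.mem_range] at hi
  refine Finset.sum_eq_zero fun j _ => ?_
  rw [hc i j (by omega)]
  ring

/-- The top form of the iterated directional derivative. -/
theorem top_dd_iterate {θ k l : ℝ} (hkl : l - k * θ ≠ 0) (m : ℕ) :
    ∀ {d : ℕ} (c : ℕ → ℕ → ℝ) (g₁ : ℝ[X]), m ≤ d → top d c = (X - C θ) ^ m * g₁ →
      g₁.eval θ ≠ 0 → (top (d - m) ((dd k l)^[m] c)).eval θ ≠ 0 := by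
  induction m with
  | zero =>
    intro d c g₁ _ hg hne
    simp only [Function.iterate_zero, id_eq, Nat.sub_zero]
    rw [hg, pow_zero, one_mul]
    exact hne
  | succ m ih =>
    intro d c g₁ hmd hg hne
    rw [Function.iterate_succ, Function.comp_apply]
    have e : d - (m + 1) = d - 1 - m := by omega
    rw [e]
    refine ih (dd k l c) (C (k * d) * ((X - C θ) * g₁) + (C l - C k * X) *
      (C ((m : ℝ) + 1) * g₁ + (X - C θ) * derivative g₁)) (by omega) ?_ ?_
    · rw [top_dd (by omega), hg, derivative_mul, derivative_pow, derivative_sub, derivative_X,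
        derivative_C, Nat.add_sub_cancel]
      push_cast
      simp only [map_add, map_one, map_natCast, pow_succ]
      ring
    · simp only [eval_add, eval_mul, eval_C, eval_sub, eval_X, sub_self, zero_mul, mul_zero,
        zero_add, add_zero]
      refine mul_ne_zero hkl (mul_ne_zero (by positivity) hne)

/-- The directional derivative is large near the ray. -/
theorem dir_lower {d : ℕ} {c : ℕ → ℕ → ℝ} (hc : ∀ i j, d < i + j → c i j = 0) {θ k l : ℝ}
    (hkl : l - k * θ ≠ 0) {m : ℕ} (hm : m < d) (g₁ : ℝ[X]) (hg : top d c = (X - C θ) ^ m * g₁)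
    (hne : g₁.eval θ ≠ 0) :
    ∃ η > 0, ∃ κ > 0, ∃ X₀ : ℝ, 1 ≤ X₀ ∧ ∀ x y : ℝ, X₀ ≤ x → |y - θ * x| ≤ η * x →
      κ * x ^ (d - m) ≤ |ev d ((dd k l)^[m] c) x y| := by
  set c' := (dd k l)^[m] c with hc'
  have hv := dd_iterate_vanish hc k l m
  rw [← hc'] at hv
  have hne' := top_dd_iterate hkl m c g₁ hm.le hg hne
  rw [← hc'] at hne'
  set g' := top (d - m) c' with hg'
  have hcont : Continuous fun t : ℝ => |g'.eval t| := g'.continuous.abs
  set κ : ℝ := |g'.eval θ| / 2 with hκ
  have hκ0 : 0 < κ := by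
    have := abs_pos.2 hne'
    positivity
  obtain ⟨η, hη, hηb⟩ := Metric.eventually_nhds_iff.1
    (hcont.continuousAt.eventually (lt_mem_nhds (show κ < |g'.eval θ| by
      rw [hκ]; have := abs_pos.2 hne'; linarith)))
  obtain ⟨K, hK, hKb⟩ := ev_sub_top_le (d := d - m) (by omega) hv (|θ| + 1)
  set η' := min (η / 2) 1 with hη'
  have hη'0 : 0 < η' := lt_min (by linarith) one_pos
  refine ⟨η', hη'0, κ / 2, by positivity, max 1 (2 * K / κ), le_max_left _ _, ?_⟩
  intro x y hx hy
  have hx1 : 1 ≤ x := (le_max_left _ _).trans hx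
  have hx2 : 2 * K / κ ≤ x := (le_max_right _ _).trans hx
  have hx0 : 0 < x := by linarith
  have hyt : y = (y / x) * x := by field_simp
  have ht : |y / x - θ| ≤ η' := by
    have : y / x - θ = (y - θ * x) / x := by field_simp
    rw [this, abs_div, abs_of_pos hx0, div_le_iff₀ hx0]
    exact hy
  have ht2 : |y / x - θ| < η := by
    have : η' ≤ η / 2 := min_le_left _ _
    linarith
  have ht3 : |y / x| ≤ |θ| + 1 := by
    have h1 : |y / x| ≤ |y / x - θ| + |θ| := by
      have := abs_add_le (y / x - θ) θ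
      rwa [sub_add_cancel] at this
    have : η' ≤ 1 := min_le_right _ _
    linarith
  have h1 := hKb x (y / x) hx1 ht3
  rw [← hyt] at h1
  have h2 : κ < |g'.eval (y / x)| := hηb (by rw [Real.dist_eq]; exact ht2)
  rw [ev_of_vanish (by omega : d - m ≤ d) hv]
  have h3 : |x ^ (d - m) * g'.eval (y / x)| = x ^ (d - m) * |g'.eval (y / x)| := by
    rw [abs_mul, abs_of_pos (by positivity)]
  have h4 : |x ^ (d - m) * g'.eval (y / x)| - |ev (d - m) c' x y| ≤
      |ev (d - m) c' x y - x ^ (d - m) * g'.eval (y / x)| := by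
    rw [abs_sub_comm]; exact abs_sub_abs_le_abs_sub _ _
  rw [h3] at h4
  have h5 : x ^ (d - m) = x * x ^ (d - m - 1) := by
    rw [← pow_succ']; congr 1; omega
  have h6 : K * x ^ (d - m - 1) ≤ κ / 2 * x ^ (d - m) := by
    rw [h5, ← mul_assoc]
    refine mul_le_mul_of_nonneg_right ?_ (by positivity)
    rw [div_le_iff₀ hκ0] at hx2
    linarith
  have h7 : x ^ (d - m) * κ ≤ x ^ (d - m) * |g'.eval (y / x)| :=
    mul_le_mul_of_nonneg_left h2.le (by positivity)
  linarith

end Pool.Agent.Pack
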