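import Pool.Agent.Pack.Line

/-!
# Explicit expansions in degree four
-/

set_option autoImplicit false

open Polynomial Finset Filter Topology

namespace Pool.Agent.Pack

theorem ev4 {c : ℕ → ℕ → ℝ} (hc : ∀ i j, 4 < i + j → c i j = 0) (x y : ℝ) :
    ev 4 c x y = (c 4 0 * x ^ 4 + c 3 1 * (x ^ 3 * y) + c 2 2 * (x ^ 2 * y ^ 2) +
      c 1 3 * (x * y ^ 3) + c 0 4 * y ^ 4) +
      (c 3 0 * x ^ 3 + c 2 1 * (x ^ 2 * y) + c 1 2 * (x * y ^ 2) + c 0 3 * y ^ 3) +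
      (c 2 0 * x ^ 2 + c 1 1 * (x * y) + c 0 2 * y ^ 2 + c 1 0 * x + c 0 1 * y + c 0 0) := by
  simp only [ev, Finset.sum_range_succ, Finset.sum_range_zero]
  rw [hc 1 4 (by norm_num), hc 2 3 (by norm_num), hc 2 4 (by norm_num), hc 3 2 (by norm_num),
    hc 3 3 (by norm_num), hc 3 4 (by norm_num), hc 4 1 (by norm_num), hc 4 2 (by norm_num),
    hc 4 3 (by norm_num), hc 4 4 (by norm_num)]
  ring

theorem top4 (c : ℕ → ℕ → ℝ) (t : ℝ) :
    (top 4 c).eval t = c 4 0 + c 3 1 * t + c 2 2 * t ^ 2 + c 1 3 * t ^ 3 + c 0 4 * t ^ 4 := by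
  rw [top_eval]
  simp only [Finset.sum_range_succ, Finset.sum_range_zero]
  norm_num

theorem top4_hom (c : ℕ → ℕ → ℝ) {x y : ℝ} (hx : 0 < x) :
    c 4 0 * x ^ 4 + c 3 1 * (x ^ 3 * y) + c 2 2 * (x ^ 2 * y ^ 2) +
      c 1 3 * (x * y ^ 3) + c 0 4 * y ^ 4 = x ^ 4 * (top 4 c).eval (y / x) := by
  rw [top4]
  field_simp

theorem mono_bound {c m M : ℝ} (h : |m| ≤ M) : -(|c| * M) ≤ c * m := by
  have h1 := neg_abs_le (c * m)
  rw [abs_mul] at h1
  have h2 : |c| * |m| ≤ |c| * M := mul_le_mul_of_nonneg_left h (abs_nonneg c)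
  linarith

/-- The part of degree at most two. -/
theorem low2 (c : ℕ → ℕ → ℝ) {x y : ℝ} (hx : 1 ≤ x) (hy : 0 ≤ y) (hyx : y ≤ x) :
    -((|c 2 0| + |c 1 1| + |c 0 2| + |c 1 0| + |c 0 1| + |c 0 0|) * x ^ 2) ≤
      c 2 0 * x ^ 2 + c 1 1 * (x * y) + c 0 2 * y ^ 2 + c 1 0 * x + c 0 1 * y + c 0 0 := by
  have hx0 : 0 ≤ x := by linarith
  have h1 : -(|c 2 0| * x ^ 2) ≤ c 2 0 * x ^ 2 := mono_bound (by rw [abs_of_nonneg (by positivity)])
  have h2 : -(|c 1 1| * x ^ 2) ≤ c 1 1 * (x * y) :=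
    mono_bound (by rw [abs_of_nonneg (by positivity)]; nlinarith)
  have h3 : -(|c 0 2| * x ^ 2) ≤ c 0 2 * y ^ 2 :=
    mono_bound (by rw [abs_of_nonneg (by positivity)]; nlinarith)
  have h4 : -(|c 1 0| * x ^ 2) ≤ c 1 0 * x :=
    mono_bound (by rw [abs_of_nonneg (by positivity)]; nlinarith)
  have h5 : -(|c 0 1| * x ^ 2) ≤ c 0 1 * y :=
    mono_bound (by rw [abs_of_nonneg (by positivity)]; nlinarith)
  have h6 : -(|c 0 0| * x ^ 2) ≤ c 0 0 * 1 :=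
    mono_bound (by rw [abs_of_nonneg (by norm_num)]; nlinarith)
  linarith

/-- The local situation at a rational direction, in degree at most four. -/
structure Loc4 (c : ℕ → ℕ → ℝ) (η : ℝ) : Prop where
  hc : ∀ i j, 4 < i + j → c i j = 0
  hη : 0 < η
  hη1 : η ≤ 1
  int : ∀ v ∈ HC η, ∃ m : ℕ, ev 4 c v.1 v.2 = m
  inj : ∀ v ∈ HC η, ∀ w ∈ HC η, ev 4 c v.1 v.2 = ev 4 c w.1 w.2 → v = w
  h40 : c 4 0 = 0
  topnn : ∀ t, 0 ≤ t → t ≤ η → 0 ≤ (top 4 c).eval t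

/-- Linear growth in a thin half cone. -/
def Grow4 (c : ℕ → ℕ → ℝ) (η : ℝ) : Prop :=
  ∃ η' > 0, η' ≤ η ∧ ∃ c₀ > 0, ∃ X₀ : ℝ, ∀ v ∈ HC η', X₀ ≤ (v.1 : ℝ) →
    c₀ * v.1 ≤ ev 4 c v.1 v.2

namespace Loc4

variable {c : ℕ → ℕ → ℝ} {η : ℝ}

theorem nonneg (h : Loc4 c η) {v : ℤ × ℤ} (hv : v ∈ HC η) : 0 ≤ ev 4 c v.1 v.2 := by
  obtain ⟨m, hm⟩ := h.int v hv
  rw [hm]; positivity

theorem mem (h : Loc4 c η) (y : ℕ) {n : ℕ} (hn : ⌈(y : ℝ) / η⌉₊ + 1 ≤ n) :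
    (((n : ℤ), (y : ℤ)) : ℤ × ℤ) ∈ HC η := by
  have h1 : (y : ℝ) / η ≤ n := (Nat.le_ceil _).trans (by exact_mod_cast (by omega))
  exact mem_HC h.hη (by positivity) (by exact_mod_cast (by omega : 0 < n)) (by exact_mod_cast h1)

/-- Linear growth on a horizontal line. -/
theorem line_grow (h : Loc4 c η) (y : ℕ) :
    ∃ c₀ > 0, ∃ X₀ : ℝ, ∀ x : ℝ, X₀ ≤ x → c₀ * x ≤ ev 4 c x y := by
  set p := hor 4 c (y : ℝ) with hp
  have hpe : ∀ x : ℝ, p.eval x = ev 4 c x y := fun x => hor_eval 4 c x y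
  have hdeg : 0 < p.natDegree := by
    by_contra hcon
    push Not at hcon
    obtain ⟨a, ha⟩ := natDegree_eq_zero.1 (by omega : p.natDegree = 0)
    set N : ℕ := ⌈(y : ℝ) / η⌉₊ + 1 with hN
    have h2 := h.inj _ (h.mem y (le_refl N)) _ (h.mem y (by omega : N ≤ N + 1)) (by
      simp only [Int.cast_natCast]
      rw [← hpe, ← hpe, ← ha, eval_C, eval_C])
    have h3 := congrArg Prod.fst h2
    simp only at h3
    omega
  have hp0 : p ≠ 0 := by rintro h0; rw [h0] at hdeg; simp at hdeg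
  have hdeg' : 0 < p.degree := by
    rw [degree_eq_natDegree hp0]; exact_mod_cast hdeg
  have hlc : 0 ≤ p.leadingCoeff := by
    by_contra hneg
    push Not at hneg
    have h1 := (p.tendsto_atBot_of_leadingCoeff_nonpos hdeg' hneg.le).comp
      tendsto_natCast_atTop_atTop
    obtain ⟨n, hn1, hn2⟩ := ((h1.eventually (eventually_lt_atBot (0 : ℝ))).and
      (eventually_ge_atTop (⌈(y : ℝ) / η⌉₊ + 1))).exists
    have h3 := h.nonneg (h.mem y hn2)
    simp only [Function.comp_apply, hpe] at hn1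
    simp only [Int.cast_natCast] at h3
    linarith
  have htop := p.tendsto_atTop_of_leadingCoeff_nonneg hdeg' hlc
  have hX : (X : ℝ[X]).degree ≤ p.degree := by
    rw [degree_X, degree_eq_natDegree hp0]
    exact_mod_cast hdeg
  obtain ⟨C₁, hC₁, hb⟩ := (isBigO_atTop_of_degree_le (X : ℝ[X]) p hX).exists_pos
  rw [Asymptotics.IsBigOWith] at hb
  obtain ⟨X₀, hX₀⟩ := eventually_atTop.1 ((hb.and (htop.eventually (eventually_ge_atTop 0))).and
    (eventually_ge_atTop (0 : ℝ)))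
  refine ⟨1 / C₁, by positivity, X₀, fun x hx => ?_⟩
  obtain ⟨⟨h3, h4⟩, h5⟩ := hX₀ x hx
  rw [eval_X, Real.norm_eq_abs, Real.norm_eq_abs, abs_of_nonneg h5, abs_of_nonneg h4] at h3
  rw [← hpe, one_div, inv_mul_le_iff₀ hC₁]
  exact h3

/-- Linear growth on finitely many horizontal lines. -/
theorem lines_grow (h : Loc4 c η) (Y₀ : ℕ) :
    ∃ c₀ > 0, ∃ X₀ : ℝ, ∀ y : ℕ, y < Y₀ → ∀ x : ℝ, X₀ ≤ x → c₀ * x ≤ ev 4 c x y := by
  induction Y₀ with
  | zero => exact ⟨1, one_pos, 0, fun y hy => absurd hy (Nat.not_lt_zero y)⟩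
  | succ Y ih =>
    obtain ⟨c₁, hc₁, X₁, h1⟩ := ih
    obtain ⟨c₂, hc₂, X₂, h2⟩ := h.line_grow Y
    refine ⟨min c₁ c₂, lt_min hc₁ hc₂, max (max X₁ X₂) 0, fun y hy x hx => ?_⟩
    have hx1 : X₁ ≤ x := (le_max_left _ _).trans ((le_max_left _ _).trans hx)
    have hx2 : X₂ ≤ x := (le_max_right _ _).trans ((le_max_left _ _).trans hx)
    have hx0 : 0 ≤ x := (le_max_right _ _).trans hx
    rcases Nat.lt_succ_iff_lt_or_eq.1 hy with h3 | rfl
    · exact (mul_le_mul_of_nonneg_right (min_le_left _ _) hx0).trans (h1 y h3 x hx1)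
    · exact (mul_le_mul_of_nonneg_right (min_le_right _ _) hx0).trans (h2 x hx2)

/-- It suffices to prove growth for large `y`. -/
theorem of_large (h : Loc4 c η) {η' : ℝ} (hη' : 0 < η') (hle : η' ≤ η) (Y₀ : ℕ) {c₀ : ℝ}
    (hc₀ : 0 < c₀) (X₀ : ℝ)
    (H : ∀ x y : ℝ, X₀ ≤ x → (Y₀ : ℝ) ≤ y → y ≤ η' * x → c₀ * x ≤ ev 4 c x y) :
    Grow4 c η := by
  obtain ⟨c₁, hc₁, X₁, h1⟩ := h.lines_grow Y₀
  refine ⟨η', hη', hle, min c₀ c₁, lt_min hc₀ hc₁, max X₀ X₁, fun v hv hx => ?_⟩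
  have hx0 : (0 : ℝ) ≤ v.1 := by exact_mod_cast hv.1.le
  rcases lt_or_ge v.2 (Y₀ : ℤ) with h2 | h2
  · have hy0 := hv.2.1
    obtain ⟨y, hy⟩ := Int.eq_ofNat_of_zero_le hy0
    rw [hy] at h2 ⊢
    have h3 := h1 y (by exact_mod_cast h2) v.1 ((le_max_right _ _).trans hx)
    rw [Int.cast_natCast]
    exact (mul_le_mul_of_nonneg_right (min_le_right _ _) hx0).trans h3
  · refine (mul_le_mul_of_nonneg_right (min_le_left _ _) hx0).trans
      (H v.1 v.2 ((le_max_left _ _).trans hx) (by exact_mod_cast h2) hv.2.2)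

/-- Case A. -/
theorem caseA (h : Loc4 c η) (h30 : c 3 0 ≠ 0) : Grow4 c η := by
  have h40 := h.h40
  -- positivity
  have hpos : 0 < c 3 0 := by
    by_contra hneg
    push Not at hneg
    have hlt : c 3 0 < 0 := lt_of_le_of_ne hneg h30
    set S := |c 2 0| + |c 1 0| + |c 0 0| with hS
    have hS0 : 0 ≤ S := by positivity
    obtain ⟨n, hn⟩ := exists_nat_gt (S / (-c 3 0) + 1)
    have hn1 : (1 : ℝ) < n := by
      have : 0 ≤ S / (-c 3 0) := div_nonneg hS0 (by linarith)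
      linarith
    have hn0 : 0 < n := by
      have : (0 : ℝ) < n := by linarith
      exact_mod_cast this
    have h1 := h.nonneg (v := ((n : ℤ), 0)) (mem_HC h.hη le_rfl (by exact_mod_cast hn0) (by simp))
    simp only [Int.cast_natCast, Int.cast_zero] at h1
    rw [ev4 h.hc, h40] at h1
    have h2 : S / (-c 3 0) < n := by linarith
    rw [div_lt_iff₀ (by linarith)] at h2
    have a1 := le_abs_self (c 2 0)
    have a2 := le_abs_self (c 1 0)
    have a3 := le_abs_self (c 0 0)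
    have b1 : c 2 0 * (n : ℝ) ^ 2 ≤ |c 2 0| * (n : ℝ) ^ 2 :=
      mul_le_mul_of_nonneg_right a1 (by positivity)
    have b2 : c 1 0 * (n : ℝ) ≤ |c 1 0| * (n : ℝ) ^ 2 := by
      have : c 1 0 * (n : ℝ) ≤ |c 1 0| * (n : ℝ) := mul_le_mul_of_nonneg_right a2 (by positivity)
      exact this.trans (mul_le_mul_of_nonneg_left (by nlinarith) (abs_nonneg _))
    have b3 : c 0 0 ≤ |c 0 0| * (n : ℝ) ^ 2 :=
      a3.trans (le_mul_of_one_le_right (abs_nonneg _) (by nlinarith))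
    have b4 : S * (n : ℝ) ^ 2 < (n * -c 3 0) * (n : ℝ) ^ 2 :=
      mul_lt_mul_of_pos_right h2 (by positivity)
    rw [hS] at b4
    linarith
  set S3 := |c 2 1| + |c 1 2| + |c 0 3| with hS3
  have hS30 : 0 ≤ S3 := by positivity
  set S2 := |c 2 0| + |c 1 1| + |c 0 2| + |c 1 0| + |c 0 1| + |c 0 0| with hS2
  have hS20 : 0 ≤ S2 := by positivity
  set η' := min η (c 3 0 / (2 * (S3 + 1))) with hη'
  have hη'0 : 0 < η' := lt_min h.hη (by positivity)
  have hη'1 : η' ≤ 1 := (min_le_left _ _).trans h.hη1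
  have hη'2 : η' ≤ c 3 0 / (2 * (S3 + 1)) := min_le_right _ _
  rw [le_div_iff₀ (by positivity)] at hη'2
  refine h.of_large hη'0 (min_le_left _ _) 0 one_pos (max 1 (2 / c 3 0 * (S2 + 1)))
    fun x y hx hy hyx => ?_
  have hx1 : 1 ≤ x := (le_max_left _ _).trans hx
  have hx2 : 2 / c 3 0 * (S2 + 1) ≤ x := (le_max_right _ _).trans hx
  have hx0 : 0 < x := by linarith
  rw [Nat.cast_zero] at hy
  have hyx1 : y ≤ x := by
    have := mul_le_mul_of_nonneg_right hη'1 hx0.le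
    linarith
  have htη : y / x ≤ η := by
    rw [div_le_iff₀ hx0]
    exact hyx.trans (mul_le_mul_of_nonneg_right (min_le_left _ _) hx0.le)
  have h4 : 0 ≤ c 4 0 * x ^ 4 + c 3 1 * (x ^ 3 * y) + c 2 2 * (x ^ 2 * y ^ 2) +
      c 1 3 * (x * y ^ 3) + c 0 4 * y ^ 4 := by
    rw [top4_hom c hx0]
    exact mul_nonneg (by positivity) (h.topnn _ (by positivity) htη)
  have h2 := low2 c hx1 hy hyx1
  rw [← hS2] at h2
  have m1 : x ^ 2 * y ≤ η' * x ^ 3 := by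
    have : x ^ 2 * y ≤ x ^ 2 * (η' * x) := mul_le_mul_of_nonneg_left hyx (by positivity)
    linarith
  have m2 : x * y ^ 2 ≤ η' * x ^ 3 := by
    have : (x * y) * y ≤ (x * y) * x := mul_le_mul_of_nonneg_left hyx1 (by positivity)
    linarith
  have m3 : y ^ 3 ≤ η' * x ^ 3 := by
    have : y ^ 2 * y ≤ y ^ 2 * x := mul_le_mul_of_nonneg_left hyx1 (by positivity)
    linarith
  have d1 : -(|c 2 1| * (η' * x ^ 3)) ≤ c 2 1 * (x ^ 2 * y) :=
    mono_bound (by rw [abs_of_nonneg (by positivity)]; exact m1)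
  have d2 : -(|c 1 2| * (η' * x ^ 3)) ≤ c 1 2 * (x * y ^ 2) :=
    mono_bound (by rw [abs_of_nonneg (by positivity)]; exact m2)
  have d3 : -(|c 0 3| * (η' * x ^ 3)) ≤ c 0 3 * y ^ 3 :=
    mono_bound (by rw [abs_of_nonneg (by positivity)]; exact m3)
  have d4 : S3 * (η' * x ^ 3) ≤ c 3 0 / 2 * x ^ 3 := by
    have h3 : S3 * η' ≤ c 3 0 / 2 := by linarith
    have h5 := mul_le_mul_of_nonneg_right h3 (pow_nonneg hx0.le 3)
    linarith
  have d5 : S2 + 1 ≤ c 3 0 / 2 * x := by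
    rw [div_mul_eq_mul_div, div_le_iff₀ hpos] at hx2
    linarith
  have d6 : (S2 + 1) * x ^ 2 ≤ c 3 0 / 2 * x * x ^ 2 := mul_le_mul_of_nonneg_right d5 (by positivity)
  have d7 : x ≤ x ^ 2 := by
    have := mul_le_mul_of_nonneg_left hx1 hx0.le
    linarith
  rw [ev4 h.hc]
  have e1 : (|c 2 1| + |c 1 2| + |c 0 3|) * (η' * x ^ 3) = S3 * (η' * x ^ 3) := by rw [hS3]
  have e2 : c 3 0 / 2 * x * x ^ 2 = c 3 0 / 2 * x ^ 3 := by ring
  linarith

/-- Case B. -/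
theorem caseB (h : Loc4 c η) (h30 : c 3 0 = 0) (h31 : c 3 1 ≠ 0) : Grow4 c η := by
  have h40 := h.h40
  have hpos : 0 < c 3 1 := by
    by_contra hneg
    push Not at hneg
    have hlt : c 3 1 < 0 := lt_of_le_of_ne hneg h31
    set S := |c 2 2| + |c 1 3| + |c 0 4| with hS
    have hS0 : 0 ≤ S := by positivity
    set t := min η (-c 3 1 / (2 * (S + 1))) with ht
    have ht0 : 0 < t := lt_min h.hη (div_pos (by linarith) (by positivity))
    have ht1 : t ≤ 1 := (min_le_left _ _).trans h.hη1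
    have ht2 : t ≤ -c 3 1 / (2 * (S + 1)) := min_le_right _ _
    rw [le_div_iff₀ (by positivity)] at ht2
    have h1 := h.topnn t ht0.le (min_le_left _ _)
    rw [top4, h40] at h1
    have a1 := le_abs_self (c 2 2)
    have a2 := le_abs_self (c 1 3)
    have a3 := le_abs_self (c 0 4)
    have b1 : c 2 2 * t ^ 2 ≤ |c 2 2| * t ^ 2 := mul_le_mul_of_nonneg_right a1 (by positivity)
    have b2 : c 1 3 * t ^ 3 ≤ |c 1 3| * t ^ 2 := by
      have h2 : c 1 3 * t ^ 3 ≤ |c 1 3| * t ^ 3 := mul_le_mul_of_nonneg_right a2 (by positivity)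
      have h3 : |c 1 3| * t ^ 3 ≤ |c 1 3| * t ^ 2 :=
        mul_le_mul_of_nonneg_left (pow_le_pow_of_le_one ht0.le ht1 (by norm_num)) (abs_nonneg _)
      linarith
    have b3 : c 0 4 * t ^ 4 ≤ |c 0 4| * t ^ 2 := by
      have h2 : c 0 4 * t ^ 4 ≤ |c 0 4| * t ^ 4 := mul_le_mul_of_nonneg_right a3 (by positivity)
      have h3 : |c 0 4| * t ^ 4 ≤ |c 0 4| * t ^ 2 :=
        mul_le_mul_of_nonneg_left (pow_le_pow_of_le_one ht0.le ht1 (by norm_num)) (abs_nonneg _)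
      linarith
    have b4 : S * t ^ 2 ≤ -c 3 1 / 2 * t := by
      have h4 : S * t ≤ -c 3 1 / 2 := by linarith
      have h5 := mul_le_mul_of_nonneg_right h4 ht0.le
      linarith
    rw [hS] at b4
    have b5 : c 3 1 / 2 * t < 0 := mul_neg_of_neg_of_pos (by linarith) ht0
    linarith
  set S4 := |c 2 2| + |c 1 3| + |c 0 4| with hS4
  have hS40 : 0 ≤ S4 := by positivity
  set S3 := |c 2 1| + |c 1 2| + |c 0 3| with hS3
  have hS30 : 0 ≤ S3 := by positivity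
  set S2 := |c 2 0| + |c 1 1| + |c 0 2| + |c 1 0| + |c 0 1| + |c 0 0| with hS2
  have hS20 : 0 ≤ S2 := by positivity
  set η' := min η (c 3 1 / (2 * (S4 + 1))) with hη'
  have hη'0 : 0 < η' := lt_min h.hη (by positivity)
  have hη'1 : η' ≤ 1 := (min_le_left _ _).trans h.hη1
  have hη'2 : η' ≤ c 3 1 / (2 * (S4 + 1)) := min_le_right _ _
  rw [le_div_iff₀ (by positivity)] at hη'2
  refine h.of_large hη'0 (min_le_left _ _) 1 one_pos (max 1 (2 / c 3 1 * (S3 + S2 + 1)))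
    fun x y hx hy hyx => ?_
  have hx1 : 1 ≤ x := (le_max_left _ _).trans hx
  have hx2 : 2 / c 3 1 * (S3 + S2 + 1) ≤ x := (le_max_right _ _).trans hx
  have hx0 : 0 < x := by linarith
  rw [Nat.cast_one] at hy
  have hy0 : 0 ≤ y := by linarith
  have hyx1 : y ≤ x := by
    have := mul_le_mul_of_nonneg_right hη'1 hx0.le
    linarith
  have h2 := low2 c hx1 hy0 hyx1
  rw [← hS2] at h2
  have hxy : 0 ≤ x * y := by positivity
  have n1 : x ^ 2 * y ^ 2 ≤ η' * (x ^ 3 * y) := by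
    have : x ^ 2 * y * y ≤ x ^ 2 * y * (η' * x) := mul_le_mul_of_nonneg_left hyx (by positivity)
    linarith
  have n2 : x * y ^ 3 ≤ η' * (x ^ 3 * y) := by
    have : (x * y ^ 2) * y ≤ (x * y ^ 2) * x := mul_le_mul_of_nonneg_left hyx1 (by positivity)
    linarith
  have n3 : y ^ 4 ≤ η' * (x ^ 3 * y) := by
    have : y ^ 3 * y ≤ y ^ 3 * x := mul_le_mul_of_nonneg_left hyx1 (by positivity)
    linarith
  have m2 : x * y ^ 2 ≤ x ^ 2 * y := by
    have : (x * y) * y ≤ (x * y) * x := mul_le_mul_of_nonneg_left hyx1 (by positivity)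
    linarith
  have m3 : y ^ 3 ≤ x ^ 2 * y := by
    have : y ^ 2 * y ≤ y ^ 2 * x := mul_le_mul_of_nonneg_left hyx1 (by positivity)
    linarith
  have f1 : -(|c 2 2| * (η' * (x ^ 3 * y))) ≤ c 2 2 * (x ^ 2 * y ^ 2) :=
    mono_bound (by rw [abs_of_nonneg (by positivity)]; exact n1)
  have f2 : -(|c 1 3| * (η' * (x ^ 3 * y))) ≤ c 1 3 * (x * y ^ 3) :=
    mono_bound (by rw [abs_of_nonneg (by positivity)]; exact n2)
  have f3 : -(|c 0 4| * (η' * (x ^ 3 * y))) ≤ c 0 4 * y ^ 4 :=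
    mono_bound (by rw [abs_of_nonneg (by positivity)]; exact n3)
  have d1 : -(|c 2 1| * (x ^ 2 * y)) ≤ c 2 1 * (x ^ 2 * y) :=
    mono_bound (by rw [abs_of_nonneg (by positivity)])
  have d2 : -(|c 1 2| * (x ^ 2 * y)) ≤ c 1 2 * (x * y ^ 2) :=
    mono_bound (by rw [abs_of_nonneg (by positivity)]; exact m2)
  have d3 : -(|c 0 3| * (x ^ 2 * y)) ≤ c 0 3 * y ^ 3 :=
    mono_bound (by rw [abs_of_nonneg (by positivity)]; exact m3)
  have g1 : S4 * (η' * (x ^ 3 * y)) ≤ c 3 1 / 2 * (x ^ 3 * y) := by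
    have h4 : S4 * η' ≤ c 3 1 / 2 := by linarith
    have h3 : 0 ≤ x ^ 3 * y := by positivity
    have h5 := mul_le_mul_of_nonneg_right h4 h3
    linarith
  have g2 : S2 * x ^ 2 ≤ S2 * (x ^ 2 * y) :=
    mul_le_mul_of_nonneg_left (le_mul_of_one_le_right (by positivity) (by linarith)) hS20
  have d5 : S3 + S2 + 1 ≤ c 3 1 / 2 * x := by
    rw [div_mul_eq_mul_div, div_le_iff₀ hpos] at hx2
    linarith
  have d6 : (S3 + S2 + 1) * (x ^ 2 * y) ≤ c 3 1 / 2 * x * (x ^ 2 * y) :=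
    mul_le_mul_of_nonneg_right d5 (by positivity)
  have d7 : x ≤ x ^ 2 * y := by
    have h5 : 1 * 1 ≤ x * y := mul_le_mul hx1 (by linarith) zero_le_one hx0.le
    have : x * 1 ≤ x * (x * y) := mul_le_mul_of_nonneg_left (by linarith) hx0.le
    linarith
  rw [ev4 h.hc, h40, h30]
  have e1 : (|c 2 2| + |c 1 3| + |c 0 4|) * (η' * (x ^ 3 * y)) = S4 * (η' * (x ^ 3 * y)) := by
    rw [hS4]
  have e3 : (|c 2 1| + |c 1 2| + |c 0 3|) * (x ^ 2 * y) = S3 * (x ^ 2 * y) := by rw [hS3]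
  have e2 : c 3 1 / 2 * x * (x ^ 2 * y) = c 3 1 / 2 * (x ^ 3 * y) := by ring
  linarith

/-- Case C. -/
theorem caseC (h : Loc4 c η) (h30 : c 3 0 = 0) (h31 : c 3 1 = 0) (h22 : c 2 2 ≠ 0) :
    Grow4 c η := by
  have h40 := h.h40
  have hpos : 0 < c 2 2 := by
    by_contra hneg
    push Not at hneg
    have hlt : c 2 2 < 0 := lt_of_le_of_ne hneg h22
    set S := |c 1 3| + |c 0 4| with hS
    have hS0 : 0 ≤ S := by positivity
    set t := min η (-c 2 2 / (2 * (S + 1))) with ht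
    have ht0 : 0 < t := lt_min h.hη (div_pos (by linarith) (by positivity))
    have ht1 : t ≤ 1 := (min_le_left _ _).trans h.hη1
    have ht2 : t ≤ -c 2 2 / (2 * (S + 1)) := min_le_right _ _
    rw [le_div_iff₀ (by positivity)] at ht2
    have h1 := h.topnn t ht0.le (min_le_left _ _)
    rw [top4, h40, h31] at h1
    have a2 := le_abs_self (c 1 3)
    have a3 := le_abs_self (c 0 4)
    have b2 : c 1 3 * t ^ 3 ≤ |c 1 3| * t ^ 3 := mul_le_mul_of_nonneg_right a2 (by positivity)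
    have b3 : c 0 4 * t ^ 4 ≤ |c 0 4| * t ^ 3 := by
      have h2 : c 0 4 * t ^ 4 ≤ |c 0 4| * t ^ 4 := mul_le_mul_of_nonneg_right a3 (by positivity)
      have h3 : |c 0 4| * t ^ 4 ≤ |c 0 4| * t ^ 3 :=
        mul_le_mul_of_nonneg_left (pow_le_pow_of_le_one ht0.le ht1 (by norm_num)) (abs_nonneg _)
      linarith
    have b4 : S * t ^ 3 ≤ -c 2 2 / 2 * t ^ 2 := by
      have h4 : S * t ≤ -c 2 2 / 2 := by linarith
      have h5 := mul_le_mul_of_nonneg_right h4 (pow_nonneg ht0.le 2)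
      linarith
    rw [hS] at b4
    have b5 : c 2 2 / 2 * t ^ 2 < 0 := mul_neg_of_neg_of_pos (by linarith) (pow_pos ht0 2)
    linarith
  set S4 := |c 1 3| + |c 0 4| with hS4
  have hS40 : 0 ≤ S4 := by positivity
  set S3 := |c 2 1| + |c 1 2| + |c 0 3| with hS3
  have hS30 : 0 ≤ S3 := by positivity
  set S2 := |c 2 0| + |c 1 1| + |c 0 2| + |c 1 0| + |c 0 1| + |c 0 0| with hS2
  have hS20 : 0 ≤ S2 := by positivity
  set η' := min η (c 2 2 / (2 * (S4 + 1))) with hη'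
  have hη'0 : 0 < η' := lt_min h.hη (by positivity)
  have hη'1 : η' ≤ 1 := (min_le_left _ _).trans h.hη1
  have hη'2 : η' ≤ c 2 2 / (2 * (S4 + 1)) := min_le_right _ _
  rw [le_div_iff₀ (by positivity)] at hη'2
  obtain ⟨Y₀, hY₀⟩ := exists_nat_gt (max 1 (2 / c 2 2 * (S3 + S2 + 1)))
  refine h.of_large hη'0 (min_le_left _ _) Y₀ one_pos 1 fun x y hx1 hy hyx => ?_
  have hy1 : 1 ≤ y := ((le_max_left _ _).trans hY₀.le).trans hy
  have hy2 : 2 / c 2 2 * (S3 + S2 + 1) ≤ y := ((le_max_right _ _).trans hY₀.le).trans hy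
  have hx0 : 0 < x := by linarith
  have hy0 : 0 ≤ y := by linarith
  have hyx1 : y ≤ x := by
    have := mul_le_mul_of_nonneg_right hη'1 hx0.le
    linarith
  have h2 := low2 c hx1 hy0 hyx1
  rw [← hS2] at h2
  have n2 : x * y ^ 3 ≤ η' * (x ^ 2 * y ^ 2) := by
    have : (x * y ^ 2) * y ≤ (x * y ^ 2) * (η' * x) := mul_le_mul_of_nonneg_left hyx (by positivity)
    linarith
  have n3 : y ^ 4 ≤ η' * (x ^ 2 * y ^ 2) := by
    have : y ^ 3 * y ≤ y ^ 3 * x := mul_le_mul_of_nonneg_left hyx1 (by positivity)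
    linarith
  have m2 : x * y ^ 2 ≤ x ^ 2 * y := by
    have : (x * y) * y ≤ (x * y) * x := mul_le_mul_of_nonneg_left hyx1 (by positivity)
    linarith
  have m3 : y ^ 3 ≤ x ^ 2 * y := by
    have : y ^ 2 * y ≤ y ^ 2 * x := mul_le_mul_of_nonneg_left hyx1 (by positivity)
    linarith
  have f2 : -(|c 1 3| * (η' * (x ^ 2 * y ^ 2))) ≤ c 1 3 * (x * y ^ 3) :=
    mono_bound (by rw [abs_of_nonneg (by positivity)]; exact n2)
  have f3 : -(|c 0 4| * (η' * (x ^ 2 * y ^ 2))) ≤ c 0 4 * y ^ 4 :=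
    mono_bound (by rw [abs_of_nonneg (by positivity)]; exact n3)
  have d1 : -(|c 2 1| * (x ^ 2 * y)) ≤ c 2 1 * (x ^ 2 * y) :=
    mono_bound (by rw [abs_of_nonneg (by positivity)])
  have d2 : -(|c 1 2| * (x ^ 2 * y)) ≤ c 1 2 * (x * y ^ 2) :=
    mono_bound (by rw [abs_of_nonneg (by positivity)]; exact m2)
  have d3 : -(|c 0 3| * (x ^ 2 * y)) ≤ c 0 3 * y ^ 3 :=
    mono_bound (by rw [abs_of_nonneg (by positivity)]; exact m3)
  have g1 : S4 * (η' * (x ^ 2 * y ^ 2)) ≤ c 2 2 / 2 * (x ^ 2 * y ^ 2) := by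
    have h4 : S4 * η' ≤ c 2 2 / 2 := by linarith
    have h3 : 0 ≤ x ^ 2 * y ^ 2 := by positivity
    have h5 := mul_le_mul_of_nonneg_right h4 h3
    linarith
  have g2 : S2 * x ^ 2 ≤ S2 * (x ^ 2 * y) :=
    mul_le_mul_of_nonneg_left (le_mul_of_one_le_right (by positivity) (by linarith)) hS20
  have d5 : S3 + S2 + 1 ≤ c 2 2 / 2 * y := by
    rw [div_mul_eq_mul_div, div_le_iff₀ hpos] at hy2
    linarith
  have d6 : (S3 + S2 + 1) * (x ^ 2 * y) ≤ c 2 2 / 2 * y * (x ^ 2 * y) :=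
    mul_le_mul_of_nonneg_right d5 (by positivity)
  have d7 : x ≤ x ^ 2 * y := by
    have h5 : 1 * 1 ≤ x * y := mul_le_mul hx1 (by linarith) zero_le_one hx0.le
    have : x * 1 ≤ x * (x * y) := mul_le_mul_of_nonneg_left (by linarith) hx0.le
    linarith
  rw [ev4 h.hc, h40, h30, h31]
  have e1 : (|c 1 3| + |c 0 4|) * (η' * (x ^ 2 * y ^ 2)) = S4 * (η' * (x ^ 2 * y ^ 2)) := by
    rw [hS4]
  have e3 : (|c 2 1| + |c 1 2| + |c 0 3|) * (x ^ 2 * y) = S3 * (x ^ 2 * y) := by rw [hS3]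
  have e2 : c 2 2 / 2 * y * (x ^ 2 * y) = c 2 2 / 2 * (x ^ 2 * y ^ 2) := by ring
  linarith

/-- Case D. -/
theorem caseD (h : Loc4 c η) (h30 : c 3 0 = 0) (h21 : 0 < c 2 1) : Grow4 c η := by
  set S3 := |c 1 2| + |c 0 3| with hS3
  have hS30 : 0 ≤ S3 := by positivity
  set S2 := |c 2 0| + |c 1 1| + |c 0 2| + |c 1 0| + |c 0 1| + |c 0 0| with hS2
  have hS20 : 0 ≤ S2 := by positivity
  set η' := min η (c 2 1 / (2 * (S3 + 1))) with hη'
  have hη'0 : 0 < η' := lt_min h.hη (by positivity)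
  have hη'1 : η' ≤ 1 := (min_le_left _ _).trans h.hη1
  have hη'2 : η' ≤ c 2 1 / (2 * (S3 + 1)) := min_le_right _ _
  rw [le_div_iff₀ (by positivity)] at hη'2
  obtain ⟨Y₀, hY₀⟩ := exists_nat_gt (max 1 (2 / c 2 1 * (S2 + 1)))
  refine h.of_large hη'0 (min_le_left _ _) Y₀ one_pos 1 fun x y hx1 hy hyx => ?_
  have hy1 : 1 ≤ y := ((le_max_left _ _).trans hY₀.le).trans hy
  have hy2 : 2 / c 2 1 * (S2 + 1) ≤ y := ((le_max_right _ _).trans hY₀.le).trans hy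
  have hx0 : 0 < x := by linarith
  have hy0 : 0 ≤ y := by linarith
  have hyx1 : y ≤ x := by
    have := mul_le_mul_of_nonneg_right hη'1 hx0.le
    linarith
  have h2 := low2 c hx1 hy0 hyx1
  rw [← hS2] at h2
  have htη : y / x ≤ η := by
    rw [div_le_iff₀ hx0]
    exact hyx.trans (mul_le_mul_of_nonneg_right (min_le_left _ _) hx0.le)
  have h4 : 0 ≤ c 4 0 * x ^ 4 + c 3 1 * (x ^ 3 * y) + c 2 2 * (x ^ 2 * y ^ 2) +
      c 1 3 * (x * y ^ 3) + c 0 4 * y ^ 4 := by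
    rw [top4_hom c hx0]
    exact mul_nonneg (by positivity) (h.topnn _ (by positivity) htη)
  have m2 : x * y ^ 2 ≤ η' * (x ^ 2 * y) := by
    have : (x * y) * y ≤ (x * y) * (η' * x) := mul_le_mul_of_nonneg_left hyx (by positivity)
    linarith
  have m3 : y ^ 3 ≤ η' * (x ^ 2 * y) := by
    have : y ^ 2 * y ≤ y ^ 2 * x := mul_le_mul_of_nonneg_left hyx1 (by positivity)
    linarith
  have d2 : -(|c 1 2| * (η' * (x ^ 2 * y))) ≤ c 1 2 * (x * y ^ 2) :=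
    mono_bound (by rw [abs_of_nonneg (by positivity)]; exact m2)
  have d3 : -(|c 0 3| * (η' * (x ^ 2 * y))) ≤ c 0 3 * y ^ 3 :=
    mono_bound (by rw [abs_of_nonneg (by positivity)]; exact m3)
  have g1 : S3 * (η' * (x ^ 2 * y)) ≤ c 2 1 / 2 * (x ^ 2 * y) := by
    have h4 : S3 * η' ≤ c 2 1 / 2 := by linarith
    have h3 : 0 ≤ x ^ 2 * y := by positivity
    have h5 := mul_le_mul_of_nonneg_right h4 h3
    linarith
  have d5 : S2 + 1 ≤ c 2 1 / 2 * y := by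
    rw [div_mul_eq_mul_div, div_le_iff₀ h21] at hy2
    linarith
  have d6 : (S2 + 1) * x ^ 2 ≤ c 2 1 / 2 * y * x ^ 2 :=
    mul_le_mul_of_nonneg_right d5 (by positivity)
  have d7 : x ≤ x ^ 2 := by
    have := mul_le_mul_of_nonneg_left hx1 hx0.le
    linarith
  rw [ev4 h.hc]
  have e3 : (|c 1 2| + |c 0 3|) * (η' * (x ^ 2 * y)) = S3 * (η' * (x ^ 2 * y)) := by rw [hS3]
  have e2 : c 2 1 / 2 * y * x ^ 2 = c 2 1 / 2 * (x ^ 2 * y) := by ring
  rw [h30]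
  linarith

end Loc4

end Pool.Agent.Pack
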