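import Pool.Agent.Pack.Exp4

/-!
# The last case in degree at most four
-/

set_option autoImplicit false

open Polynomial Finset Filter Topology

namespace Pool.Agent.Pack

namespace Loc4

variable {c : ℕ → ℕ → ℝ} {η : ℝ}

/-- The thin case. -/
theorem thin_grow (h : Loc4 c η) {a : ℝ} (ha : 0 < a) (B E : ℝ → ℝ)
    (hF : ∀ x y : ℝ, ev 4 c x y = a * (x - B y) ^ 2 + E y) {K : ℝ} (hK : 1 ≤ K)
    (hB : ∀ y : ℕ, B y ≤ K * (1 + y)) : Grow4 c η := by
  have hη := h.hη
  set η' : ℝ := min (η / 4) (1 / (8 * K)) with hη'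
  have hη'0 : 0 < η' := lt_min (by linarith) (by positivity)
  have hη'1 : η' ≤ η / 4 := min_le_left _ _
  have hη'2 : η' ≤ 1 / (8 * K) := min_le_right _ _
  refine ⟨η', hη'0, by linarith, 1, one_pos, max (8 * K) (4 / a), ?_⟩
  rintro ⟨x, y⟩ ⟨hx0, hy0, hyx⟩ hx
  simp only at hx0 hy0 hyx hx ⊢
  lift y to ℕ using hy0
  rw [Int.cast_natCast] at *
  have hxr : (0 : ℝ) < x := by exact_mod_cast hx0
  have hx8 : 8 * K ≤ (x : ℝ) := (le_max_left _ _).trans hx
  have hxa : 4 / a ≤ (x : ℝ) := (le_max_right _ _).trans hx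
  set x₀ : ℕ := ⌈(y : ℝ) / η⌉₊ + 1 with hx₀
  have hx₀2 : (x₀ : ℝ) ≤ (y : ℝ) / η + 2 := by
    rw [hx₀]; push_cast; linarith [Nat.ceil_lt_add_one (a := (y : ℝ) / η) (by positivity)]
  have h0 := h.nonneg (h.mem y (le_refl x₀))
  simp only [Int.cast_natCast] at h0
  rw [hF] at h0
  rw [hF]
  have hBK := hB y
  have h1 : (y : ℝ) / η ≤ x / 4 := by
    rw [div_le_iff₀ hη]
    nlinarith
  have h2 : K * y ≤ x / 8 := by
    have h3 : K * η' ≤ 1 / 8 := by
      have : K * η' ≤ K * (1 / (8 * K)) := mul_le_mul_of_nonneg_left hη'2 (by linarith)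
      refine this.trans (le_of_eq ?_)
      field_simp
    nlinarith
  have h4 : x / 2 ≤ (x : ℝ) - x₀ := by nlinarith
  have h5 : (x : ℝ) / 2 ≤ x + x₀ - 2 * B y := by
    have : (0 : ℝ) ≤ x₀ := by positivity
    nlinarith
  have h6 : (x : ℝ) / 2 * (x / 2) ≤ (x - x₀) * (x + x₀ - 2 * B y) :=
    mul_le_mul h4 h5 (by positivity) (by linarith)
  have h7 : a * ((x : ℝ) / 2 * (x / 2)) ≤ a * ((x - x₀) * (x + x₀ - 2 * B y)) :=
    mul_le_mul_of_nonneg_left h6 ha.le
  have h8 : (x : ℝ) ≤ a * ((x : ℝ) / 2 * (x / 2)) := by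
    rw [div_le_iff₀ ha] at hxa
    nlinarith
  have h9 : a * ((x - (x₀ : ℝ)) * (x + x₀ - 2 * B y)) =
      a * ((x : ℝ) - B y) ^ 2 - a * ((x₀ : ℝ) - B y) ^ 2 := by ring
  linarith

/-- The parabola case. -/
theorem wide_grow (h : Loc4 c η) {a : ℝ} (ha : 0 < a) (b b₁ b₀ : ℝ) (hb : 0 < b) (pE : ℝ[X])
    (hF : ∀ x y : ℝ, ev 4 c x y = a * (x - (b * y ^ 2 + b₁ * y + b₀)) ^ 2 + pE.eval y) :
    Grow4 c η := by
  classical
  have hη := h.hη
  set B : ℝ → ℝ := fun y => b * y ^ 2 + b₁ * y + b₀ with hBdef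
  have hF' : ∀ x y : ℝ, ev 4 c x y = a * (x - B y) ^ 2 + pE.eval y := hF
  -- the parabola leaves the boundary of the half cone
  have hbig : ∀ M : ℝ, ∀ᶠ y : ℕ in atTop, (y : ℝ) / η + 1 + M ≤ B y := by
    intro M
    have e1 : ∀ᶠ y : ℕ in atTop, (|b₁| + |b₀| + 1 / η + 1 + |M|) / b + 1 ≤ (y : ℝ) :=
      (tendsto_natCast_atTop_atTop (R := ℝ)).eventually (eventually_ge_atTop _)
    filter_upwards [e1] with y hy
    have hS : 0 ≤ (|b₁| + |b₀| + 1 / η + 1 + |M|) / b := by positivity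
    have hy1 : (1 : ℝ) ≤ y := by linarith
    have h1 : (|b₁| + |b₀| + 1 / η + 1 + |M|) / b ≤ y := by linarith
    rw [div_le_iff₀ hb] at h1
    have h2 : (|b₁| + |b₀| + 1 / η + 1 + |M|) * y ≤ (y * b) * y :=
      mul_le_mul_of_nonneg_right h1 (by linarith)
    have a1 : -(|b₁| * y) ≤ b₁ * y := by nlinarith [neg_abs_le b₁]
    have a2 : -(|b₀| * y) ≤ b₀ := by nlinarith [neg_abs_le b₀, abs_nonneg b₀]
    have a3 : M ≤ |M| * y := by nlinarith [le_abs_self M, abs_nonneg M]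
    have a4 : (y : ℝ) / η = 1 / η * y := by ring
    simp only [hBdef]
    rw [a4]
    linarith
  -- points near the parabola
  have hpt : ∀ y : ℕ, (y : ℝ) / η + 1 ≤ B y → ∀ i : ℕ,
      (((⌈B y⌉₊ + i : ℕ) : ℤ), (y : ℤ)) ∈ HC η ∧
      ev 4 c ((⌈B y⌉₊ + i : ℕ) : ℝ) y ≤ a * ((i : ℝ) + 1) ^ 2 + pE.eval (y : ℝ) := by
    intro y hy i
    have hyη : 0 ≤ (y : ℝ) / η := by positivity
    have hB0 : 0 ≤ B y := by linarith
    have h1 : B y ≤ ⌈B y⌉₊ := Nat.le_ceil _
    have h2 : (⌈B y⌉₊ : ℝ) < B y + 1 := Nat.ceil_lt_add_one hB0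
    have hi : (0 : ℝ) ≤ i := by positivity
    constructor
    · refine mem_HC hη (by positivity) ?_ ?_
      · have : (0 : ℝ) < ((⌈B y⌉₊ + i : ℕ) : ℝ) := by push_cast; linarith
        exact_mod_cast this
      · simp only [Int.cast_natCast]
        push_cast
        linarith
    · rw [hF']
      push_cast
      have h3 : ((⌈B y⌉₊ : ℝ) + i - B y) ^ 2 ≤ ((i : ℝ) + 1) ^ 2 :=
        pow_le_pow_left₀ (by linarith) (by linarith) 2
      nlinarith
  have hElow : ∀ᶠ y : ℕ in atTop, -a ≤ pE.eval (y : ℝ) := by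
    filter_upwards [hbig 0] with y hy
    obtain ⟨h1, h2⟩ := hpt y (by linarith) 0
    have h3 := h.nonneg h1
    simp only [Int.cast_natCast] at h3
    have h4 : a * (((0 : ℕ) : ℝ) + 1) ^ 2 = a := by push_cast; ring
    rw [h4] at h2
    linarith
  by_cases hdeg : 2 ≤ pE.natDegree
  · have hne : pE ≠ 0 := by rintro h0; rw [h0] at hdeg; simp at hdeg
    have hdeg' : 0 < pE.degree := by
      rw [degree_eq_natDegree hne]; exact_mod_cast (by omega : 0 < pE.natDegree)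
    have hlc : 0 ≤ pE.leadingCoeff := by
      by_contra hneg
      push Not at hneg
      have h1 := (pE.tendsto_atBot_of_leadingCoeff_nonpos hdeg' hneg.le).comp
        tendsto_natCast_atTop_atTop
      obtain ⟨n, hn1, hn2⟩ := ((h1.eventually (eventually_lt_atBot (-a))).and hElow).exists
      simp only [Function.comp_apply] at hn1
      linarith
    have htop := pE.tendsto_atTop_of_leadingCoeff_nonneg hdeg' hlc
    have hX : (X ^ 2 : ℝ[X]).degree ≤ pE.degree := by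
      rw [degree_X_pow, degree_eq_natDegree hne]
      exact_mod_cast hdeg
    obtain ⟨C₁, hC₁, hbO⟩ := (isBigO_atTop_of_degree_le (X ^ 2 : ℝ[X]) pE hX).exists_pos
    rw [Asymptotics.IsBigOWith] at hbO
    obtain ⟨Y₁, hY₁⟩ := eventually_atTop.1
      ((tendsto_natCast_atTop_atTop (R := ℝ)).eventually
        ((hbO.and (htop.eventually (eventually_ge_atTop 0))).and (eventually_ge_atTop (1 : ℝ))))
    have hbigE : ∀ y : ℕ, Y₁ ≤ y → (y : ℝ) ^ 2 ≤ C₁ * pE.eval (y : ℝ) ∧ 0 ≤ pE.eval (y : ℝ) ∧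
        (1 : ℝ) ≤ y := by
      intro y hy
      obtain ⟨⟨h3, h4⟩, h5⟩ := hY₁ y hy
      rw [eval_pow, eval_X, Real.norm_eq_abs, Real.norm_eq_abs, abs_of_nonneg (by positivity),
        abs_of_nonneg h4] at h3
      exact ⟨h3, h4, h5⟩
    set CE : ℝ := ∑ y ∈ range Y₁, |pE.eval (y : ℝ)| with hCE
    have hCE0 : 0 ≤ CE := by positivity
    have hElow2 : ∀ y : ℕ, -CE ≤ pE.eval (y : ℝ) := by
      intro y
      rcases le_or_gt Y₁ y with hle | hlt
      · have := (hbigE y hle).2.1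
        linarith
      · have h3 : |pE.eval (y : ℝ)| ≤ CE :=
          Finset.single_le_sum (f := fun y : ℕ => |pE.eval (y : ℝ)|) (fun i _ => abs_nonneg _)
            (Finset.mem_range.2 hlt)
        have h4 := neg_abs_le (pE.eval (y : ℝ))
        linarith
    set b' : ℝ := b + |b₁| + |b₀| with hb'
    have hb'0 : 0 < b' := by positivity
    have hBup : ∀ y : ℕ, B y ≤ b' * (1 + (y : ℝ)) ^ 2 := by
      intro y
      have hy : (0 : ℝ) ≤ y := by positivity
      have a1 : b₁ * y ≤ |b₁| * (1 + y) ^ 2 := by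
        have : b₁ * y ≤ |b₁| * y := mul_le_mul_of_nonneg_right (le_abs_self _) hy
        have h2 : |b₁| * y ≤ |b₁| * (1 + y) ^ 2 :=
          mul_le_mul_of_nonneg_left (by nlinarith) (abs_nonneg _)
        linarith
      have a2 : b₀ ≤ |b₀| * (1 + y) ^ 2 := by
        have h2 : |b₀| * 1 ≤ |b₀| * (1 + (y : ℝ)) ^ 2 :=
          mul_le_mul_of_nonneg_left (by nlinarith) (abs_nonneg _)
        linarith [le_abs_self b₀]
      have a3 : b * (y : ℝ) ^ 2 ≤ b * (1 + y) ^ 2 :=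
        mul_le_mul_of_nonneg_left (by nlinarith) hb.le
      simp only [hBdef, hb']
      linarith
    refine ⟨η, hη, le_rfl, min 1 (1 / (8 * b' * C₁)), lt_min one_pos (by positivity),
      max (max 1 (4 / a * (CE + 1))) (2 * b' * (1 + Y₁) ^ 2 + 1), ?_⟩
    rintro ⟨x, y⟩ ⟨hx0, hy0, hyx⟩ hx
    simp only at hx0 hy0 hyx hx ⊢
    lift y to ℕ using hy0
    rw [Int.cast_natCast] at *
    have hxr : (0 : ℝ) < x := by exact_mod_cast hx0
    have hx1 : (1 : ℝ) ≤ x := (le_max_left _ _).trans ((le_max_left _ _).trans hx)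
    have hx2 : 4 / a * (CE + 1) ≤ (x : ℝ) := (le_max_right _ _).trans ((le_max_left _ _).trans hx)
    have hx3 : 2 * b' * (1 + (Y₁ : ℝ)) ^ 2 + 1 ≤ (x : ℝ) := (le_max_right _ _).trans hx
    rw [hF']
    rcases le_or_gt ((x : ℝ) / 2) |(x : ℝ) - B y| with hcase | hcase
    · have h1 : ((x : ℝ) / 2) ^ 2 ≤ ((x : ℝ) - B y) ^ 2 := by
        rw [← sq_abs ((x : ℝ) - B y)]
        exact pow_le_pow_left₀ (by positivity) hcase 2
      have h2 := hElow2 y
      have h3 : (CE + 1) * x ≤ a / 4 * x * x := by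
        refine mul_le_mul_of_nonneg_right ?_ hxr.le
        rw [div_mul_eq_mul_div, div_le_iff₀ ha] at hx2
        linarith
      have h4 : CE ≤ CE * x := by nlinarith
      have h5 : a * ((x : ℝ) / 2) ^ 2 ≤ a * ((x : ℝ) - B y) ^ 2 :=
        mul_le_mul_of_nonneg_left h1 ha.le
      have h6 : min 1 (1 / (8 * b' * C₁)) * (x : ℝ) ≤ 1 * x :=
        mul_le_mul_of_nonneg_right (min_le_left _ _) hxr.le
      linarith
    · have h1 : (x : ℝ) / 2 < B y := by
        have := (abs_lt.1 hcase).2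
        linarith
      have h2 := hBup y
      have h3 : x ≤ 2 * b' * (1 + (y : ℝ)) ^ 2 := by linarith
      have hY : Y₁ ≤ y := by
        by_contra hlt
        push Not at hlt
        have h4 : (y : ℝ) ≤ Y₁ := by exact_mod_cast hlt.le
        have h5 : (1 + (y : ℝ)) ^ 2 ≤ (1 + (Y₁ : ℝ)) ^ 2 :=
          pow_le_pow_left₀ (by positivity) (by linarith) 2
        have h6 : 2 * b' * (1 + (y : ℝ)) ^ 2 ≤ 2 * b' * (1 + (Y₁ : ℝ)) ^ 2 :=
          mul_le_mul_of_nonneg_left h5 (by positivity)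
        linarith
      obtain ⟨h4, h5, h6⟩ := hbigE y hY
      have h7 : (1 + (y : ℝ)) ^ 2 ≤ 4 * (y : ℝ) ^ 2 := by nlinarith
      have h8 : (x : ℝ) ≤ 8 * b' * (C₁ * pE.eval (y : ℝ)) := by
        have h9 : 2 * b' * (1 + (y : ℝ)) ^ 2 ≤ 2 * b' * (4 * (y : ℝ) ^ 2) :=
          mul_le_mul_of_nonneg_left h7 (by positivity)
        have h10 : 2 * b' * (4 * (y : ℝ) ^ 2) ≤ 2 * b' * (4 * (C₁ * pE.eval (y : ℝ))) :=
          mul_le_mul_of_nonneg_left (by linarith) (by positivity)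
        linarith
      have h9 : min 1 (1 / (8 * b' * C₁)) * (x : ℝ) ≤ 1 / (8 * b' * C₁) * x :=
        mul_le_mul_of_nonneg_right (min_le_right _ _) hxr.le
      have h10 : 1 / (8 * b' * C₁) * (x : ℝ) ≤ pE.eval (y : ℝ) := by
        rw [div_mul_eq_mul_div, one_mul, div_le_iff₀ (by positivity)]
        linarith
      have h11 : 0 ≤ a * ((x : ℝ) - B y) ^ 2 := by positivity
      linarith
  · -- too many points with small values
    exfalso
    push Not at hdeg
    set e : ℝ := |pE.coeff 1| + |pE.coeff 0| with he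
    have he0 : 0 ≤ e := by positivity
    have hEup : ∀ y : ℕ, pE.eval (y : ℝ) ≤ e * (1 + y) := by
      intro y
      rw [eval_eq_sum_range' hdeg, Finset.sum_range_succ, Finset.sum_range_one, pow_zero, pow_one]
      have h1 := le_abs_self (pE.coeff 1)
      have h2 := le_abs_self (pE.coeff 0)
      have h3 := abs_nonneg (pE.coeff 1)
      have h4 := abs_nonneg (pE.coeff 0)
      have h5 : (0 : ℝ) ≤ y := by positivity
      nlinarith
    obtain ⟨M, hM⟩ := exists_nat_gt (e + 1)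
    obtain ⟨Y, hY⟩ := eventually_atTop.1 (hbig 0)
    obtain ⟨N, hN⟩ := exists_nat_gt (a * (M : ℝ) ^ 2 + e * (1 + Y) + 1)
    set V : ℝ := a * (M : ℝ) ^ 2 + e * (1 + (Y + N)) with hV
    have hV0 : 0 ≤ V := by positivity
    set pt : ℕ × ℕ → ℤ × ℤ := fun q =>
      (((⌈B ((Y + q.2 : ℕ) : ℝ)⌉₊ + q.1 : ℕ) : ℤ), ((Y + q.2 : ℕ) : ℤ)) with hpt'
    have hval : ∀ q : ℕ × ℕ, ∃ m : ℕ, ev 4 c (pt q).1 (pt q).2 = m := by
      intro q
      exact h.int _ (hpt (Y + q.2) (by have := hY (Y + q.2) (by omega); linarith) q.1).1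
    choose val hval using hval
    have hbound : ∀ q ∈ range M ×ˢ range N, val q ∈ range (⌊V⌋₊ + 1) := by
      intro q hq
      rw [Finset.mem_product, Finset.mem_range, Finset.mem_range] at hq
      rw [Finset.mem_range, Nat.lt_succ_iff]
      refine Nat.le_floor ?_
      rw [← hval]
      have h1 := (hpt (Y + q.2) (by have := hY (Y + q.2) (by omega); linarith) q.1).2
      have h2 := hEup (Y + q.2)
      simp only [hpt', Int.cast_natCast]
      refine h1.trans ?_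
      have h3 : ((q.1 : ℝ) + 1) ≤ M := by exact_mod_cast hq.1
      have h4 : (((Y + q.2 : ℕ) : ℝ)) ≤ Y + N := by
        push_cast
        have : (q.2 : ℝ) ≤ N := by exact_mod_cast hq.2.le
        linarith
      have h5 : a * ((q.1 : ℝ) + 1) ^ 2 ≤ a * (M : ℝ) ^ 2 :=
        mul_le_mul_of_nonneg_left (pow_le_pow_left₀ (by positivity) h3 2) ha.le
      have h6 : e * (1 + ((Y + q.2 : ℕ) : ℝ)) ≤ e * (1 + (Y + N)) :=
        mul_le_mul_of_nonneg_left (by linarith) he0
      rw [hV]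
      linarith
    have hinj : Set.InjOn val (range M ×ˢ range N : Finset (ℕ × ℕ)) := by
      intro q _ q' _ hqq
      have h1 := h.inj (pt q)
        (hpt (Y + q.2) (by have := hY (Y + q.2) (by omega); linarith) q.1).1 (pt q')
        (hpt (Y + q'.2) (by have := hY (Y + q'.2) (by omega); linarith) q'.1).1
        (by rw [hval, hval, hqq])
      have h2 := congrArg Prod.snd h1
      have h3 := congrArg Prod.fst h1
      simp only [hpt'] at h2 h3
      have h4 : q.2 = q'.2 := by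
        have : Y + q.2 = Y + q'.2 := by exact_mod_cast h2
        omega
      rw [h4] at h3
      have h5 : q.1 = q'.1 := by
        have : ⌈B ((Y + q'.2 : ℕ) : ℝ)⌉₊ + q.1 = ⌈B ((Y + q'.2 : ℕ) : ℝ)⌉₊ + q'.1 := by
          exact_mod_cast h3
        omega
      exact Prod.ext h5 h4
    have hcard := Finset.card_le_card_of_injOn val hbound hinj
    rw [Finset.card_product, Finset.card_range, Finset.card_range, Finset.card_range] at hcard
    have h1 : ((M * N : ℕ) : ℝ) ≤ V + 1 := by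
      have h2 : ((M * N : ℕ) : ℝ) ≤ ((⌊V⌋₊ + 1 : ℕ) : ℝ) := by exact_mod_cast hcard
      push_cast at h2 ⊢
      linarith [Nat.floor_le hV0]
    push_cast at h1
    rw [hV] at h1
    have hN0 : (0 : ℝ) ≤ N := by positivity
    have h3 : (e + 1) * N ≤ M * N := mul_le_mul_of_nonneg_right hM.le hN0
    nlinarith

/-- Case E. -/
theorem caseE (h : Loc4 c η) (h30 : c 3 0 = 0) (h31 : c 3 1 = 0) (h22 : c 2 2 = 0)
    (h21 : c 2 1 = 0) (h20 : c 2 0 ≠ 0) : Grow4 c η := by
  have h40 := h.h40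
  have hη := h.hη
  have hexp : ∀ x y : ℝ, ev 4 c x y = c 2 0 * x ^ 2 +
      (c 1 3 * y ^ 3 + c 1 2 * y ^ 2 + c 1 1 * y + c 1 0) * x +
      (c 0 4 * y ^ 4 + c 0 3 * y ^ 3 + c 0 2 * y ^ 2 + c 0 1 * y + c 0 0) := by
    intro x y
    rw [ev4 h.hc, h40, h31, h22, h30, h21]
    ring
  -- `a > 0`
  have ha : 0 < c 2 0 := by
    by_contra hneg
    push Not at hneg
    have hlt : c 2 0 < 0 := lt_of_le_of_ne hneg h20
    obtain ⟨c₁, hc₁, X₁, h1⟩ := h.line_grow 0
    have hS : 0 ≤ (|c 1 0| + |c 0 0|) / (-c 2 0) := div_nonneg (by positivity) (by linarith)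
    set x : ℝ := max X₁ ((|c 1 0| + |c 0 0|) / (-c 2 0) + 1) with hx
    have hx1 : X₁ ≤ x := le_max_left _ _
    have hx2 : (|c 1 0| + |c 0 0|) / (-c 2 0) + 1 ≤ x := le_max_right _ _
    have h2 := h1 x hx1
    rw [hexp] at h2
    simp only [Nat.cast_zero] at h2
    have hx3 : 1 ≤ x := by linarith
    have h3 : (|c 1 0| + |c 0 0|) / (-c 2 0) ≤ x := by linarith
    rw [div_le_iff₀ (by linarith)] at h3
    have a1 : c 1 0 * x ≤ |c 1 0| * x := mul_le_mul_of_nonneg_right (le_abs_self _) (by linarith)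
    have a2 : c 0 0 ≤ |c 0 0| * x :=
      (le_abs_self _).trans (le_mul_of_one_le_right (abs_nonneg _) hx3)
    have a3 : (|c 1 0| + |c 0 0|) * x ≤ x * -c 2 0 * x := mul_le_mul_of_nonneg_right h3 (by linarith)
    have a4 : 0 < c₁ * x := mul_pos hc₁ (by linarith)
    nlinarith
  set a := c 2 0 with hadef
  -- `c 1 3 ≥ 0`
  have h13 : 0 ≤ c 1 3 := by
    by_contra hneg
    push Not at hneg
    set t := min η (-c 1 3 / (2 * (|c 0 4| + 1))) with ht
    have ht0 : 0 < t := lt_min h.hη (div_pos (by linarith) (by positivity))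
    have ht2 : t ≤ -c 1 3 / (2 * (|c 0 4| + 1)) := min_le_right _ _
    rw [le_div_iff₀ (by positivity)] at ht2
    have h1 := h.topnn t ht0.le (min_le_left _ _)
    rw [top4, h40, h31, h22] at h1
    have h2 : 0 + 0 * t + 0 * t ^ 2 + c 1 3 * t ^ 3 + c 0 4 * t ^ 4 = t ^ 3 * (c 1 3 + c 0 4 * t) := by
      ring
    rw [h2] at h1
    have h3 : c 1 3 + c 0 4 * t < 0 := by
      have h4 : c 0 4 * t ≤ |c 0 4| * t := mul_le_mul_of_nonneg_right (le_abs_self _) ht0.le
      nlinarith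
    have h5 : 0 < t ^ 3 := by positivity
    nlinarith
  have hF : ∀ x y : ℝ, ev 4 c x y =
      a * (x - (-(c 1 3 * y ^ 3 + c 1 2 * y ^ 2 + c 1 1 * y + c 1 0) / (2 * a))) ^ 2 +
      ((c 0 4 * y ^ 4 + c 0 3 * y ^ 3 + c 0 2 * y ^ 2 + c 0 1 * y + c 0 0) -
        (c 1 3 * y ^ 3 + c 1 2 * y ^ 2 + c 1 1 * y + c 1 0) ^ 2 / (4 * a)) := by
    intro x y
    rw [hexp]
    field_simp
    ring
  rcases lt_or_eq_of_le h13 with h13 | h13
  · -- bounded vertex
    set K : ℝ := max 1 ((|c 1 2| ^ 3 / c 1 3 ^ 2 + |c 1 1| + |c 1 0|) / (2 * a)) with hK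
    refine h.thin_grow ha (fun y => -(c 1 3 * y ^ 3 + c 1 2 * y ^ 2 + c 1 1 * y + c 1 0) / (2 * a))
      (fun y => (c 0 4 * y ^ 4 + c 0 3 * y ^ 3 + c 0 2 * y ^ 2 + c 0 1 * y + c 0 0) -
        (c 1 3 * y ^ 3 + c 1 2 * y ^ 2 + c 1 1 * y + c 1 0) ^ 2 / (4 * a)) hF
      (le_max_left _ _ : 1 ≤ K) fun y => ?_
    have hy : (0 : ℝ) ≤ y := by positivity
    have h1 : -(|c 1 2| ^ 3 / c 1 3 ^ 2) ≤ c 1 3 * (y : ℝ) ^ 3 + c 1 2 * y ^ 2 := by
      have h2 : c 1 3 * (y : ℝ) ^ 3 + c 1 2 * y ^ 2 = y ^ 2 * (c 1 3 * y + c 1 2) := by ring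
      rw [h2]
      rcases le_or_gt 0 (c 1 3 * (y : ℝ) + c 1 2) with h3 | h3
      · have : 0 ≤ (y : ℝ) ^ 2 * (c 1 3 * y + c 1 2) := by positivity
        have : 0 ≤ |c 1 2| ^ 3 / c 1 3 ^ 2 := by positivity
        linarith
      · have h4 : (y : ℝ) ≤ |c 1 2| / c 1 3 := by
          rw [le_div_iff₀ h13]
          have := neg_abs_le (c 1 2)
          have h5 : -c 1 2 ≤ |c 1 2| := neg_le_abs _
          linarith
        have h5 : (y : ℝ) ^ 2 ≤ (|c 1 2| / c 1 3) ^ 2 := pow_le_pow_left₀ hy h4 2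
        have h6 : -|c 1 2| ≤ c 1 3 * (y : ℝ) + c 1 2 := by
          have := neg_abs_le (c 1 2)
          have : 0 ≤ c 1 3 * (y : ℝ) := by positivity
          linarith
        have h7 : (y : ℝ) ^ 2 * (-|c 1 2|) ≤ (y : ℝ) ^ 2 * (c 1 3 * y + c 1 2) :=
          mul_le_mul_of_nonneg_left h6 (by positivity)
        have h8 : (y : ℝ) ^ 2 * |c 1 2| ≤ (|c 1 2| / c 1 3) ^ 2 * |c 1 2| :=
          mul_le_mul_of_nonneg_right h5 (abs_nonneg _)
        have h9 : (|c 1 2| / c 1 3) ^ 2 * |c 1 2| = |c 1 2| ^ 3 / c 1 3 ^ 2 := by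
          rw [div_pow]; ring
        linarith
    have h2 : -(|c 1 1| * y) ≤ c 1 1 * y := by nlinarith [neg_abs_le (c 1 1)]
    have h3 := neg_abs_le (c 1 0)
    have h4 : (|c 1 2| ^ 3 / c 1 3 ^ 2 + |c 1 1| + |c 1 0|) / (2 * a) * (1 + y) ≤ K * (1 + y) :=
      mul_le_mul_of_nonneg_right (le_max_right _ _) (by linarith)
    refine le_trans ?_ h4
    rw [div_mul_eq_mul_div]
    refine div_le_div_of_nonneg_right ?_ (by linarith)
    have h5 : 0 ≤ |c 1 2| ^ 3 / c 1 3 ^ 2 * y := by positivity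
    have h6 : 0 ≤ |c 1 0| * y := by positivity
    have h7 := abs_nonneg (c 1 1)
    nlinarith
  · rcases le_or_gt 0 (c 1 2) with h12 | h12
    · set K : ℝ := max 1 ((|c 1 1| + |c 1 0|) / (2 * a)) with hK
      refine h.thin_grow ha
        (fun y => -(c 1 3 * y ^ 3 + c 1 2 * y ^ 2 + c 1 1 * y + c 1 0) / (2 * a))
        (fun y => (c 0 4 * y ^ 4 + c 0 3 * y ^ 3 + c 0 2 * y ^ 2 + c 0 1 * y + c 0 0) -
          (c 1 3 * y ^ 3 + c 1 2 * y ^ 2 + c 1 1 * y + c 1 0) ^ 2 / (4 * a)) hF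
        (le_max_left _ _ : 1 ≤ K) fun y => ?_
      have hy : (0 : ℝ) ≤ y := by positivity
      have h1 : 0 ≤ c 1 2 * (y : ℝ) ^ 2 := by positivity
      have h2 : -(|c 1 1| * y) ≤ c 1 1 * y := by nlinarith [neg_abs_le (c 1 1)]
      have h3 := neg_abs_le (c 1 0)
      have h4 : (|c 1 1| + |c 1 0|) / (2 * a) * (1 + y) ≤ K * (1 + y) :=
        mul_le_mul_of_nonneg_right (le_max_right _ _) (by linarith)
      refine le_trans ?_ h4
      rw [div_mul_eq_mul_div]
      refine div_le_div_of_nonneg_right ?_ (by linarith)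
      rw [← h13]
      have h6 : 0 ≤ |c 1 0| * y := by positivity
      have h7 := abs_nonneg (c 1 1)
      nlinarith
    · -- the parabola
      refine h.wide_grow ha (-c 1 2 / (2 * a)) (-c 1 1 / (2 * a)) (-c 1 0 / (2 * a))
        (div_pos (by linarith) (by linarith))
        (C (c 0 4 - c 1 2 ^ 2 / (4 * a)) * X ^ 4 + C (c 0 3 - c 1 2 * c 1 1 / (2 * a)) * X ^ 3 +
          C (c 0 2 - (c 1 1 ^ 2 + 2 * c 1 2 * c 1 0) / (4 * a)) * X ^ 2 +
          C (c 0 1 - c 1 1 * c 1 0 / (2 * a)) * X + C (c 0 0 - c 1 0 ^ 2 / (4 * a))) ?_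
      intro x y
      simp only [eval_add, eval_mul, eval_C, eval_pow, eval_X]
      rw [hF, ← h13]
      field_simp
      ring

/-- Linear growth near rational directions in degree at most four. -/
theorem grow (h : Loc4 c η) (hD : ∃ i j, 2 ≤ i ∧ c i j ≠ 0) : Grow4 c η := by
  by_cases h30 : c 3 0 = 0
  · by_cases h31 : c 3 1 = 0
    · by_cases h22 : c 2 2 = 0
      · by_cases h21 : c 2 1 = 0
        · have h20 : c 2 0 ≠ 0 := by
            obtain ⟨i, j, hi, hij⟩ := hD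
            intro h20
            apply hij
            by_cases hlt : 4 < i + j
            · exact h.hc i j hlt
            · have h40 := h.h40
              have : (i = 2 ∧ j = 0) ∨ (i = 2 ∧ j = 1) ∨ (i = 2 ∧ j = 2) ∨ (i = 3 ∧ j = 0) ∨
                (i = 3 ∧ j = 1) ∨ (i = 4 ∧ j = 0) := by omega
              rcases this with ⟨rfl, rfl⟩ | ⟨rfl, rfl⟩ | ⟨rfl, rfl⟩ | ⟨rfl, rfl⟩ | ⟨rfl, rfl⟩ |
                ⟨rfl, rfl⟩ <;> assumption
          exact h.caseE h30 h31 h22 h21 h20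
        · -- the sign of `c 2 1`
          refine h.caseD h30 ?_
          by_contra hneg
          push Not at hneg
          have hlt : c 2 1 < 0 := lt_of_le_of_ne hneg h21
          -- a line with negative coefficient of `x²`
          obtain ⟨y, hy⟩ := exists_nat_gt ((|c 2 0| + 1) / (-c 2 1))
          rw [div_lt_iff₀ (by linarith)] at hy
          obtain ⟨c₁, hc₁, X₁, h1⟩ := h.line_grow y
          set p1 : ℝ := c 1 3 * (y : ℝ) ^ 3 + c 1 2 * y ^ 2 + c 1 1 * y + c 1 0 with hp1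
          set p0 : ℝ := c 0 4 * (y : ℝ) ^ 4 + c 0 3 * y ^ 3 + c 0 2 * y ^ 2 + c 0 1 * y + c 0 0
            with hp0
          have hexp : ∀ x : ℝ, ev 4 c x y = (c 2 1 * y + c 2 0) * x ^ 2 + p1 * x + p0 := by
            intro x
            rw [ev4 h.hc, h.h40, h31, h22, h30, hp1, hp0]
            ring
          set x : ℝ := max X₁ (|p1| + |p0| + 1) with hx
          have hx1 : X₁ ≤ x := le_max_left _ _
          have hx2 : |p1| + |p0| + 1 ≤ x := le_max_right _ _
          have h2 := h1 x hx1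
          rw [hexp] at h2
          have h3 : c 2 1 * y + c 2 0 ≤ -1 := by
            have := le_abs_self (c 2 0)
            linarith
          have hx3 : 1 ≤ x := by
            have := abs_nonneg p1
            have := abs_nonneg p0
            linarith
          have a1 : p1 * x ≤ |p1| * x := mul_le_mul_of_nonneg_right (le_abs_self _) (by linarith)
          have a2 : p0 ≤ |p0| * x :=
            (le_abs_self _).trans (le_mul_of_one_le_right (abs_nonneg _) hx3)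
          have a3 : (c 2 1 * y + c 2 0) * x ^ 2 ≤ -1 * x ^ 2 :=
            mul_le_mul_of_nonneg_right h3 (by positivity)
          have a4 : 0 < c₁ * x := mul_pos hc₁ (by linarith)
          have a5 : (|p1| + |p0| + 1) * x ≤ x * x := mul_le_mul_of_nonneg_right hx2 (by linarith)
          nlinarith
      · exact h.caseC h30 h31 h22
    · exact h.caseB h30 h31
  · exact h.caseA h30

end Loc4

end Pool.Agent.Pack
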