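import Pool.Agent.Pack.Side2

/-!
# Assembly
-/

set_option autoImplicit false

open Polynomial Finset Filter Topology

namespace Pool.Agent.Pack

/-- The multiplicity of an irrational root of a rational polynomial is at most half the degree. -/
theorem two_mul_rootMultiplicity_le {θ : ℝ} (hθ : Irrational θ) :
    ∀ (n : ℕ) (q : ℚ[X]), q.natDegree = n → q ≠ 0 →
      2 * (q.map (algebraMap ℚ ℝ)).rootMultiplicity θ ≤ q.natDegree := by
  intro n
  induction n using Nat.strong_induction_on with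
  | _ n ih =>
    intro q hn hq
    have hqm : q.map (algebraMap ℚ ℝ) ≠ 0 := by
      rwa [Ne, Polynomial.map_eq_zero]
    by_cases hroot : (q.map (algebraMap ℚ ℝ)).IsRoot θ
    · have haeval : aeval θ q = 0 := by
        rwa [IsRoot.def, eval_map, ← aeval_def] at hroot
      have hint : IsIntegral ℚ θ := isAlgebraic_iff_isIntegral.1 ⟨q, hq, haeval⟩
      obtain ⟨q₂, hq₂⟩ := minpoly.dvd ℚ θ haeval
      have hm0 : minpoly ℚ θ ≠ 0 := minpoly.ne_zero hint
      have hq₂0 : q₂ ≠ 0 := by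
        rintro rfl
        rw [mul_zero] at hq₂
        exact hq hq₂
      have hdeg : q.natDegree = (minpoly ℚ θ).natDegree + q₂.natDegree := by
        rw [hq₂, natDegree_mul hm0 hq₂0]
      have hmdeg : 2 ≤ (minpoly ℚ θ).natDegree := by
        have h1 := minpoly.natDegree_pos hint
        have h2 : (minpoly ℚ θ).natDegree ≠ 1 := by
          intro h1
          obtain ⟨r, hr⟩ := minpoly.natDegree_eq_one_iff.1 h1
          exact hθ ⟨r, hr⟩
        omega
      have h3 := ih q₂.natDegree (by omega) q₂ rfl hq₂0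
      have hsep : ((minpoly ℚ θ).map (algebraMap ℚ ℝ)).Separable :=
        (minpoly.irreducible hint).separable.map
      have h4 := rootMultiplicity_le_one_of_separable hsep θ
      have h5 : (q.map (algebraMap ℚ ℝ)).rootMultiplicity θ =
          ((minpoly ℚ θ).map (algebraMap ℚ ℝ)).rootMultiplicity θ +
          (q₂.map (algebraMap ℚ ℝ)).rootMultiplicity θ := by
        have h6 : q.map (algebraMap ℚ ℝ) = (minpoly ℚ θ).map (algebraMap ℚ ℝ) *
            q₂.map (algebraMap ℚ ℝ) := by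
          rw [← Polynomial.map_mul, ← hq₂]
        rw [h6] at hqm ⊢
        exact rootMultiplicity_mul hqm
      omega
    · rw [rootMultiplicity_eq_zero hroot]
      omega

namespace Pre

variable {d : ℕ} {c : ℕ → ℕ → ℝ} {α : ℝ}

/-- On horizontal lines the values at large naturals are integers. -/
theorem hor_int (h : Pre d c α) (y : ℕ) : ∀ n : ℕ, ⌈(y : ℝ) / α⌉₊ ≤ n →
    ∃ m : ℤ, (hor d c (y : ℝ)).eval (n : ℝ) = m := by
  intro n hn
  have hα := h.hα
  have h1 : (y : ℝ) / α ≤ n := (Nat.le_ceil _).trans (by exact_mod_cast hn)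
  have h2 : (((n : ℤ), (y : ℤ)) : ℤ × ℤ) ∈ Sec α := by
    refine ⟨by positivity, by positivity, ?_⟩
    rw [div_le_iff₀ hα] at h1
    simp only [Int.cast_natCast]
    linarith
  obtain ⟨m, hm⟩ := h.int _ h2
  refine ⟨m, ?_⟩
  rw [hor_eval]
  simpa using hm

/-- The rows have rational coefficients. -/
theorem row_rat (h : Pre d c α) (i : ℕ) (hi : i ≤ d) :
    ∃ q : ℚ[X], q.map (algebraMap ℚ ℝ) = row d c i := by
  refine rat_of_values _ 0 fun y _ => ?_
  obtain ⟨q, hq⟩ := rat_of_values (hor d c (y : ℝ)) ⌈(y : ℝ) / α⌉₊ (fun n hn => by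
    obtain ⟨m, hm⟩ := h.hor_int y n hn
    exact ⟨m, by rw [hm]; simp⟩)
  refine ⟨q.coeff i, ?_⟩
  have h1 := congrArg (fun p : ℝ[X] => p.coeff i) hq
  simp only [coeff_map, hor_coeff, if_pos hi] at h1
  rw [← h1]
  rfl

/-- The top form has rational coefficients. -/
theorem top_rat (h : Pre d c α) :
    ∃ q : ℚ[X], q.map (algebraMap ℚ ℝ) = top d c := by
  classical
  choose! Q hQ using h.row_rat
  refine ⟨∑ j ∈ range (d + 1), C ((Q (d - j)).coeff j) * X ^ j, ?_⟩
  rw [Polynomial.map_sum, top]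
  refine Finset.sum_congr rfl fun j hj => ?_
  have hj' : j ≤ d := Nat.lt_succ_iff.1 (mem_range.1 hj)
  rw [Polynomial.map_mul, Polynomial.map_C, Polynomial.map_pow, Polynomial.map_X]
  have h1 := congrArg (fun p : ℝ[X] => p.coeff j) (hQ (d - j) (Nat.sub_le _ _))
  simp only [coeff_map, row_coeff, if_pos hj'] at h1
  rw [h1]

end Pre

namespace Glob

variable {d : ℕ} {c : ℕ → ℕ → ℝ} {α c₀ C₀ : ℝ}

theorem negAt_irr (h : Glob d c α c₀ C₀) {z : ℝ} (hz : Irrational z)
    (hzero : (top d c).eval z = 0) : NegAt d c α z := by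
  have hd := h.hd
  obtain ⟨q, hq⟩ := h.top_rat
  have hq0 : q ≠ 0 := by
    rintro rfl
    rw [Polynomial.map_zero] at hq
    exact h.htop hq.symm
  have h1 := two_mul_rootMultiplicity_le hz _ q rfl hq0
  rw [hq] at h1
  have h2 : q.natDegree ≤ d := by
    rw [← natDegree_map (algebraMap ℚ ℝ), hq]
    exact top_natDegree_le d c
  obtain ⟨g₁, hg₁, hnd⟩ := exists_eq_pow_rootMultiplicity_mul_and_not_dvd (top d c) h.htop z
  have hμ : 1 ≤ (top d c).rootMultiplicity z :=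
    (rootMultiplicity_pos h.htop).2 hzero
  have hne : g₁.eval z ≠ 0 := by
    intro h0
    exact hnd (dvd_iff_isRoot.2 h0)
  obtain ⟨η, hη, hcount⟩ := irr_count hd h.hc hz hμ (by omega) hg₁ hne
    {v | v ∈ Sec α ∧ 0 < v.1} (fun v hv => hv.2) (fun v hv => h.nonneg hv.1) h.hc₀
    (fun v hv => h.grow v hv.1)
  refine ⟨∅, Set.finite_empty, fun L hL => absurd hL (Set.notMem_empty L), fun ε hε => ?_⟩
  refine ⟨η, hη, ?_⟩
  filter_upwards [hcount ε hε] with n hn
  have hsub : {v | v ∈ {v | v ∈ Sec α ∧ 0 < v.1 ∧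
      |(v.2 : ℝ) - z * v.1| ≤ η * v.1 ∧ ∀ L ∈ (∅ : Set (Set (ℤ × ℤ))), v ∉ L} ∧ val d c v ≤ n} ⊆
      {v : ℤ × ℤ | v ∈ {v | v ∈ Sec α ∧ 0 < v.1} ∧ |(v.2 : ℝ) - z * v.1| ≤ η * v.1 ∧
        ev d c v.1 v.2 ≤ n} := by
    rintro v ⟨⟨h1, h2, h3, _⟩, h4⟩
    exact ⟨⟨h1, h2⟩, h3, h4⟩
  refine ⟨hn.1.subset hsub, le_trans ?_ hn.2⟩
  exact_mod_cast Set.ncard_le_ncard hsub hn.1

theorem negAt (h : Glob d c α c₀ C₀) {z : ℝ} (hz0 : 0 ≤ z) (hzα : z ≤ α)
    (hzero : (top d c).eval z = 0) : NegAt d c α z := by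
  by_cases hz : Irrational z
  · exact h.negAt_irr hz hzero
  · rw [Irrational, not_not] at hz
    obtain ⟨q, rfl⟩ := hz
    have h1 : ((q : ℚ) : ℝ) = ((q.num : ℤ) : ℝ) / ((q.den : ℤ) : ℝ) := by
      rw [Int.cast_natCast]
      exact_mod_cast (Rat.num_div_den q).symm
    rw [h1] at hz0 hzα hzero ⊢
    refine h.negAt_rat (by exact_mod_cast q.den_pos) ?_ hz0 hzα hzero
    rw [Int.isCoprime_iff_gcd_eq_one, Int.gcd_comm, Int.gcd, Int.natAbs_natCast]
    exact q.reduced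

/-- Away from the zeros of the top form. -/
theorem away (h : Glob d c α c₀ C₀) (Z : Finset ℝ)
    (hZ : ∀ z, 0 ≤ z → z ≤ α → (top d c).eval z = 0 → z ∈ Z) (ρ : ℝ → ℝ) (hρ : ∀ z ∈ Z, 0 < ρ z)
    (ε : ℝ) (hε : 0 < ε) :
    Small (val d c) ε {v | v ∈ Sec α ∧ 0 < v.1 ∧ ∀ z ∈ Z, ρ z * v.1 < |(v.2 : ℝ) - z * v.1|} := by
  classical
  have hd := h.hd
  have hα := h.hα
  -- a lower bound for the top form
  obtain ⟨γ, hγ, hγb⟩ : ∃ γ > 0, ∀ t, 0 ≤ t → t ≤ α → (∀ z ∈ Z, ρ z ≤ |t - z|) →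
      γ ≤ |(top d c).eval t| := by
    set K : Set ℝ := {t | t ∈ Set.Icc 0 α ∧ ∀ z ∈ Z, ρ z ≤ |t - z|} with hK
    have hKc : IsCompact K := by
      refine isCompact_Icc.of_isClosed_subset ?_ (fun t ht => ht.1)
      have : K = Set.Icc 0 α ∩ ⋂ z ∈ Z, {t | ρ z ≤ |t - z|} := by
        ext t
        simp only [hK, Set.mem_inter_iff, Set.mem_iInter]
        exact Iff.rfl
      rw [this]
      refine isClosed_Icc.inter (isClosed_biInter fun z _ => ?_)
      exact isClosed_le continuous_const (by fun_prop)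
    rcases K.eq_empty_or_nonempty with hemp | hne
    · refine ⟨1, one_pos, fun t h1 h2 h3 => ?_⟩
      have : t ∈ K := ⟨⟨h1, h2⟩, h3⟩
      rw [hemp] at this
      exact absurd this (Set.notMem_empty t)
    · obtain ⟨t₀, ht₀, hmin⟩ := hKc.exists_isMinOn hne
        ((top d c).continuous.abs.continuousOn (s := K))
      refine ⟨|(top d c).eval t₀|, abs_pos.2 fun h0 => ?_, fun t h1 h2 h3 => hmin ⟨⟨h1, h2⟩, h3⟩⟩
      have h1 := hZ t₀ ht₀.1.1 ht₀.1.2 h0
      have h2 := ht₀.2 t₀ h1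
      rw [sub_self, abs_zero] at h2
      linarith [hρ t₀ h1]
  obtain ⟨K, hK, hKb⟩ := ev_sub_top_le (by omega) h.hc α
  have hlow : ∀ v : ℤ × ℤ, v ∈ Sec α → 0 < v.1 → (∀ z ∈ Z, ρ z * v.1 < |(v.2 : ℝ) - z * v.1|) →
      2 * K / γ ≤ (v.1 : ℝ) → γ / 2 * (v.1 : ℝ) ^ 3 ≤ ev d c v.1 v.2 := by
    intro v hv hv0 hvz hv1
    have hx1 : (1 : ℝ) ≤ v.1 := by exact_mod_cast hv0
    have hx0 : (0 : ℝ) < v.1 := by linarith
    have hy0 : (0 : ℝ) ≤ v.2 := by exact_mod_cast hv.2.1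
    set x : ℝ := ((v.1 : ℤ) : ℝ) with hx
    set y : ℝ := ((v.2 : ℤ) : ℝ) with hy
    have ht0 : 0 ≤ y / x := by positivity
    have htα : y / x ≤ α := by
      rw [div_le_iff₀ hx0]; exact hv.2.2
    have hyt : y = (y / x) * x := by field_simp
    have h1 := hKb x (y / x) hx1 (by rw [abs_of_nonneg ht0]; exact htα)
    rw [← hyt] at h1
    have h2 := hγb (y / x) ht0 htα (fun z hz => by
      have h3 := hvz z hz
      have h4 : y / x - z = (y - z * x) / x := by field_simp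
      rw [h4, abs_div, abs_of_pos hx0, le_div_iff₀ hx0]
      exact h3.le)
    have h3 : |x ^ d * (top d c).eval (y / x)| = x ^ d * |(top d c).eval (y / x)| := by
      rw [abs_mul, abs_of_pos (by positivity)]
    have h4 : |x ^ d * (top d c).eval (y / x)| - |ev d c x y| ≤
        |ev d c x y - x ^ d * (top d c).eval (y / x)| := by
      rw [abs_sub_comm]; exact abs_sub_abs_le_abs_sub _ _
    rw [h3, abs_of_nonneg (h.nonneg hv)] at h4
    have h5 : x ^ d = x * x ^ (d - 1) := by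
      rw [← pow_succ']; congr 1; omega
    have h6 : K * x ^ (d - 1) ≤ γ / 2 * x ^ d := by
      rw [h5, ← mul_assoc]
      refine mul_le_mul_of_nonneg_right ?_ (by positivity)
      rw [div_le_iff₀ hγ] at hv1
      linarith
    have h7 : x ^ d * γ ≤ x ^ d * |(top d c).eval (y / x)| :=
      mul_le_mul_of_nonneg_left h2 (by positivity)
    have h8 : x ^ 3 ≤ x ^ d := pow_le_pow_right₀ hx1 hd
    have h9 : γ / 2 * x ^ 3 ≤ γ / 2 * x ^ d := mul_le_mul_of_nonneg_left h8 (by positivity)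
    linarith
  set X₁ : ℝ := 2 * K / γ with hX₁
  have hX₁0 : 0 ≤ X₁ := by positivity
  set B : ℝ := (2 / γ) ^ ((1 : ℝ) / 3) with hB
  have hB0 : 0 ≤ B := by positivity
  filter_upwards [rpow_small ((X₁ + B + 1) * (α * (X₁ + B) + 1)) (2 / 3) (by norm_num) ε hε,
    eventually_ge_atTop 1] with n hsm hn
  have hn1 : (1 : ℝ) ≤ n := by exact_mod_cast hn
  have hn3 : (1 : ℝ) ≤ (n : ℝ) ^ ((1 : ℝ) / 3) := Real.one_le_rpow hn1 (by norm_num)
  set R : ℝ := (X₁ + B) * (n : ℝ) ^ ((1 : ℝ) / 3) with hR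
  have hR0 : 0 ≤ R := by positivity
  have key := ncard_le_sum_fst {v | v ∈ {v | v ∈ Sec α ∧ 0 < v.1 ∧
      ∀ z ∈ Z, ρ z * v.1 < |(v.2 : ℝ) - z * v.1|} ∧ val d c v ≤ n}
    (Finset.Icc 1 ⌊R⌋) (fun _ => α * R + 1)
    (by
      rintro v ⟨⟨hv, hv0, hvz⟩, hle⟩
      rw [Finset.mem_Icc]
      refine ⟨by omega, Int.le_floor.2 ?_⟩
      have hx0 : (0 : ℝ) < v.1 := by exact_mod_cast hv0
      rcases le_or_gt X₁ (v.1 : ℝ) with h1 | h1
      · have h2 := (hlow v hv hv0 hvz h1).trans hle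
        have h3 : (v.1 : ℝ) ^ 3 ≤ 2 / γ * n := by
          rw [div_mul_eq_mul_div, le_div_iff₀ hγ]; linarith
        have h4 : (v.1 : ℝ) ≤ (2 / γ * n) ^ ((1 : ℝ) / 3) := by
          have h5 : ((v.1 : ℝ) ^ 3) ^ ((1 : ℝ) / 3) ≤ (2 / γ * n) ^ ((1 : ℝ) / 3) :=
            Real.rpow_le_rpow (by positivity) h3 (by norm_num)
          rwa [← Real.rpow_natCast, ← Real.rpow_mul hx0.le, Nat.cast_ofNat,
            mul_one_div_cancel (by norm_num), Real.rpow_one] at h5
        rw [Real.mul_rpow (by positivity) (by positivity)] at h4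
        have h6 : 0 ≤ X₁ * (n : ℝ) ^ ((1 : ℝ) / 3) := by positivity
        rw [hR, add_mul]
        linarith
      · have h2 : X₁ ≤ X₁ * (n : ℝ) ^ ((1 : ℝ) / 3) := by nlinarith
        have h3 : 0 ≤ B * (n : ℝ) ^ ((1 : ℝ) / 3) := by positivity
        rw [hR, add_mul]
        linarith)
    (fun x hx S hS => by
      rw [Finset.mem_Icc] at hx
      have hxR : (x : ℝ) ≤ R := Int.le_floor.1 hx.2
      have hx1 : (1 : ℝ) ≤ x := by exact_mod_cast hx.1
      have h1 := card_le_of_mem_Icc S 0 (α * R) (fun y hy => by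
        have h2 := (hS y hy).1.1
        have h3 : (0 : ℤ) ≤ y := h2.2.1
        have h4 := h2.2.2
        simp only at h4
        refine ⟨by exact_mod_cast h3, h4.trans ?_⟩
        exact mul_le_mul_of_nonneg_left hxR hα.le) (by positivity)
      linarith)
  refine ⟨key.1, key.2.trans ?_⟩
  rw [Finset.sum_const, nsmul_eq_mul, Int.card_Icc]
  have h5 : (((⌊R⌋ + 1 - 1 : ℤ).toNat : ℕ) : ℝ) ≤ R := by
    have h6 : (0 : ℤ) ≤ ⌊R⌋ + 1 - 1 := by
      have : (0 : ℤ) ≤ ⌊R⌋ := Int.floor_nonneg.2 hR0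
      omega
    have h7 : ((((⌊R⌋ + 1 - 1 : ℤ).toNat : ℤ)) : ℝ) = ((⌊R⌋ + 1 - 1 : ℤ) : ℝ) := by
      rw [Int.toNat_of_nonneg h6]
    rw [← Int.cast_natCast, h7]
    push_cast
    linarith [Int.floor_le R]
  have e2 : (n : ℝ) ^ ((2 : ℝ) / 3) = (n : ℝ) ^ ((1 : ℝ) / 3) * (n : ℝ) ^ ((1 : ℝ) / 3) := by
    rw [← Real.rpow_add (by linarith)]
    norm_num
  calc (((⌊R⌋ + 1 - 1 : ℤ).toNat : ℕ) : ℝ) * (α * R + 1) ≤ R * (α * R + 1) :=
        mul_le_mul_of_nonneg_right h5 (by positivity)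
    _ ≤ ((X₁ + B + 1) * (n : ℝ) ^ ((1 : ℝ) / 3)) *
        ((α * (X₁ + B) + 1) * (n : ℝ) ^ ((1 : ℝ) / 3)) := by
        refine mul_le_mul ?_ ?_ (by positivity) (by positivity)
        · rw [hR]; nlinarith
        · rw [hR]; nlinarith
    _ = (X₁ + B + 1) * (α * (X₁ + B) + 1) * (n : ℝ) ^ ((2 : ℝ) / 3) := by rw [e2]; ring
    _ ≤ ε * n := hsm

end Glob

theorem Small.biUnion {F : ℤ × ℤ → ℝ} {ε : ℝ} (Z : Finset ℝ) (A : ℝ → Set (ℤ × ℤ))
    (h : ∀ z ∈ Z, Small F ε (A z)) : Small F (Z.card * ε) (⋃ z ∈ Z, A z) := by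
  classical
  induction Z using Finset.induction_on with
  | empty =>
    refine Eventually.of_forall fun n => ?_
    simp
  | insert a s ha ih =>
    have h1 := (h a (Finset.mem_insert_self a s)).union
      (ih fun i hi => h i (Finset.mem_insert_of_mem hi))
    refine (h1.mono ?_).le (le_of_eq ?_)
    · intro v hv
      simp only [Finset.mem_insert, Set.iUnion_iUnion_eq_or_left] at hv
      exact hv
    · rw [Finset.card_insert_of_notMem ha]; push_cast; ring

theorem Small.finite {F : ℤ × ℤ → ℝ} {ε : ℝ} (hε : 0 < ε) {A : Set (ℤ × ℤ)} (hA : A.Finite) :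
    Small F ε A := by
  have e1 : ∀ᶠ n : ℕ in atTop, (A.ncard : ℝ) / ε ≤ (n : ℝ) :=
    (tendsto_natCast_atTop_atTop (R := ℝ)).eventually (eventually_ge_atTop _)
  filter_upwards [e1] with n hn
  rw [div_le_iff₀ hε] at hn
  have hsub : {v | v ∈ A ∧ F v ≤ n} ⊆ A := fun v hv => hv.1
  refine ⟨hA.subset hsub, ?_⟩
  have := (Nat.cast_le (α := ℝ)).2 (Set.ncard_le_ncard hsub hA)
  linarith

namespace Glob

variable {d : ℕ} {c : ℕ → ℕ → ℝ} {α c₀ C₀ : ℝ}

/-- All points off finitely many lines are negligible. -/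
theorem small_off_lines (h : Glob d c α c₀ C₀) :
    ∃ 𝓛 : Set (Set (ℤ × ℤ)), 𝓛.Finite ∧ (∀ L ∈ 𝓛, IsAPLine (val d c) α L) ∧
      ∀ ε > 0, Small (val d c) ε {v | v ∈ Sec α ∧ ∀ L ∈ 𝓛, v ∉ L} := by
  classical
  set Z : Finset ℝ := (top d c).roots.toFinset.filter (fun z => 0 ≤ z ∧ z ≤ α) with hZ
  have hZmem : ∀ z, z ∈ Z ↔ (top d c).eval z = 0 ∧ 0 ≤ z ∧ z ≤ α := by
    intro z
    rw [hZ, Finset.mem_filter, Multiset.mem_toFinset, mem_roots h.htop, IsRoot.def]
  have hneg : ∀ z ∈ Z, NegAt d c α z := by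
    intro z hz
    obtain ⟨h1, h2, h3⟩ := (hZmem z).1 hz
    exact h.negAt h2 h3 h1
  choose! 𝓛 hfin hAP hsmall using hneg
  refine ⟨⋃ z ∈ Z, 𝓛 z, Set.Finite.biUnion Z.finite_toSet hfin, ?_, fun ε hε => ?_⟩
  · intro L hL
    simp only [Set.mem_iUnion] at hL
    obtain ⟨z, hz, hL⟩ := hL
    exact hAP z hz L hL
  · set ε' : ℝ := ε / (Z.card + 2) with hε'
    have hcard : (0 : ℝ) < Z.card + 2 := by positivity
    have hε'0 : 0 < ε' := by positivity
    have h1 : ∀ z ∈ Z, ∃ ρ > 0, Small (val d c) ε' {v | v ∈ Sec α ∧ 0 < v.1 ∧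
      |(v.2 : ℝ) - z * v.1| ≤ ρ * v.1 ∧ ∀ L ∈ 𝓛 z, v ∉ L} := fun z hz => hsmall z hz ε' hε'0
    choose! ρ hρ hρs using h1
    have hA := h.away Z (fun z h1 h2 h3 => (hZmem z).2 ⟨h3, h1, h2⟩) ρ hρ ε' hε'0
    have hU := Small.biUnion (F := val d c) Z _ hρs
    have hO : Small (val d c) ε' {((0 : ℤ), (0 : ℤ))} := Small.finite hε'0 (Set.finite_singleton _)
    refine Small.le (((hU.union hA).union hO).mono ?_) (le_of_eq ?_)
    · rintro v ⟨hv1, hv2⟩
      rcases lt_or_eq_of_le hv1.1 with h0 | h0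
      · left
        by_cases hex : ∃ z ∈ Z, |(v.2 : ℝ) - z * v.1| ≤ ρ z * v.1
        · left
          obtain ⟨z, hz, hle⟩ := hex
          simp only [Set.mem_iUnion]
          refine ⟨z, hz, hv1, h0, hle, fun L hL => hv2 L ?_⟩
          simp only [Set.mem_iUnion]
          exact ⟨z, hz, hL⟩
        · right
          push Not at hex
          exact ⟨hv1, h0, hex⟩
      · right
        have h2 := hv1.2.2
        rw [← h0, Int.cast_zero, mul_zero] at h2
        have h3 : v.2 ≤ 0 := by exact_mod_cast h2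
        have h4 : v.2 = 0 := le_antisymm h3 hv1.2.1
        exact Prod.ext h0.symm h4
    · rw [hε']
      field_simp
      ring

/-- The contradiction. -/
theorem false_of (h : Glob d c α c₀ C₀) : False := by
  classical
  have hα := h.hα
  have hc₀ := h.hc₀
  obtain ⟨𝓛, hfin, hAP, hsmall⟩ := h.small_off_lines
  choose! p r a b A B hp hA hL hval N hN using hAP
  -- the common modulus
  set M : ℕ := ∏ L ∈ hfin.toFinset, A L with hM
  have hMpos : 0 < M := Finset.prod_pos fun L hL' => hA L (hfin.mem_toFinset.1 hL')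
  have hdvd : ∀ L ∈ 𝓛, A L ∣ M := fun L hL' =>
    Finset.dvd_prod_of_mem A (hfin.mem_toFinset.2 hL')
  -- every natural is congruent to some `B L`
  have hcov : ∀ m : ℕ, ∃ L ∈ 𝓛, (A L : ℤ) ∣ (m : ℤ) - B L := by
    intro m
    by_contra hcon
    push Not at hcon
    have h1 := hsmall (1 / (2 * M)) (by positivity)
    obtain ⟨n, hn1, hn2⟩ := (h1.and (eventually_gt_atTop (2 * m))).exists
    obtain ⟨f1, f2⟩ := hn1
    choose V hV hVval using h.surj
    -- the points with values `m + k M`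
    have hmaps : ∀ k ∈ Finset.range ((n - m) / M + 1), V (m + k * M) ∈
        {v | v ∈ {v | v ∈ Sec α ∧ ∀ L ∈ 𝓛, v ∉ L} ∧ val d c v ≤ n} := by
      intro k hk
      rw [Finset.mem_range, Nat.lt_succ_iff, Nat.le_div_iff_mul_le hMpos] at hk
      refine ⟨⟨hV _, fun L hL' hmem => ?_⟩, ?_⟩
      · rw [hL L hL'] at hmem
        obtain ⟨x, hx⟩ := hmem
        have h2 := hval L hL' x
        simp only at hx
        rw [hx] at h2
        have h3 := hVval (m + k * M)
        have h4 : (((m + k * M : ℕ) : ℤ) : ℝ) = ((A L * x + B L : ℤ) : ℝ) := by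
          push_cast
          push_cast at h3
          rw [← h3]
          exact h2
        have h5 : ((m + k * M : ℕ) : ℤ) = A L * x + B L := by exact_mod_cast h4
        apply hcon L hL'
        obtain ⟨e, he⟩ := hdvd L hL'
        refine ⟨x - k * e, ?_⟩
        push_cast at h5
        have he' : (M : ℤ) = A L * e := by exact_mod_cast he
        rw [he'] at h5
        linear_combination h5
      · show ev d c (V (m + k * M)).1 (V (m + k * M)).2 ≤ n
        rw [hVval]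
        have : m + k * M ≤ n := by omega
        exact_mod_cast this
    have hinj : Set.InjOn (fun k => V (m + k * M)) (Finset.range ((n - m) / M + 1) : Set ℕ) := by
      intro k _ k' _ hkk
      simp only at hkk
      have h2 := hVval (m + k * M)
      rw [hkk, hVval (m + k' * M)] at h2
      have h3 : m + k' * M = m + k * M := by exact_mod_cast h2
      have h4 : k' * M = k * M := by omega
      exact (Nat.eq_of_mul_eq_mul_right hMpos h4).symm
    have hcard := Set.ncard_le_ncard_of_injOn (s := (Finset.range ((n - m) / M + 1) : Set ℕ))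
      (fun k => V (m + k * M)) (fun k hk => hmaps k (by simpa using hk)) hinj f1
    rw [Set.ncard_coe_finset, Finset.card_range] at hcard
    have h5 : (((n - m) / M + 1 : ℕ) : ℝ) ≤ 1 / (2 * M) * n := by
      refine le_trans ?_ f2
      exact_mod_cast hcard
    have h6 : (n : ℝ) - m < (((n - m) / M + 1 : ℕ) : ℝ) * M := by
      have h7 : n - m < ((n - m) / M + 1) * M := by
        have := Nat.lt_mul_div_succ (n - m) hMpos
        rw [mul_comm]
        exact this
      have h8 : ((n - m : ℕ) : ℝ) < ((((n - m) / M + 1) * M : ℕ) : ℝ) := by exact_mod_cast h7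
      rw [Nat.cast_sub (by omega)] at h8
      push_cast at h8 ⊢
      exact h8
    have hMr : (0 : ℝ) < M := by exact_mod_cast hMpos
    have h9 : (((n - m) / M + 1 : ℕ) : ℝ) * M ≤ n / 2 := by
      have h10 := mul_le_mul_of_nonneg_right h5 hMr.le
      have h11 : 1 / (2 * (M : ℝ)) * n * M = n / 2 := by field_simp
      rw [h11] at h10
      exact h10
    have h12 : (2 : ℝ) * m < n := by exact_mod_cast hn2
    linarith
  -- all large values are attained on the lines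
  obtain ⟨m₀, hm₀⟩ : ∃ m₀ : ℕ, ∀ L ∈ 𝓛, (A L : ℤ) * N L + B L ≤ m₀ := by
    refine ⟨∑ L ∈ hfin.toFinset, ((A L : ℤ) * N L + B L).natAbs, fun L hL' => ?_⟩
    have h1 : ((A L : ℤ) * N L + B L).natAbs ≤
        ∑ L ∈ hfin.toFinset, ((A L : ℤ) * N L + B L).natAbs :=
      Finset.single_le_sum (f := fun L => ((A L : ℤ) * N L + B L).natAbs)
        (fun i _ => Nat.zero_le _) (hfin.mem_toFinset.2 hL')
    omega
  have hlarge : ∀ v ∈ Sec α, (m₀ : ℝ) ≤ ev d c v.1 v.2 → ∃ L ∈ 𝓛, v ∈ L := by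
    intro v hv hle
    obtain ⟨m, hm⟩ := h.int v hv
    rw [hm] at hle
    have hle' : m₀ ≤ m := by exact_mod_cast hle
    obtain ⟨L, hL', x, hx⟩ := hcov m
    have hApos : (0 : ℤ) < A L := by exact_mod_cast hA L hL'
    have hNx : N L ≤ x := by
      have h1 := hm₀ L hL'
      have h2 : (m₀ : ℤ) ≤ m := by exact_mod_cast hle'
      have h3 : (A L : ℤ) * N L ≤ A L * x := by linarith
      exact le_of_mul_le_mul_left h3 hApos
    refine ⟨L, hL', ?_⟩
    have h4 := hN L hL' x hNx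
    have h5 := h.inj v hv _ h4 (by
      have h6 := hval L hL' x
      simp only [val] at h6
      rw [h6, hm]
      have h7 : (m : ℤ) = A L * x + B L := by linarith
      exact_mod_cast h7)
    rw [hL L hL', h5]
    exact ⟨x, rfl⟩
  -- a column with many points
  set s : ℕ := hfin.toFinset.card with hs
  obtain ⟨X, hX⟩ := exists_nat_gt (max (((m₀ : ℝ) + C₀) / c₀) ((s : ℝ) / α))
  have hX1 : ((m₀ : ℝ) + C₀) / c₀ < X := (le_max_left _ _).trans_lt hX
  have hX2 : (s : ℝ) / α < X := (le_max_right _ _).trans_lt hX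
  rw [div_lt_iff₀ hc₀] at hX1
  rw [div_lt_iff₀ hα] at hX2
  have hcol : ∀ y : ℕ, y ∈ Finset.range (s + 1) → (((X : ℤ), (y : ℤ)) : ℤ × ℤ) ∈ Sec α := by
    intro y hy
    rw [Finset.mem_range, Nat.lt_succ_iff] at hy
    refine ⟨by positivity, by positivity, ?_⟩
    simp only [Int.cast_natCast]
    have : (y : ℝ) ≤ s := by exact_mod_cast hy
    linarith
  have hex : ∀ y ∈ Finset.range (s + 1), ∃ L ∈ 𝓛, (((X : ℤ), (y : ℤ)) : ℤ × ℤ) ∈ L := by
    intro y hy
    refine hlarge _ (hcol y hy) ?_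
    have h1 := h.grow _ (hcol y hy)
    simp only [Int.cast_natCast] at h1 ⊢
    linarith
  choose! Λ hΛ hΛmem using hex
  obtain ⟨y₁, hy₁, y₂, hy₂, hne, heq⟩ := Finset.exists_ne_map_eq_of_card_lt_of_maps_to
    (s := Finset.range (s + 1)) (t := hfin.toFinset) (f := Λ)
    (by rw [Finset.card_range, ← hs]; omega)
    (fun y hy => by
      have : Λ y ∈ hfin.toFinset := hfin.mem_toFinset.2 (hΛ y (by simpa using hy))
      simpa using this)
  have h1 := hΛmem y₁ hy₁
  have h2 := hΛmem y₂ hy₂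
  rw [← heq, hL _ (hΛ y₁ hy₁)] at h2
  rw [hL _ (hΛ y₁ hy₁)] at h1
  obtain ⟨x₁, hx₁⟩ := h1
  obtain ⟨x₂, hx₂⟩ := h2
  have e1 := congrArg Prod.fst hx₁
  have e2 := congrArg Prod.fst hx₂
  have e3 := congrArg Prod.snd hx₁
  have e4 := congrArg Prod.snd hx₂
  simp only at e1 e2 e3 e4
  have hpne : p (Λ y₁) ≠ 0 := (hp _ (hΛ y₁ hy₁)).ne'
  have e5 : p (Λ y₁) * x₁ = p (Λ y₁) * x₂ := by linarith
  have e6 := mul_left_cancel₀ hpne e5
  rw [e6] at e3
  apply hne
  have : (y₁ : ℤ) = y₂ := by rw [← e3, ← e4]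
  exact_mod_cast this

end Glob

end Pool.Agent.Pack
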