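import Pool.Agent.Pack.Irr4

/-!
# Linear growth in degrees three and four
-/

set_option autoImplicit false

open Polynomial Finset Filter Topology

namespace Pool.Agent.Pack

/-- The top form is nonnegative. -/
theorem top_nonneg_of {d : ℕ} (hd : 1 ≤ d) {c : ℕ → ℕ → ℝ} (hc : ∀ i j, d < i + j → c i j = 0)
    {t : ℝ} (ht : 0 ≤ t) (H : ∀ n : ℕ, 1 ≤ n → 0 ≤ ev d c n (⌊t * n⌋₊ : ℝ)) :
    0 ≤ (top d c).eval t := by
  obtain ⟨K, hK, hKb⟩ := ev_sub_top_le hd hc t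
  have h1 : Tendsto (fun n : ℕ => (⌊t * (n : ℝ)⌋₊ : ℝ) / (n : ℝ)) atTop (𝓝 t) :=
    (tendsto_nat_floor_mul_div_atTop ht).comp tendsto_natCast_atTop_atTop
  have h2 : Tendsto (fun n : ℕ => (top d c).eval ((⌊t * (n : ℝ)⌋₊ : ℝ) / (n : ℝ))) atTop
      (𝓝 ((top d c).eval t)) := ((top d c).continuous.tendsto t).comp h1
  have h3 : Tendsto (fun n : ℕ => -(K / (n : ℝ))) atTop (𝓝 0) := by
    have h4 : Tendsto (fun n : ℕ => K / (n : ℝ)) atTop (𝓝 0) :=
      tendsto_const_div_atTop_nhds_zero_nat K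
    simpa using h4.neg
  refine le_of_tendsto_of_tendsto h3 h2 ?_
  filter_upwards [eventually_ge_atTop 1] with n hn
  have hn0 : (0 : ℝ) < n := by exact_mod_cast (by omega : 0 < n)
  have hn1 : (1 : ℝ) ≤ n := by exact_mod_cast hn
  set s : ℝ := (⌊t * (n : ℝ)⌋₊ : ℝ) / (n : ℝ) with hs
  have hs0 : 0 ≤ s := by positivity
  have hst : s ≤ t := by
    rw [hs, div_le_iff₀ hn0]
    exact Nat.floor_le (by positivity)
  have h5 := hKb n s hn1 (by rw [abs_of_nonneg hs0]; exact hst)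
  have h6 : s * n = (⌊t * (n : ℝ)⌋₊ : ℝ) := by rw [hs]; field_simp
  rw [h6] at h5
  have h7 := H n hn
  have h8 := (abs_le.1 h5).2
  have h9 : (n : ℝ) ^ d = n ^ (d - 1) * n := by rw [← pow_succ]; congr 1; omega
  have h10 : 0 < (n : ℝ) ^ (d - 1) := by positivity
  rw [h9] at h8
  have h11 : -(K * (n : ℝ) ^ (d - 1)) ≤ (n : ℝ) ^ (d - 1) * n * (top d c).eval s := by linarith
  have h12 : (n : ℝ) ^ (d - 1) * (-K) ≤ (n : ℝ) ^ (d - 1) * (n * (top d c).eval s) := by linarith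
  have h13 := le_of_mul_le_mul_left h12 h10
  have h14 : -(K / (n : ℝ)) = (-K) / n := by ring
  rw [h14, div_le_iff₀ hn0]
  linarith

namespace Pre

variable {d : ℕ} {c : ℕ → ℕ → ℝ} {α : ℝ}

theorem top_nonneg (h : Pre d c α) {t : ℝ} (ht : 0 ≤ t) (htα : t ≤ α) :
    0 ≤ (top d c).eval t := by
  have hd := h.hd
  refine top_nonneg_of (by omega) h.hc ht fun n hn => ?_
  have h1 : (((n : ℤ), ((⌊t * (n : ℝ)⌋₊ : ℕ) : ℤ)) : ℤ × ℤ) ∈ Sec α := by
    refine ⟨by positivity, by positivity, ?_⟩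
    simp only [Int.cast_natCast]
    have h2 := Nat.floor_le (show 0 ≤ t * (n : ℝ) by positivity)
    exact h2.trans (mul_le_mul_of_nonneg_right htα (by positivity))
  have h3 := h.nonneg h1
  simpa using h3

/-- Interior zeros are multiple. -/
theorem double_zero (h : Pre d c α) {θ : ℝ} (hθ0 : 0 < θ) (hθα : θ < α)
    (hzero : (top d c).eval θ = 0) : 1 < (top d c).rootMultiplicity θ := by
  rw [one_lt_rootMultiplicity_iff_isRoot h.htop]
  refine ⟨hzero, ?_⟩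
  have hmin : IsLocalMin (fun t => (top d c).eval t) θ := by
    filter_upwards [Ioo_mem_nhds hθ0 hθα] with t ht
    rw [hzero]
    exact h.top_nonneg ht.1.le ht.2.le
  have h1 := hmin.hasDerivAt_eq_zero ((top d c).hasDerivAt θ)
  exact h1

/-- In degree three there is no interior irrational zero. -/
theorem no_irr3 (h : Pre 3 c α) {θ : ℝ} (hθ : Irrational θ) (hθ0 : 0 < θ) (hθα : θ < α)
    (hzero : (top 3 c).eval θ = 0) : False := by
  have h1 := h.double_zero hθ0 hθα hzero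
  obtain ⟨q, hq⟩ := h.top_rat
  have hq0 : q ≠ 0 := by
    rintro rfl
    rw [Polynomial.map_zero] at hq
    exact h.htop hq.symm
  have h2 := two_mul_rootMultiplicity_le hθ _ q rfl hq0
  rw [hq] at h2
  have h3 : q.natDegree ≤ 3 := by
    rw [← natDegree_map (algebraMap ℚ ℝ), hq]
    exact top_natDegree_le 3 c
  omega

/-- The top form at an interior irrational zero in degree four. -/
theorem fact4 (h : Pre 4 c α) {θ : ℝ} (hθ : Irrational θ) (hθ0 : 0 < θ) (hθα : θ < α)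
    (hzero : (top 4 c).eval θ = 0) :
    ∃ a m₁ m₀ : ℚ, 0 < a ∧ θ ^ 2 + m₁ * θ + m₀ = 0 ∧
      ∀ t : ℝ, (top 4 c).eval t = a * (t ^ 2 + m₁ * t + m₀) ^ 2 := by
  have hmult := h.double_zero hθ0 hθα hzero
  obtain ⟨q, hq⟩ := h.top_rat
  have hq0 : q ≠ 0 := by
    rintro rfl
    rw [Polynomial.map_zero] at hq
    exact h.htop hq.symm
  have hdeg4 : q.natDegree ≤ 4 := by
    rw [← natDegree_map (algebraMap ℚ ℝ), hq]
    exact top_natDegree_le 4 c
  have haeval : aeval θ q = 0 := by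
    rw [aeval_def, ← eval_map, hq]; exact hzero
  have hint : IsIntegral ℚ θ := isAlgebraic_iff_isIntegral.1 ⟨q, hq0, haeval⟩
  obtain ⟨q₂, hq₂⟩ := minpoly.dvd ℚ θ haeval
  set m := minpoly ℚ θ with hm
  have hm0 : m ≠ 0 := minpoly.ne_zero hint
  have hq₂0 : q₂ ≠ 0 := by
    rintro rfl
    rw [mul_zero] at hq₂
    exact hq0 hq₂
  have hmdeg : 2 ≤ m.natDegree := by
    have h1 : 0 < m.natDegree := minpoly.natDegree_pos hint
    have h2 : m.natDegree ≠ 1 := by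
      intro h1
      obtain ⟨r, hr⟩ := minpoly.natDegree_eq_one_iff.1 h1
      exact hθ ⟨r, hr⟩
    omega
  have hsep : (m.map (algebraMap ℚ ℝ)).Separable := (minpoly.irreducible hint).separable.map
  have h4 := rootMultiplicity_le_one_of_separable hsep θ
  have h6 : top 4 c = m.map (algebraMap ℚ ℝ) * q₂.map (algebraMap ℚ ℝ) := by
    rw [← Polynomial.map_mul, ← hq₂, hq]
  have h5 : (top 4 c).rootMultiplicity θ = (m.map (algebraMap ℚ ℝ)).rootMultiplicity θ +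
      (q₂.map (algebraMap ℚ ℝ)).rootMultiplicity θ := by
    have h7 := h.htop
    rw [h6] at h7 ⊢
    exact rootMultiplicity_mul h7
  have hq₂m : q₂.map (algebraMap ℚ ℝ) ≠ 0 := by rwa [Ne, Polynomial.map_eq_zero]
  have h7 : 0 < (q₂.map (algebraMap ℚ ℝ)).rootMultiplicity θ := by omega
  have h8 := (rootMultiplicity_pos hq₂m).1 h7
  have h9 : aeval θ q₂ = 0 := by
    rwa [IsRoot.def, eval_map, ← aeval_def] at h8
  obtain ⟨q₃, hq₃⟩ := minpoly.dvd ℚ θ h9
  rw [← hm] at hq₃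
  have hq₃0 : q₃ ≠ 0 := by
    rintro rfl
    rw [mul_zero] at hq₃
    exact hq₂0 hq₃
  have hdeg : q.natDegree = m.natDegree + (m.natDegree + q₃.natDegree) := by
    rw [hq₂, natDegree_mul hm0 hq₂0, hq₃, natDegree_mul hm0 hq₃0]
  have hm2 : m.natDegree = 2 := by omega
  have hq₃d : q₃.natDegree = 0 := by omega
  obtain ⟨a, ha⟩ := natDegree_eq_zero.1 hq₃d
  have hmon : m.Monic := minpoly.monic hint
  have hmeval : ∀ t : ℝ, (m.map (algebraMap ℚ ℝ)).eval t = t ^ 2 + (m.coeff 1 : ℚ) * t +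
      (m.coeff 0 : ℚ) := by
    intro t
    have h10 : (m.map (algebraMap ℚ ℝ)).natDegree < 3 := by
      rw [natDegree_map, hm2]; norm_num
    rw [eval_eq_sum_range' h10, Finset.sum_range_succ, Finset.sum_range_succ,
      Finset.sum_range_one]
    simp only [coeff_map, eq_ratCast]
    have h11 : m.coeff 2 = 1 := by
      have := hmon.coeff_natDegree
      rwa [hm2] at this
    rw [h11]
    push_cast
    ring
  have hform : ∀ t : ℝ, (top 4 c).eval t = a * (t ^ 2 + (m.coeff 1 : ℚ) * t +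
      (m.coeff 0 : ℚ)) ^ 2 := by
    intro t
    rw [← hmeval, h6, hq₃, ← ha, Polynomial.map_mul, eval_mul, eval_mul, Polynomial.map_C, eval_C,
      eq_ratCast]
    ring
  have hroot : θ ^ 2 + (m.coeff 1 : ℚ) * θ + (m.coeff 0 : ℚ) = 0 := by
    rw [← hmeval, eval_map, ← aeval_def]
    exact minpoly.aeval ℚ θ
  refine ⟨a, m.coeff 1, m.coeff 0, ?_, hroot, hform⟩
  obtain ⟨ρ, hρ, hiso⟩ := isolated h.htop θ
  set t : ℝ := θ + min (ρ / 2) (α - θ) with ht
  have hmin0 : 0 < min (ρ / 2) (α - θ) := lt_min (by linarith) (by linarith)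
  have h11 : (top 4 c).eval t ≠ 0 := by
    apply hiso t
    · rw [ht]; linarith
    · rw [ht, add_sub_cancel_left, abs_of_pos hmin0]
      have := min_le_left (ρ / 2) (α - θ)
      linarith
  have h12 := h.top_nonneg (t := t) (by linarith) (by
    have := min_le_right (ρ / 2) (α - θ)
    linarith)
  rw [hform] at h11 h12
  have h13 : (0 : ℝ) < a := by
    by_contra hneg
    push Not at hneg
    have h14 := sq_nonneg (t ^ 2 + (m.coeff 1 : ℚ) * t + (m.coeff 0 : ℚ))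
    have h15 : (a : ℝ) * (t ^ 2 + (m.coeff 1 : ℚ) * t + (m.coeff 0 : ℚ)) ^ 2 ≤ 0 :=
      mul_nonpos_of_nonpos_of_nonneg hneg h14
    exact h11 (le_antisymm h15 h12)
  exact_mod_cast h13

/-- All coefficients are rational. -/
theorem coeff_rat (h : Pre d c α) (i j : ℕ) : ∃ q : ℚ, (q : ℝ) = c i j := by
  by_cases hij : d < i + j
  · exact ⟨0, by rw [h.hc i j hij]; simp⟩
  · obtain ⟨q, hq⟩ := h.row_rat i (by omega)
    refine ⟨q.coeff j, ?_⟩
    have h1 := congrArg (fun p : ℝ[X] => p.coeff j) hq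
    simp only [coeff_map, row_coeff, if_pos (by omega : j ≤ d)] at h1
    exact h1

/-- Growth at an interior irrational zero in degree four. -/
theorem irr4_grow (h : Pre 4 c α) {θ : ℝ} (hθ : Irrational θ) (hθ0 : 0 < θ) (hθα : θ < α)
    (hzero : (top 4 c).eval θ = 0) : GrowDir 4 c α θ := by
  obtain ⟨a, m₁, m₀, ha, hm, hform⟩ := h.fact4 hθ hθ0 hθα hzero
  have har : (0 : ℝ) < a := by exact_mod_cast ha
  have har0 : (a : ℝ) ≠ 0 := har.ne'
  obtain ⟨r30, e30⟩ := h.coeff_rat 3 0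
  obtain ⟨r21, e21⟩ := h.coeff_rat 2 1
  obtain ⟨r12, e12⟩ := h.coeff_rat 1 2
  obtain ⟨r03, e03⟩ := h.coeff_rat 0 3
  obtain ⟨r20, e20⟩ := h.coeff_rat 2 0
  obtain ⟨r11, e11⟩ := h.coeff_rat 1 1
  obtain ⟨r02, e02⟩ := h.coeff_rat 0 2
  obtain ⟨r10, e10⟩ := h.coeff_rat 1 0
  obtain ⟨r01, e01⟩ := h.coeff_rat 0 1
  have hexp : ∀ x y : ℝ, 0 < x → ev 4 c x y = a * (y ^ 2 + m₁ * (x * y) + m₀ * x ^ 2) ^ 2 +
      (r30 * x ^ 3 + r21 * (x ^ 2 * y) + r12 * (x * y ^ 2) + r03 * y ^ 3) +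
      (r20 * x ^ 2 + r11 * (x * y) + r02 * y ^ 2 + r10 * x + r01 * y + c 0 0) := by
    intro x y hx
    rw [ev4 h.hc, top4_hom c hx, hform, e30, e21, e12, e03, e20, e11, e02, e10, e01]
    have h1 : x ^ 4 * ((a : ℝ) * ((y / x) ^ 2 + m₁ * (y / x) + m₀) ^ 2) =
        a * (y ^ 2 + m₁ * (x * y) + m₀ * x ^ 2) ^ 2 := by
      field_simp
    rw [h1]
  -- first step
  rcases dich h hθ hθ0 hθα m₁ m₀ hm har (k := 3) (by norm_num)
    (c' := fun i j => if i + j ≤ 3 then c i j else 0)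
    (fun i j hij => by
      show (if i + j ≤ 3 then c i j else 0) = 0
      rw [if_neg (by omega)]) 0 0 0 (by
      intro x y hx
      rw [hexp x y hx]
      simp only [ev, Finset.sum_range_succ, Finset.sum_range_zero]
      norm_num
      rw [← e30, ← e21, ← e12, ← e03, ← e20, ← e11, ← e02, ← e10, ← e01]
      ring) with h1 | h1
  swap
  · exact h1
  have h1' : (r30 : ℝ) + r21 * θ + r12 * θ ^ 2 + r03 * θ ^ 3 = 0 := by
    rw [top_eval] at h1
    simp only [Finset.sum_range_succ, Finset.sum_range_zero] at h1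
    norm_num at h1
    rw [e30, e21, e12, e03]
    linarith
  -- division by the quadratic
  have hdiv3 : ((r21 - m₀ * r03 - m₁ * (r12 - m₁ * r03) : ℚ) : ℝ) * θ +
      ((r30 - m₀ * (r12 - m₁ * r03) : ℚ) : ℝ) = 0 := by
    push_cast
    linear_combination h1' - ((r03 : ℝ) * θ + (r12 - m₁ * r03)) * hm
  obtain ⟨q1, q0⟩ := rat_rel hθ _ _ hdiv3
  set l₁ : ℚ := r03 with hl₁
  set l₀ : ℚ := r12 - m₁ * r03 with hl₀
  have q1' : (r21 : ℝ) = m₀ * l₁ + m₁ * l₀ := by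
    have : r21 = m₀ * l₁ + m₁ * l₀ := by linarith
    rw [this]; push_cast; ring
  have q0' : (r30 : ℝ) = m₀ * l₀ := by
    have : r30 = m₀ * l₀ := by linarith
    rw [this]; push_cast; ring
  have q2' : (r12 : ℝ) = l₀ + m₁ * l₁ := by
    rw [hl₀, hl₁]; push_cast; ring
  have hexp2 : ∀ x y : ℝ, 0 < x → ev 4 c x y =
      a * ((y ^ 2 + m₁ * (x * y) + m₀ * x ^ 2) + l₀ / (2 * a) * x + l₁ / (2 * a) * y + 0) ^ 2 +
      ((r20 - l₀ ^ 2 / (4 * a)) * x ^ 2 + (r11 - 2 * l₀ * l₁ / (4 * a)) * (x * y) +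
        (r02 - l₁ ^ 2 / (4 * a)) * y ^ 2 + r10 * x + r01 * y + c 0 0) := by
    intro x y hx
    rw [hexp x y hx, q1', q0', q2']
    field_simp
    ring
  -- second step
  set g0 : ℚ := r20 - l₀ ^ 2 / (4 * a) with hg0
  set g1 : ℚ := r11 - 2 * l₀ * l₁ / (4 * a) with hg1
  set g2 : ℚ := r02 - l₁ ^ 2 / (4 * a) with hg2
  have hg0r : (g0 : ℝ) = r20 - l₀ ^ 2 / (4 * a) := by rw [hg0]; push_cast; ring
  have hg1r : (g1 : ℝ) = r11 - 2 * l₀ * l₁ / (4 * a) := by rw [hg1]; push_cast; ring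
  have hg2r : (g2 : ℝ) = r02 - l₁ ^ 2 / (4 * a) := by rw [hg2]; push_cast; ring
  rw [← hg0r, ← hg1r, ← hg2r] at hexp2
  rcases dich h hθ hθ0 hθα m₁ m₀ hm har (k := 2) (by norm_num)
    (c' := fun i j => if i = 2 ∧ j = 0 then (g0 : ℝ) else if i = 1 ∧ j = 1 then (g1 : ℝ) else
      if i = 0 ∧ j = 2 then (g2 : ℝ) else if i + j ≤ 1 then c i j else 0)
    (fun i j hij => by
      show (if i = 2 ∧ j = 0 then (g0 : ℝ) else if i = 1 ∧ j = 1 then (g1 : ℝ) else
        if i = 0 ∧ j = 2 then (g2 : ℝ) else if i + j ≤ 1 then c i j else 0) = 0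
      rw [if_neg (by omega), if_neg (by omega), if_neg (by omega), if_neg (by omega)])
      (l₀ / (2 * a)) (l₁ / (2 * a)) 0 (by
      intro x y hx
      rw [hexp2 x y hx]
      simp only [ev, Finset.sum_range_succ, Finset.sum_range_zero]
      norm_num
      rw [← e10, ← e01]
      ring) with h2 | h2
  swap
  · exact h2
  have h2' : (g0 : ℝ) + g1 * θ + g2 * θ ^ 2 = 0 := by
    rw [top_eval] at h2
    simp only [Finset.sum_range_succ, Finset.sum_range_zero] at h2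
    norm_num at h2
    linarith
  have hdiv2 : ((g1 - g2 * m₁ : ℚ) : ℝ) * θ + ((g0 - g2 * m₀ : ℚ) : ℝ) = 0 := by
    push_cast
    linear_combination h2' - (g2 : ℝ) * hm
  obtain ⟨p1, p0⟩ := rat_rel hθ _ _ hdiv2
  have p1' : (g1 : ℝ) = g2 * m₁ := by
    have : g1 = g2 * m₁ := by linarith
    rw [this]; push_cast; ring
  have p0' : (g0 : ℝ) = g2 * m₀ := by
    have : g0 = g2 * m₀ := by linarith
    rw [this]; push_cast; ring
  have hexp3 : ∀ x y : ℝ, 0 < x → ev 4 c x y =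
      a * ((y ^ 2 + m₁ * (x * y) + m₀ * x ^ 2) + l₀ / (2 * a) * x + l₁ / (2 * a) * y +
        g2 / (2 * a)) ^ 2 +
      ((r10 - g2 * l₀ / (2 * a)) * x + (r01 - g2 * l₁ / (2 * a)) * y +
        (c 0 0 - g2 ^ 2 / (4 * a))) := by
    intro x y hx
    rw [hexp2 x y hx, p1', p0']
    field_simp
    ring
  -- third step
  rcases dich h hθ hθ0 hθα m₁ m₀ hm har (k := 1) (by norm_num)
    (c' := fun i j => if i = 1 ∧ j = 0 then (r10 - g2 * l₀ / (2 * a) : ℝ) else
      if i = 0 ∧ j = 1 then (r01 - g2 * l₁ / (2 * a) : ℝ) else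
      if i = 0 ∧ j = 0 then (c 0 0 - g2 ^ 2 / (4 * a) : ℝ) else 0)
    (fun i j hij => by
      show (if i = 1 ∧ j = 0 then (r10 - g2 * l₀ / (2 * a) : ℝ) else
        if i = 0 ∧ j = 1 then (r01 - g2 * l₁ / (2 * a) : ℝ) else
        if i = 0 ∧ j = 0 then (c 0 0 - g2 ^ 2 / (4 * a) : ℝ) else 0) = 0
      rw [if_neg (by omega), if_neg (by omega), if_neg (by omega)])
      (l₀ / (2 * a)) (l₁ / (2 * a)) (g2 / (2 * a)) (by
      intro x y hx
      rw [hexp3 x y hx]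
      simp only [ev, Finset.sum_range_succ, Finset.sum_range_zero]
      norm_num
      ring) with h3 | h3
  swap
  · exact h3
  have h3' : ((r01 - g2 * l₁ / (2 * a) : ℚ) : ℝ) * θ + ((r10 - g2 * l₀ / (2 * a) : ℚ) : ℝ) = 0 := by
    rw [top_eval] at h3
    simp only [Finset.sum_range_succ, Finset.sum_range_zero] at h3
    norm_num at h3
    push_cast
    linarith
  obtain ⟨s1, s0⟩ := rat_rel hθ _ _ h3'
  have s1' : (r01 : ℝ) - g2 * l₁ / (2 * a) = 0 := by exact_mod_cast s1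
  have s0' : (r10 : ℝ) - g2 * l₀ / (2 * a) = 0 := by exact_mod_cast s0
  exfalso
  refine not_const h hθ hθ0 hθα m₁ m₀ hm har (l₀ / (2 * a)) (l₁ / (2 * a)) (g2 / (2 * a))
    (c 0 0 - g2 ^ 2 / (4 * a)) ?_
  intro x y hx
  rw [hexp3 x y hx, s1', s0']
  ring

end Pre

end Pool.Agent.Pack
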