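import Pool.Agent.Pack.Grow

/-!
# Degrees three and four: assembly
-/

set_option autoImplicit false

open Polynomial Finset Filter Topology

namespace Pool.Agent.Pack

/-- The change of coordinates near a rational direction. -/
theorem side_map {p r q s σ : ℤ} (hp : 0 < p) (hσ : σ = 1 ∨ σ = -1) (hdet : p * s - q * r = σ)
    {η' : ℝ} (hη' : 0 < η') :
    ∃ ρ > 0, ∀ v : ℤ × ℤ, 0 < v.1 → 0 ≤ σ * ((v.2 : ℝ) - (r : ℝ) / p * v.1) →
      σ * ((v.2 : ℝ) - (r : ℝ) / p * v.1) ≤ ρ * v.1 →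
      ∃ x y : ℤ, (x, y) ∈ HC η' ∧ (v.1 : ℝ) / (2 * p) ≤ x ∧ (p : ℝ) * x + q * y = v.1 ∧
        (r : ℝ) * x + s * y = v.2 := by
  have hpr : (1 : ℝ) ≤ p := by exact_mod_cast hp
  have hp0 : (0 : ℝ) < p := by linarith
  have hσ2 : σ * σ = 1 := by rcases hσ with h' | h' <;> rw [h'] <;> norm_num
  have hq0 := abs_nonneg (q : ℝ)
  set ρ : ℝ := min (1 / (2 * (|(q : ℝ)| + 1) * p)) (η' / (2 * p ^ 2)) with hρ
  have hρ0 : 0 < ρ := lt_min (by positivity) (by positivity)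
  have hρ1 : ρ ≤ 1 / (2 * (|(q : ℝ)| + 1) * p) := min_le_left _ _
  have hρ2 : ρ ≤ η' / (2 * p ^ 2) := min_le_right _ _
  refine ⟨ρ, hρ0, fun v hv2 hv3 hv4 => ?_⟩
  set x : ℤ := σ * (s * v.1 - q * v.2) with hx
  set y : ℤ := σ * (p * v.2 - r * v.1) with hy
  have i1 : p * x + q * y = v.1 := by
    rw [hx, hy]
    linear_combination (σ * v.1) * hdet + v.1 * hσ2
  have i2 : r * x + s * y = v.2 := by
    rw [hx, hy]
    linear_combination (σ * v.2) * hdet + v.2 * hσ2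
  have i1r : (p : ℝ) * x + q * y = v.1 := by exact_mod_cast i1
  have i2r : (r : ℝ) * x + s * y = v.2 := by exact_mod_cast i2
  have hv2r : (0 : ℝ) < v.1 := by exact_mod_cast hv2
  have hyr : (y : ℝ) = p * (σ * ((v.2 : ℝ) - (r : ℝ) / p * v.1)) := by
    have : (y : ℝ) = σ * (p * v.2 - r * v.1) := by rw [hy]; push_cast; ring
    rw [this]
    field_simp
  have hy0 : (0 : ℝ) ≤ y := by rw [hyr]; positivity
  have hyρ : (y : ℝ) ≤ p * (ρ * v.1) := by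
    rw [hyr]; exact mul_le_mul_of_nonneg_left hv4 hp0.le
  have hqy : |(q : ℝ)| * (p * (ρ * v.1)) ≤ v.1 / 2 := by
    have h1 : |(q : ℝ)| * (p * ρ) ≤ 1 / 2 := by
      rw [le_div_iff₀ (by positivity)] at hρ1
      nlinarith [mul_pos hp0 hρ0]
    nlinarith
  have hx1 : (v.1 : ℝ) / 2 ≤ p * x := by
    have h1 : (q : ℝ) * y ≤ |(q : ℝ)| * (p * (ρ * v.1)) :=
      (mul_le_mul_of_nonneg_right (le_abs_self _) hy0).trans
        (mul_le_mul_of_nonneg_left hyρ hq0)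
    linarith
  have hx0 : (0 : ℝ) < x := by
    by_contra hneg
    push Not at hneg
    nlinarith
  refine ⟨x, y, ⟨by exact_mod_cast hx0, by exact_mod_cast hy0, ?_⟩, ?_, i1r, i2r⟩
  · simp only
    rw [le_div_iff₀ (by positivity)] at hρ2
    have h1 : (v.1 : ℝ) ≤ 2 * p * x := by linarith
    have h2 : (y : ℝ) ≤ p * (ρ * (2 * p * x)) :=
      hyρ.trans (mul_le_mul_of_nonneg_left (mul_le_mul_of_nonneg_left h1 hρ0.le) hp0.le)
    have h3 : (p : ℝ) * (ρ * (2 * p * x)) = ρ * (2 * p ^ 2) * x := by ring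
    rw [h3] at h2
    exact h2.trans (mul_le_mul_of_nonneg_right hρ2 hx0.le)
  · rw [div_le_iff₀ (by positivity)]
    linarith

/-- The local growth at a rational direction, in degrees three and four. -/
theorem Loc.grow4 {d : ℕ} (hd4 : d ≤ 4) {c : ℕ → ℕ → ℝ} {η : ℝ} (h : Loc d c η) :
    ∃ η' > 0, ∃ c₀ > 0, ∃ X₀ : ℝ, ∀ v ∈ HC η', X₀ ≤ (v.1 : ℝ) → c₀ * v.1 ≤ ev d c v.1 v.2 := by
  have hd := h.hd
  have hη := h.hη
  have hev : ∀ x y : ℝ, ev 4 c x y = ev d c x y := fun x y => ev_of_vanish hd4 h.hc x y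
  have hc4 : ∀ i j, 4 < i + j → c i j = 0 := fun i j hij => h.hc i j (by omega)
  have h40 : c 4 0 = 0 := by
    rcases Nat.lt_or_ge d 4 with h1 | h1
    · exact h.hc 4 0 (by omega)
    · have h2 : d = 4 := by omega
      subst h2
      have h3 := h.top0
      rw [top4] at h3
      linarith
  have hloc : Loc4 c η := by
    refine ⟨hc4, hη, h.hη1, fun v hv => ?_, fun v hv w hw hvw => ?_, h40, fun t ht htη => ?_⟩
    · rw [hev]; exact h.int v hv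
    · rw [hev, hev] at hvw; exact h.inj v hv w hw hvw
    · refine top_nonneg_of (by norm_num) hc4 ht fun n hn => ?_
      have hmem : (((n : ℤ), ((⌊t * (n : ℝ)⌋₊ : ℕ) : ℤ)) : ℤ × ℤ) ∈ HC η := by
        refine ⟨by show (0 : ℤ) < (n : ℤ); exact_mod_cast hn, by positivity, ?_⟩
        simp only [Int.cast_natCast]
        have h2 := Nat.floor_le (show 0 ≤ t * (n : ℝ) by positivity)
        exact h2.trans (mul_le_mul_of_nonneg_right htη (by positivity))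
      have h3 := h.nonneg hmem
      rw [hev]
      simpa using h3
  obtain ⟨D, hDd, ⟨j, hj⟩, hDmax⟩ := h.exists_D
  have hD2 := h.two_le_D hDmax
  obtain ⟨η', hη', _, c₀, hc₀, X₀, hX₀⟩ := hloc.grow ⟨D, j, hD2, hj⟩
  exact ⟨η', hη', c₀, hc₀, X₀, fun v hv hx => by rw [← hev]; exact hX₀ v hv hx⟩

namespace Pre

variable {d : ℕ} {c : ℕ → ℕ → ℝ} {α : ℝ}

/-- Growth on one side of a rational zero direction. -/
theorem side_grow (h : Pre d c α) (hd4 : d ≤ 4) {p r q s σ : ℤ} (hp : 0 < p)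
    (hσ : σ = 1 ∨ σ = -1)
    (hdet : p * s - q * r = σ) (hz0 : 0 ≤ (r : ℝ) / p) (hzα : (r : ℝ) / p ≤ α)
    (hs1 : σ = 1 → (r : ℝ) / p < α) (hs2 : σ = -1 → 0 < (r : ℝ) / p)
    (hzero : (top d c).eval ((r : ℝ) / p) = 0) :
    ∃ ρ > 0, ∃ c₀ > 0, ∃ X₀ : ℝ, ∀ v ∈ Sec α, 0 ≤ σ * ((v.2 : ℝ) - (r : ℝ) / p * v.1) →
      σ * ((v.2 : ℝ) - (r : ℝ) / p * v.1) ≤ ρ * v.1 → X₀ ≤ (v.1 : ℝ) →
      c₀ * v.1 ≤ ev d c v.1 v.2 := by
  have hp0 : (0 : ℝ) < p := by exact_mod_cast hp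
  obtain ⟨c', hce, η, hloc, hmem⟩ := h.side hp hσ hdet hz0 hzα hs1 hs2 hzero
  obtain ⟨η', hη', c₀, hc₀, X₀, hg⟩ := hloc.grow4 hd4
  obtain ⟨ρ, hρ, hmap⟩ := side_map hp hσ hdet hη'
  refine ⟨ρ, hρ, c₀ / (2 * p), by positivity, max 1 (2 * p * X₀), fun v hv h1 h2 h3 => ?_⟩
  have hv1 : (1 : ℝ) ≤ v.1 := (le_max_left _ _).trans h3
  have hvX : 2 * p * X₀ ≤ v.1 := (le_max_right _ _).trans h3
  have hv0 : 0 < v.1 := by
    have : (0 : ℝ) < v.1 := by linarith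
    exact_mod_cast this
  obtain ⟨x, y, hxy, hx, e1, e2⟩ := hmap v hv0 h1 h2
  have h4 : X₀ ≤ (x : ℝ) := by
    refine le_trans ?_ hx
    rw [le_div_iff₀ (by positivity)]
    linarith
  have h5 := hg (x, y) hxy h4
  simp only at h5
  rw [hce, e1, e2] at h5
  refine le_trans ?_ h5
  have h6 : c₀ * ((v.1 : ℝ) / (2 * p)) ≤ c₀ * x := mul_le_mul_of_nonneg_left hx hc₀.le
  have h7 : c₀ / (2 * p) * (v.1 : ℝ) = c₀ * ((v.1 : ℝ) / (2 * p)) := by ring
  rw [h7]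
  exact h6

theorem rat_grow (h : Pre d c α) (hd4 : d ≤ 4) {p r : ℤ} (hp : 0 < p) (hcop : IsCoprime p r)
    (hz0 : 0 ≤ (r : ℝ) / p) (hzα : (r : ℝ) / p ≤ α)
    (hzero : (top d c).eval ((r : ℝ) / p) = 0) : GrowDir d c α ((r : ℝ) / p) := by
  obtain ⟨s, q', hsq⟩ := hcop
  have hd1 : p * s - (-q') * r = 1 := by linarith
  have hd2 : p * (-s) - q' * r = -1 := by linarith
  have hα := h.hα
  rcases lt_or_eq_of_le hzα with hlt | heq
  · obtain ⟨ρ₁, hρ₁, c₁, hc₁, X₁, hg1⟩ := h.side_grow hd4 hp (Or.inl rfl) hd1 hz0 hzα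
      (fun _ => hlt) (fun h' => by norm_num at h') hzero
    rcases lt_or_eq_of_le hz0 with hpos | h0
    · obtain ⟨ρ₂, hρ₂, c₂, hc₂, X₂, hg2⟩ := h.side_grow hd4 hp (Or.inr rfl) hd2 hz0 hzα
        (fun h' => by norm_num at h') (fun _ => hpos) hzero
      refine ⟨min ρ₁ ρ₂, lt_min hρ₁ hρ₂, min c₁ c₂, lt_min hc₁ hc₂, max X₁ X₂, ?_⟩
      intro v hv1 hv3 hvX
      have hv2r : (0 : ℝ) ≤ v.1 := by exact_mod_cast hv1.1
      rw [abs_le] at hv3
      have m1 : min ρ₁ ρ₂ * (v.1 : ℝ) ≤ ρ₁ * v.1 :=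
        mul_le_mul_of_nonneg_right (min_le_left _ _) hv2r
      have m2 : min ρ₁ ρ₂ * (v.1 : ℝ) ≤ ρ₂ * v.1 :=
        mul_le_mul_of_nonneg_right (min_le_right _ _) hv2r
      rcases le_total 0 ((v.2 : ℝ) - (r : ℝ) / p * v.1) with hle | hle
      · have h1 := hg1 v hv1 (by push_cast; linarith) (by push_cast; linarith [hv3.2])
          ((le_max_left _ _).trans hvX)
        exact (mul_le_mul_of_nonneg_right (min_le_left _ _) hv2r).trans h1
      · have h1 := hg2 v hv1 (by push_cast; linarith) (by push_cast; linarith [hv3.1])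
          ((le_max_right _ _).trans hvX)
        exact (mul_le_mul_of_nonneg_right (min_le_right _ _) hv2r).trans h1
    · refine ⟨ρ₁, hρ₁, c₁, hc₁, X₁, ?_⟩
      intro v hv1 hv3 hvX
      rw [abs_le] at hv3
      refine hg1 v hv1 ?_ ?_ hvX
      · rw [← h0]
        push_cast
        have : (0 : ℝ) ≤ v.2 := by exact_mod_cast hv1.2.1
        linarith
      · push_cast; linarith [hv3.2]
  · obtain ⟨ρ₂, hρ₂, c₂, hc₂, X₂, hg2⟩ := h.side_grow hd4 hp (Or.inr rfl) hd2 hz0 hzα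
      (fun h' => by norm_num at h') (fun _ => by rw [heq]; exact hα) hzero
    refine ⟨ρ₂, hρ₂, c₂, hc₂, X₂, ?_⟩
    intro v hv1 hv3 hvX
    rw [abs_le] at hv3
    refine hg2 v hv1 ?_ ?_ hvX
    · rw [heq]
      push_cast
      have := hv1.2.2
      linarith
    · push_cast; linarith [hv3.1]

/-- Growth away from the zeros of the top form. -/
theorem away_grow (h : Pre d c α) (Z : Finset ℝ)
    (hZ : ∀ z, 0 ≤ z → z ≤ α → (top d c).eval z = 0 → z ∈ Z) (ρ : ℝ → ℝ) (hρ : ∀ z ∈ Z, 0 < ρ z) :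
    ∃ c₀ > 0, ∃ X₀ : ℝ, ∀ v ∈ Sec α, (∀ z ∈ Z, ρ z * v.1 < |(v.2 : ℝ) - z * v.1|) →
      X₀ ≤ (v.1 : ℝ) → c₀ * v.1 ≤ ev d c v.1 v.2 := by
  classical
  have hd := h.hd
  have hα := h.hα
  obtain ⟨γ, hγ, hγb⟩ : ∃ γ > 0, ∀ t, 0 ≤ t → t ≤ α → (∀ z ∈ Z, ρ z ≤ |t - z|) →
      γ ≤ |(top d c).eval t| := by
    set K : Set ℝ := {t | t ∈ Set.Icc 0 α ∧ ∀ z ∈ Z, ρ z ≤ |t - z|} with hK
    have hKc : IsCompact K := by
      refine isCompact_Icc.of_isClosed_subset ?_ (fun t ht => ht.1)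
      have : K = Set.Icc 0 α ∩ ⋂ z ∈ Z, {t | ρ z ≤ |t - z|} := by
        ext t
        simp only [hK, Set.mem_inter_iff, Set.mem_iInter]
        exact Iff.rfl
      rw [this]
      refine isClosed_Icc.inter (isClosed_biInter fun z _ => ?_)
      exact isClosed_le continuous_const (by fun_prop)
    rcases K.eq_empty_or_nonempty with hemp | hne
    · refine ⟨1, one_pos, fun t h1 h2 h3 => ?_⟩
      have : t ∈ K := ⟨⟨h1, h2⟩, h3⟩
      rw [hemp] at this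
      exact absurd this (Set.notMem_empty t)
    · obtain ⟨t₀, ht₀, hmin⟩ := hKc.exists_isMinOn hne
        ((top d c).continuous.abs.continuousOn (s := K))
      refine ⟨|(top d c).eval t₀|, abs_pos.2 fun h0 => ?_, fun t h1 h2 h3 => hmin ⟨⟨h1, h2⟩, h3⟩⟩
      have h1 := hZ t₀ ht₀.1.1 ht₀.1.2 h0
      have h2 := ht₀.2 t₀ h1
      rw [sub_self, abs_zero] at h2
      linarith [hρ t₀ h1]
  obtain ⟨K, hK, hKb⟩ := ev_sub_top_le (by omega) h.hc α
  refine ⟨γ / 2, by positivity, max 1 (2 * K / γ), fun v hv hvz hvX => ?_⟩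
  have hx1 : (1 : ℝ) ≤ v.1 := (le_max_left _ _).trans hvX
  have hv1 : 2 * K / γ ≤ v.1 := (le_max_right _ _).trans hvX
  have hx0 : (0 : ℝ) < v.1 := by linarith
  have hy0 : (0 : ℝ) ≤ v.2 := by exact_mod_cast hv.2.1
  set x : ℝ := ((v.1 : ℤ) : ℝ) with hx
  set y : ℝ := ((v.2 : ℤ) : ℝ) with hy
  have ht0 : 0 ≤ y / x := by positivity
  have htα : y / x ≤ α := by
    rw [div_le_iff₀ hx0]; exact hv.2.2
  have hyt : y = (y / x) * x := by field_simp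
  have h1 := hKb x (y / x) hx1 (by rw [abs_of_nonneg ht0]; exact htα)
  rw [← hyt] at h1
  have h2 := hγb (y / x) ht0 htα (fun z hz => by
    have h3 := hvz z hz
    have h4 : y / x - z = (y - z * x) / x := by field_simp
    rw [h4, abs_div, abs_of_pos hx0, le_div_iff₀ hx0]
    exact h3.le)
  have h3 : |x ^ d * (top d c).eval (y / x)| = x ^ d * |(top d c).eval (y / x)| := by
    rw [abs_mul, abs_of_pos (by positivity)]
  have h4 : |x ^ d * (top d c).eval (y / x)| - |ev d c x y| ≤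
      |ev d c x y - x ^ d * (top d c).eval (y / x)| := by
    rw [abs_sub_comm]; exact abs_sub_abs_le_abs_sub _ _
  rw [h3, abs_of_nonneg (h.nonneg hv)] at h4
  have h5 : x ^ d = x * x ^ (d - 1) := by
    rw [← pow_succ']; congr 1; omega
  have h6 : K * x ^ (d - 1) ≤ γ / 2 * x ^ d := by
    rw [h5, ← mul_assoc]
    refine mul_le_mul_of_nonneg_right ?_ (by positivity)
    rw [div_le_iff₀ hγ] at hv1
    linarith
  have h7 : x ^ d * γ ≤ x ^ d * |(top d c).eval (y / x)| :=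
    mul_le_mul_of_nonneg_left h2 (by positivity)
  have h8 : x ≤ x ^ d := le_self_pow₀ hx1 (by omega)
  have h9 : γ / 2 * x ≤ γ / 2 * x ^ d := mul_le_mul_of_nonneg_left h8 (by positivity)
  linarith

/-- Linear growth from growth near the zeros of the top form. -/
theorem exists_growth_of (h : Pre d c α)
    (hgd : ∀ z, 0 ≤ z → z ≤ α → (top d c).eval z = 0 → GrowDir d c α z) :
    ∃ c₀ C₀ : ℝ, 0 < c₀ ∧ ∀ v ∈ Sec α, c₀ * v.1 - C₀ ≤ ev d c v.1 v.2 := by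
  classical
  set Z : Finset ℝ := (top d c).roots.toFinset.filter (fun z => 0 ≤ z ∧ z ≤ α) with hZ
  have hZmem : ∀ z, z ∈ Z ↔ (top d c).eval z = 0 ∧ 0 ≤ z ∧ z ≤ α := by
    intro z
    rw [hZ, Finset.mem_filter, Multiset.mem_toFinset, mem_roots h.htop, IsRoot.def]
  have hdir : ∀ z ∈ Z, GrowDir d c α z := by
    intro z hz
    obtain ⟨h1, h2, h3⟩ := (hZmem z).1 hz
    exact hgd z h2 h3 h1
  choose! ρ hρ c₁ hc₁ X₁ hg using hdir
  obtain ⟨c₂, hc₂, X₂, hg2⟩ := h.away_grow Z (fun z h1 h2 h3 => (hZmem z).2 ⟨h3, h1, h2⟩) ρ hρ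
  -- uniform constants
  obtain ⟨c₀, hc₀, hc₀2, hc₀z⟩ : ∃ c₀ : ℝ, 0 < c₀ ∧ c₀ ≤ c₂ ∧ ∀ z ∈ Z, c₀ ≤ c₁ z := by
    rcases Z.eq_empty_or_nonempty with hemp | hne
    · exact ⟨c₂, hc₂, le_rfl, fun z hz => by rw [hemp] at hz; simp at hz⟩
    · obtain ⟨z₀, hz₀, hmin⟩ := Z.exists_min_image c₁ hne
      exact ⟨min c₂ (c₁ z₀), lt_min hc₂ (hc₁ z₀ hz₀), min_le_left _ _,
        fun z hz => (min_le_right _ _).trans (hmin z hz)⟩
  obtain ⟨X₀, hX₀0, hX₀2, hX₀z⟩ : ∃ X₀ : ℝ, 0 ≤ X₀ ∧ X₂ ≤ X₀ ∧ ∀ z ∈ Z, X₁ z ≤ X₀ := by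
    refine ⟨|X₂| + ∑ z ∈ Z, |X₁ z|, by positivity, ?_, fun z hz => ?_⟩
    · have : 0 ≤ ∑ z ∈ Z, |X₁ z| := by positivity
      linarith [le_abs_self X₂]
    · have h1 : |X₁ z| ≤ ∑ z ∈ Z, |X₁ z| :=
        Finset.single_le_sum (f := fun z => |X₁ z|) (fun i _ => abs_nonneg _) hz
      linarith [le_abs_self (X₁ z), abs_nonneg X₂]
  refine ⟨c₀, c₀ * X₀, hc₀, fun v hv => ?_⟩
  have hv0 : (0 : ℝ) ≤ v.1 := by exact_mod_cast hv.1
  rcases lt_or_ge (v.1 : ℝ) X₀ with hlt | hge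
  · have h1 := h.nonneg hv
    have h2 : c₀ * (v.1 : ℝ) ≤ c₀ * X₀ := mul_le_mul_of_nonneg_left hlt.le hc₀.le
    linarith
  · have h3 : c₀ * (v.1 : ℝ) ≤ ev d c v.1 v.2 := by
      by_cases hex : ∃ z ∈ Z, |(v.2 : ℝ) - z * v.1| ≤ ρ z * v.1
      · obtain ⟨z, hz, hle⟩ := hex
        have h4 := hg z hz v hv hle ((hX₀z z hz).trans hge)
        exact (mul_le_mul_of_nonneg_right (hc₀z z hz) hv0).trans h4
      · push Not at hex
        have h4 := hg2 v hv hex (hX₀2.trans hge)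
        exact (mul_le_mul_of_nonneg_right hc₀2 hv0).trans h4
    have h4 : 0 ≤ c₀ * X₀ := by positivity
    linarith

/-- Linear growth in degrees three and four. -/
theorem exists_growth (h : Pre d c α) (hd4 : d ≤ 4)
    (hbd : (top d c).eval α = 0 → ¬ Irrational α) :
    ∃ c₀ C₀ : ℝ, 0 < c₀ ∧ ∀ v ∈ Sec α, c₀ * v.1 - C₀ ≤ ev d c v.1 v.2 := by
  have hd3 := h.hd
  refine h.exists_growth_of fun z h2 h3 h1 => ?_
  by_cases hirr : Irrational z
  · have hz0 : 0 < z := lt_of_le_of_ne h2 fun h0 => by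
      rw [← h0] at hirr; exact hirr ⟨0, by simp⟩
    have hzα : z < α := lt_of_le_of_ne h3 fun h0 => by
      rw [h0] at h1 hirr; exact hbd h1 hirr
    rcases Nat.lt_or_ge d 4 with h4 | h4
    · have h5 : d = 3 := by omega
      subst h5
      exact (h.no_irr3 hirr hz0 hzα h1).elim
    · have h5 : d = 4 := by omega
      subst h5
      exact h.irr4_grow hirr hz0 hzα h1
  · rw [Irrational, not_not] at hirr
    obtain ⟨q, rfl⟩ := hirr
    have e1 : ((q : ℚ) : ℝ) = ((q.num : ℤ) : ℝ) / ((q.den : ℤ) : ℝ) := by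
      rw [Int.cast_natCast]
      exact_mod_cast (Rat.num_div_den q).symm
    rw [e1] at h1 h2 h3 ⊢
    refine h.rat_grow hd4 (by exact_mod_cast q.den_pos) ?_ h2 h3 h1
    rw [Int.isCoprime_iff_gcd_eq_one, Int.gcd_comm, Int.gcd, Int.natAbs_natCast]
    exact q.reduced

/-- Degrees three and four are impossible. -/
theorem false_of_deg_le_four (h : Pre d c α) (hd4 : d ≤ 4)
    (hbd : (top d c).eval α = 0 → ¬ Irrational α) : False := by
  obtain ⟨c₀, C₀, hc₀, hg⟩ := h.exists_growth hd4 hbd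
  exact Glob.false_of (c₀ := c₀) (C₀ := C₀) ⟨h, hc₀, hg⟩

end Pre

end Pool.Agent.Pack
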