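import Pool.Agent.Pack.Grow2

/-!
# The two top forms have a common zero
-/

set_option autoImplicit false

open Polynomial Finset Filter Topology

namespace Pool.Agent.Pack

namespace Pre

variable {d : ℕ} {c : ℕ → ℕ → ℝ} {α : ℝ}

/-- Lattice points of the sector close to a ray. -/
theorem near_ray (h : Pre d c α) {z : ℝ} (hz0 : 0 ≤ z) (hzα : z ≤ α) {ε : ℝ} (hε : 0 < ε)
    (X : ℝ) : ∃ v ∈ Sec α, X ≤ (v.1 : ℝ) ∧ 1 ≤ v.1 ∧ |(v.2 : ℝ) - z * v.1| ≤ ε := by
  have hα := h.hα
  by_cases hz : Irrational z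
  · have hzpos : 0 < z := lt_of_le_of_ne hz0 fun h0 => by
      rw [← h0] at hz; exact hz ⟨0, by simp⟩
    obtain ⟨x, y, hx1, hx2, hxy⟩ := inhom hz (-(ε / 2)) (max X (max (10 / ε) (ε / z)))
    have hxX : X ≤ x := (le_max_left _ _).trans hx1
    have hxε : 10 / ε ≤ x := (le_max_left _ _).trans ((le_max_right _ _).trans hx1)
    have hxz : ε / z ≤ x := (le_max_right _ _).trans ((le_max_right _ _).trans hx1)
    have hx0 : (0 : ℝ) < x := by
      have : (1 : ℝ) ≤ x := by exact_mod_cast hx2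
      linarith
    rw [div_le_iff₀ hε] at hxε
    rw [div_le_iff₀ hzpos] at hxz
    have h5 : 5 / (x : ℝ) ≤ ε / 2 := by
      rw [div_le_iff₀ hx0]; linarith
    have h6 := abs_le.1 (hxy.trans h5)
    refine ⟨(x, y), ⟨by simp only; omega, ?_, ?_⟩, hxX, hx2, ?_⟩
    · have : (0 : ℝ) ≤ y := by linarith [h6.1]
      exact_mod_cast this
    · simp only
      have h7 : z * (x : ℝ) ≤ α * x := mul_le_mul_of_nonneg_right hzα hx0.le
      linarith [h6.2]
    · simp only
      rw [abs_le]
      constructor <;> linarith [h6.1, h6.2]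
  · rw [Irrational, not_not] at hz
    obtain ⟨q, rfl⟩ := hz
    obtain ⟨n, hn⟩ := exists_nat_gt (max X 1)
    have hden : (1 : ℝ) ≤ q.den := by exact_mod_cast q.den_pos
    have hn1 : (1 : ℝ) < n := (le_max_right _ _).trans_lt hn
    have hnX : X < n := (le_max_left _ _).trans_lt hn
    have hnum : (q.num : ℝ) = (q : ℝ) * q.den := by
      exact_mod_cast (Rat.mul_den_eq_num q).symm
    have e1 : (((q.den * n : ℕ) : ℤ) : ℝ) = q.den * n := by push_cast; ring
    refine ⟨(((q.den * n : ℕ) : ℤ), q.num * n), ⟨by positivity, ?_, ?_⟩, ?_, ?_, ?_⟩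
    · have h1 : (0 : ℝ) ≤ q.num := by rw [hnum]; positivity
      have h2 : (0 : ℤ) ≤ q.num := by exact_mod_cast h1
      positivity
    · simp only
      push_cast
      rw [hnum]
      have : (q : ℝ) * (q.den * n) ≤ α * (q.den * n) :=
        mul_le_mul_of_nonneg_right hzα (by positivity)
      linarith
    · simp only
      rw [e1]
      nlinarith
    · simp only
      have h1 : 0 < n := by
        have : (0 : ℝ) < n := by linarith
        exact_mod_cast this
      have h2 := Nat.mul_pos q.den_pos h1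
      exact_mod_cast h2
    · simp only
      push_cast
      rw [hnum]
      have : (q : ℝ) * q.den * n - q * (q.den * n) = 0 := by ring
      rw [this, abs_zero]
      exact hε.le

/-- Growth at a zero of the top form at which the next form does not vanish. -/
theorem dir_grow (h : Pre d c α) {z : ℝ} (hz0 : 0 ≤ z) (hzα : z ≤ α)
    (hzero : (top d c).eval z = 0) (hne : (top (d - 1) c).eval z ≠ 0) : GrowDir d c α z := by
  have hd := h.hd
  set c₁ : ℕ → ℕ → ℝ := fun i j => if i + j = d then 0 else c i j with hc₁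
  have hv₁ : ∀ i j, d - 1 < i + j → c₁ i j = 0 := by
    intro i j hij
    simp only [hc₁]
    split_ifs with h1
    · rfl
    · exact h.hc i j (by omega)
  have htop₁ : top (d - 1) c₁ = top (d - 1) c := by
    ext j
    rw [top_coeff, top_coeff]
    split_ifs with h1
    · simp only [hc₁]
      rw [if_neg (by omega)]
    · rfl
  -- decomposition
  have hdec : ∀ x y : ℝ, 0 < x → ev d c x y = x ^ d * (top d c).eval (y / x) + ev (d - 1) c₁ x y := by
    intro x y hx
    rw [← ev_of_vanish (Nat.sub_le d 1) hv₁]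
    have e1 : x ^ d * (top d c).eval (y / x) = ∑ i ∈ range (d + 1), ∑ j ∈ range (d + 1),
        if i + j = d then c i j * x ^ i * y ^ j else 0 := by
      rw [top_eval, Finset.mul_sum, Finset.sum_comm]
      refine Finset.sum_congr rfl fun j hj => ?_
      have hj' : j ≤ d := Nat.lt_succ_iff.1 (mem_range.1 hj)
      rw [Finset.sum_eq_single (d - j)]
      · rw [if_pos (by omega), div_pow]
        have : x ^ d = x ^ (d - j) * x ^ j := by rw [← pow_add]; congr 1; omega
        rw [this]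
        field_simp
      · intro i _ hij
        rw [if_neg (by omega)]
      · intro h
        exact absurd (mem_range.2 (by omega)) h
    rw [e1, ev, ev, ← Finset.sum_add_distrib]
    refine Finset.sum_congr rfl fun i _ => ?_
    rw [← Finset.sum_add_distrib]
    refine Finset.sum_congr rfl fun j _ => ?_
    simp only [hc₁]
    split_ifs <;> ring
  rcases lt_or_gt_of_ne hne with hneg | hpos
  · exfalso
    obtain ⟨ρ, hρ, κ, hκ, X₀, hX₀, hb⟩ := signed_lower (k := d - 1) (by omega)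
      (c' := fun i j => -c₁ i j) (fun i j hij => by
        show -c₁ i j = 0
        rw [hv₁ i j hij, neg_zero]) (θ := z) (by rw [top_neg, htop₁]; linarith)
    -- Lipschitz bound
    obtain ⟨g₁, hg₁⟩ := dvd_iff_isRoot.2 (show (top d c).IsRoot z from hzero)
    obtain ⟨Λ, hΛ⟩ := (isCompact_Icc (a := z - 1) (b := z + 1)).exists_bound_of_continuousOn
      (f := fun t => g₁.eval t) g₁.continuous.continuousOn
    have hΛ0 : 0 ≤ Λ := (norm_nonneg _).trans (hΛ z ⟨by linarith, by linarith⟩)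
    set ε : ℝ := min 1 (κ / (2 * (Λ + 1))) with hε
    have hε0 : 0 < ε := lt_min one_pos (by positivity)
    obtain ⟨v, hv, hvX, hv1, hvε⟩ := h.near_ray hz0 hzα hε0 (max X₀ (1 / ρ))
    have hx0 : X₀ ≤ (v.1 : ℝ) := (le_max_left _ _).trans hvX
    have hxρ : 1 / ρ ≤ (v.1 : ℝ) := (le_max_right _ _).trans hvX
    rw [div_le_iff₀ hρ] at hxρ
    have hx1 : (1 : ℝ) ≤ v.1 := hX₀.trans hx0
    have hxp : (0 : ℝ) < v.1 := by linarith
    have hε1 : ε ≤ 1 := min_le_left _ _
    have hε2 : ε ≤ κ / (2 * (Λ + 1)) := min_le_right _ _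
    rw [le_div_iff₀ (by positivity)] at hε2
    have h1 := hb v.1 v.2 hx0 (by linarith)
    rw [ev_neg] at h1
    have h2 := h.nonneg hv
    rw [hdec _ _ hxp] at h2
    have h3 : (v.2 : ℝ) / v.1 - z = ((v.2 : ℝ) - z * v.1) / v.1 := by field_simp
    have h4 : |(v.2 : ℝ) / v.1 - z| ≤ ε / v.1 := by
      rw [h3, abs_div, abs_of_pos hxp]
      exact div_le_div_of_nonneg_right hvε hxp.le
    have h5 : ε / (v.1 : ℝ) ≤ 1 := by
      rw [div_le_one hxp]; linarith
    have h6 := abs_le.1 (h4.trans h5)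
    have h7 := hΛ ((v.2 : ℝ) / v.1) ⟨by linarith [h6.1], by linarith [h6.2]⟩
    rw [Real.norm_eq_abs] at h7
    have h8 : (top d c).eval ((v.2 : ℝ) / v.1) ≤ ε / v.1 * Λ := by
      rw [hg₁, eval_mul, eval_sub, eval_X, eval_C]
      refine (le_abs_self _).trans ?_
      rw [abs_mul]
      exact mul_le_mul h4 h7 (abs_nonneg _) (by positivity)
    have h9 : (v.1 : ℝ) ^ d = (v.1 : ℝ) ^ (d - 1) * v.1 := by
      rw [← pow_succ]; congr 1; omega
    have h10 : (v.1 : ℝ) ^ d * (top d c).eval ((v.2 : ℝ) / v.1) ≤ (v.1 : ℝ) ^ d * (ε / v.1 * Λ) :=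
      mul_le_mul_of_nonneg_left h8 (by positivity)
    have h11 : (v.1 : ℝ) ^ d * (ε / v.1 * Λ) = (ε * Λ) * (v.1 : ℝ) ^ (d - 1) := by
      rw [h9]; field_simp
    have h12 : (ε * Λ) * (v.1 : ℝ) ^ (d - 1) ≤ (κ / 2) * (v.1 : ℝ) ^ (d - 1) := by
      refine mul_le_mul_of_nonneg_right ?_ (by positivity)
      linarith
    have h13 : 0 < κ / 2 * (v.1 : ℝ) ^ (d - 1) := by positivity
    linarith
  · obtain ⟨ρ, hρ, κ, hκ, X₀, hX₀, hb⟩ := signed_lower (k := d - 1) (by omega) hv₁ (θ := z)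
      (by rw [htop₁]; exact hpos)
    refine ⟨ρ, hρ, κ, hκ, X₀, fun v hv hvρ hvX => ?_⟩
    have hx1 : (1 : ℝ) ≤ v.1 := hX₀.trans hvX
    have hxp : (0 : ℝ) < v.1 := by linarith
    have h1 := hb v.1 v.2 hvX hvρ
    rw [hdec _ _ hxp]
    have hy0 : (0 : ℝ) ≤ v.2 := by exact_mod_cast hv.2.1
    have h2 := h.top_nonneg (t := (v.2 : ℝ) / v.1) (by positivity) (by
      rw [div_le_iff₀ hxp]; exact hv.2.2)
    have h4 : (v.1 : ℝ) ≤ (v.1 : ℝ) ^ (d - 1) := le_self_pow₀ hx1 (by omega)
    have h5 : κ * (v.1 : ℝ) ≤ κ * (v.1 : ℝ) ^ (d - 1) := mul_le_mul_of_nonneg_left h4 hκ.le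
    have h6 : 0 ≤ (v.1 : ℝ) ^ d * (top d c).eval ((v.2 : ℝ) / v.1) :=
      mul_nonneg (by positivity) h2
    linarith

/-- The two top forms have a common zero in the closed sector. -/
theorem common_zero (h : Pre d c α) :
    ∃ t, 0 ≤ t ∧ t ≤ α ∧ (top d c).eval t = 0 ∧ (top (d - 1) c).eval t = 0 := by
  by_contra hcon
  push Not at hcon
  obtain ⟨c₀, C₀, hc₀, hg⟩ := h.exists_growth_of fun z h1 h2 h3 => h.dir_grow h1 h2 h3
    (hcon z h1 h2 h3)
  exact Glob.false_of (c₀ := c₀) (C₀ := C₀) ⟨h, hc₀, hg⟩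

end Pre

/-- The restriction of a polynomial to a ray. -/
theorem ev_ray (d : ℕ) {c : ℕ → ℕ → ℝ} (hc : ∀ i j, d < i + j → c i j = 0) (t s : ℝ) :
    ev d c s (t * s) = ∑ k ∈ range (d + 1), (top k c).eval t * s ^ k := by
  have h1 : ∀ k ∈ range (d + 1), (top k c).eval t * s ^ k =
      ∑ j ∈ range (d + 1), if j ≤ k then c (k - j) j * t ^ j * s ^ k else 0 := by
    intro k hk
    rw [Finset.mem_range, Nat.lt_succ_iff] at hk
    rw [top_eval, Finset.sum_mul, ← Finset.sum_filter]
    refine Finset.sum_congr ?_ fun j _ => rfl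
    ext j
    simp only [Finset.mem_range, Finset.mem_filter]
    omega
  rw [Finset.sum_congr rfl h1, Finset.sum_comm, ev, Finset.sum_comm]
  refine Finset.sum_congr rfl fun j hj => ?_
  rw [Finset.mem_range, Nat.lt_succ_iff] at hj
  rw [← Finset.sum_filter]
  -- reindex `k = i + j`
  have h2 : ∑ i ∈ range (d + 1), c i j * s ^ i * (t * s) ^ j =
      ∑ i ∈ range (d - j + 1), c i j * s ^ i * (t * s) ^ j := by
    symm
    refine Finset.sum_subset (Finset.range_subset_range.2 (by omega)) fun i _ hi => ?_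
    rw [Finset.mem_range] at hi
    rw [hc i j (by omega)]
    ring
  rw [h2]
  refine Finset.sum_bij (fun i _ => i + j) ?_ ?_ ?_ ?_
  · intro i hi
    rw [Finset.mem_range] at hi
    rw [Finset.mem_filter, Finset.mem_range]
    omega
  · intro i _ i' _ hii
    omega
  · intro k hk
    rw [Finset.mem_filter, Finset.mem_range] at hk
    exact ⟨k - j, by rw [Finset.mem_range]; omega, by omega⟩
  · intro i _
    rw [Nat.add_sub_cancel, mul_pow, pow_add]
    ring

end Pool.Agent.Pack
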