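import Mathlib

/-!
# Sublevel sets of univariate real polynomials at integers
-/

set_option autoImplicit false

open Polynomial Set Finset

namespace Pool.Agent.Pack

/-- If `|p| ≤ T` at `2 ^ m` points with gaps at least `g`, then the `m`-th derivative is at most
`2 ^ m * T / g ^ m` somewhere between them. -/
theorem exists_small_deriv (m : ℕ) : ∀ (p : ℝ[X]) (g T : ℝ) (_ : 0 < g) (a : ℕ → ℝ)
    (_ : ∀ k, k + 1 < 2 ^ m → a k + g ≤ a (k + 1)) (_ : ∀ k < 2 ^ m, |p.eval (a k)| ≤ T),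
    ∃ ξ ∈ Set.Icc (a 0) (a (2 ^ m - 1)), |(derivative^[m] p).eval ξ| ≤ 2 ^ m * T / g ^ m := by
  induction m with
  | zero =>
    intro p g T hg a ha hp
    refine ⟨a 0, ⟨le_rfl, by simp⟩, ?_⟩
    simpa using hp 0 (by norm_num)
  | succ m ih =>
    intro p g T hg a ha hp
    have hpow : 2 ^ (m + 1) = 2 * 2 ^ m := by ring
    have hM : 1 ≤ 2 ^ m := Nat.one_le_two_pow
    have key : ∀ k : ℕ, ∃ ξ : ℝ, k < 2 ^ m → a (2 * k) ≤ ξ ∧ ξ ≤ a (2 * k + 1) ∧
        |(derivative p).eval ξ| ≤ 2 * T / g := by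
      intro k
      by_cases hk : k < 2 ^ m
      · have h1 : a (2 * k) + g ≤ a (2 * k + 1) := ha (2 * k) (by omega)
        have h0 : a (2 * k) < a (2 * k + 1) := by linarith
        obtain ⟨ξ, hξ, hξ'⟩ := exists_deriv_eq_slope (fun x => p.eval x) h0
          p.continuous.continuousOn p.differentiable.differentiableOn
        refine ⟨ξ, fun _ => ⟨hξ.1.le, hξ.2.le, ?_⟩⟩
        rw [Polynomial.deriv] at hξ'
        rw [hξ', abs_div, abs_of_pos (sub_pos.2 h0)]
        have hT1 := hp (2 * k) (by omega)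
        have hT2 := hp (2 * k + 1) (by omega)
        have hT : 0 ≤ T := (abs_nonneg _).trans hT1
        have h3 : |p.eval (a (2 * k + 1)) - p.eval (a (2 * k))| ≤ 2 * T := by
          rw [abs_le] at *
          constructor <;> linarith
        calc |p.eval (a (2 * k + 1)) - p.eval (a (2 * k))| / (a (2 * k + 1) - a (2 * k))
            ≤ 2 * T / (a (2 * k + 1) - a (2 * k)) :=
              div_le_div_of_nonneg_right h3 (sub_pos.2 h0).le
          _ ≤ 2 * T / g := div_le_div_of_nonneg_left (by positivity) hg (by linarith)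
      · exact ⟨0, fun h => absurd h hk⟩
    choose b hb using key
    obtain ⟨ξ, hξ, hξ'⟩ := ih (derivative p) g (2 * T / g) hg b (by
      intro k hk
      have h1 := hb k (by omega)
      have h2 := hb (k + 1) (by omega)
      have h3 := ha (2 * k + 1) (by omega)
      have h4 : 2 * (k + 1) = 2 * k + 1 + 1 := by ring
      rw [h4] at h2
      linarith [h1.2.1, h2.1]) (fun k hk => (hb k hk).2.2)
    refine ⟨ξ, ⟨?_, ?_⟩, ?_⟩
    · have := (hb 0 (by omega)).1
      simp only [mul_zero] at this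
      exact this.trans hξ.1
    · have h1 := (hb (2 ^ m - 1) (by omega)).2.1
      have h2 : 2 * (2 ^ m - 1) + 1 = 2 ^ (m + 1) - 1 := by omega
      rw [h2] at h1
      exact hξ.2.trans h1
    · rw [Function.iterate_succ_apply]
      refine hξ'.trans (le_of_eq ?_)
      rw [pow_succ 2 m, pow_succ g m]
      field_simp

/-- Sublevel lemma for integer points: if `lam ≤ |p^(m)|` on the order-connected set `I` and
`|p| ≤ T` on a set `S` of integers in `I` with more than `(2 ^ m - 1) * g` elements, then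
`lam * g ^ m ≤ 2 ^ m * T`. -/
theorem sublevel_int (m : ℕ) (p : ℝ[X]) (I : Set ℝ) (hI : I.OrdConnected) (lam T : ℝ)
    (hlam : ∀ ξ ∈ I, lam ≤ |(derivative^[m] p).eval ξ|) (S : Finset ℤ)
    (hS : ∀ s ∈ S, (s : ℝ) ∈ I ∧ |p.eval (s : ℝ)| ≤ T) (g : ℕ) (hg : 0 < g)
    (hcard : (2 ^ m - 1) * g + 1 ≤ S.card) : lam * (g : ℝ) ^ m ≤ 2 ^ m * T := by
  classical
  let e := S.orderEmbOfFin rfl
  have hM : 1 ≤ 2 ^ m := Nat.one_le_two_pow
  have hidx : ∀ k, k < 2 ^ m → k * g < S.card := by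
    intro k hk
    have : k * g ≤ (2 ^ m - 1) * g := Nat.mul_le_mul_right _ (by omega)
    omega
  have hcpos : 0 < S.card := by omega
  let a : ℕ → ℝ := fun k => if h : k * g < S.card then ((e ⟨k * g, h⟩ : ℤ) : ℝ) else 0
  have hae : ∀ k (hk : k < 2 ^ m), a k = ((e ⟨k * g, hidx k hk⟩ : ℤ) : ℝ) := by
    intro k hk
    simp only [a, dif_pos (hidx k hk)]
  have hmem : ∀ i, e i ∈ S := fun i => S.orderEmbOfFin_mem rfl i
  -- gaps of a strictly increasing sequence of integers
  have hgap : ∀ (i : ℕ) (n : ℕ) (h : i + n < S.card),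
      (e ⟨i, by omega⟩ : ℤ) + n ≤ e ⟨i + n, h⟩ := by
    intro i n
    induction n with
    | zero => intro h; simp
    | succ n ihn =>
      intro h
      have h1 := ihn (by omega)
      have h2 : e ⟨i + n, by omega⟩ < e ⟨i + (n + 1), h⟩ := by
        apply e.strictMono
        rw [Fin.mk_lt_mk]; omega
      push_cast
      omega
  obtain ⟨ξ, hξ, hξ'⟩ := exists_small_deriv m p g T (by exact_mod_cast hg) a
    (by
      intro k hk
      rw [hae k (by omega), hae (k + 1) hk]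
      have h := hgap (k * g) g (by have := hidx (k + 1) hk; rw [Nat.succ_mul] at this; exact this)
      have h2 : (⟨(k + 1) * g, hidx (k + 1) hk⟩ : Fin S.card) =
          ⟨k * g + g, by have := hidx (k + 1) hk; rw [Nat.succ_mul] at this; exact this⟩ := by
        ext; simp only; ring
      rw [h2]
      exact_mod_cast h)
    (by
      intro k hk
      rw [hae k hk]
      exact (hS _ (hmem _)).2)
  have hξI : ξ ∈ I := by
    refine hI.out ?_ ?_ hξ
    · rw [hae 0 (by omega)]; exact (hS _ (hmem _)).1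
    · rw [hae (2 ^ m - 1) (by omega)]; exact (hS _ (hmem _)).1
  have hgp : (0 : ℝ) < (g : ℝ) ^ m := by positivity
  have := (hlam ξ hξI).trans hξ'
  rwa [le_div_iff₀ hgp] at this

/-- Cardinality form of the sublevel lemma. -/
theorem card_sublevel (m : ℕ) (hm : 0 < m) (p : ℝ[X]) (I : Set ℝ) (hI : I.OrdConnected)
    (lam T : ℝ) (hlam0 : 0 < lam) (hT : 0 ≤ T)
    (hlam : ∀ ξ ∈ I, lam ≤ |(derivative^[m] p).eval ξ|) (S : Finset ℤ)
    (hS : ∀ s ∈ S, (s : ℝ) ∈ I ∧ |p.eval (s : ℝ)| ≤ T) :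
    (S.card : ℝ) ≤ 2 ^ m * (1 + (2 ^ m * T / lam) ^ ((1 : ℝ) / m)) := by
  set R : ℝ := (2 ^ m * T / lam) ^ ((1 : ℝ) / m) with hR
  have hR0 : 0 ≤ R := by positivity
  set g : ℕ := ⌊R⌋₊ + 1 with hg
  have hgR : R < g := by rw [hg]; push_cast; exact Nat.lt_floor_add_one R
  have hcard : ¬ ((2 ^ m - 1) * g + 1 ≤ S.card) := by
    intro h
    have h1 := sublevel_int m p I hI lam T hlam S hS g (by omega) h
    have h2 : 2 ^ m * T / lam < (g : ℝ) ^ m := by
      have h3 : R ^ m = 2 ^ m * T / lam := by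
        rw [hR, ← Real.rpow_natCast, ← Real.rpow_mul (by positivity)]
        rw [one_div, inv_mul_cancel₀ (by exact_mod_cast hm.ne'), Real.rpow_one]
      rw [← h3]
      exact pow_lt_pow_left₀ hgR hR0 hm.ne'
    rw [div_lt_iff₀ hlam0] at h2
    linarith
  have h4 : S.card ≤ (2 ^ m - 1) * g := by omega
  have h5 : (S.card : ℝ) ≤ (2 ^ m - 1) * g := by
    have : (S.card : ℝ) ≤ ((2 ^ m - 1 : ℕ) : ℝ) * g := by exact_mod_cast h4
    rwa [Nat.cast_sub Nat.one_le_two_pow, Nat.cast_pow, Nat.cast_ofNat, Nat.cast_one] at this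
  have h6 : (g : ℝ) ≤ 1 + R := by
    rw [hg]; push_cast; linarith [Nat.floor_le hR0]
  have h7 : (1 : ℝ) ≤ 2 ^ m := one_le_pow₀ (by norm_num)
  calc (S.card : ℝ) ≤ (2 ^ m - 1) * g := h5
    _ ≤ (2 ^ m - 1) * (1 + R) := mul_le_mul_of_nonneg_left h6 (by linarith)
    _ ≤ 2 ^ m * (1 + R) := by nlinarith

end Pool.Agent.Pack
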