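import Pool.Agent.Pack.Dir
import Pool.Agent.Pack.Sub
import Pool.Agent.Pack.Count

/-!
# Irrational directions
-/

set_option autoImplicit false

open Polynomial Finset Filter Topology

namespace Pool.Agent.Pack

theorem affine_between {u w ξ₁ ξ₂ ξ : ℝ} (h1 : 0 ≤ u + w * ξ₁) (h2 : 0 ≤ u + w * ξ₂)
    (h3 : ξ₁ ≤ ξ) (h4 : ξ ≤ ξ₂) : 0 ≤ u + w * ξ := by
  rcases le_total 0 w with h | h
  · nlinarith
  · nlinarith

theorem col_ineq {d μ : ℕ} (hd : 3 ≤ d) (hμ : 1 ≤ μ) (h2μ : 2 * μ ≤ d) {L n x : ℝ}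
    (hL : 1 ≤ L * n) (hx : 1 ≤ x) :
    (L * n / x ^ (d - μ)) ^ ((1 : ℝ) / μ) ≤ 1 + L * n / x ^ 2 := by
  have hx0 : 0 < x := by linarith
  have hLn : 0 ≤ L * n := by linarith
  rcases Nat.lt_or_ge 1 μ with h | h
  · have h1 : L * n / x ^ (d - μ) ≤ L * n / x ^ μ := by
      refine div_le_div_of_nonneg_left hLn (by positivity) ?_
      exact pow_le_pow_right₀ hx (by omega)
    have h2 : (L * n / x ^ (d - μ)) ^ ((1 : ℝ) / μ) ≤ (L * n / x ^ μ) ^ ((1 : ℝ) / μ) :=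
      Real.rpow_le_rpow (by positivity) h1 (by positivity)
    have h3 : (L * n / x ^ μ) ^ ((1 : ℝ) / μ) = (L * n) ^ ((1 : ℝ) / μ) / x := by
      rw [Real.div_rpow hLn (by positivity), ← Real.rpow_natCast, ← Real.rpow_mul hx0.le,
        mul_one_div_cancel (by positivity), Real.rpow_one]
    have h4 : (L * n) ^ ((1 : ℝ) / μ) ≤ (L * n) ^ ((1 : ℝ) / 2) := by
      refine Real.rpow_le_rpow_of_exponent_le hL ?_
      refine one_div_le_one_div_of_le (by norm_num) ?_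
      exact_mod_cast h
    rw [← Real.sqrt_eq_rpow] at h4
    have h5 : (L * n) ^ ((1 : ℝ) / μ) / x ≤ Real.sqrt (L * n) / x :=
      div_le_div_of_nonneg_right h4 hx0.le
    have h6 : (Real.sqrt (L * n) / x) ^ 2 = L * n / x ^ 2 := by
      rw [div_pow, Real.sq_sqrt hLn]
    rw [h3] at h2
    have h7 : 0 ≤ Real.sqrt (L * n) / x := by positivity
    nlinarith [sq_nonneg (Real.sqrt (L * n) / x - 1)]
  · have hμ1 : μ = 1 := by omega
    subst hμ1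
    rw [Nat.cast_one, div_one, Real.rpow_one]
    have h1 : L * n / x ^ (d - 1) ≤ L * n / x ^ 2 := by
      refine div_le_div_of_nonneg_left hLn (by positivity) ?_
      exact pow_le_pow_right₀ hx (by omega)
    linarith

/-- Everything near an irrational zero direction, with `x` of the order of `n`. -/
theorem irr_near {d : ℕ} (hd : 3 ≤ d) {c : ℕ → ℕ → ℝ} (hc : ∀ i j, d < i + j → c i j = 0)
    {θ : ℝ} {μ : ℕ} {g₁ : ℝ[X]} (hg : top d c = (X - C θ) ^ μ * g₁) {η γ : ℝ} (hγ : 0 < γ)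
    (hη1 : η ≤ 1) (hg₁ : ∀ t, |t - θ| ≤ η → γ ≤ |g₁.eval t|)
    {ω δ : ℝ} (hω : 0 < ω) (hδ : 0 < δ) :
    ∀ᶠ n : ℕ in atTop, ∀ x y : ℝ, δ * n < x → |y - θ * x| ≤ η * x → |ev d c x y| ≤ n →
      |y - θ * x| ≤ ω * x := by
  obtain ⟨K, hK, hKb⟩ := ev_sub_top_le (by omega) hc (|θ| + 1)
  set γ' : ℝ := ω ^ μ * γ with hγ'
  have hγ'0 : 0 < γ' := by positivity
  have e1 : ∀ᶠ n : ℕ in atTop, max 1 (2 * K / γ') / δ ≤ (n : ℝ) :=
    (tendsto_natCast_atTop_atTop (R := ℝ)).eventually (eventually_ge_atTop _)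
  have e2 : ∀ᶠ n : ℕ in atTop, 2 / (γ' * δ ^ 2) < (n : ℝ) :=
    (tendsto_natCast_atTop_atTop (R := ℝ)).eventually (eventually_gt_atTop _)
  filter_upwards [e1, e2] with n hn1 hn2 x y hx hy hev
  rw [div_le_iff₀ hδ] at hn1
  have hx1 : 1 ≤ x := by
    have := le_max_left 1 (2 * K / γ')
    nlinarith
  have hx2 : 2 * K / γ' ≤ x := by
    have := le_max_right 1 (2 * K / γ')
    nlinarith
  have hx0 : 0 < x := by linarith
  by_contra hcon
  push Not at hcon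
  have hyt : y = (y / x) * x := by field_simp
  have hdt : y / x - θ = (y - θ * x) / x := by field_simp
  have ht : |y / x - θ| ≤ η := by
    rw [hdt, abs_div, abs_of_pos hx0, div_le_iff₀ hx0]
    exact hy
  have ht2 : ω < |y / x - θ| := by
    rw [hdt, abs_div, abs_of_pos hx0, lt_div_iff₀ hx0]
    exact hcon
  have ht3 : |y / x| ≤ |θ| + 1 := by
    have h1 : |y / x| ≤ |y / x - θ| + |θ| := by
      have := abs_add_le (y / x - θ) θ
      rwa [sub_add_cancel] at this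
    linarith
  have h1 := hKb x (y / x) hx1 ht3
  rw [← hyt] at h1
  have h2 : γ' ≤ |(top d c).eval (y / x)| := by
    rw [hg, eval_mul, eval_pow, eval_sub, eval_X, eval_C, abs_mul, abs_pow]
    exact mul_le_mul (pow_le_pow_left₀ hω.le ht2.le μ) (hg₁ _ ht) hγ.le (by positivity)
  have h3 : |x ^ d * (top d c).eval (y / x)| = x ^ d * |(top d c).eval (y / x)| := by
    rw [abs_mul, abs_of_pos (by positivity)]
  have h4 : |x ^ d * (top d c).eval (y / x)| - |ev d c x y| ≤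
      |ev d c x y - x ^ d * (top d c).eval (y / x)| := by
    rw [abs_sub_comm]; exact abs_sub_abs_le_abs_sub _ _
  rw [h3] at h4
  have h5 : x ^ d = x * x ^ (d - 1) := by
    rw [← pow_succ']; congr 1; omega
  have h6 : K * x ^ (d - 1) ≤ γ' / 2 * x ^ d := by
    rw [h5, ← mul_assoc]
    refine mul_le_mul_of_nonneg_right ?_ (by positivity)
    rw [div_le_iff₀ hγ'0] at hx2
    linarith
  have h7 : x ^ d * γ' ≤ x ^ d * |(top d c).eval (y / x)| :=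
    mul_le_mul_of_nonneg_left h2 (by positivity)
  have h8 : x ^ 2 ≤ x ^ d := pow_le_pow_right₀ hx1 (by omega)
  have h9 : γ' / 2 * x ^ 2 ≤ γ' / 2 * x ^ d := mul_le_mul_of_nonneg_left h8 (by positivity)
  have h10 : (δ * n) ^ 2 ≤ x ^ 2 := pow_le_pow_left₀ (by positivity) hx.le 2
  have h11 : (n : ℝ) < γ' / 2 * (δ * n) ^ 2 := by
    rw [div_lt_iff₀ (by positivity)] at hn2
    have hn0 : (0 : ℝ) < n := by
      rcases Nat.eq_zero_or_pos n with h | h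
      · rw [h, Nat.cast_zero, zero_mul] at hn2; linarith
      · exact_mod_cast h
    have : γ' / 2 * (δ * n) ^ 2 = (n * (γ' * δ ^ 2)) / 2 * n := by ring
    rw [this]
    nlinarith
  have h12 : γ' / 2 * (δ * n) ^ 2 ≤ γ' / 2 * x ^ 2 := mul_le_mul_of_nonneg_left h10 (by positivity)
  linarith

/-- Columns near an irrational zero direction. -/
theorem irr_col {d : ℕ} (hd : 3 ≤ d) {c : ℕ → ℕ → ℝ} (hc : ∀ i j, d < i + j → c i j = 0)
    {θ : ℝ} {μ : ℕ} (hμ : 1 ≤ μ) (h2μ : 2 * μ ≤ d) {g₁ : ℝ[X]}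
    (hg : top d c = (X - C θ) ^ μ * g₁) (hne : g₁.eval θ ≠ 0) :
    ∃ η > 0, ∃ K > 0, ∃ X₀ : ℝ, 1 ≤ X₀ ∧ ∀ x : ℤ, X₀ ≤ (x : ℝ) → ∀ n : ℕ, 1 ≤ n →
      ∀ T : Finset ℤ, (∀ y ∈ T, |(y : ℝ) - θ * x| ≤ η * x ∧ |ev d c x y| ≤ n) →
        (T.card : ℝ) ≤ K * (1 + n / (x : ℝ) ^ 2) := by
  obtain ⟨η, hη, κ, hκ, X₀, hX₀, hlow⟩ := dir_lower hc (θ := θ) (k := 0) (l := 1) (by norm_num)
    (by omega : μ < d) g₁ hg hne
  set L : ℝ := max 1 (2 ^ μ / κ) with hL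
  have hL1 : 1 ≤ L := le_max_left _ _
  refine ⟨η, hη, 2 ^ μ * (2 + L), by positivity, X₀, hX₀, fun x hx n hn T hT => ?_⟩
  have hx1 : (1 : ℝ) ≤ x := hX₀.trans hx
  have hx0 : (0 : ℝ) < x := by linarith
  have hn1 : (1 : ℝ) ≤ n := by exact_mod_cast hn
  have h1 := card_sublevel μ (by omega) (linep d c x 0 0 1) {t : ℝ | |t - θ * x| ≤ η * x}
    (by
      refine ⟨fun a ha b hb t ht => ?_⟩
      have ha' : |a - θ * x| ≤ η * x := ha
      have hb' : |b - θ * x| ≤ η * x := hb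
      show |t - θ * x| ≤ η * x
      rw [abs_le] at *
      exact ⟨by linarith [ht.1], by linarith [ht.2]⟩)
    (κ * x ^ (d - μ)) n (by positivity) (by positivity)
    (by
      intro ξ hξ
      have hξ' : |ξ - θ * x| ≤ η * x := hξ
      rw [iterate_derivative_linep hc, linep_eval]
      have := hlow x ξ hx hξ'
      simpa using this) T
    (by
      intro y hy
      refine ⟨(hT y hy).1, ?_⟩
      rw [linep_eval]
      have := (hT y hy).2
      simpa using this)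
  refine h1.trans ?_
  have h2 : 2 ^ μ * (n : ℝ) / (κ * x ^ (d - μ)) ≤ L * n / x ^ (d - μ) := by
    have h3 : 2 ^ μ * (n : ℝ) / (κ * x ^ (d - μ)) = (2 ^ μ / κ) * n / x ^ (d - μ) := by
      field_simp
    rw [h3]
    refine div_le_div_of_nonneg_right ?_ (by positivity)
    exact mul_le_mul_of_nonneg_right (le_max_right _ _) (by positivity)
  have h4 : (2 ^ μ * (n : ℝ) / (κ * x ^ (d - μ))) ^ ((1 : ℝ) / μ) ≤
      (L * n / x ^ (d - μ)) ^ ((1 : ℝ) / μ) :=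
    Real.rpow_le_rpow (by positivity) h2 (by positivity)
  have h5 := col_ineq hd hμ h2μ (L := L) (n := n) (x := x) (by nlinarith) hx1
  rw [mul_assoc]
  refine mul_le_mul_of_nonneg_left ?_ (by positivity)
  have h6 : L * n / (x : ℝ) ^ 2 = L * (n / (x : ℝ) ^ 2) := by ring
  have h7 : 0 ≤ (n : ℝ) / (x : ℝ) ^ 2 := by positivity
  rw [h6] at h5
  nlinarith

/-- The lines of a rational direction close to the irrational direction. -/
theorem irr_line {d : ℕ} (hd : 3 ≤ d) {c : ℕ → ℕ → ℝ} (hc : ∀ i j, d < i + j → c i j = 0)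
    {θ : ℝ} {μ : ℕ} (hμ : 1 ≤ μ) (h2μ : 2 * μ ≤ d) {g₁ : ℝ[X]}
    (hg : top d c = (X - C θ) ^ μ * g₁) (hne : g₁.eval θ ≠ 0) (k : ℕ) (hk : 0 < k) (l : ℤ)
    (hcop : IsCoprime (k : ℤ) l) (hkl : (l : ℝ) - k * θ ≠ 0) {δ : ℝ} (hδ : 0 < δ) :
    ∃ ω > 0, ∀ᶠ n : ℕ in atTop, ∀ (h : ℤ) (T : Finset (ℤ × ℤ)),
      (∀ v ∈ T, δ * n < (v.1 : ℝ) ∧ |(v.2 : ℝ) - θ * v.1| ≤ ω * v.1 ∧ |ev d c v.1 v.2| ≤ n ∧
        k * v.2 - l * v.1 = h) → (T.card : ℝ) ≤ 2 ^ (μ + 1) := by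
  classical
  obtain ⟨ω, hω, κ, hκ, X₀, hX₀, hlow⟩ := dir_lower hc (θ := θ) (k := k) (l := l) hkl
    (by omega : μ < d) g₁ hg hne
  refine ⟨ω, hω, ?_⟩
  have e1 : ∀ᶠ n : ℕ in atTop, X₀ / δ ≤ (n : ℝ) :=
    (tendsto_natCast_atTop_atTop (R := ℝ)).eventually (eventually_ge_atTop _)
  have e2 : ∀ᶠ n : ℕ in atTop, 2 ^ μ / (κ * δ ^ 2) ≤ (n : ℝ) :=
    (tendsto_natCast_atTop_atTop (R := ℝ)).eventually (eventually_ge_atTop _)
  filter_upwards [e1, e2] with n hn1 hn2 h T hT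
  rw [div_le_iff₀ hδ] at hn1
  have hδn : 1 ≤ δ * n := by linarith
  have hn0 : (0 : ℝ) < n := by
    by_contra hcon
    push Not at hcon
    nlinarith
  rcases T.eq_empty_or_nonempty with rfl | ⟨v₀, hv₀⟩
  · simp only [Finset.card_empty, Nat.cast_zero]
    positivity
  have hkz : (k : ℤ) ≠ 0 := by exact_mod_cast hk.ne'
  have hparam : ∀ v ∈ T, v.1 = v₀.1 + k * ((v.1 - v₀.1) / k) ∧
      v.2 = v₀.2 + l * ((v.1 - v₀.1) / k) := by
    intro v hv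
    have h1 : (k : ℤ) * (v.2 - v₀.2) = l * (v.1 - v₀.1) := by
      have h2 := (hT v hv).2.2.2
      have h3 := (hT v₀ hv₀).2.2.2
      linear_combination h2 - h3
    have h2 : (k : ℤ) ∣ (v.1 - v₀.1) := by
      refine hcop.dvd_of_dvd_mul_left ?_
      exact ⟨_, h1.symm⟩
    obtain ⟨t, ht⟩ := h2
    rw [ht, Int.mul_ediv_cancel_left _ hkz]
    refine ⟨by linarith, ?_⟩
    rw [ht] at h1
    have h3 : (k : ℤ) * (v.2 - v₀.2) = k * (l * t) := by rw [h1]; ring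
    have h4 := mul_left_cancel₀ hkz h3
    linarith
  have hcard : (T.image fun v => (v.1 - v₀.1) / k).card = T.card := by
    refine Finset.card_image_of_injOn fun v hv w hw hvw => ?_
    obtain ⟨h1, h2⟩ := hparam v hv
    obtain ⟨h3, h4⟩ := hparam w hw
    rw [hvw] at h1 h2
    exact Prod.ext (h1.trans h3.symm) (h2.trans h4.symm)
  rw [← hcard]
  have h1 := card_sublevel μ (by omega) (linep d c v₀.1 v₀.2 k l)
    {t : ℝ | 0 ≤ ((v₀.1 : ℝ) - δ * n) + k * t ∧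
      0 ≤ (ω * v₀.1 - (v₀.2 - θ * v₀.1)) + (ω * k - (l - θ * k)) * t ∧
      0 ≤ (ω * v₀.1 + (v₀.2 - θ * v₀.1)) + (ω * k + (l - θ * k)) * t}
    (by
      refine ⟨fun a ha b hb t ht => ?_⟩
      exact ⟨affine_between ha.1 hb.1 ht.1 ht.2, affine_between ha.2.1 hb.2.1 ht.1 ht.2,
        affine_between ha.2.2 hb.2.2 ht.1 ht.2⟩)
    (κ * (δ * n) ^ (d - μ)) n (by positivity) (by positivity)
    (by
      rintro ξ ⟨h1, h2, h3⟩
      rw [iterate_derivative_linep hc, linep_eval]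
      have h4 : |((v₀.2 : ℝ) + l * ξ) - θ * (v₀.1 + k * ξ)| ≤ ω * (v₀.1 + k * ξ) := by
        rw [abs_le]
        constructor <;> linarith
      have h5 : δ * n ≤ (v₀.1 : ℝ) + k * ξ := by linarith
      have h6 := hlow (v₀.1 + k * ξ) (v₀.2 + l * ξ) (by linarith) h4
      refine le_trans ?_ h6
      refine mul_le_mul_of_nonneg_left ?_ hκ.le
      exact pow_le_pow_left₀ (by linarith) h5 _)
    (T.image fun v => (v.1 - v₀.1) / k)
    (by
      intro t ht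
      obtain ⟨v, hv, rfl⟩ := Finset.mem_image.1 ht
      obtain ⟨h1, h2⟩ := hparam v hv
      obtain ⟨h3, h4, h5, _⟩ := hT v hv
      set t := (v.1 - v₀.1) / k with ht'
      have h1' : (v.1 : ℝ) = v₀.1 + k * t := by exact_mod_cast h1
      have h2' : (v.2 : ℝ) = v₀.2 + l * t := by exact_mod_cast h2
      rw [h1', h2'] at h4 h5
      rw [h1'] at h3
      rw [abs_le] at h4
      refine ⟨⟨by linarith, by linarith [h4.2], by linarith [h4.1]⟩, ?_⟩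
      rw [linep_eval]
      exact h5)
  refine h1.trans ?_
  have h2 : 2 ^ μ * (n : ℝ) / (κ * (δ * n) ^ (d - μ)) ≤ 1 := by
    rw [div_le_one (by positivity)]
    have h3 : (δ * n) ^ 2 ≤ (δ * n) ^ (d - μ) := pow_le_pow_right₀ hδn (by omega)
    have h4 : κ * (δ * n) ^ 2 ≤ κ * (δ * n) ^ (d - μ) := mul_le_mul_of_nonneg_left h3 hκ.le
    rw [div_le_iff₀ (by positivity)] at hn2
    have h5 : κ * (δ * n) ^ 2 = (n * (κ * δ ^ 2)) * n := by ring
    have h6 : 2 ^ μ * (n : ℝ) ≤ (n * (κ * δ ^ 2)) * n := mul_le_mul_of_nonneg_right hn2 hn0.le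
    linarith
  have h3 : (2 ^ μ * (n : ℝ) / (κ * (δ * n) ^ (d - μ))) ^ ((1 : ℝ) / μ) ≤ 1 :=
    Real.rpow_le_one (by positivity) h2 (by positivity)
  rw [pow_succ]
  refine mul_le_mul_of_nonneg_left ?_ (by positivity)
  linarith

theorem sum_inv_sq (a b : ℕ) (ha : 0 < a) :
    ∑ x ∈ Finset.Ioc a b, (1 : ℝ) / (x : ℝ) ^ 2 ≤ 1 / a := by
  rcases le_or_gt a b with h | h
  · have h1 := sum_Ioc_inv_sq_le_sub (α := ℝ) (k := a) (n := b) ha.ne' h
    have h2 : ∑ x ∈ Finset.Ioc a b, (1 : ℝ) / (x : ℝ) ^ 2 =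
        ∑ x ∈ Finset.Ioc a b, ((x : ℝ) ^ 2)⁻¹ :=
      Finset.sum_congr rfl fun x _ => by rw [one_div]
    rw [h2, one_div]
    have h3 : (0 : ℝ) ≤ (b : ℝ)⁻¹ := by positivity
    linarith
  · rw [Finset.Ioc_eq_empty (by omega), Finset.sum_empty]
    positivity

theorem coprime_approx (θ : ℝ) (δ : ℝ) (hδ : 0 < δ) :
    ∃ (k : ℕ) (l : ℤ), 0 < k ∧ IsCoprime (k : ℤ) l ∧ |(l : ℝ) - k * θ| ≤ δ := by
  obtain ⟨N, hN⟩ := exists_nat_gt (1 / δ)
  have hN0 : 0 < N := by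
    have : (0 : ℝ) < N := lt_trans (by positivity) hN
    exact_mod_cast this
  obtain ⟨q, hq1, hq2⟩ := Real.exists_rat_abs_sub_le_and_den_le θ hN0
  refine ⟨q.den, q.num, q.den_pos, ?_, ?_⟩
  · rw [Int.isCoprime_iff_gcd_eq_one, Int.gcd_comm]
    have := q.reduced
    rw [Int.gcd, Int.natAbs_natCast]
    exact this
  · have hden : (0 : ℝ) < q.den := by exact_mod_cast q.den_pos
    have h1 : (q.num : ℝ) - q.den * θ = q.den * ((q : ℝ) - θ) := by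
      have h2 : (q : ℝ) * q.den = q.num := by exact_mod_cast Rat.mul_den_eq_num q
      rw [mul_sub, mul_comm (q.den : ℝ) (q : ℝ), h2]
    rw [h1, abs_mul, abs_of_pos hden, abs_sub_comm]
    have h3 : (q.den : ℝ) * |θ - q| ≤ q.den * (1 / ((N + 1) * q.den)) :=
      mul_le_mul_of_nonneg_left hq1 hden.le
    have h4 : (q.den : ℝ) * (1 / ((N + 1) * q.den)) = 1 / (N + 1) := by field_simp
    rw [h4] at h3
    refine h3.trans ?_
    rw [div_le_iff₀ (by positivity)]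
    rw [div_lt_iff₀ hδ] at hN
    nlinarith

/-- The count near an irrational zero direction. -/
theorem irr_count {d : ℕ} (hd : 3 ≤ d) {c : ℕ → ℕ → ℝ} (hc : ∀ i j, d < i + j → c i j = 0)
    {θ : ℝ} (hθ : Irrational θ) {μ : ℕ} (hμ : 1 ≤ μ) (h2μ : 2 * μ ≤ d) {g₁ : ℝ[X]}
    (hg : top d c = (X - C θ) ^ μ * g₁) (hne : g₁.eval θ ≠ 0)
    (S : Set (ℤ × ℤ)) (hpos : ∀ v ∈ S, 0 < v.1) (hnn : ∀ v ∈ S, 0 ≤ ev d c v.1 v.2)
    {c₀ C₀ : ℝ} (hc₀ : 0 < c₀) (hgrow : ∀ v ∈ S, c₀ * v.1 - C₀ ≤ ev d c v.1 v.2) :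
    ∃ η > 0, ∀ ε > 0, ∀ᶠ n : ℕ in atTop,
      {v : ℤ × ℤ | v ∈ S ∧ |(v.2 : ℝ) - θ * v.1| ≤ η * v.1 ∧ ev d c v.1 v.2 ≤ n}.Finite ∧
      (({v : ℤ × ℤ | v ∈ S ∧ |(v.2 : ℝ) - θ * v.1| ≤ η * v.1 ∧
        ev d c v.1 v.2 ≤ n}.ncard : ℕ) : ℝ) ≤ ε * n := by
  classical
  obtain ⟨η₁, hη₁, K, hK, X₀, hX₀, hcol⟩ := irr_col hd hc hμ h2μ hg hne
  -- `g₁` does not vanish near `θ`
  have hcont : Continuous fun t : ℝ => |g₁.eval t| := g₁.continuous.abs
  have habs : 0 < |g₁.eval θ| := abs_pos.2 hne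
  obtain ⟨η₂, hη₂, hηb⟩ := Metric.eventually_nhds_iff.1
    (hcont.continuousAt.eventually (lt_mem_nhds (show |g₁.eval θ| / 2 < |g₁.eval θ| by linarith)))
  set η : ℝ := min (min η₁ (η₂ / 2)) 1 with hη
  have hη0 : 0 < η := lt_min (lt_min hη₁ (by linarith)) one_pos
  have hηη₁ : η ≤ η₁ := (min_le_left _ _).trans (min_le_left _ _)
  have hηη₂ : η ≤ η₂ / 2 := (min_le_left _ _).trans (min_le_right _ _)
  have hη1 : η ≤ 1 := min_le_right _ _
  have hg₁ : ∀ t, |t - θ| ≤ η → |g₁.eval θ| / 2 ≤ |g₁.eval t| := by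
    intro t ht
    exact (hηb (by rw [Real.dist_eq]; linarith)).le
  refine ⟨η, hη0, fun ε hε => ?_⟩
  set C₁ : ℝ := (1 + |C₀|) / c₀ with hC₁
  have hC₁0 : 0 < C₁ := by positivity
  -- parameters
  obtain ⟨X₁, hX₁⟩ := exists_nat_gt (max X₀ (8 * K / ε))
  have hX₁a : X₀ < X₁ := (le_max_left _ _).trans_lt hX₁
  have hX₁b : 8 * K / ε < X₁ := (le_max_right _ _).trans_lt hX₁
  have hX₁0 : (0 : ℝ) < X₁ := by linarith
  have hX₁n : 0 < X₁ := by exact_mod_cast hX₁0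
  set δ : ℝ := ε / (8 * K) with hδ
  have hδ0 : 0 < δ := by positivity
  set δ₁ : ℝ := ε / (2 ^ (μ + 1) * (16 * C₁)) with hδ₁
  have hδ₁0 : 0 < δ₁ := by positivity
  obtain ⟨k, l, hk, hcop, hkl⟩ := coprime_approx θ δ₁ hδ₁0
  have hkl0 : (l : ℝ) - k * θ ≠ 0 := by
    intro h0
    apply hθ
    refine ⟨(l : ℚ) / k, ?_⟩
    have hk' : (k : ℝ) ≠ 0 := by exact_mod_cast hk.ne'
    push_cast
    field_simp
    linarith
  obtain ⟨ω₁, hω₁, hline⟩ := irr_line hd hc hμ h2μ hg hne k hk l hcop hkl0 hδ0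
  have hkr : (0 : ℝ) < k := by exact_mod_cast hk
  set ω : ℝ := min ω₁ (δ₁ / k) with hω
  have hω0 : 0 < ω := lt_min hω₁ (by positivity)
  have hnear := irr_near hd hc hg (half_pos habs) hη1 hg₁ hω0 hδ0
  -- the constant number of small points
  set M₁ : ℝ := (X₁ : ℝ) * (2 * X₁ + 1) with hM₁
  have e1 : ∀ᶠ n : ℕ in atTop, (M₁ + 2 ^ (μ + 1)) / (ε / 4) ≤ (n : ℝ) :=
    (tendsto_natCast_atTop_atTop (R := ℝ)).eventually (eventually_ge_atTop _)
  filter_upwards [hline, hnear, e1, eventually_ge_atTop 1] with n hline hnear hn1 hn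
  rw [div_le_iff₀ (by positivity)] at hn1
  have hnr : (1 : ℝ) ≤ n := by exact_mod_cast hn
  have hxC : ∀ v ∈ S, ev d c v.1 v.2 ≤ n → (v.1 : ℝ) ≤ C₁ * n := by
    intro v hv hle
    have h1 := hgrow v hv
    rw [hC₁, div_mul_eq_mul_div, le_div_iff₀ hc₀]
    have h2 := le_abs_self C₀
    have h3 : |C₀| ≤ |C₀| * n := by nlinarith [abs_nonneg C₀]
    nlinarith
  -- small points
  have key1 := ncard_le_sum_fst {v : ℤ × ℤ | v ∈ S ∧ |(v.2 : ℝ) - θ * v.1| ≤ η * v.1 ∧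
      ev d c v.1 v.2 ≤ n ∧ v.1 ≤ X₁} (Finset.Icc 1 (X₁ : ℤ)) (fun _ => 2 * (X₁ : ℝ) + 1)
    (by
      rintro v ⟨hv, _, _, hle⟩
      rw [Finset.mem_Icc]
      exact ⟨hpos v hv, hle⟩)
    (fun x hx T hT => by
      rw [Finset.mem_Icc] at hx
      have hx1 : (1 : ℝ) ≤ x := by exact_mod_cast hx.1
      have hx2 : (x : ℝ) ≤ X₁ := by exact_mod_cast hx.2
      have h1 := card_le_of_mem_Icc T (θ * x - X₁) (θ * x + X₁) (fun y hy => by
        have h2 := (hT y hy).2.1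
        simp only at h2
        rw [abs_le] at h2
        constructor <;> nlinarith [h2.1, h2.2]) (by linarith)
      linarith)
  -- middle points
  have key2 := ncard_le_sum_fibers {v : ℤ × ℤ | v ∈ S ∧ |(v.2 : ℝ) - θ * v.1| ≤ η * v.1 ∧
      ev d c v.1 v.2 ≤ n ∧ (X₁ : ℤ) < v.1 ∧ (v.1 : ℝ) ≤ δ * n} (fun v => v.1.toNat)
    (Finset.Ioc X₁ ⌊δ * n⌋₊) (fun x => K * (1 + n * (1 / (x : ℝ) ^ 2)))
    (by
      rintro v ⟨hv, _, _, h1, h2⟩
      rw [Finset.mem_Ioc]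
      have h3 : (0 : ℤ) < v.1 := hpos v hv
      refine ⟨by omega, Nat.le_floor ?_⟩
      have h4 : ((v.1.toNat : ℕ) : ℝ) = (v.1 : ℝ) := by
        rw [← Int.cast_natCast, Int.toNat_of_nonneg h3.le]
      rw [h4]
      exact h2)
    (fun x hx T hT => by
      rw [Finset.mem_Ioc] at hx
      have hxr : (X₁ : ℝ) < x := by exact_mod_cast hx.1
      have hv1 : ∀ v ∈ T, v.1 = (x : ℤ) := by
        intro v hv
        have h1 := (hT v hv).2
        have h2 := hpos v (hT v hv).1.1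
        omega
      have h1 : (T.image Prod.snd).card = T.card := by
        refine Finset.card_image_of_injOn fun v hv w hw hvw => ?_
        exact Prod.ext ((hv1 v hv).trans (hv1 w hw).symm) hvw
      rw [← h1]
      have h2 := hcol (x : ℤ) (by rw [Int.cast_natCast]; linarith) n hn (T.image Prod.snd) (by
        intro y hy
        obtain ⟨v, hv, rfl⟩ := Finset.mem_image.1 hy
        obtain ⟨⟨h3, h4, h5, h6, h7⟩, h8⟩ := hT v hv
        rw [← hv1 v hv]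
        have h9 : (0 : ℝ) < v.1 := by exact_mod_cast hpos v h3
        refine ⟨h4.trans (mul_le_mul_of_nonneg_right hηη₁ h9.le), ?_⟩
        rw [abs_of_nonneg (hnn v h3)]
        exact h5)
      rw [Int.cast_natCast] at h2
      refine h2.trans (le_of_eq ?_)
      rw [mul_one_div])
  -- large points
  set M : ℤ := ⌊2 * δ₁ * (C₁ * n)⌋ with hM
  have key3 := ncard_le_sum_fibers {v : ℤ × ℤ | v ∈ S ∧ |(v.2 : ℝ) - θ * v.1| ≤ η * v.1 ∧
      ev d c v.1 v.2 ≤ n ∧ δ * n < (v.1 : ℝ)} (fun v => k * v.2 - l * v.1)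
    (Finset.Icc (-M) M) (fun _ => 2 ^ (μ + 1))
    (by
      rintro v ⟨hv, h1, h2, h3⟩
      have h4 : (0 : ℝ) < v.1 := by exact_mod_cast hpos v hv
      have h5 := hnear v.1 v.2 h3 h1 (by rw [abs_of_nonneg (hnn v hv)]; exact h2)
      have h6 : |(v.2 : ℝ) - θ * v.1| ≤ δ₁ / k * v.1 :=
        h5.trans (mul_le_mul_of_nonneg_right (min_le_right _ _) h4.le)
      have h7 : |((k * v.2 - l * v.1 : ℤ) : ℝ)| ≤ 2 * δ₁ * (C₁ * n) := by
        have h8 : ((k * v.2 - l * v.1 : ℤ) : ℝ) =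
            k * ((v.2 : ℝ) - θ * v.1) - (l - k * θ) * v.1 := by push_cast; ring
        rw [h8]
        refine (abs_sub _ _).trans ?_
        rw [abs_mul, abs_mul, abs_of_pos hkr, abs_of_pos h4]
        have h9 : (k : ℝ) * |(v.2 : ℝ) - θ * v.1| ≤ k * (δ₁ / k * v.1) :=
          mul_le_mul_of_nonneg_left h6 hkr.le
        have h10 : (k : ℝ) * (δ₁ / k * v.1) = δ₁ * v.1 := by field_simp
        have h11 : |(l : ℝ) - k * θ| * v.1 ≤ δ₁ * v.1 := mul_le_mul_of_nonneg_right hkl h4.le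
        have h12 := hxC v hv h2
        nlinarith
      rw [abs_le] at h7
      rw [Finset.mem_Icc]
      constructor
      · rw [neg_le]
        refine Int.le_floor.2 ?_
        push_cast
        push_cast at h7
        linarith [h7.1]
      · exact Int.le_floor.2 h7.2)
    (fun h hh T hT => by
      refine hline h T fun v hv => ?_
      obtain ⟨⟨h1, h2, h3, h4⟩, h5⟩ := hT v hv
      have h6 : (0 : ℝ) < v.1 := by exact_mod_cast hpos v h1
      have h7 : |ev d c v.1 v.2| ≤ n := by rw [abs_of_nonneg (hnn v h1)]; exact h3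
      refine ⟨h4, ?_, h7, h5⟩
      exact (hnear v.1 v.2 h4 h2 h7).trans (mul_le_mul_of_nonneg_right (min_le_left _ _) h6.le))
  -- the union
  have hsub : {v : ℤ × ℤ | v ∈ S ∧ |(v.2 : ℝ) - θ * v.1| ≤ η * v.1 ∧ ev d c v.1 v.2 ≤ n} ⊆
      ({v : ℤ × ℤ | v ∈ S ∧ |(v.2 : ℝ) - θ * v.1| ≤ η * v.1 ∧
      ev d c v.1 v.2 ≤ n ∧ v.1 ≤ X₁} ∪ {v : ℤ × ℤ | v ∈ S ∧ |(v.2 : ℝ) - θ * v.1| ≤ η * v.1 ∧
      ev d c v.1 v.2 ≤ n ∧ (X₁ : ℤ) < v.1 ∧ (v.1 : ℝ) ≤ δ * n}) ∪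
      {v : ℤ × ℤ | v ∈ S ∧ |(v.2 : ℝ) - θ * v.1| ≤ η * v.1 ∧
      ev d c v.1 v.2 ≤ n ∧ δ * n < (v.1 : ℝ)} := by
    rintro v ⟨h1, h2, h3⟩
    rcases le_or_gt v.1 (X₁ : ℤ) with h4 | h4
    · exact Or.inl (Or.inl ⟨h1, h2, h3, h4⟩)
    · rcases le_or_gt (v.1 : ℝ) (δ * n) with h5 | h5
      · exact Or.inl (Or.inr ⟨h1, h2, h3, h4, h5⟩)
      · exact Or.inr ⟨h1, h2, h3, h5⟩
  have hfin := (key1.1.union key2.1).union key3.1
  refine ⟨hfin.subset hsub, ?_⟩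
  have hcard := (Set.ncard_le_ncard hsub hfin).trans ((Set.ncard_union_le _ _).trans
    (Nat.add_le_add_right (Set.ncard_union_le _ _) _))
  have hcard3 := (Nat.cast_le (α := ℝ)).2 hcard
  push_cast at hcard3
  have b1 := key1.2
  have b2 := key2.2
  have b3 := key3.2
  rw [Finset.sum_const, nsmul_eq_mul, Int.card_Icc] at b1 b3
  have b1' : (((X₁ : ℤ) + 1 - 1).toNat : ℝ) = X₁ := by
    rw [add_sub_cancel_right]; simp
  rw [b1', ← hM₁] at b1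
  have hM0 : 0 ≤ M := Int.floor_nonneg.2 (by positivity)
  have b3' : ((M + 1 - -M).toNat : ℝ) = 2 * M + 1 := by
    have : ((M + 1 - -M).toNat : ℤ) = 2 * M + 1 := by omega
    rw [← Int.cast_natCast, this]; push_cast; ring
  rw [b3'] at b3
  have hMle : (M : ℝ) ≤ 2 * δ₁ * (C₁ * n) := Int.floor_le _
  have b3'' : (2 * (M : ℝ) + 1) * 2 ^ (μ + 1) ≤ ε / 4 * n + 2 ^ (μ + 1) := by
    have h1 : 2 ^ (μ + 1) * (2 * (2 * δ₁ * (C₁ * n))) = ε / 4 * n := by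
      rw [hδ₁]; field_simp; norm_num
    have h2 : (2 : ℝ) ^ (μ + 1) * (2 * (M : ℝ)) ≤ 2 ^ (μ + 1) * (2 * (2 * δ₁ * (C₁ * n))) :=
      mul_le_mul_of_nonneg_left (by linarith) (by positivity)
    linarith
  have b2' : ∑ x ∈ Finset.Ioc X₁ ⌊δ * n⌋₊, K * (1 + n * (1 / (x : ℝ) ^ 2)) ≤ ε / 4 * n := by
    rw [← Finset.mul_sum, Finset.sum_add_distrib, Finset.sum_const, nsmul_eq_mul, mul_one,
      ← Finset.mul_sum, Nat.card_Ioc]
    have h1 : ((⌊δ * n⌋₊ - X₁ : ℕ) : ℝ) ≤ δ * n := by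
      have h2 : ((⌊δ * n⌋₊ - X₁ : ℕ) : ℝ) ≤ (⌊δ * n⌋₊ : ℕ) := by
        exact_mod_cast Nat.sub_le _ _
      exact h2.trans (Nat.floor_le (by positivity))
    have h2 : (n : ℝ) * ∑ x ∈ Finset.Ioc X₁ ⌊δ * n⌋₊, (1 : ℝ) / (x : ℝ) ^ 2 ≤ n * (1 / X₁) :=
      mul_le_mul_of_nonneg_left (sum_inv_sq X₁ _ hX₁n) (by positivity)
    have h3 : K * (δ * n) = ε / 8 * n := by rw [hδ]; field_simp
    have h4 : K * (n * (1 / X₁)) ≤ ε / 8 * n := by
      rw [div_lt_iff₀ hε] at hX₁b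
      have h5 : K * (n * (1 / (X₁ : ℝ))) = (K / X₁) * n := by field_simp
      rw [h5]
      refine mul_le_mul_of_nonneg_right ?_ (by positivity)
      rw [div_le_iff₀ hX₁0]
      linarith
    have h6 : K * (((⌊δ * n⌋₊ - X₁ : ℕ) : ℝ) +
        n * ∑ x ∈ Finset.Ioc X₁ ⌊δ * n⌋₊, (1 : ℝ) / (x : ℝ) ^ 2) ≤ K * (δ * n + n * (1 / X₁)) :=
      mul_le_mul_of_nonneg_left (by linarith) hK.le
    linarith
  linarith

end Pool.Agent.Pack
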