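import Pool.Agent.Pack.Glob
import Pool.Agent.Pack.Exp4E

/-!
# Irrational double zeros of quartic top forms
-/

set_option autoImplicit false

open Polynomial Finset Filter Topology

namespace Pool.Agent.Pack

theorem rat_rel {θ : ℝ} (hθ : Irrational θ) (r s : ℚ) (h : (r : ℝ) * θ + s = 0) :
    r = 0 ∧ s = 0 := by
  have hr : r = 0 := by
    by_contra hr
    apply hθ
    refine ⟨-s / r, ?_⟩
    have : (r : ℝ) ≠ 0 := by exact_mod_cast hr
    push_cast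
    field_simp
    linarith
  refine ⟨hr, ?_⟩
  rw [hr, Rat.cast_zero, zero_mul, zero_add] at h
  exact_mod_cast h

theorem exists_large_den {θ : ℝ} (hθ : Irrational θ) (K : ℕ) :
    ∃ r : ℚ, K < r.den ∧ |θ - r| < 1 / (r.den : ℝ) ^ 2 := by
  by_contra hcon
  push Not at hcon
  have hinf := Real.infinite_rat_abs_sub_lt_one_div_den_sq_of_irrational hθ
  apply hinf
  set N : ℤ := ⌈(|θ| + 1) * K⌉ with hN
  have hfin : (((Finset.Icc (-N) N) ×ˢ (Finset.Icc 0 K) : Finset (ℤ × ℕ)) : Set (ℤ × ℕ)).Finite :=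
    Finset.finite_toSet _
  refine Set.Finite.of_injOn (f := fun q : ℚ => (q.num, q.den)) ?_ ?_ hfin
  · intro q hq
    have hq' : |θ - q| < 1 / (q.den : ℝ) ^ 2 := hq
    have hden : q.den ≤ K := by
      by_contra hlt
      push Not at hlt
      exact absurd hq' (not_lt.2 (hcon q hlt))
    have hd1 : (1 : ℝ) ≤ q.den := by exact_mod_cast q.den_pos
    have h1 : |θ - q| < 1 := by
      refine hq'.trans_le ?_
      rw [div_le_one (by positivity)]
      nlinarith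
    have h2 : |(q : ℝ)| ≤ |θ| + 1 := by
      have := abs_sub_abs_le_abs_sub (q : ℝ) θ
      rw [abs_sub_comm] at this
      linarith
    have h3 : |(q.num : ℝ)| ≤ (|θ| + 1) * K := by
      have h4 : (q.num : ℝ) = q * q.den := by exact_mod_cast (Rat.mul_den_eq_num q).symm
      rw [h4, abs_mul, Nat.abs_cast]
      exact mul_le_mul h2 (by exact_mod_cast hden) (by positivity) (by positivity)
    have h5 : |(q.num : ℝ)| ≤ N := h3.trans (Int.le_ceil _)
    have h6 : |q.num| ≤ N := by exact_mod_cast h5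
    rw [abs_le] at h6
    simp only [Finset.coe_product, Set.mem_prod, Finset.mem_coe, Finset.mem_Icc]
    exact ⟨h6, Nat.zero_le _, hden⟩
  · intro q _ q' _ h
    have h1 := congrArg Prod.fst h
    have h2 := congrArg Prod.snd h
    simp only at h1 h2
    exact Rat.ext h1 h2

/-- Inhomogeneous approximation. -/
theorem inhom {θ : ℝ} (hθ : Irrational θ) (γ X : ℝ) :
    ∃ x y : ℤ, X ≤ x ∧ 1 ≤ x ∧ |(y : ℝ) - θ * x - γ| ≤ 5 / x := by
  obtain ⟨K, hK⟩ := exists_nat_gt (max X 1)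
  obtain ⟨r, hr1, hr2⟩ := exists_large_den hθ K
  set q : ℤ := (r.den : ℤ) with hq
  set p : ℤ := r.num with hp
  have hq0 : 0 < q := by rw [hq]; exact_mod_cast r.den_pos
  have hqr : (0 : ℝ) < q := by exact_mod_cast hq0
  have hKq : (K : ℝ) < q := by rw [hq]; exact_mod_cast hr1
  have hcop : IsCoprime p q := by
    rw [Int.isCoprime_iff_gcd_eq_one, hp, hq, Int.gcd, Int.natAbs_natCast]
    exact r.reduced
  obtain ⟨u, v, huv⟩ := hcop
  set s : ℤ := round ((q : ℝ) * γ) with hs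
  have hs1 : |(s : ℝ) - q * γ| ≤ 1 / 2 := by
    rw [abs_sub_comm]
    exact abs_sub_round _
  set x : ℤ := q + (-(u * s)) % q with hx
  have hm0 : 0 ≤ (-(u * s)) % q := Int.emod_nonneg _ hq0.ne'
  have hm1 : (-(u * s)) % q < q := Int.emod_lt_of_pos _ hq0
  have hdvd : q ∣ s + p * x := by
    have h1 : (-(u * s)) % q = -(u * s) - q * ((-(u * s)) / q) := by
      have := Int.emod_add_mul_ediv (-(u * s)) q
      linarith
    rw [hx, h1]
    refine ⟨p - p * ((-(u * s)) / q) + s * v, ?_⟩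
    linear_combination (-s) * huv
  obtain ⟨y, hy⟩ := hdvd
  refine ⟨x, y, ?_, ?_, ?_⟩
  · have h1 : (q : ℝ) ≤ x := by exact_mod_cast (by omega : q ≤ x)
    have h2 := (le_max_left X 1).trans hK.le
    linarith
  · omega
  · have hx0 : (0 : ℝ) < x := by exact_mod_cast (by omega : 0 < x)
    have hx2 : (x : ℝ) ≤ 2 * q := by exact_mod_cast (by omega : x ≤ 2 * q)
    have hyr : (s : ℝ) + p * x = q * y := by exact_mod_cast hy
    have hrr : (r : ℝ) = p / q := by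
      rw [hp, hq, Int.cast_natCast]
      exact_mod_cast (Rat.num_div_den r).symm
    have e1 : (y : ℝ) - θ * x - γ = ((s : ℝ) - q * γ) / q + (r - θ) * x := by
      rw [hrr]
      have : (y : ℝ) = (s + p * x) / q := by rw [hyr]; field_simp
      rw [this]
      field_simp
      ring
    rw [e1]
    refine (abs_add_le _ _).trans ?_
    rw [abs_div, abs_mul, abs_of_pos hqr, abs_of_pos hx0]
    have h1 : |(s : ℝ) - q * γ| / q ≤ (1 / 2) / q := div_le_div_of_nonneg_right hs1 hqr.le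
    have h2 : |(r : ℝ) - θ| * x ≤ (1 / (q : ℝ) ^ 2) * (2 * q) := by
      refine mul_le_mul ?_ hx2 hx0.le (by positivity)
      rw [abs_sub_comm, hq, Int.cast_natCast]
      exact hr2.le
    have h3 : (1 / (q : ℝ) ^ 2) * (2 * q) = 2 / q := by field_simp
    have h4 : (5 / 2) / (q : ℝ) ≤ 5 / x := by
      rw [div_le_div_iff₀ hqr hx0]
      linarith
    have h5 : (1 / 2) / (q : ℝ) + 2 / q = (5 / 2) / q := by ring
    linarith

/-- Positivity near a direction. -/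
theorem signed_lower {k : ℕ} (hk : 1 ≤ k) {c' : ℕ → ℕ → ℝ} (hc' : ∀ i j, k < i + j → c' i j = 0)
    {θ : ℝ} (hpos : 0 < (top k c').eval θ) :
    ∃ ρ > 0, ∃ κ > 0, ∃ X₀ : ℝ, 1 ≤ X₀ ∧ ∀ x y : ℝ, X₀ ≤ x → |y - θ * x| ≤ ρ * x →
      κ * x ^ k ≤ ev k c' x y := by
  set τ := (top k c').eval θ with hτ
  have hcont : Continuous fun t : ℝ => (top k c').eval t := (top k c').continuous
  obtain ⟨ρ, hρ, hρb⟩ := Metric.eventually_nhds_iff.1
    (hcont.continuousAt.eventually (lt_mem_nhds (show τ / 2 < (top k c').eval θ by linarith)))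
  obtain ⟨K, hK, hKb⟩ := ev_sub_top_le hk hc' (|θ| + 1)
  set ρ' := min (ρ / 2) 1 with hρ'
  have hρ'0 : 0 < ρ' := lt_min (by linarith) one_pos
  refine ⟨ρ', hρ'0, τ / 4, by positivity, max 1 (4 * K / τ), le_max_left _ _, ?_⟩
  intro x y hx hy
  have hx1 : 1 ≤ x := (le_max_left _ _).trans hx
  have hx2 : 4 * K / τ ≤ x := (le_max_right _ _).trans hx
  have hx0 : 0 < x := by linarith
  have hyt : y = (y / x) * x := by field_simp
  have ht : |y / x - θ| ≤ ρ' := by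
    have : y / x - θ = (y - θ * x) / x := by field_simp
    rw [this, abs_div, abs_of_pos hx0, div_le_iff₀ hx0]
    exact hy
  have ht2 : |y / x - θ| < ρ := by
    have : ρ' ≤ ρ / 2 := min_le_left _ _
    linarith
  have ht3 : |y / x| ≤ |θ| + 1 := by
    have h1 : |y / x| ≤ |y / x - θ| + |θ| := by
      have := abs_add_le (y / x - θ) θ
      rwa [sub_add_cancel] at this
    have : ρ' ≤ 1 := min_le_right _ _
    linarith
  have h1 := hKb x (y / x) hx1 ht3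
  rw [← hyt] at h1
  have h2 : τ / 2 < (top k c').eval (y / x) := hρb (by rw [Real.dist_eq]; exact ht2)
  have h4 := (abs_le.1 h1).1
  have h5 : x ^ k = x * x ^ (k - 1) := by
    rw [← pow_succ']; congr 1; omega
  have h6 : K * x ^ (k - 1) ≤ τ / 4 * x ^ k := by
    rw [h5, ← mul_assoc]
    refine mul_le_mul_of_nonneg_right ?_ (by positivity)
    rw [div_le_iff₀ hpos] at hx2
    linarith
  have h7 : x ^ k * (τ / 2) ≤ x ^ k * (top k c').eval (y / x) :=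
    mul_le_mul_of_nonneg_left h2.le (by positivity)
  linarith

theorem top_neg (k : ℕ) (c' : ℕ → ℕ → ℝ) (t : ℝ) :
    (top k (fun i j => -c' i j)).eval t = -(top k c').eval t := by
  rw [top_eval, top_eval, ← Finset.sum_neg_distrib]
  exact Finset.sum_congr rfl fun j _ => by ring

theorem ev_neg (k : ℕ) (c' : ℕ → ℕ → ℝ) (x y : ℝ) :
    ev k (fun i j => -c' i j) x y = -ev k c' x y := by
  rw [ev, ev, ← Finset.sum_neg_distrib]
  refine Finset.sum_congr rfl fun i _ => ?_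
  rw [← Finset.sum_neg_distrib]
  exact Finset.sum_congr rfl fun j _ => by ring

/-- Linear growth near a direction. -/
def GrowDir (d : ℕ) (c : ℕ → ℕ → ℝ) (α θ : ℝ) : Prop :=
  ∃ ρ > 0, ∃ c₀ > 0, ∃ X₀ : ℝ, ∀ v ∈ Sec α, |(v.2 : ℝ) - θ * v.1| ≤ ρ * v.1 →
    X₀ ≤ (v.1 : ℝ) → c₀ * v.1 ≤ ev d c v.1 v.2

/-- Lattice points on which a quadratic polynomial is bounded. -/
theorem apx_bound {α θ : ℝ} (hθ : Irrational θ) (hθ0 : 0 < θ) (hθα : θ < α) (m₁ m₀ : ℚ)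
    (hm : θ ^ 2 + m₁ * θ + m₀ = 0) (p q r : ℝ) :
    ∃ K : ℝ, 0 ≤ K ∧ ∀ X : ℝ, ∃ v ∈ Sec α, X ≤ (v.1 : ℝ) ∧ 1 ≤ v.1 ∧
      |(v.2 : ℝ) - θ * v.1| ≤ K ∧
      |((v.2 : ℝ) ^ 2 + m₁ * (v.1 * v.2) + m₀ * v.1 ^ 2) + p * v.1 + q * v.2 + r| ≤ K := by
  set κ : ℝ := 2 * θ + m₁ with hκ
  have hκ0 : κ ≠ 0 := by
    intro h0
    have := rat_rel hθ 2 m₁ (by rw [hκ] at h0; push_cast; linarith)
    exact absurd this.1 (by norm_num)
  set γ : ℝ := -(p + q * θ) / κ with hγ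
  have hκγ : κ * γ = -(p + q * θ) := by rw [hγ]; field_simp
  refine ⟨(|γ| + 5) ^ 2 + 5 * |κ| + |q| * (|γ| + 5) + |r| + (|γ| + 5), by positivity, fun X => ?_⟩
  obtain ⟨x, y, hx1, hx2, hxy⟩ := inhom hθ γ (max X (max ((|γ| + 5) / θ) ((|γ| + 5) / (α - θ))))
  have hxX : X ≤ x := (le_max_left _ _).trans hx1
  have hxθ : (|γ| + 5) / θ ≤ x := (le_max_left _ _).trans ((le_max_right _ _).trans hx1)
  have hxα : (|γ| + 5) / (α - θ) ≤ x := (le_max_right _ _).trans ((le_max_right _ _).trans hx1)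
  rw [div_le_iff₀ hθ0] at hxθ
  rw [div_le_iff₀ (by linarith)] at hxα
  have hx1' : (1 : ℝ) ≤ x := by exact_mod_cast hx2
  have hx0 : (0 : ℝ) < x := by linarith
  set w : ℝ := (y : ℝ) - θ * x with hw
  have hδ : |w - γ| ≤ 5 / x := hxy
  have hδ5 : |w - γ| ≤ 5 := hδ.trans (by rw [div_le_iff₀ hx0]; linarith)
  have hwb : |w| ≤ |γ| + 5 := by
    have := abs_sub_abs_le_abs_sub w γ
    linarith
  have hw1 := (abs_le.1 hwb).1
  have hw2 := (abs_le.1 hwb).2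
  refine ⟨(x, y), ⟨by simp only; omega, ?_, ?_⟩, hxX, hx2, ?_, ?_⟩
  · have : (0 : ℝ) ≤ y := by linarith
    exact_mod_cast this
  · simp only
    linarith
  · simp only
    rw [← hw]
    have : 0 ≤ (|γ| + 5) ^ 2 + 5 * |κ| + |q| * (|γ| + 5) + |r| := by positivity
    linarith
  · simp only
    have hyw : (y : ℝ) = w + θ * x := by rw [hw]; ring
    have e1 : ((y : ℝ) ^ 2 + m₁ * (x * y) + m₀ * (x : ℝ) ^ 2) + p * x + q * y + r =
        w ^ 2 + κ * ((w - γ) * x) + q * w + r := by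
      rw [hyw]
      have e2 : κ * ((w - γ) * x) = κ * w * x + (p + q * θ) * x := by
        have : κ * ((w - γ) * x) = κ * w * x - (κ * γ) * x := by ring
        rw [this, hκγ]; ring
      rw [e2, hκ]
      linear_combination (x : ℝ) ^ 2 * hm
    rw [e1]
    have h1 : |(w - γ) * x| ≤ 5 := by
      rw [abs_mul, abs_of_pos hx0]
      rw [le_div_iff₀ hx0] at hδ
      exact hδ
    have h2 : |w ^ 2| ≤ (|γ| + 5) ^ 2 := by
      rw [abs_pow]
      exact pow_le_pow_left₀ (abs_nonneg _) hwb 2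
    have h3 : |κ * ((w - γ) * x)| ≤ 5 * |κ| := by
      rw [abs_mul]
      have := mul_le_mul_of_nonneg_left h1 (abs_nonneg κ)
      linarith
    have h4 : |q * w| ≤ |q| * (|γ| + 5) := by
      rw [abs_mul]
      exact mul_le_mul_of_nonneg_left hwb (abs_nonneg _)
    have h5 := abs_add_le (w ^ 2 + κ * ((w - γ) * x) + q * w) r
    have h6 := abs_add_le (w ^ 2 + κ * ((w - γ) * x)) (q * w)
    have h7 := abs_add_le (w ^ 2) (κ * ((w - γ) * x))
    have h8 : 0 ≤ |γ| + 5 := by positivity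
    linarith

/-- The alternative at an irrational double zero. -/
theorem dich {α θ : ℝ} {c : ℕ → ℕ → ℝ} (h : Pre 4 c α) (hθ : Irrational θ) (hθ0 : 0 < θ)
    (hθα : θ < α) (m₁ m₀ : ℚ) (hm : θ ^ 2 + m₁ * θ + m₀ = 0) {a : ℝ} (ha : 0 < a)
    {k : ℕ} (hk : 1 ≤ k) {c' : ℕ → ℕ → ℝ} (hc' : ∀ i j, k < i + j → c' i j = 0) (p q r : ℝ)
    (hF : ∀ x y : ℝ, 0 < x → ev 4 c x y =
      a * ((y ^ 2 + m₁ * (x * y) + m₀ * x ^ 2) + p * x + q * y + r) ^ 2 + ev k c' x y) :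
    (top k c').eval θ = 0 ∨ GrowDir 4 c α θ := by
  rcases lt_trichotomy ((top k c').eval θ) 0 with hneg | hzero | hpos
  · exfalso
    have hpos' : 0 < (top k (fun i j => -c' i j)).eval θ := by
      rw [top_neg]; linarith
    obtain ⟨ρ, hρ, κ, hκ, X₀, hX₀, hb⟩ := signed_lower hk
      (c' := fun i j => -c' i j) (fun i j hij => by
        show -c' i j = 0
        rw [hc' i j hij, neg_zero]) hpos'
    obtain ⟨K, hK, hKb⟩ := apx_bound hθ hθ0 hθα m₁ m₀ hm p q r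
    obtain ⟨v, hv, hvX, hv1, hvw, hvV⟩ := hKb (max X₀ (max (K / ρ) ((a * K ^ 2 + 1) / κ)))
    have hx0 : X₀ ≤ (v.1 : ℝ) := (le_max_left _ _).trans hvX
    have hxρ : K / ρ ≤ (v.1 : ℝ) := (le_max_left _ _).trans ((le_max_right _ _).trans hvX)
    have hxκ : (a * K ^ 2 + 1) / κ ≤ (v.1 : ℝ) :=
      (le_max_right _ _).trans ((le_max_right _ _).trans hvX)
    rw [div_le_iff₀ hρ] at hxρ
    rw [div_le_iff₀ hκ] at hxκ
    have hx1 : (1 : ℝ) ≤ v.1 := hX₀.trans hx0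
    have h1 := hb v.1 v.2 hx0 (by linarith)
    rw [ev_neg] at h1
    have h2 := h.nonneg hv
    rw [hF _ _ (by linarith)] at h2
    have h3 : (((v.2 : ℝ) ^ 2 + m₁ * (v.1 * v.2) + m₀ * v.1 ^ 2) + p * v.1 + q * v.2 + r) ^ 2 ≤
        K ^ 2 := by
      rw [← sq_abs]
      exact pow_le_pow_left₀ (abs_nonneg _) hvV 2
    have h4 : (v.1 : ℝ) ≤ (v.1 : ℝ) ^ k := le_self_pow₀ hx1 (by omega)
    have h5 : κ * (v.1 : ℝ) ≤ κ * (v.1 : ℝ) ^ k := mul_le_mul_of_nonneg_left h4 hκ.le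
    have h6 := mul_le_mul_of_nonneg_left h3 ha.le
    linarith
  · exact Or.inl hzero
  · right
    obtain ⟨ρ, hρ, κ, hκ, X₀, hX₀, hb⟩ := signed_lower hk hc' hpos
    refine ⟨ρ, hρ, κ, hκ, X₀, fun v hv hvρ hvX => ?_⟩
    have hx1 : (1 : ℝ) ≤ v.1 := hX₀.trans hvX
    have h1 := hb v.1 v.2 hvX hvρ
    rw [hF _ _ (by linarith)]
    have h4 : (v.1 : ℝ) ≤ (v.1 : ℝ) ^ k := le_self_pow₀ hx1 (by omega)
    have h5 : κ * (v.1 : ℝ) ≤ κ * (v.1 : ℝ) ^ k := mul_le_mul_of_nonneg_left h4 hκ.le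
    have h6 : 0 ≤ a * (((v.2 : ℝ) ^ 2 + m₁ * (v.1 * v.2) + m₀ * v.1 ^ 2) + p * v.1 + q * v.2 + r) ^ 2 :=
      by positivity
    linarith

/-- The remainder cannot be constant. -/
theorem not_const {α θ : ℝ} {c : ℕ → ℕ → ℝ} (h : Pre 4 c α) (hθ : Irrational θ) (hθ0 : 0 < θ)
    (hθα : θ < α) (m₁ m₀ : ℚ) (hm : θ ^ 2 + m₁ * θ + m₀ = 0) {a : ℝ} (ha : 0 < a)
    (p q r e : ℝ)
    (hF : ∀ x y : ℝ, 0 < x → ev 4 c x y =
      a * ((y ^ 2 + m₁ * (x * y) + m₀ * x ^ 2) + p * x + q * y + r) ^ 2 + e) : False := by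
  classical
  obtain ⟨K, hK, hKb⟩ := apx_bound hθ hθ0 hθα m₁ m₀ hm p q r
  set N : ℕ := ⌈a * K ^ 2 + |e|⌉₊ with hN
  -- the points with value at most `N`
  have hfin : {v : ℤ × ℤ | v ∈ Sec α ∧ ev 4 c v.1 v.2 ≤ N}.Finite := by
    have hT : ((fun m : ℕ => (m : ℝ)) '' (Set.Iic N)).Finite := (Set.finite_Iic N).image _
    refine Set.Finite.of_injOn (f := fun v : ℤ × ℤ => ev 4 c v.1 v.2) ?_ ?_ hT
    · rintro v ⟨hv, hle⟩
      obtain ⟨m, hm'⟩ := h.int v hv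
      refine ⟨m, ?_, hm'.symm⟩
      rw [hm'] at hle
      exact_mod_cast hle
    · intro v hv w hw hvw
      exact h.inj v hv.1 w hw.1 hvw
  obtain ⟨B, hB⟩ := (hfin.image Prod.fst).bddAbove
  obtain ⟨v, hv, hvX, hv1, hvw, hvV⟩ := hKb (B + 1)
  have hmem : v ∈ {v : ℤ × ℤ | v ∈ Sec α ∧ ev 4 c v.1 v.2 ≤ N} := by
    refine ⟨hv, ?_⟩
    have hx0 : (0 : ℝ) < v.1 := by
      have : (1 : ℝ) ≤ v.1 := by exact_mod_cast hv1
      linarith
    rw [hF _ _ hx0]
    have h3 : (((v.2 : ℝ) ^ 2 + m₁ * (v.1 * v.2) + m₀ * v.1 ^ 2) + p * v.1 + q * v.2 + r) ^ 2 ≤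
        K ^ 2 := by
      rw [← sq_abs]
      exact pow_le_pow_left₀ (abs_nonneg _) hvV 2
    have h4 := mul_le_mul_of_nonneg_left h3 ha.le
    have h5 := le_abs_self e
    have h6 := Nat.le_ceil (a * K ^ 2 + |e|)
    rw [hN]
    linarith
  have h1 := hB ⟨v, hmem, rfl⟩
  have h2 : (v.1 : ℝ) ≤ B := by exact_mod_cast h1
  linarith

end Pool.Agent.Pack
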