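import Pool.Agent.Pack.Arr

/-!
# Lower bound away from the coordinate direction
-/

set_option autoImplicit false

open Polynomial Finset Filter Topology

namespace Pool.Agent.Pack

/-- The sum of the absolute values of the monomials. -/
noncomputable def wt (d : ℕ) (c : ℕ → ℕ → ℝ) (x y : ℝ) : ℝ :=
  ∑ i ∈ range (d + 1), ∑ j ∈ range (d + 1), |c i j| * x ^ i * y ^ j

theorem wt_nonneg (d : ℕ) (c : ℕ → ℕ → ℝ) {x y : ℝ} (hx : 0 ≤ x) (hy : 0 ≤ y) :
    0 ≤ wt d c x y := by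
  unfold wt; positivity

theorem term_le_wt {d : ℕ} (c : ℕ → ℕ → ℝ) {x y : ℝ} (hx : 0 ≤ x) (hy : 0 ≤ y) {i j : ℕ}
    (hi : i ≤ d) (hj : j ≤ d) : |c i j| * x ^ i * y ^ j ≤ wt d c x y := by
  unfold wt
  refine le_trans ?_ (Finset.single_le_sum (f := fun i => ∑ j ∈ range (d + 1),
    |c i j| * x ^ i * y ^ j) (fun i _ => by positivity) (mem_range.2 (Nat.lt_succ_of_le hi)))
  exact Finset.single_le_sum (f := fun j => |c i j| * x ^ i * y ^ j)
    (fun j _ => by positivity) (mem_range.2 (Nat.lt_succ_of_le hj))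

theorem wt_le {d : ℕ} {c : ℕ → ℕ → ℝ} (hc : ∀ i j, d < i + j → c i j = 0) {x y : ℝ} (hx : 1 ≤ x)
    (hy : 0 ≤ y) (hyx : y ≤ x) :
    wt d c x y ≤ (∑ i ∈ range (d + 1), ∑ j ∈ range (d + 1), |c i j|) * x ^ d := by
  unfold wt
  rw [Finset.sum_mul]
  refine Finset.sum_le_sum fun i _ => ?_
  rw [Finset.sum_mul]
  refine Finset.sum_le_sum fun j _ => ?_
  by_cases h : d < i + j
  · rw [hc i j h]; simp
  · have h1 : x ^ i * y ^ j ≤ x ^ d := by
      calc x ^ i * y ^ j ≤ x ^ i * x ^ j :=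
            mul_le_mul_of_nonneg_left (pow_le_pow_left₀ hy hyx _) (by positivity)
        _ = x ^ (i + j) := (pow_add _ _ _).symm
        _ ≤ x ^ d := pow_le_pow_right₀ hx (by omega)
    rw [mul_assoc]
    exact mul_le_mul_of_nonneg_left h1 (abs_nonneg _)

section Combi

/-- The combinatorial part of the lower bound: three monomials on a line. -/
theorem three_points {d : ℕ} {D : ℕ} {q : ℝ} (hq0 : 0 < q) (hq1 : q < 1)
    (hqD : (D : ℝ) / (D + 2) < q) (Cf : Fin (d + 1) × Fin (d + 1) → ℝ)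
    (hne : ∃ p, Cf p ≠ 0) (hDp : ∀ p, Cf p ≠ 0 → (p.1 : ℕ) ≤ D)
    (h0 : ∑ p, Cf p = 0) (h1 : ∑ p, Cf p * ((p.1 : ℕ) : ℝ) = 0)
    (hline : ∀ p p', Cf p ≠ 0 → Cf p' ≠ 0 →
      (((p.1 : ℕ) : ℝ) - ((p'.1 : ℕ) : ℝ)) + q * (((p.2 : ℕ) : ℝ) - ((p'.2 : ℕ) : ℝ)) = 0) :
    False := by
  classical
  let S : Finset (Fin (d + 1) × Fin (d + 1)) := Finset.univ.filter fun p => Cf p ≠ 0
  have hS : ∀ p, p ∈ S ↔ Cf p ≠ 0 := fun p => by simp [S]
  have hSne : S.Nonempty := by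
    obtain ⟨p, hp⟩ := hne
    exact ⟨p, (hS p).2 hp⟩
  obtain ⟨pa, hpa, hmax⟩ := S.exists_max_image (fun p => (p.1 : ℕ)) hSne
  obtain ⟨pb, hpb, hmin⟩ := S.exists_min_image (fun p => (p.1 : ℕ)) hSne
  rw [hS] at hpa hpb
  -- equal first coordinates
  have huniq : ∀ p p', Cf p ≠ 0 → Cf p' ≠ 0 → (p.1 : ℕ) = p'.1 → p = p' := by
    intro p p' hp hp' h
    have h2 := hline p p' hp hp'
    rw [h, sub_self, zero_add] at h2
    rcases mul_eq_zero.1 h2 with h3 | h3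
    · exact absurd h3 hq0.ne'
    · have h4 : (p.2 : ℕ) = p'.2 := by
        have : ((p.2 : ℕ) : ℝ) = ((p'.2 : ℕ) : ℝ) := by linarith
        exact_mod_cast this
      exact Prod.ext (Fin.ext h) (Fin.ext h4)
  -- the middle point
  have hmid : ∃ pm, Cf pm ≠ 0 ∧ (pb.1 : ℕ) < pm.1 ∧ (pm.1 : ℕ) < pa.1 := by
    by_contra hcon
    push Not at hcon
    have h2 : ∑ p, Cf p * (((p.1 : ℕ) : ℝ) - ((pb.1 : ℕ) : ℝ)) = 0 := by
      simp only [mul_sub, Finset.sum_sub_distrib]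
      rw [h1, ← Finset.sum_mul, h0]; simp
    rw [Finset.sum_eq_single pa] at h2
    · rcases mul_eq_zero.1 h2 with h3 | h3
      · exact hpa h3
      · -- all first coordinates are equal
        have hab : (pa.1 : ℕ) = pb.1 := by
          have : ((pa.1 : ℕ) : ℝ) = ((pb.1 : ℕ) : ℝ) := by linarith
          exact_mod_cast this
        have h4 : ∀ p, p ≠ pa → Cf p = 0 := by
          intro p hp
          by_contra hpc
          have h5 := hmax p ((hS p).2 hpc)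
          have h6 := hmin p ((hS p).2 hpc)
          exact hp (huniq p pa hpc hpa (by omega))
        rw [Finset.sum_eq_single pa (fun p _ hp => h4 p hp) (fun h => absurd (mem_univ _) h)] at h0
        exact hpa h0
    · intro p _ hp
      by_cases hpc : Cf p = 0
      · rw [hpc, zero_mul]
      · have h5 := hmax p ((hS p).2 hpc)
        have h6 := hmin p ((hS p).2 hpc)
        rcases Nat.eq_or_lt_of_le h6 with h7 | h7
        · rw [h7, sub_self, mul_zero]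
        · have h8 := hcon p hpc h7
          exact absurd (huniq p pa hpc hpa (by omega)) hp
    · intro h
      exact absurd (mem_univ _) h
  obtain ⟨pm, hpm, hbm, hma⟩ := hmid
  -- integer steps
  have hstep : ∀ p p', Cf p ≠ 0 → Cf p' ≠ 0 → (p'.1 : ℕ) < p.1 →
      (p.1 : ℤ) - (p'.1 : ℤ) + 1 ≤ (p'.2 : ℤ) - (p.2 : ℤ) := by
    intro p p' hp hp' hlt
    have h2 := hline p p' hp hp'
    have h3 : (0 : ℝ) < ((p.1 : ℕ) : ℝ) - ((p'.1 : ℕ) : ℝ) := by
      have : ((p'.1 : ℕ) : ℝ) < ((p.1 : ℕ) : ℝ) := by exact_mod_cast hlt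
      linarith
    have h4 : (0 : ℝ) < ((p'.2 : ℕ) : ℝ) - ((p.2 : ℕ) : ℝ) := by
      by_contra hneg
      push Not at hneg
      nlinarith
    have h5 : ((p.1 : ℕ) : ℝ) - ((p'.1 : ℕ) : ℝ) < ((p'.2 : ℕ) : ℝ) - ((p.2 : ℕ) : ℝ) := by
      nlinarith
    have h6 : ((((p.1 : ℕ) : ℤ) - ((p'.1 : ℕ) : ℤ) : ℤ) : ℝ) <
        ((((p'.2 : ℕ) : ℤ) - ((p.2 : ℕ) : ℤ) : ℤ) : ℝ) := by push_cast; exact h5
    have h7 := Int.cast_lt.1 h6
    omega
  have s1 := hstep pa pm hpa hpm hma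
  have s2 := hstep pm pb hpm hpb hbm
  have s3 := hline pa pb hpa hpb
  have s4 : (pa.1 : ℤ) - (pb.1 : ℤ) + 2 ≤ (pb.2 : ℤ) - (pa.2 : ℤ) := by omega
  have s5 : ((pa.1 : ℕ) : ℝ) - ((pb.1 : ℕ) : ℝ) + 2 ≤ ((pb.2 : ℕ) : ℝ) - ((pa.2 : ℕ) : ℝ) := by
    have := (Int.cast_le (R := ℝ)).2 s4
    push_cast at this
    exact this
  have s6 : ((pa.1 : ℕ) : ℝ) ≤ D := by exact_mod_cast hDp pa hpa
  have s7 : (0 : ℝ) ≤ ((pb.1 : ℕ) : ℝ) := by positivity
  have s8 : (0 : ℝ) < ((pa.1 : ℕ) : ℝ) - ((pb.1 : ℕ) : ℝ) := by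
    have : ((pb.1 : ℕ) : ℝ) < ((pa.1 : ℕ) : ℝ) := by exact_mod_cast (by omega : (pb.1 : ℕ) < pa.1)
    linarith
  have hDpos : (0 : ℝ) < (D : ℝ) + 2 := by positivity
  rw [div_lt_iff₀ hDpos] at hqD
  -- `q * (I + 2) ≤ I`, `I ≤ D`
  have s9 : q * (((pa.1 : ℕ) : ℝ) - ((pb.1 : ℕ) : ℝ) + 2) ≤
      ((pa.1 : ℕ) : ℝ) - ((pb.1 : ℕ) : ℝ) := by
    nlinarith [mul_le_mul_of_nonneg_left s5 hq0.le]
  nlinarith [mul_le_mul_of_nonneg_left s6 (sub_nonneg.2 hq1.le)]

end Combi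

/-- Normalised evaluation. -/
theorem ev_div_eq (d : ℕ) (c : ℕ → ℕ → ℝ) (m x y W : ℝ) (hx : x ≠ 0) :
    ev d c m y / W = ∑ p : Fin (d + 1) × Fin (d + 1),
      (c p.1 p.2 * x ^ (p.1 : ℕ) * y ^ (p.2 : ℕ) / W) * (m / x) ^ (p.1 : ℕ) := by
  rw [ev, Fintype.sum_prod_type, ← Fin.sum_univ_eq_sum_range
    (fun i => ∑ j ∈ range (d + 1), c i j * m ^ i * y ^ j), Finset.sum_div]
  refine Finset.sum_congr rfl fun i _ => ?_
  rw [← Fin.sum_univ_eq_sum_range (fun j => c i j * m ^ (i : ℕ) * y ^ j), Finset.sum_div]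
  refine Finset.sum_congr rfl fun j _ => ?_
  rw [div_pow]
  field_simp

theorem wt_div_eq (d : ℕ) (c : ℕ → ℕ → ℝ) (x y : ℝ) (hx : 0 < x) (hy : 0 < y)
    (hW : 0 < wt d c x y) :
    ∑ p : Fin (d + 1) × Fin (d + 1),
      |c p.1 p.2 * x ^ (p.1 : ℕ) * y ^ (p.2 : ℕ) / wt d c x y| = 1 := by
  have h : ∀ p : Fin (d + 1) × Fin (d + 1),
      |c p.1 p.2 * x ^ (p.1 : ℕ) * y ^ (p.2 : ℕ) / wt d c x y| =
      (|c p.1 p.2| * x ^ (p.1 : ℕ) * y ^ (p.2 : ℕ)) / wt d c x y := by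
    intro p
    rw [abs_div, abs_mul, abs_mul, abs_pow, abs_pow, abs_of_pos hx, abs_of_pos hy, abs_of_pos hW]
  rw [Finset.sum_congr rfl fun p _ => h p, ← Finset.sum_div]
  rw [div_eq_one_iff_eq hW.ne', wt, Fintype.sum_prod_type]
  rw [← Fin.sum_univ_eq_sum_range (fun i => ∑ j ∈ range (d + 1), |c i j| * x ^ i * y ^ j)]
  refine Finset.sum_congr rfl fun i _ => ?_
  rw [← Fin.sum_univ_eq_sum_range (fun j => |c i j| * x ^ (i : ℕ) * y ^ j)]

/-- Away from the direction of the `x`-axis a nonnegative polynomial is comparable with the sum of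
its monomials. -/
theorem lower_bound_W {d : ℕ} (hd : 1 ≤ d) {c : ℕ → ℕ → ℝ} (hc : ∀ i j, d < i + j → c i j = 0)
    {η : ℝ} (hη : 0 < η) (hη1 : η ≤ 1) {D : ℕ} (hD : ∀ i j, D < i → c i j = 0)
    {θ : ℝ} (hθ0 : 0 < θ) (hθ : (D : ℝ) / (D + 2) < θ) (hθ1 : θ < 1)
    (hnn : ∀ x y : ℤ, 0 < x → 0 ≤ y → (y : ℝ) ≤ η * x → 0 ≤ ev d c x y)
    (htop : ∀ t, 0 < t → t ≤ η → (top d c).eval t ≠ 0) :
    ∃ κ > 0, ∃ X₀ : ℝ, ∀ x y : ℤ, X₀ ≤ x → (x : ℝ) ^ θ ≤ y → (y : ℝ) ≤ η / 2 * x →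
      κ * wt d c x y ≤ ev d c x y := by
  by_contra hcon
  push Not at hcon
  choose xs ys hx hxy hyx hlt using fun n : ℕ => hcon (1 / ((n : ℝ) + 1)) (by positivity)
    ((n : ℝ) + 4)
  have hxpos : ∀ n, (0 : ℝ) < xs n := fun n => by
    have := hx n
    have h2 : (0 : ℝ) ≤ n := by positivity
    linarith
  have hx4 : ∀ n, (4 : ℝ) ≤ xs n := fun n => by
    have := hx n
    have h2 : (0 : ℝ) ≤ n := by positivity
    linarith
  have hypos : ∀ n, (0 : ℝ) < ys n := fun n =>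
    (Real.rpow_pos_of_pos (hxpos n) θ).trans_le (hxy n)
  have hyx1 : ∀ n, (ys n : ℝ) ≤ xs n := fun n => by
    have := hyx n
    nlinarith [hxpos n]
  have hxZ : ∀ n, 0 < xs n := fun n => by exact_mod_cast hxpos n
  have hyZ : ∀ n, 0 < ys n := fun n => by exact_mod_cast hypos n
  have hev0 : ∀ n, 0 ≤ ev d c (xs n) (ys n) := fun n =>
    hnn _ _ (hxZ n) (hyZ n).le (by nlinarith [hyx n, hxpos n])
  have hW : ∀ n, 0 < wt d c (xs n) (ys n) := by
    intro n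
    rcases (wt_nonneg d c (hxpos n).le (hypos n).le).lt_or_eq with h | h
    · exact h
    · have := hlt n
      rw [← h, mul_zero] at this
      linarith [hev0 n]
  have hxs : Tendsto (fun n => (xs n : ℝ)) atTop atTop := by
    refine tendsto_atTop_mono hx ?_
    exact tendsto_atTop_add_const_right _ _ tendsto_natCast_atTop_atTop
  -- the compact set
  let u : ℕ → (Fin (d + 1) × Fin (d + 1) → ℝ) × ℝ × ℝ := fun n =>
    (fun p => c p.1 p.2 * (xs n : ℝ) ^ (p.1 : ℕ) * (ys n : ℝ) ^ (p.2 : ℕ) / wt d c (xs n) (ys n),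
      Real.log (ys n) / Real.log (xs n), (ys n : ℝ) / xs n)
  let K : Set ((Fin (d + 1) × Fin (d + 1) → ℝ) × ℝ × ℝ) :=
    (Set.pi Set.univ fun _ => Set.Icc (-1) 1) ×ˢ (Set.Icc θ 1) ×ˢ (Set.Icc 0 (η / 2))
  have hK : IsCompact K :=
    (isCompact_univ_pi fun _ => isCompact_Icc).prod (isCompact_Icc.prod isCompact_Icc)
  have huK : ∀ n, u n ∈ K := by
    intro n
    have hlogx : 0 < Real.log (xs n) := Real.log_pos (by linarith [hx4 n])
    refine ⟨?_, ⟨?_, ?_⟩, ?_, ?_⟩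
    · intro p _
      have h1 : |c p.1 p.2 * (xs n : ℝ) ^ (p.1 : ℕ) * (ys n : ℝ) ^ (p.2 : ℕ) /
          wt d c (xs n) (ys n)| ≤ 1 := by
        rw [abs_div, abs_mul, abs_mul, abs_pow, abs_pow, abs_of_pos (hxpos n),
          abs_of_pos (hypos n), abs_of_pos (hW n), div_le_one (hW n)]
        exact term_le_wt c (hxpos n).le (hypos n).le (Nat.lt_succ_iff.1 p.1.2)
          (Nat.lt_succ_iff.1 p.2.2)
      exact abs_le.1 h1
    · show θ ≤ Real.log (ys n) / Real.log (xs n)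
      rw [le_div_iff₀ hlogx, ← Real.log_rpow (hxpos n)]
      exact Real.log_le_log (Real.rpow_pos_of_pos (hxpos n) θ) (hxy n)
    · show Real.log (ys n) / Real.log (xs n) ≤ 1
      rw [div_le_one hlogx]
      exact Real.log_le_log (hypos n) (hyx1 n)
    · show 0 ≤ (ys n : ℝ) / xs n
      exact div_nonneg (hypos n).le (hxpos n).le
    · show (ys n : ℝ) / xs n ≤ η / 2
      rw [div_le_iff₀ (hxpos n)]
      exact hyx n
  obtain ⟨⟨Cf, q, r⟩, hlimK, φ, hφ, hlim⟩ := hK.tendsto_subseq huK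
  have hφtop : Tendsto φ atTop atTop := hφ.tendsto_atTop
  have hCf : ∀ p, Tendsto (fun n => c p.1 p.2 * (xs (φ n) : ℝ) ^ (p.1 : ℕ) *
      (ys (φ n) : ℝ) ^ (p.2 : ℕ) / wt d c (xs (φ n)) (ys (φ n))) atTop (𝓝 (Cf p)) := by
    intro p
    have h1 := (continuous_fst.tendsto _).comp hlim
    have h2 := (tendsto_pi_nhds.1 h1) p
    exact h2
  have hq : Tendsto (fun n => Real.log (ys (φ n)) / Real.log (xs (φ n))) atTop (𝓝 q) :=
    (continuous_fst.tendsto _).comp ((continuous_snd.tendsto _).comp hlim)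
  have hr : Tendsto (fun n => (ys (φ n) : ℝ) / xs (φ n)) atTop (𝓝 r) :=
    (continuous_snd.tendsto _).comp ((continuous_snd.tendsto _).comp hlim)
  obtain ⟨-, ⟨hqθ, hq1⟩, hr0, hr1⟩ := hlimK
  simp only at hqθ hq1 hr0 hr1
  have hxφ : Tendsto (fun n => (xs (φ n) : ℝ)) atTop atTop := hxs.comp hφtop
  -- the ratio tends to zero
  have hrzero : r = 0 := by
    by_contra hrne
    have hrpos : 0 < r := lt_of_le_of_ne hr0 (Ne.symm hrne)
    apply htop r hrpos (by linarith)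
    obtain ⟨K₁, hK₁, hK⟩ := ev_sub_top_le hd hc 1
    set B : ℝ := ∑ i ∈ range (d + 1), ∑ j ∈ range (d + 1), |c i j| with hB
    have hB0 : 0 ≤ B := by positivity
    have hb : ∀ n, |(top d c).eval ((ys n : ℝ) / xs n)| ≤ K₁ / xs n + B / ((n : ℝ) + 1) := by
      intro n
      have hx1 : (1 : ℝ) ≤ xs n := by linarith [hx4 n]
      have ht : |(ys n : ℝ) / xs n| ≤ 1 := by
        rw [abs_of_nonneg (div_nonneg (hypos n).le (hxpos n).le), div_le_one (hxpos n)]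
        exact hyx1 n
      have h1 := hK (xs n) ((ys n : ℝ) / xs n) hx1 ht
      rw [div_mul_cancel₀ _ (hxpos n).ne'] at h1
      have h2 : ev d c (xs n) (ys n) ≤ 1 / ((n : ℝ) + 1) * (B * (xs n : ℝ) ^ d) :=
        (hlt n).le.trans (mul_le_mul_of_nonneg_left
          (wt_le hc hx1 (hypos n).le (hyx1 n)) (by positivity))
      have h3 : |(xs n : ℝ) ^ d * (top d c).eval ((ys n : ℝ) / xs n)| ≤
          K₁ * (xs n : ℝ) ^ (d - 1) + 1 / ((n : ℝ) + 1) * (B * (xs n : ℝ) ^ d) := by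
        have h4 := abs_le.1 h1
        have h5 : 0 ≤ K₁ * (xs n : ℝ) ^ (d - 1) := by
          have := hxpos n; positivity
        have h6 : 0 ≤ 1 / ((n : ℝ) + 1) * (B * (xs n : ℝ) ^ d) := by
          have := hxpos n; positivity
        rw [abs_le]
        constructor <;> linarith [hev0 n]
      have hpd : (0 : ℝ) < (xs n : ℝ) ^ d := pow_pos (hxpos n) _
      rw [abs_mul, abs_of_pos hpd] at h3
      have h7 : (xs n : ℝ) ^ d = (xs n : ℝ) ^ (d - 1) * xs n := by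
        rw [← pow_succ]; congr 1; omega
      have hpd1 : (0 : ℝ) < (xs n : ℝ) ^ (d - 1) := pow_pos (hxpos n) _
      have h8 : (xs n : ℝ) ^ d * |(top d c).eval ((ys n : ℝ) / xs n)| ≤
          (xs n : ℝ) ^ d * (K₁ / xs n + B / ((n : ℝ) + 1)) := by
        refine h3.trans (le_of_eq ?_)
        rw [h7]
        have := (hxpos n).ne'
        field_simp
      exact le_of_mul_le_mul_left h8 hpd
    have hl1 : Tendsto (fun n => K₁ / (xs (φ n) : ℝ) + B / ((φ n : ℕ) + 1 : ℝ)) atTop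
        (𝓝 (0 + 0)) := by
      refine Tendsto.add (hxφ.const_div_atTop _) ?_
      refine Tendsto.const_div_atTop ?_ _
      exact (tendsto_atTop_add_const_right _ _ (tendsto_natCast_atTop_atTop.comp hφtop))
    have hl2 : Tendsto (fun n => |(top d c).eval ((ys (φ n) : ℝ) / xs (φ n))|) atTop
        (𝓝 |(top d c).eval r|) :=
      (((top d c).continuous.tendsto r).comp hr).abs
    have h9 := le_of_tendsto_of_tendsto' hl2 hl1 (fun n => hb (φ n))
    rw [add_zero] at h9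
    exact abs_eq_zero.1 (le_antisymm h9 (abs_nonneg _))
  subst hrzero
  -- the limiting coefficients
  have hsum1 : ∑ p, |Cf p| = 1 := by
    have h1 : Tendsto (fun n => ∑ p : Fin (d + 1) × Fin (d + 1),
        |c p.1 p.2 * (xs (φ n) : ℝ) ^ (p.1 : ℕ) * (ys (φ n) : ℝ) ^ (p.2 : ℕ) /
          wt d c (xs (φ n)) (ys (φ n))|) atTop (𝓝 (∑ p, |Cf p|)) :=
      tendsto_finsetSum _ fun p _ => (hCf p).abs
    have h2 : (fun n => ∑ p : Fin (d + 1) × Fin (d + 1),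
        |c p.1 p.2 * (xs (φ n) : ℝ) ^ (p.1 : ℕ) * (ys (φ n) : ℝ) ^ (p.2 : ℕ) /
          wt d c (xs (φ n)) (ys (φ n))|) = fun _ => (1 : ℝ) := by
      funext n
      exact wt_div_eq d c _ _ (hxpos _) (hypos _) (hW _)
    rw [h2] at h1
    exact tendsto_nhds_unique h1 tendsto_const_nhds
  have hlimev : ∀ (m : ℕ → ℝ) (ξ : ℝ), Tendsto (fun n => m n / (xs (φ n) : ℝ)) atTop (𝓝 ξ) →
      Tendsto (fun n => ev d c (m n) (ys (φ n)) / wt d c (xs (φ n)) (ys (φ n))) atTop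
        (𝓝 (∑ p, Cf p * ξ ^ (p.1 : ℕ))) := by
    intro m ξ hm
    have h1 : (fun n => ev d c (m n) (ys (φ n)) / wt d c (xs (φ n)) (ys (φ n))) = fun n =>
        ∑ p : Fin (d + 1) × Fin (d + 1), (c p.1 p.2 * (xs (φ n) : ℝ) ^ (p.1 : ℕ) *
          (ys (φ n) : ℝ) ^ (p.2 : ℕ) / wt d c (xs (φ n)) (ys (φ n))) *
          (m n / (xs (φ n) : ℝ)) ^ (p.1 : ℕ) := by
      funext n
      exact ev_div_eq d c _ _ _ _ (hxpos _).ne'
    rw [h1]
    exact tendsto_finsetSum _ fun p _ => (hCf p).mul (hm.pow _)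
  have hpos : ∀ ξ : ℝ, 3 / 4 ≤ ξ → ξ ≤ 5 / 4 → 0 ≤ ∑ p, Cf p * ξ ^ (p.1 : ℕ) := by
    intro ξ h1 h2
    have hm : Tendsto (fun n => ((⌊ξ * xs (φ n)⌋ : ℤ) : ℝ) / (xs (φ n) : ℝ)) atTop (𝓝 ξ) := by
      have h0 : Tendsto (fun n => ξ - 1 / (xs (φ n) : ℝ)) atTop (𝓝 ξ) := by
        have := (tendsto_const_nhds (x := ξ)).sub (hxφ.const_div_atTop 1)
        simpa using this
      refine tendsto_of_tendsto_of_tendsto_of_le_of_le h0 (tendsto_const_nhds (x := ξ)) ?_ ?_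
      · intro n
        have h3 : ξ * xs (φ n) - 1 < (⌊ξ * (xs (φ n) : ℝ)⌋ : ℝ) := Int.sub_one_lt_floor _
        have h4 := hxpos (φ n)
        simp only
        rw [le_div_iff₀ h4, sub_mul, div_mul_cancel₀ _ h4.ne']
        exact h3.le
      · intro n
        simp only
        rw [div_le_iff₀ (hxpos (φ n))]
        exact Int.floor_le _
    have h3 := hlimev _ ξ hm
    refine ge_of_tendsto' h3 fun n => ?_
    refine div_nonneg ?_ (hW _).le
    have h4 : ξ * xs (φ n) - 1 < (⌊ξ * (xs (φ n) : ℝ)⌋ : ℝ) := Int.sub_one_lt_floor _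
    have h5 : (xs (φ n) : ℝ) / 2 ≤ (⌊ξ * (xs (φ n) : ℝ)⌋ : ℝ) := by
      nlinarith [hx4 (φ n), hxpos (φ n)]
    have h6 : 0 < ⌊ξ * (xs (φ n) : ℝ)⌋ := by
      have : (0 : ℝ) < (⌊ξ * (xs (φ n) : ℝ)⌋ : ℝ) := by linarith [hx4 (φ n)]
      exact_mod_cast this
    refine hnn _ _ h6 (hyZ _).le ?_
    nlinarith [hyx (φ n)]
  have hle : ∑ p, Cf p * (1 : ℝ) ^ (p.1 : ℕ) ≤ 0 := by
    have h1 : Tendsto (fun n => (xs (φ n) : ℝ) / (xs (φ n) : ℝ)) atTop (𝓝 1) := by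
      have : (fun n => (xs (φ n) : ℝ) / (xs (φ n) : ℝ)) = fun _ => (1 : ℝ) := by
        funext n; exact div_self (hxpos _).ne'
      rw [this]; exact tendsto_const_nhds
    have h2 := hlimev (fun n => (xs (φ n) : ℝ)) 1 h1
    have h3 : Tendsto (fun n => 1 / (((φ n : ℕ) : ℝ) + 1)) atTop (𝓝 0) :=
      tendsto_one_div_add_atTop_nhds_zero_nat.comp hφtop
    refine le_of_tendsto_of_tendsto' h2 h3 fun n => ?_
    rw [div_le_iff₀ (hW _)]
    exact (hlt _).le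
  have hzero : ∑ p, Cf p * (1 : ℝ) ^ (p.1 : ℕ) = 0 :=
    le_antisymm hle (hpos 1 (by norm_num) (by norm_num))
  -- derivative at one
  have hder : ∑ p, Cf p * ((p.1 : ℕ) : ℝ) = 0 := by
    let P : ℝ[X] := ∑ p : Fin (d + 1) × Fin (d + 1), C (Cf p) * X ^ (p.1 : ℕ)
    have hP : ∀ ξ, P.eval ξ = ∑ p, Cf p * ξ ^ (p.1 : ℕ) := by
      intro ξ; simp [P, eval_finsetSum]
    have hmin : IsLocalMin (fun ξ => P.eval ξ) 1 := by
      have h1 : Set.Icc (3 / 4 : ℝ) (5 / 4) ∈ 𝓝 (1 : ℝ) :=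
        Icc_mem_nhds (by norm_num) (by norm_num)
      filter_upwards [h1] with ξ hξ
      rw [hP, hP, hzero]
      exact hpos ξ hξ.1 hξ.2
    have h2 := hmin.deriv_eq_zero
    rw [Polynomial.deriv] at h2
    have h3 : P.derivative.eval 1 = ∑ p, Cf p * ((p.1 : ℕ) : ℝ) := by
      simp [P, eval_finsetSum, derivative_X_pow]
    rw [← h3]; exact h2
  have hzero' : ∑ p, Cf p = 0 := by simpa using hzero
  -- the line relation
  have hlogx : Tendsto (fun n => Real.log (xs (φ n))) atTop atTop :=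
    Real.tendsto_log_atTop.comp hxφ
  have hcne : ∀ p, Cf p ≠ 0 → c p.1 p.2 ≠ 0 := by
    intro p hp h0
    apply hp
    have h1 := hCf p
    rw [h0] at h1
    simp only [zero_mul, zero_div] at h1
    exact tendsto_nhds_unique h1 tendsto_const_nhds
  have hlogdiff : ∀ p p', Cf p ≠ 0 → Cf p' ≠ 0 → Tendsto (fun n =>
      (((p.1 : ℕ) : ℝ) - ((p'.1 : ℕ) : ℝ)) * Real.log (xs (φ n)) +
      (((p.2 : ℕ) : ℝ) - ((p'.2 : ℕ) : ℝ)) * Real.log (ys (φ n))) atTop
      (𝓝 ((Real.log |Cf p| - Real.log |Cf p'|) -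
        (Real.log |c p.1 p.2| - Real.log |c p'.1 p'.2|))) := by
    intro p p' hp hp'
    have h1 : ∀ p, Cf p ≠ 0 → Tendsto (fun n => Real.log |c p.1 p.2 *
        (xs (φ n) : ℝ) ^ (p.1 : ℕ) * (ys (φ n) : ℝ) ^ (p.2 : ℕ) /
        wt d c (xs (φ n)) (ys (φ n))|) atTop (𝓝 (Real.log |Cf p|)) := by
      intro p hp
      exact ((hCf p).abs).log (abs_ne_zero.2 hp)
    have h2 := ((h1 p hp).sub (h1 p' hp')).sub
      (tendsto_const_nhds (x := Real.log |c p.1 p.2| - Real.log |c p'.1 p'.2|))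
    refine h2.congr fun n => ?_
    have e : ∀ p, Cf p ≠ 0 → Real.log |c p.1 p.2 * (xs (φ n) : ℝ) ^ (p.1 : ℕ) *
        (ys (φ n) : ℝ) ^ (p.2 : ℕ) / wt d c (xs (φ n)) (ys (φ n))| = Real.log |c p.1 p.2| +
        (p.1 : ℕ) * Real.log (xs (φ n)) + (p.2 : ℕ) * Real.log (ys (φ n)) -
        Real.log (wt d c (xs (φ n)) (ys (φ n))) := by
      intro p hp
      have hc0 : |c p.1 p.2| ≠ 0 := abs_ne_zero.2 (hcne p hp)
      have hx0 := (hxpos (φ n)).ne'
      have hy0 := (hypos (φ n)).ne'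
      rw [abs_div, abs_mul, abs_mul, abs_pow, abs_pow, abs_of_pos (hxpos _),
        abs_of_pos (hypos _), abs_of_pos (hW _), Real.log_div (by positivity) (hW _).ne',
        Real.log_mul (by positivity) (by positivity), Real.log_mul hc0 (by positivity),
        Real.log_pow, Real.log_pow]
    rw [e p hp, e p' hp']
    ring
  have hline : ∀ p p', Cf p ≠ 0 → Cf p' ≠ 0 →
      (((p.1 : ℕ) : ℝ) - ((p'.1 : ℕ) : ℝ)) + q * (((p.2 : ℕ) : ℝ) - ((p'.2 : ℕ) : ℝ)) = 0 := by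
    intro p p' hp hp'
    have h1 := (hlogdiff p p' hp hp').div_atTop hlogx
    have h2 : Tendsto (fun n => (((p.1 : ℕ) : ℝ) - ((p'.1 : ℕ) : ℝ)) +
        (Real.log (ys (φ n)) / Real.log (xs (φ n))) *
        (((p.2 : ℕ) : ℝ) - ((p'.2 : ℕ) : ℝ))) atTop
        (𝓝 ((((p.1 : ℕ) : ℝ) - ((p'.1 : ℕ) : ℝ)) +
          q * (((p.2 : ℕ) : ℝ) - ((p'.2 : ℕ) : ℝ)))) :=
      tendsto_const_nhds.add (hq.mul_const _)
    refine tendsto_nhds_unique h2 (h1.congr fun n => ?_)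
    have hlx : Real.log (xs (φ n)) ≠ 0 := (Real.log_pos (by linarith [hx4 (φ n)])).ne'
    field_simp
  -- `q < 1`
  have hqpos : 0 < q := hθ0.trans_le hqθ
  have hCne : ∃ p, Cf p ≠ 0 := by
    by_contra hall
    push Not at hall
    rw [Finset.sum_congr rfl fun p _ => by rw [hall p, abs_zero]] at hsum1
    simp at hsum1
  have hqlt : q < 1 := by
    rcases hq1.lt_or_eq with h | h
    · exact h
    · exfalso
      subst h
      obtain ⟨p, hp⟩ := hCne
      -- every other index equals `p`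
      have hother : ∀ p', p' ≠ p → Cf p' = 0 := by
        intro p' hne
        by_contra hp'
        have h1 := hline p p' hp hp'
        have h2 := hlogdiff p p' hp hp'
        have h3 : (((p.1 : ℕ) : ℝ) - ((p'.1 : ℕ) : ℝ)) =
            -(((p.2 : ℕ) : ℝ) - ((p'.2 : ℕ) : ℝ)) := by linarith
        have hne2 : (((p.2 : ℕ) : ℝ) - ((p'.2 : ℕ) : ℝ)) ≠ 0 := by
          intro h0
          apply hne
          have h4 : (p'.2 : ℕ) = p.2 := by
            have : ((p'.2 : ℕ) : ℝ) = ((p.2 : ℕ) : ℝ) := by linarith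
            exact_mod_cast this
          have h5 : (p'.1 : ℕ) = p.1 := by
            have : ((p'.1 : ℕ) : ℝ) = ((p.1 : ℕ) : ℝ) := by linarith
            exact_mod_cast this
          exact Prod.ext (Fin.ext h5) (Fin.ext h4)
        have h6 : Tendsto (fun n => Real.log ((ys (φ n) : ℝ) / xs (φ n))) atTop
            (𝓝 (((Real.log |Cf p| - Real.log |Cf p'|) -
              (Real.log |c p.1 p.2| - Real.log |c p'.1 p'.2|)) /
              (((p.2 : ℕ) : ℝ) - ((p'.2 : ℕ) : ℝ)))) := by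
          refine (h2.div_const _).congr fun n => ?_
          rw [Real.log_div (hypos _).ne' (hxpos _).ne', h3]
          field_simp
          ring
        have h7 : Tendsto (fun n => Real.log ((ys (φ n) : ℝ) / xs (φ n))) atTop atBot := by
          refine Real.tendsto_log_nhdsGT_zero.comp ?_
          rw [tendsto_nhdsWithin_iff]
          exact ⟨hr, Eventually.of_forall fun n => div_pos (hypos _) (hxpos _)⟩
        exact not_tendsto_nhds_of_tendsto_atBot h7 _ h6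
      rw [Finset.sum_eq_single p (fun p' _ hp' => hother p' hp')
        (fun h => absurd (mem_univ _) h)] at hzero'
      exact hp hzero'
  exact three_points hqpos hqlt (hθ.trans_le hqθ) Cf hCne
    (fun p hp => by
      by_contra hlt'
      push Not at hlt'
      exact hcne p hp (hD _ _ hlt')) hzero' hder hline

end Pool.Agent.Pack
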