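import Mathlib

/-!
# Real polynomials with rational or integral values
-/

set_option autoImplicit false

open Polynomial Finset

namespace Pool.Agent.Pack

/-- A real polynomial with rational values at large naturals has rational coefficients. -/
theorem rat_of_values (p : ℝ[X]) (n₀ : ℕ) (h : ∀ n : ℕ, n₀ ≤ n → ∃ r : ℚ, p.eval (n : ℝ) = r) :
    ∃ q : ℚ[X], q.map (algebraMap ℚ ℝ) = p := by
  classical
  choose! r hr using h
  let s : Finset ℕ := range (p.natDegree + 1)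
  let v : ℕ → ℚ := fun i => ((n₀ + i : ℕ) : ℚ)
  let q : ℚ[X] := Lagrange.interpolate s v fun i => r (n₀ + i)
  have hv : Set.InjOn v s := by
    intro i _ j _ hij
    have h1 : ((n₀ + i : ℕ) : ℚ) = ((n₀ + j : ℕ) : ℚ) := hij
    have h2 : n₀ + i = n₀ + j := by exact_mod_cast h1
    omega
  have hv' : Set.InjOn (fun i => ((v i : ℚ) : ℝ)) s := by
    intro i hi j hj hij
    have h1 : ((v i : ℚ) : ℝ) = ((v j : ℚ) : ℝ) := hij
    exact hv hi hj (by exact_mod_cast h1)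
  refine ⟨q, ?_⟩
  refine eq_of_degrees_lt_of_eval_index_eq (v := fun i => ((v i : ℚ) : ℝ)) s hv' ?_ ?_ ?_
  · rw [degree_map]
    exact Lagrange.degree_interpolate_lt _ hv
  · rw [card_range]
    exact degree_lt_natDegree_succ p
  · intro i hi
    have h1 : q.eval (v i) = r (n₀ + i) := Lagrange.eval_interpolate_at_node _ hv hi
    have h2 : (q.map (algebraMap ℚ ℝ)).eval ((v i : ℚ) : ℝ) = ((q.eval (v i) : ℚ) : ℝ) := by
      have := eval_map_algebraMap (B := ℝ) q ((v i : ℚ) : ℝ)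
      rw [this]
      exact (aeval_algebraMap_apply_eq_algebraMap_eval (v i) q)
    rw [h2, h1]
    have h3 : ((v i : ℚ) : ℝ) = ((n₀ + i : ℕ) : ℝ) := by simp [v]
    rw [h3]
    exact (hr (n₀ + i) (by omega)).symm
where
  degree_lt_natDegree_succ (p : ℝ[X]) : p.degree < ((p.natDegree + 1 : ℕ) : WithBot ℕ) :=
    (degree_le_natDegree).trans_lt (by exact_mod_cast Nat.lt_succ_self _)

/-- The `D!`-multiple of the coefficient of degree `D` of an integer valued polynomial of degree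
at most `D` is an integer. -/
theorem lead_int (p : ℝ[X]) (n₀ : ℕ) (h : ∀ n : ℕ, n₀ ≤ n → ∃ m : ℤ, p.eval (n : ℝ) = m) (D : ℕ)
    (hD : p.natDegree ≤ D) : ∃ m : ℤ, (D.factorial : ℝ) * p.coeff D = m := by
  rcases hD.lt_or_eq with hlt | heq
  · exact ⟨0, by rw [coeff_eq_zero_of_natDegree_lt hlt]; simp⟩
  · subst heq
    choose! r hr using h
    have h1 := congrFun (Polynomial.fwdDiff_iter_degree_eq_factorial p) (n₀ : ℝ)
    rw [fwdDiff_iter_eq_sum_shift] at h1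
    refine ⟨∑ k ∈ range (p.natDegree + 1),
      ((-1 : ℤ) ^ (p.natDegree - k) * p.natDegree.choose k) * r (n₀ + k), ?_⟩
    have h2 : ∀ k ∈ range (p.natDegree + 1),
        ((-1 : ℤ) ^ (p.natDegree - k) * p.natDegree.choose k) • p.eval ((n₀ : ℝ) + k • (1 : ℝ)) =
        (((((-1 : ℤ) ^ (p.natDegree - k) * p.natDegree.choose k) * r (n₀ + k)) : ℤ) : ℝ) := by
      intro k _
      have h3 : (n₀ : ℝ) + k • (1 : ℝ) = ((n₀ + k : ℕ) : ℝ) := by simp
      rw [h3, hr (n₀ + k) (by omega), zsmul_eq_mul]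
      push_cast
      ring
    rw [Finset.sum_congr rfl h2] at h1
    rw [Int.cast_sum, h1]
    simp only [Pi.smul_apply, Pi.natCast_apply, smul_eq_mul, leadingCoeff]
    ring

theorem abs_lead_ge (p : ℝ[X]) (n₀ : ℕ) (h : ∀ n : ℕ, n₀ ≤ n → ∃ m : ℤ, p.eval (n : ℝ) = m)
    (D : ℕ) (hD : p.natDegree ≤ D) (h0 : p.coeff D ≠ 0) : 1 ≤ (D.factorial : ℝ) * |p.coeff D| := by
  obtain ⟨m, hm⟩ := lead_int p n₀ h D hD
  have hf : (0 : ℝ) < D.factorial := by exact_mod_cast D.factorial_pos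
  have h1 : (D.factorial : ℝ) * |p.coeff D| = |(m : ℝ)| := by
    rw [← hm, abs_mul, abs_of_pos hf]
  rw [h1]
  have hm0 : m ≠ 0 := by
    rintro rfl
    rw [Int.cast_zero] at hm
    exact (mul_ne_zero hf.ne' h0) hm
  exact_mod_cast Int.one_le_abs hm0

/-- Rational coefficients give integral ones after multiplication by a positive integer. -/
theorem exists_int_multiple (q : ℚ[X]) : ∃ N : ℕ, 0 < N ∧ ∃ r : ℤ[X],
    r.map (Int.castRingHom ℝ) = C (N : ℝ) * q.map (algebraMap ℚ ℝ) := by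
  obtain ⟨b, hbm, hb⟩ := IsLocalization.integerNormalization_spec (nonZeroDivisors ℤ) q
  have hb0 : (b : ℤ) ≠ 0 := nonZeroDivisors.ne_zero hbm
  have h1 : (IsLocalization.integerNormalization (nonZeroDivisors ℤ) q).map
      (Int.castRingHom ℝ) = C ((b : ℤ) : ℝ) * q.map (algebraMap ℚ ℝ) := by
    have h2 := congrArg (Polynomial.map (algebraMap ℚ ℝ)) hb
    rw [Polynomial.map_map] at h2
    have h3 : (algebraMap ℚ ℝ).comp (algebraMap ℤ ℚ) = Int.castRingHom ℝ := RingHom.ext_int _ _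
    rw [h3] at h2
    rw [h2]
    ext n
    simp
  rcases le_or_gt 0 (b : ℤ) with hpos | hneg
  · refine ⟨(b : ℤ).natAbs, Int.natAbs_pos.2 hb0,
      IsLocalization.integerNormalization (nonZeroDivisors ℤ) q, ?_⟩
    rw [h1]
    congr 2
    have : (((b : ℤ).natAbs : ℤ) : ℝ) = ((b : ℤ) : ℝ) := by
      rw [Int.natAbs_of_nonneg hpos]
    rw [← this]; simp
  · refine ⟨(b : ℤ).natAbs, Int.natAbs_pos.2 hb0,
      -(IsLocalization.integerNormalization (nonZeroDivisors ℤ) q), ?_⟩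
    rw [Polynomial.map_neg, h1]
    have : (((b : ℤ).natAbs : ℤ) : ℝ) = -((b : ℤ) : ℝ) := by
      rw [Int.ofNat_natAbs_of_nonpos hneg.le]; simp
    have h4 : (((b : ℤ).natAbs : ℕ) : ℝ) = -((b : ℤ) : ℝ) := by
      rw [← this]; simp
    rw [h4, C_neg, neg_mul]

/-- Values of a polynomial with rational coefficients are periodic modulo every integer, up to
integers. -/
theorem periodic_mod (q : ℚ[X]) (A : ℕ) (hA : 0 < A) : ∃ R : ℕ, 0 < R ∧ ∀ j : ℕ, ∀ l : ℕ, ∃ k : ℤ,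
    (q.map (algebraMap ℚ ℝ)).eval ((j : ℝ) + l * R) -
      (q.map (algebraMap ℚ ℝ)).eval (j : ℝ) = A * k := by
  obtain ⟨N, hN, r, hr⟩ := exists_int_multiple q
  refine ⟨N * A, Nat.mul_pos hN hA, fun j l => ?_⟩
  obtain ⟨k, hk⟩ := r.sub_dvd_eval_sub ((j : ℤ) + l * (N * A)) (j : ℤ)
  refine ⟨l * k, ?_⟩
  have hNR : (N : ℝ) ≠ 0 := by exact_mod_cast hN.ne'
  have e : ∀ x : ℤ, (N : ℝ) * (q.map (algebraMap ℚ ℝ)).eval (x : ℝ) = ((r.eval x : ℤ) : ℝ) := by
    intro x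
    have h1 := congrArg (fun p : ℝ[X] => p.eval (x : ℝ)) hr
    simp only [eval_mul, eval_C] at h1
    rw [← h1]
    rw [eval_intCast_map]
    rfl
  have e1 := e ((j : ℤ) + l * (N * A))
  have e2 := e (j : ℤ)
  have e3 : ((r.eval ((j : ℤ) + l * (N * A)) - r.eval (j : ℤ) : ℤ) : ℝ) =
      (((j : ℤ) + l * (N * A) - j) * k : ℤ) := by rw [hk]
  push_cast at e1 e2 e3 ⊢
  have e4 : (N : ℝ) * ((q.map (algebraMap ℚ ℝ)).eval ((j : ℝ) + l * (N * A)) -
      (q.map (algebraMap ℚ ℝ)).eval (j : ℝ)) = N * (A * (l * k)) := by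
    rw [mul_sub, e1, e2]
    linarith
  exact mul_left_cancel₀ hNR e4

end Pool.Agent.Pack
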