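import Pool.Agent.Pack.Sub
import Pool.Agent.Pack.Arr
import Pool.Agent.Pack.Rat
import Pool.Agent.Pack.Count

/-!
# Counting on lines
-/

set_option autoImplicit false

open Polynomial Finset Filter Topology

namespace Pool.Agent.Pack

theorem iterate_derivative_of_natDegree_le (p : ℝ[X]) (k : ℕ) (hk : p.natDegree ≤ k) :
    derivative^[k] p = C ((k.factorial : ℝ) * p.coeff k) := by
  ext m
  rw [coeff_iterate_derivative, coeff_C]
  split_ifs with h
  · subst h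
    rw [zero_add, Nat.descFactorial_self, nsmul_eq_mul]
  · rw [coeff_eq_zero_of_natDegree_lt (by omega)]
    simp

/-- Counting integers with `|p| ≤ T` by the leading coefficient. -/
theorem line_card_le (p : ℝ[X]) (k : ℕ) (hk0 : 0 < k) (hk : p.natDegree ≤ k) (lam T : ℝ)
    (hlam0 : 0 < lam) (hT : 0 ≤ T) (hlam : lam ≤ (k.factorial : ℝ) * |p.coeff k|)
    (S : Finset ℤ) (hS : ∀ s ∈ S, |p.eval (s : ℝ)| ≤ T) :
    (S.card : ℝ) ≤ 2 ^ k * (1 + (2 ^ k * T / lam) ^ ((1 : ℝ) / k)) := by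
  refine card_sublevel k hk0 p Set.univ Set.ordConnected_univ lam T hlam0 hT ?_ S
    (fun s hs => ⟨Set.mem_univ _, hS s hs⟩)
  intro ξ _
  rw [iterate_derivative_of_natDegree_le p k hk, eval_C, abs_mul, Nat.abs_cast]
  exact hlam

/-- Lines on which the degree is at least two. -/
theorem line_card_le_sqrt (p : ℝ[X]) (d : ℕ) (n₀ : ℕ)
    (hint : ∀ n : ℕ, n₀ ≤ n → ∃ m : ℤ, p.eval (n : ℝ) = m)
    (h2 : 2 ≤ p.natDegree) (hd : p.natDegree ≤ d) (T : ℝ) (hT : 1 ≤ T)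
    (S : Finset ℤ) (hS : ∀ s ∈ S, |p.eval (s : ℝ)| ≤ T) :
    (S.card : ℝ) ≤ 2 ^ d * (1 + (2 ^ d * T) ^ ((1 : ℝ) / 2)) := by
  have hp0 : p ≠ 0 := by
    rintro rfl
    simp at h2
  have h1 : 1 ≤ (p.natDegree.factorial : ℝ) * |p.coeff p.natDegree| :=
    abs_lead_ge p n₀ hint _ le_rfl (by simpa using leadingCoeff_ne_zero.2 hp0)
  have h3 := line_card_le p p.natDegree (by omega) le_rfl 1 T one_pos (by linarith) h1 S hS
  refine h3.trans ?_
  rw [div_one]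
  have h4 : (2 : ℝ) ^ p.natDegree ≤ 2 ^ d := pow_le_pow_right₀ (by norm_num) hd
  have h5 : (1 : ℝ) ≤ 2 ^ p.natDegree := one_le_pow₀ (by norm_num)
  have h6 : ((2 : ℝ) ^ p.natDegree * T) ^ ((1 : ℝ) / p.natDegree) ≤ (2 ^ d * T) ^ ((1 : ℝ) / 2) := by
    have h7 : (1 : ℝ) ≤ 2 ^ p.natDegree * T := by nlinarith
    calc ((2 : ℝ) ^ p.natDegree * T) ^ ((1 : ℝ) / p.natDegree)
        ≤ ((2 : ℝ) ^ p.natDegree * T) ^ ((1 : ℝ) / 2) := by
          refine Real.rpow_le_rpow_of_exponent_le h7 ?_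
          refine one_div_le_one_div_of_le (by norm_num) ?_
          exact_mod_cast h2
      _ ≤ (2 ^ d * T) ^ ((1 : ℝ) / 2) := by
          refine Real.rpow_le_rpow (by positivity) ?_ (by norm_num)
          exact mul_le_mul_of_nonneg_right h4 (by linarith)
  have h8 : (0 : ℝ) ≤ (2 ^ d * T) ^ ((1 : ℝ) / 2) := by positivity
  have h9 : (0 : ℝ) ≤ ((2 : ℝ) ^ p.natDegree * T) ^ ((1 : ℝ) / p.natDegree) := by positivity
  calc (2 : ℝ) ^ p.natDegree * (1 + ((2 : ℝ) ^ p.natDegree * T) ^ ((1 : ℝ) / p.natDegree))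
      ≤ 2 ^ d * (1 + ((2 : ℝ) ^ p.natDegree * T) ^ ((1 : ℝ) / p.natDegree)) :=
        mul_le_mul_of_nonneg_right h4 (by linarith)
    _ ≤ 2 ^ d * (1 + (2 ^ d * T) ^ ((1 : ℝ) / 2)) :=
        mul_le_mul_of_nonneg_left (by linarith) (by positivity)

/-- The half cone `0 ≤ y ≤ η x`. -/
def HC (η : ℝ) : Set (ℤ × ℤ) := {v | 0 < v.1 ∧ 0 ≤ v.2 ∧ (v.2 : ℝ) ≤ η * v.1}

theorem HC_mono {η η' : ℝ} (h : η' ≤ η) : HC η' ⊆ HC η := by
  rintro v ⟨h1, h2, h3⟩
  refine ⟨h1, h2, h3.trans ?_⟩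
  have : (0 : ℝ) < v.1 := by exact_mod_cast h1
  nlinarith

/-- Points of the line `y = j` far to the right lie in the half cone. -/
theorem mem_HC {η : ℝ} (hη : 0 < η) {x y : ℤ} (hy : 0 ≤ y) (hx : 0 < x)
    (h : (y : ℝ) / η ≤ x) : (x, y) ∈ HC η := by
  refine ⟨hx, hy, ?_⟩
  rw [div_le_iff₀ hη] at h
  simp only
  linarith

/-- The local situation at a rational direction. -/
structure Loc (d : ℕ) (c : ℕ → ℕ → ℝ) (η : ℝ) : Prop where
  hc : ∀ i j, d < i + j → c i j = 0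
  hd : 3 ≤ d
  hη : 0 < η
  hη1 : η ≤ 1
  int : ∀ v ∈ HC η, ∃ m : ℕ, ev d c v.1 v.2 = m
  inj : ∀ v ∈ HC η, ∀ w ∈ HC η, ev d c v.1 v.2 = ev d c w.1 w.2 → v = w
  top0 : (top d c).eval 0 = 0
  topne : ∀ t, 0 < t → t ≤ η → (top d c).eval t ≠ 0

namespace Loc

variable {d : ℕ} {c : ℕ → ℕ → ℝ} {η : ℝ}

theorem mono (h : Loc d c η) {η' : ℝ} (h0 : 0 < η') (h1 : η' ≤ η) : Loc d c η' where
  hc := h.hc
  hd := h.hd
  hη := h0
  hη1 := h1.trans h.hη1
  int v hv := h.int v (HC_mono h1 hv)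
  inj v hv w hw := h.inj v (HC_mono h1 hv) w (HC_mono h1 hw)
  top0 := h.top0
  topne t ht ht' := h.topne t ht (ht'.trans h1)

theorem nonneg (h : Loc d c η) {v : ℤ × ℤ} (hv : v ∈ HC η) : 0 ≤ ev d c v.1 v.2 := by
  obtain ⟨m, hm⟩ := h.int v hv
  rw [hm]; positivity

/-- On horizontal lines the values at large naturals are integers. -/
theorem hor_int (h : Loc d c η) (y : ℕ) : ∀ n : ℕ, ⌈(y : ℝ) / η⌉₊ + 1 ≤ n →
    ∃ m : ℤ, (hor d c (y : ℝ)).eval (n : ℝ) = m := by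
  intro n hn
  have h1 : (y : ℝ) / η ≤ n := (Nat.le_ceil _).trans (by exact_mod_cast (by omega))
  have h2 : (((n : ℤ), (y : ℤ)) : ℤ × ℤ) ∈ HC η :=
    mem_HC h.hη (by positivity) (by exact_mod_cast (by omega : 0 < n)) (by exact_mod_cast h1)
  obtain ⟨m, hm⟩ := h.int _ h2
  refine ⟨m, ?_⟩
  rw [hor_eval]
  simpa using hm

/-- The rows have rational coefficients. -/
theorem row_rat (h : Loc d c η) (i : ℕ) (hi : i ≤ d) :
    ∃ q : ℚ[X], q.map (algebraMap ℚ ℝ) = row d c i := by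
  refine rat_of_values _ 0 fun y _ => ?_
  obtain ⟨q, hq⟩ := rat_of_values (hor d c (y : ℝ)) (⌈(y : ℝ) / η⌉₊ + 1) (fun n hn => by
    obtain ⟨m, hm⟩ := h.hor_int y n hn
    exact ⟨m, by rw [hm]; simp⟩)
  refine ⟨q.coeff i, ?_⟩
  have h1 := congrArg (fun p : ℝ[X] => p.coeff i) hq
  simp only [coeff_map, hor_coeff, if_pos hi] at h1
  rw [← h1]
  rfl

/-- Horizontal lines: the restriction is not constant. -/
theorem hor_natDegree_pos (h : Loc d c η) (y : ℕ) : 0 < (hor d c (y : ℝ)).natDegree := by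
  by_contra hcon
  push Not at hcon
  have h0 : (hor d c (y : ℝ)).natDegree = 0 := by omega
  obtain ⟨a, ha⟩ := natDegree_eq_zero.1 h0
  set N : ℕ := ⌈(y : ℝ) / η⌉₊ + 1 with hN
  have h1 : ∀ n : ℕ, N ≤ n → (((n : ℤ), (y : ℤ)) : ℤ × ℤ) ∈ HC η := by
    intro n hn
    have h1 : (y : ℝ) / η ≤ n := (Nat.le_ceil _).trans (by exact_mod_cast (by omega))
    exact mem_HC h.hη (by positivity) (by exact_mod_cast (by omega : 0 < n)) (by exact_mod_cast h1)
  have h2 := h.inj _ (h1 N le_rfl) _ (h1 (N + 1) (by omega)) (by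
    simp only [Int.cast_natCast]
    rw [← hor_eval, ← hor_eval, ← ha, eval_C, eval_C])
  have h3 := congrArg Prod.fst h2
  simp only at h3
  omega

/-- There is a largest power of `x`. -/
theorem exists_D (h : Loc d c η) : ∃ D ≤ d, (∃ j, c D j ≠ 0) ∧ ∀ i j, D < i → c i j = 0 := by
  classical
  have hne : ∃ i, i ≤ d ∧ ∃ j, c i j ≠ 0 := by
    by_contra hcon
    push Not at hcon
    apply h.topne η h.hη le_rfl
    rw [top_eval]
    exact Finset.sum_eq_zero fun j _ => by rw [hcon (d - j) (by omega) j, zero_mul]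
  let S : Finset ℕ := (range (d + 1)).filter fun i => ∃ j, c i j ≠ 0
  have hS : S.Nonempty := by
    obtain ⟨i, hi, hj⟩ := hne
    exact ⟨i, by simp only [S, Finset.mem_filter, Finset.mem_range]; exact ⟨by omega, hj⟩⟩
  have hSm : ∀ i ∈ S, i ≤ d ∧ ∃ j, c i j ≠ 0 := by
    intro i hi
    simp only [S, Finset.mem_filter, Finset.mem_range] at hi
    exact ⟨by omega, hi.2⟩
  refine ⟨S.max' hS, (hSm _ (S.max'_mem hS)).1, (hSm _ (S.max'_mem hS)).2, ?_⟩
  · intro i j hij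
    by_contra hne
    have hid : i ≤ d := by
      by_contra hlt
      exact hne (h.hc i j (by omega))
    have : i ∈ S := by
      simp only [S, Finset.mem_filter, Finset.mem_range]
      exact ⟨by omega, j, hne⟩
    exact absurd (S.le_max' i this) (by omega)

end Loc

/-- Powers with exponent less than one are negligible. -/
theorem rpow_small (K a : ℝ) (ha : a < 1) (ε : ℝ) (hε : 0 < ε) :
    ∀ᶠ n : ℕ in atTop, K * (n : ℝ) ^ a ≤ ε * n := by
  have h1 : Tendsto (fun x : ℝ => x ^ (-(1 - a))) atTop (𝓝 0) :=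
    tendsto_rpow_neg_atTop (by linarith)
  have h2 : Tendsto (fun n : ℕ => K * (n : ℝ) ^ (-(1 - a))) atTop (𝓝 (K * 0)) :=
    (h1.comp tendsto_natCast_atTop_atTop).const_mul K
  rw [mul_zero] at h2
  filter_upwards [h2.eventually (gt_mem_nhds hε), eventually_gt_atTop 0] with n hn hn0
  have hn1 : (0 : ℝ) < n := by exact_mod_cast hn0
  have h3 : (n : ℝ) ^ a = (n : ℝ) ^ (-(1 - a)) * n := by
    nth_rewrite 3 [← Real.rpow_one (n : ℝ)]
    rw [← Real.rpow_add hn1]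
    congr 1; ring
  rw [h3, ← mul_assoc]
  exact mul_le_mul_of_nonneg_right hn.le hn1.le

end Pool.Agent.Pack
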