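import Pool.Agent.Pack.Dir

/-!
# Polynomial functions of two variables of bounded degree
-/

set_option autoImplicit false

open Polynomial Finset Filter Topology

namespace Pool.Agent.Pack

/-- `F` is a polynomial function of degree at most `d`. -/
def IsP (d : ℕ) (F : ℝ → ℝ → ℝ) : Prop :=
  ∃ c : ℕ → ℕ → ℝ, (∀ i j, d < i + j → c i j = 0) ∧ ∀ x y, ev d c x y = F x y

namespace IsP

variable {d : ℕ} {F G : ℝ → ℝ → ℝ}

theorem zero (d : ℕ) : IsP d (fun _ _ => 0) :=
  ⟨fun _ _ => 0, fun _ _ _ => rfl, fun x y => by simp [ev]⟩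

theorem one : IsP 0 (fun _ _ => 1) :=
  ⟨fun i j => if i = 0 ∧ j = 0 then 1 else 0, fun i j hij => by
    show (if i = 0 ∧ j = 0 then (1 : ℝ) else 0) = 0
    rw [if_neg]; omega, fun x y => by simp [ev]⟩

theorem add (hF : IsP d F) (hG : IsP d G) : IsP d (fun x y => F x y + G x y) := by
  obtain ⟨c, hc, hce⟩ := hF
  obtain ⟨e, he, hee⟩ := hG
  refine ⟨fun i j => c i j + e i j, fun i j hij => by
    show c i j + e i j = 0
    rw [hc i j hij, he i j hij, add_zero], ?_⟩
  intro x y
  show _ = F x y + G x y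
  rw [← hce, ← hee, ev, ev, ev, ← Finset.sum_add_distrib]
  refine Finset.sum_congr rfl fun i _ => ?_
  rw [← Finset.sum_add_distrib]
  exact Finset.sum_congr rfl fun j _ => by ring

theorem smul (a : ℝ) (hF : IsP d F) : IsP d (fun x y => a * F x y) := by
  obtain ⟨c, hc, hce⟩ := hF
  refine ⟨fun i j => a * c i j, fun i j hij => by
    show a * c i j = 0
    rw [hc i j hij, mul_zero], ?_⟩
  intro x y
  show _ = a * F x y
  rw [← hce, ev, ev, Finset.mul_sum]
  refine Finset.sum_congr rfl fun i _ => ?_
  rw [Finset.mul_sum]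
  exact Finset.sum_congr rfl fun j _ => by ring

theorem mono {R : ℕ} (h : d ≤ R) (hF : IsP d F) : IsP R F := by
  obtain ⟨c, hc, hce⟩ := hF
  exact ⟨c, fun i j hij => hc i j (by omega), fun x y => by rw [ev_of_vanish h hc, hce]⟩

theorem mul_x (hF : IsP d F) : IsP (d + 1) (fun x y => x * F x y) := by
  obtain ⟨c, hc, hce⟩ := hF
  refine ⟨fun i j => if i = 0 then 0 else c (i - 1) j, fun i j hij => ?_, fun x y => ?_⟩
  · show (if i = 0 then 0 else c (i - 1) j) = 0
    rcases Nat.eq_zero_or_pos i with h | h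
    · rw [if_pos h]
    · rw [if_neg h.ne', hc _ _ (by omega)]
  · show _ = x * F x y
    rw [← hce, ev, ev, Finset.sum_range_succ']
    simp only [if_true, zero_mul, Finset.sum_const_zero, add_zero, Nat.add_sub_cancel,
      Nat.succ_ne_zero, if_false]
    rw [Finset.mul_sum]
    refine Finset.sum_congr rfl fun i _ => ?_
    rw [Finset.sum_range_succ, hc i (d + 1) (by omega), zero_mul, zero_mul, add_zero,
      Finset.mul_sum]
    exact Finset.sum_congr rfl fun j _ => by rw [pow_succ]; ring

theorem mul_y (hF : IsP d F) : IsP (d + 1) (fun x y => y * F x y) := by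
  obtain ⟨c, hc, hce⟩ := hF
  refine ⟨fun i j => if j = 0 then 0 else c i (j - 1), fun i j hij => ?_, fun x y => ?_⟩
  · show (if j = 0 then 0 else c i (j - 1)) = 0
    rcases Nat.eq_zero_or_pos j with h | h
    · rw [if_pos h]
    · rw [if_neg h.ne', hc _ _ (by omega)]
  · show _ = y * F x y
    rw [← hce, ev, ev, Finset.sum_range_succ]
    have h0 : ∑ j ∈ range (d + 1 + 1), (if j = 0 then 0 else c (d + 1) (j - 1)) * x ^ (d + 1) *
        y ^ j = 0 := by
      refine Finset.sum_eq_zero fun j _ => ?_
      split_ifs with h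
      · ring
      · rw [hc _ _ (by omega)]; ring
    rw [h0, add_zero, Finset.mul_sum]
    refine Finset.sum_congr rfl fun i _ => ?_
    rw [Finset.sum_range_succ']
    simp only [if_true, zero_mul, add_zero, Nat.add_sub_cancel, Nat.succ_ne_zero, if_false]
    rw [Finset.mul_sum]
    exact Finset.sum_congr rfl fun j _ => by rw [pow_succ]; ring

theorem congr (hF : IsP d F) (h : ∀ x y, F x y = G x y) : IsP d G := by
  have : F = G := funext fun x => funext fun y => h x y
  rwa [← this]

theorem mul_lin (p q : ℝ) (hF : IsP d F) : IsP (d + 1) (fun x y => (p * x + q * y) * F x y) :=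
  ((hF.mul_x.smul p).add (hF.mul_y.smul q)).congr fun x y => by ring

theorem pow_lin (p q : ℝ) (i : ℕ) (hF : IsP d F) :
    IsP (d + i) (fun x y => (p * x + q * y) ^ i * F x y) := by
  induction i with
  | zero => exact hF.congr fun x y => by simp
  | succ i ih =>
    exact (ih.mul_lin p q).congr fun x y => by rw [pow_succ]; ring

theorem sum {ι : Type*} (s : Finset ι) (H : ι → ℝ → ℝ → ℝ) (h : ∀ i ∈ s, IsP d (H i)) :
    IsP d (fun x y => ∑ i ∈ s, H i x y) := by
  classical
  induction s using Finset.induction_on with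
  | empty => exact (zero d).congr fun x y => by simp
  | insert a s ha ih =>
    refine ((h a (Finset.mem_insert_self a s)).add
      (ih fun i hi => h i (Finset.mem_insert_of_mem hi))).congr fun x y => ?_
    rw [Finset.sum_insert ha]

/-- Linear substitutions in polynomials of total degree at most `d`. -/
theorem of_mvPolynomial (f : MvPolynomial (Fin 2) ℝ) (hf : f.totalDegree ≤ d) (p q r s : ℝ) :
    IsP d (fun x y => MvPolynomial.eval ![p * x + q * y, r * x + s * y] f) := by
  have h1 : ∀ x y : ℝ, MvPolynomial.eval ![p * x + q * y, r * x + s * y] f =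
      ∑ m ∈ f.support, f.coeff m * ((p * x + q * y) ^ (m 0) * (r * x + s * y) ^ (m 1)) := by
    intro x y
    rw [MvPolynomial.eval_eq']
    refine Finset.sum_congr rfl fun m _ => ?_
    rw [Fin.prod_univ_two]
    simp
  refine IsP.congr ?_ fun x y => (h1 x y).symm
  refine IsP.sum _ _ fun m hm => ?_
  have h2 : m 0 + m 1 ≤ d := by
    have h3 := MvPolynomial.le_totalDegree hm
    have h4 : (m.sum fun _ e => e) = m 0 + m 1 := by
      rw [Finsupp.sum_fintype _ _ (fun _ => rfl), Fin.sum_univ_two]
    omega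
  refine IsP.smul _ ?_
  have h5 := ((IsP.one).pow_lin r s (m 1)).pow_lin p q (m 0)
  exact (h5.mono (by omega)).congr fun x y => by ring

/-- A linear substitution in a polynomial function. -/
theorem subst (hF : IsP d F) (p q r s : ℝ) :
    IsP d (fun x y => F (p * x + q * y) (r * x + s * y)) := by
  obtain ⟨c, hc, hce⟩ := hF
  have h1 : ∀ x y : ℝ, F (p * x + q * y) (r * x + s * y) =
      ∑ m ∈ range (d + 1) ×ˢ range (d + 1),
        c m.1 m.2 * ((p * x + q * y) ^ m.1 * (r * x + s * y) ^ m.2) := by
    intro x y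
    rw [← hce, ev, Finset.sum_product]
    exact Finset.sum_congr rfl fun i _ => Finset.sum_congr rfl fun j _ => by ring
  refine IsP.congr ?_ fun x y => (h1 x y).symm
  refine IsP.sum _ _ fun m hm => ?_
  by_cases h2 : m.1 + m.2 ≤ d
  · refine IsP.smul _ ?_
    have h5 := ((IsP.one).pow_lin r s m.2).pow_lin p q m.1
    exact (h5.mono (by omega)).congr fun x y => by ring
  · rw [hc _ _ (by omega)]
    exact (zero d).congr fun x y => by ring

/-- If the top form vanishes, the degree is smaller. -/
theorem of_top_eq_zero {c : ℕ → ℕ → ℝ} (hd : 1 ≤ d) (hc : ∀ i j, d < i + j → c i j = 0)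
    (htop : top d c = 0) : IsP (d - 1) (fun x y => ev d c x y) := by
  have hv : ∀ i j, d - 1 < i + j → c i j = 0 := by
    intro i j hij
    by_cases h : d < i + j
    · exact hc i j h
    · have h1 := top_coeff d c j
      rw [htop, coeff_zero, if_pos (by omega)] at h1
      have h2 : d - j = i := by omega
      rw [h2] at h1
      exact h1.symm
  exact ⟨c, hv, fun x y => (ev_of_vanish (by omega) hv x y).symm⟩

end IsP

/-- A polynomial whose evaluation has degree at most `d` has total degree at most `d`. -/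
theorem totalDegree_le_of_isP (f : MvPolynomial (Fin 2) ℝ) {d : ℕ}
    (h : IsP d fun x y => MvPolynomial.eval ![x, y] f) : f.totalDegree ≤ d := by
  obtain ⟨c, hc, hce⟩ := h
  have h1 : f = ∑ i ∈ range (d + 1), ∑ j ∈ range (d + 1),
      MvPolynomial.C (c i j) * (MvPolynomial.X 0) ^ i * (MvPolynomial.X 1) ^ j := by
    refine MvPolynomial.funext fun v => ?_
    have hv : v = ![v 0, v 1] := by
      ext i; fin_cases i <;> rfl
    have h2 : ev d c (v 0) (v 1) = MvPolynomial.eval ![v 0, v 1] f := hce (v 0) (v 1)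
    rw [← hv] at h2
    rw [← h2, ev, map_sum]
    refine Finset.sum_congr rfl fun i _ => ?_
    rw [map_sum]
    refine Finset.sum_congr rfl fun j _ => ?_
    simp
  rw [h1]
  refine MvPolynomial.totalDegree_finsetSum_le fun i _ => ?_
  refine MvPolynomial.totalDegree_finsetSum_le fun j _ => ?_
  by_cases hij : i + j ≤ d
  · have h2 := MvPolynomial.totalDegree_mul
      (MvPolynomial.C (σ := Fin 2) (c i j) * (MvPolynomial.X 0) ^ i) ((MvPolynomial.X 1) ^ j)
    have h3 := MvPolynomial.totalDegree_mul
      (MvPolynomial.C (σ := Fin 2) (c i j)) ((MvPolynomial.X 0) ^ i)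
    have h4 : ((MvPolynomial.X 0 : MvPolynomial (Fin 2) ℝ) ^ i).totalDegree ≤ i := by
      simp [MvPolynomial.totalDegree_X_pow]
    have h5 : ((MvPolynomial.X 1 : MvPolynomial (Fin 2) ℝ) ^ j).totalDegree ≤ j := by
      simp [MvPolynomial.totalDegree_X_pow]
    have h6 : (MvPolynomial.C (σ := Fin 2) (c i j)).totalDegree = 0 :=
      MvPolynomial.totalDegree_C _
    omega
  · rw [hc i j (by omega)]
    simp

/-- The top form as a limit. -/
theorem top_limit {d : ℕ} (hd : 1 ≤ d) {c : ℕ → ℕ → ℝ} (hc : ∀ i j, d < i + j → c i j = 0)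
    (t : ℝ) : Tendsto (fun x : ℝ => ev d c x (t * x) / x ^ d) atTop (𝓝 ((top d c).eval t)) := by
  obtain ⟨K, hK, hKb⟩ := ev_sub_top_le hd hc |t|
  rw [tendsto_iff_norm_sub_tendsto_zero]
  have h1 : Tendsto (fun x : ℝ => K / x) atTop (𝓝 0) := tendsto_const_nhds.div_atTop tendsto_id
  refine squeeze_zero' (Eventually.of_forall fun x => norm_nonneg _) ?_ h1
  filter_upwards [eventually_ge_atTop (1 : ℝ)] with x hx
  have hx0 : 0 < x := by linarith
  have h2 := hKb x t hx le_rfl
  have h3 : ev d c x (t * x) / x ^ d - (top d c).eval t =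
      (ev d c x (t * x) - x ^ d * (top d c).eval t) / x ^ d := by
    field_simp
  rw [Real.norm_eq_abs, h3, abs_div, abs_of_pos (by positivity : 0 < x ^ d),
    div_le_div_iff₀ (by positivity) hx0]
  have h4 : x ^ d = x ^ (d - 1) * x := by rw [← pow_succ]; congr 1; omega
  have h5 := mul_le_mul_of_nonneg_right h2 hx0.le
  rwa [mul_assoc, ← h4] at h5

/-- The top form after a linear substitution. -/
theorem top_subst {d : ℕ} (hd : 1 ≤ d) {c c' : ℕ → ℕ → ℝ} (hc : ∀ i j, d < i + j → c i j = 0)
    (hc' : ∀ i j, d < i + j → c' i j = 0) (p q r s : ℝ)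
    (h : ∀ x y, ev d c' x y = ev d c (p * x + q * y) (r * x + s * y)) {t : ℝ} (ht : 0 < p + q * t) :
    (top d c').eval t = (p + q * t) ^ d * (top d c).eval ((r + s * t) / (p + q * t)) := by
  have h1 := top_limit hd hc' t
  have h2 := top_limit hd hc ((r + s * t) / (p + q * t))
  have h3 : Tendsto (fun x : ℝ => (p + q * t) * x) atTop atTop := tendsto_id.const_mul_atTop ht
  have h4 := (h2.comp h3).const_mul ((p + q * t) ^ d)
  refine tendsto_nhds_unique h1 (h4.congr' ?_)
  filter_upwards [eventually_gt_atTop (0 : ℝ)] with x hx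
  simp only [Function.comp_apply]
  rw [h]
  have e1 : p * x + q * (t * x) = (p + q * t) * x := by ring
  have e2 : r * x + s * (t * x) = (r + s * t) / (p + q * t) * ((p + q * t) * x) := by
    have e3 : (r + s * t) / (p + q * t) * ((p + q * t) * x) =
        ((r + s * t) / (p + q * t) * (p + q * t)) * x := by ring
    rw [e3, div_mul_cancel₀ _ ht.ne']; ring
  rw [e1, ← e2, mul_pow]
  field_simp

end Pool.Agent.Pack
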