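import Pool.Agent.Pack.RatRay

/-!
# Rational directions: the generic case
-/

set_option autoImplicit false

open Polynomial Finset Filter Topology

namespace Pool.Agent.Pack

theorem sum_inv_sqrt_le (Y : ℕ) :
    ∑ y ∈ range (Y + 1), (1 : ℝ) / Real.sqrt ((y : ℝ) + 1) ≤ 2 * Real.sqrt ((Y : ℝ) + 1) := by
  induction Y with
  | zero => simp
  | succ Y ih =>
    rw [Finset.sum_range_succ]
    refine (add_le_add_left ih _).trans ?_
    have h1 : (0 : ℝ) < (Y : ℝ) + 1 := by positivity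
    have h2 : (0 : ℝ) < (Y : ℝ) + 1 + 1 := by positivity
    push_cast
    set a := Real.sqrt ((Y : ℝ) + 1) with ha
    set b := Real.sqrt ((Y : ℝ) + 1 + 1) with hb
    have hb0 : 0 < b := Real.sqrt_pos.2 h2
    have ha0 : 0 < a := Real.sqrt_pos.2 h1
    have ha2 : a ^ 2 = (Y : ℝ) + 1 := Real.sq_sqrt h1.le
    have hb2 : b ^ 2 = (Y : ℝ) + 1 + 1 := Real.sq_sqrt h2.le
    have h3 : 2 * a * b + 1 ≤ 2 * b * b := by nlinarith [sq_nonneg (a - b)]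
    have h4 : 2 * a + 1 / b ≤ 2 * b := by
      rw [← sub_nonneg]
      have : 2 * b - (2 * a + 1 / b) = (2 * b * b - (2 * a * b + 1)) / b := by
        field_simp
      rw [this]
      exact div_nonneg (by linarith) hb0.le
    linarith

namespace Loc

variable {d : ℕ} {c : ℕ → ℕ → ℝ} {η : ℝ}

/-- Lines on which the restriction is not affine carry few points. -/
theorem line_sqrt (h : Loc d c η) {y : ℤ} (hy : 0 ≤ y) (h1 : (hor d c (y : ℝ)).natDegree ≠ 1)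
    {T : ℝ} (hT : 1 ≤ T) (S : Finset ℤ)
    (hS : ∀ x ∈ S, ((x, y) : ℤ × ℤ) ∈ HC η ∧ ev d c x y ≤ T) :
    (S.card : ℝ) ≤ 2 ^ d * (1 + (2 ^ d * T) ^ ((1 : ℝ) / 2)) := by
  lift y to ℕ using hy
  have h2 := h.hor_natDegree_pos y
  rw [Int.cast_natCast] at h1
  refine line_card_le_sqrt (hor d c (y : ℝ)) d _ (h.hor_int y) (by omega) ?_ T hT S ?_
  · exact hor_natDegree_le (fun i hi => row_eq_zero fun j => h.hc i j (by omega)) _
  · intro x hx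
    rw [hor_eval]
    have h3 := hS x hx
    have h4 := h.nonneg h3.1
    simp only [Int.cast_natCast] at h3 h4
    rw [abs_of_nonneg h4]
    exact h3.2

/-- Lines with nonvanishing leading coefficient. -/
theorem line_D (h : Loc d c η) {D : ℕ} (hD0 : 0 < D) (hDd : D ≤ d)
    (hDmax : ∀ i j, D < i → c i j = 0) {y : ℤ} (lam : ℝ) (hlam0 : 0 < lam)
    (hlam : lam ≤ (D.factorial : ℝ) * |(row d c D).eval (y : ℝ)|)
    {T : ℝ} (hT : 0 ≤ T) (S : Finset ℤ)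
    (hS : ∀ x ∈ S, ((x, y) : ℤ × ℤ) ∈ HC η ∧ ev d c x y ≤ T) :
    (S.card : ℝ) ≤ 2 ^ D * (1 + (2 ^ D * T / lam) ^ ((1 : ℝ) / D)) := by
  refine line_card_le (hor d c (y : ℝ)) D hD0 ?_ lam T hlam0 hT ?_ S ?_
  · exact hor_natDegree_le (fun i hi => row_eq_zero fun j => hDmax i j hi) _
  · rw [hor_coeff, if_pos hDd]
    exact hlam
  · intro x hx
    rw [hor_eval]
    have h3 := hS x hx
    rw [abs_of_nonneg (h.nonneg h3.1)]
    exact h3.2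

theorem one_le_lead (h : Loc d c η) {D : ℕ} (hDd : D ≤ d)
    (hDmax : ∀ i j, D < i → c i j = 0) {y : ℤ} (hy : 0 ≤ y)
    (h0 : (row d c D).eval (y : ℝ) ≠ 0) :
    1 ≤ (D.factorial : ℝ) * |(row d c D).eval (y : ℝ)| := by
  lift y to ℕ using hy
  rw [Int.cast_natCast] at *
  have h1 := abs_lead_ge (hor d c (y : ℝ)) _ (h.hor_int y) D
    (hor_natDegree_le (fun i hi => row_eq_zero fun j => hDmax i j hi) _)
    (by rw [hor_coeff, if_pos hDd]; exact h0)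
  rwa [hor_coeff, if_pos hDd] at h1

/-- The part of the special lines (`row D` vanishes). -/
theorem part_special (h : Loc d c η) {D : ℕ} (hDne : ∃ j, c D j ≠ 0) :
    ∃ K : ℝ, 0 ≤ K ∧ ∀ n : ℕ, 1 ≤ n →
      {v : ℤ × ℤ | v ∈ HC η ∧ (row d c D).eval (v.2 : ℝ) = 0 ∧
        (hor d c (v.2 : ℝ)).natDegree ≠ 1 ∧ ev d c v.1 v.2 ≤ n}.Finite ∧
      (({v : ℤ × ℤ | v ∈ HC η ∧ (row d c D).eval (v.2 : ℝ) = 0 ∧
        (hor d c (v.2 : ℝ)).natDegree ≠ 1 ∧ ev d c v.1 v.2 ≤ n}.ncard : ℕ) : ℝ) ≤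
        K * (n : ℝ) ^ ((1 : ℝ) / 2) := by
  classical
  have hrow : row d c D ≠ 0 := by
    obtain ⟨j, hj⟩ := hDne
    intro h0
    have h1 := row_coeff d c D j
    rw [h0, coeff_zero] at h1
    by_cases hjd : j ≤ d
    · rw [if_pos hjd] at h1; exact hj h1.symm
    · exact hj (h.hc D j (by omega))
  have hfin : {y : ℤ | (row d c D).eval (y : ℝ) = 0}.Finite := by
    have h1 : ((row d c D).roots.toFinset : Set ℝ).Finite := Finset.finite_toSet _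
    refine (h1.preimage (f := fun y : ℤ => (y : ℝ)) (Int.cast_injective.injOn)).subset ?_
    intro y hy
    simp only [Set.mem_preimage, Finset.mem_coe, Multiset.mem_toFinset, mem_roots hrow, IsRoot.def]
    exact hy
  set I := hfin.toFinset with hI
  refine ⟨I.card * (2 ^ d * (1 + (2 ^ d : ℝ) ^ ((1 : ℝ) / 2))), by positivity, fun n hn => ?_⟩
  have hn1 : (1 : ℝ) ≤ n := by exact_mod_cast hn
  have key := ncard_le_sum_snd {v : ℤ × ℤ | v ∈ HC η ∧ (row d c D).eval (v.2 : ℝ) = 0 ∧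
        (hor d c (v.2 : ℝ)).natDegree ≠ 1 ∧ ev d c v.1 v.2 ≤ n} I
      (fun _ => 2 ^ d * (1 + (2 ^ d * (n : ℝ)) ^ ((1 : ℝ) / 2)))
      (fun v hv => by rw [hI, Set.Finite.mem_toFinset]; exact hv.2.1)
      (fun y hy S hS => by
        by_cases hSe : S = ∅
        · rw [hSe]; simp only [Finset.card_empty, Nat.cast_zero]; positivity
        · obtain ⟨x, hx⟩ := Finset.nonempty_iff_ne_empty.2 hSe
          exact h.line_sqrt (hS x hx).1.2.1 (hS x hx).2.2.1 hn1 S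
            (fun x hx => ⟨(hS x hx).1, (hS x hx).2.2.2⟩))
  refine ⟨key.1, key.2.trans ?_⟩
  rw [Finset.sum_const, nsmul_eq_mul, Real.mul_rpow (by positivity) (by positivity), mul_assoc]
  refine mul_le_mul_of_nonneg_left ?_ (by positivity)
  rw [mul_assoc]
  refine mul_le_mul_of_nonneg_left ?_ (by positivity)
  have h2 : (1 : ℝ) ≤ (n : ℝ) ^ ((1 : ℝ) / 2) := Real.one_le_rpow hn1 (by norm_num)
  have h3 : (0 : ℝ) ≤ (2 ^ d : ℝ) ^ ((1 : ℝ) / 2) := by positivity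
  nlinarith

/-- The part near the axis, `D ≥ 3`. -/
theorem part_near (h : Loc d c η) {D : ℕ} (hD0 : 0 < D) (hDd : D ≤ d)
    (hDmax : ∀ i j, D < i → c i j = 0) {θ : ℝ} (hθ0 : 0 < θ)
    {c₀ C₀ : ℝ} (hc₀ : 0 < c₀) (hgrow : ∀ v ∈ HC η, c₀ * v.1 - C₀ ≤ ev d c v.1 v.2) :
    ∃ K : ℝ, 0 ≤ K ∧ ∀ n : ℕ, 1 ≤ n →
      {v : ℤ × ℤ | v ∈ HC η ∧ (row d c D).eval (v.2 : ℝ) ≠ 0 ∧
        (v.2 : ℝ) < (v.1 : ℝ) ^ θ ∧ ev d c v.1 v.2 ≤ n}.Finite ∧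
      (({v : ℤ × ℤ | v ∈ HC η ∧ (row d c D).eval (v.2 : ℝ) ≠ 0 ∧
        (v.2 : ℝ) < (v.1 : ℝ) ^ θ ∧ ev d c v.1 v.2 ≤ n}.ncard : ℕ) : ℝ) ≤
        K * (n : ℝ) ^ (θ + 1 / D) := by
  classical
  set C₁ : ℝ := (1 + |C₀|) / c₀ with hC₁
  have hC₁0 : 0 < C₁ := by positivity
  refine ⟨(C₁ ^ θ + 1) * (2 ^ D * (1 + (2 ^ D : ℝ) ^ ((1 : ℝ) / D))), by positivity,
    fun n hn => ?_⟩
  have hn1 : (1 : ℝ) ≤ n := by exact_mod_cast hn
  have hxle : ∀ v ∈ HC η, ev d c v.1 v.2 ≤ n → (v.1 : ℝ) ≤ C₁ * n := by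
    intro v hv hle
    have h1 := hgrow v hv
    rw [hC₁, div_mul_eq_mul_div, le_div_iff₀ hc₀]
    nlinarith [le_abs_self C₀, abs_nonneg C₀]
  have key := ncard_le_sum_snd {v : ℤ × ℤ | v ∈ HC η ∧ (row d c D).eval (v.2 : ℝ) ≠ 0 ∧
        (v.2 : ℝ) < (v.1 : ℝ) ^ θ ∧ ev d c v.1 v.2 ≤ n} (Finset.Icc 0 ⌊(C₁ * n) ^ θ⌋)
      (fun _ => 2 ^ D * (1 + (2 ^ D * (n : ℝ)) ^ ((1 : ℝ) / D)))
      (fun v hv => by
        rw [Finset.mem_Icc]
        refine ⟨hv.1.2.1, Int.le_floor.2 ?_⟩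
        refine hv.2.2.1.le.trans (Real.rpow_le_rpow ?_ (hxle v hv.1 hv.2.2.2) hθ0.le)
        exact_mod_cast hv.1.1.le)
      (fun y hy S hS => by
        by_cases hSe : S = ∅
        · rw [hSe]; simp only [Finset.card_empty, Nat.cast_zero]; positivity
        · obtain ⟨x, hx⟩ := Finset.nonempty_iff_ne_empty.2 hSe
          have h1 := h.one_le_lead hDd hDmax (hS x hx).1.2.1 (hS x hx).2.1
          have h2 := h.line_D hD0 hDd hDmax 1 one_pos h1 (T := n) (by positivity) S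
            (fun x hx => ⟨(hS x hx).1, (hS x hx).2.2.2⟩)
          rwa [div_one] at h2)
  refine ⟨key.1, key.2.trans ?_⟩
  have e1 : (2 ^ D * (n : ℝ)) ^ ((1 : ℝ) / D) = (2 ^ D : ℝ) ^ ((1 : ℝ) / D) *
      (n : ℝ) ^ ((1 : ℝ) / D) := Real.mul_rpow (by positivity) (by positivity)
  have e2 : (n : ℝ) ^ (θ + 1 / D) = (n : ℝ) ^ θ * (n : ℝ) ^ ((1 : ℝ) / D) :=
    Real.rpow_add (by linarith) _ _
  rw [Finset.sum_const, nsmul_eq_mul, e1, e2, Int.card_Icc]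
  have h2 : (1 : ℝ) ≤ (n : ℝ) ^ ((1 : ℝ) / D) := Real.one_le_rpow hn1 (by positivity)
  have h4 : (1 : ℝ) ≤ (n : ℝ) ^ θ := Real.one_le_rpow hn1 hθ0.le
  have h3 : (0 : ℝ) ≤ (2 ^ D : ℝ) ^ ((1 : ℝ) / D) := by positivity
  have h5 : ((((⌊(C₁ * n) ^ θ⌋ + 1 - 0 : ℤ).toNat : ℕ)) : ℝ) ≤ (C₁ ^ θ + 1) * (n : ℝ) ^ θ := by
    have h6 : (0 : ℤ) ≤ ⌊(C₁ * n) ^ θ⌋ + 1 - 0 := by
      have : (0 : ℤ) ≤ ⌊(C₁ * n) ^ θ⌋ := Int.floor_nonneg.2 (by positivity)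
      omega
    have h7 : ((((⌊(C₁ * n) ^ θ⌋ + 1 - 0 : ℤ).toNat : ℕ)) : ℝ) = ((⌊(C₁ * n) ^ θ⌋ : ℤ) : ℝ) + 1 := by
      have : ((((⌊(C₁ * n) ^ θ⌋ + 1 - 0 : ℤ).toNat : ℤ)) : ℝ) = ((⌊(C₁ * n) ^ θ⌋ + 1 - 0 : ℤ) : ℝ) := by
        rw [Int.toNat_of_nonneg h6]
      rw [← Int.cast_natCast, this]; push_cast; ring
    rw [h7]
    have h8 : ((⌊(C₁ * n) ^ θ⌋ : ℤ) : ℝ) ≤ C₁ ^ θ * (n : ℝ) ^ θ :=
      (Int.floor_le _).trans (le_of_eq (Real.mul_rpow hC₁0.le (by positivity)))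
    linarith
  have h9 : 1 + (2 ^ D : ℝ) ^ ((1 : ℝ) / D) * (n : ℝ) ^ ((1 : ℝ) / D) ≤
      (1 + (2 ^ D : ℝ) ^ ((1 : ℝ) / D)) * (n : ℝ) ^ ((1 : ℝ) / D) := by nlinarith
  calc ((((⌊(C₁ * n) ^ θ⌋ + 1 - 0 : ℤ).toNat : ℕ)) : ℝ) *
        (2 ^ D * (1 + (2 ^ D : ℝ) ^ ((1 : ℝ) / D) * (n : ℝ) ^ ((1 : ℝ) / D)))
      ≤ ((C₁ ^ θ + 1) * (n : ℝ) ^ θ) * (2 ^ D * ((1 + (2 ^ D : ℝ) ^ ((1 : ℝ) / D)) *
          (n : ℝ) ^ ((1 : ℝ) / D))) := by
        refine mul_le_mul h5 ?_ (by positivity) (by positivity)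
        exact mul_le_mul_of_nonneg_left h9 (by positivity)
    _ = (C₁ ^ θ + 1) * (2 ^ D * (1 + (2 ^ D : ℝ) ^ ((1 : ℝ) / D))) *
        ((n : ℝ) ^ θ * (n : ℝ) ^ ((1 : ℝ) / D)) := by ring

end Loc

/-- A nonconstant polynomial grows at least linearly at the naturals where it does not vanish. -/
theorem exists_lower (p : ℝ[X]) (h : 1 ≤ p.natDegree) :
    ∃ C > 0, ∀ y : ℕ, p.eval (y : ℝ) ≠ 0 → (y : ℝ) + 1 ≤ C * |p.eval (y : ℝ)| := by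
  have h1 : (X + C 1 : ℝ[X]).degree ≤ p.degree := by
    rw [degree_X_add_C]
    exact le_degree_of_ne_zero' p h
  have h2 := (isBigO_atTop_of_degree_le (X + C 1) p h1).comp_tendsto tendsto_natCast_atTop_atTop
  obtain ⟨C₁, hC₁, hb⟩ := h2.exists_pos
  rw [Asymptotics.IsBigOWith] at hb
  obtain ⟨Y, hY⟩ := eventually_atTop.1 hb
  refine ⟨C₁ + ∑ y ∈ range Y, ((y : ℝ) + 1) / |p.eval (y : ℝ)|, by positivity, fun y hy => ?_⟩
  have habs : 0 < |p.eval (y : ℝ)| := abs_pos.2 hy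
  have hs0 : 0 ≤ ∑ y ∈ range Y, ((y : ℝ) + 1) / |p.eval (y : ℝ)| := by positivity
  rcases le_or_gt Y y with hle | hlt
  · have h3 := hY y hle
    simp only [Function.comp_apply, eval_add, eval_X, eval_C, Real.norm_eq_abs] at h3
    have h4 : (y : ℝ) + 1 ≤ |(y : ℝ) + 1| := le_abs_self _
    nlinarith
  · have h3 : ((y : ℝ) + 1) / |p.eval (y : ℝ)| ≤
        ∑ y ∈ range Y, ((y : ℝ) + 1) / |p.eval (y : ℝ)| :=
      Finset.single_le_sum (f := fun y : ℕ => ((y : ℝ) + 1) / |p.eval (y : ℝ)|)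
        (fun i _ => by positivity) (mem_range.2 hlt)
    rw [div_le_iff₀ habs] at h3
    nlinarith
where
  le_degree_of_ne_zero' (p : ℝ[X]) (h : 1 ≤ p.natDegree) : (1 : WithBot ℕ) ≤ p.degree := by
    have hp : p ≠ 0 := by rintro rfl; simp at h
    rw [degree_eq_natDegree hp]
    exact_mod_cast h

namespace Loc

variable {d : ℕ} {c : ℕ → ℕ → ℝ} {η : ℝ}

/-- The part near the axis, `D = 2` and nonconstant leading coefficient. -/
theorem part_near2 (h : Loc d c η) (hDmax : ∀ i j, 2 < i → c i j = 0)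
    (hrow : 1 ≤ (row d c 2).natDegree) {θ : ℝ} (hθ0 : 0 < θ) (hθ1 : θ ≤ 1)
    {c₀ C₀ : ℝ} (hc₀ : 0 < c₀) (hgrow : ∀ v ∈ HC η, c₀ * v.1 - C₀ ≤ ev d c v.1 v.2) :
    ∃ K : ℝ, 0 ≤ K ∧ ∀ n : ℕ, 1 ≤ n →
      {v : ℤ × ℤ | v ∈ HC η ∧ (row d c 2).eval (v.2 : ℝ) ≠ 0 ∧
        (v.2 : ℝ) < (v.1 : ℝ) ^ θ ∧ ev d c v.1 v.2 ≤ n}.Finite ∧
      (({v : ℤ × ℤ | v ∈ HC η ∧ (row d c 2).eval (v.2 : ℝ) ≠ 0 ∧
        (v.2 : ℝ) < (v.1 : ℝ) ^ θ ∧ ev d c v.1 v.2 ≤ n}.ncard : ℕ) : ℝ) ≤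
        K * (n : ℝ) ^ ((1 + θ) / 2) := by
  classical
  obtain ⟨C', hC'0, hC'⟩ := exists_lower _ hrow
  set C₁ : ℝ := (1 + |C₀|) / c₀ with hC₁
  have hC₁0 : 0 < C₁ := by positivity
  refine ⟨4 * (C₁ ^ θ + 1) + 8 * Real.sqrt (2 * C') * Real.sqrt (C₁ ^ θ + 1), by positivity,
    fun n hn => ?_⟩
  have hn1 : (1 : ℝ) ≤ n := by exact_mod_cast hn
  have hxle : ∀ v ∈ HC η, ev d c v.1 v.2 ≤ n → (v.1 : ℝ) ≤ C₁ * n := by
    intro v hv hle
    have h1 := hgrow v hv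
    rw [hC₁, div_mul_eq_mul_div, le_div_iff₀ hc₀]
    nlinarith [le_abs_self C₀, abs_nonneg C₀]
  set Z : ℝ := (C₁ * n) ^ θ with hZ
  have hZ0 : 0 ≤ Z := by positivity
  have key := ncard_le_sum_snd {v : ℤ × ℤ | v ∈ HC η ∧ (row d c 2).eval (v.2 : ℝ) ≠ 0 ∧
        (v.2 : ℝ) < (v.1 : ℝ) ^ θ ∧ ev d c v.1 v.2 ≤ n}
      ((range (⌊Z⌋₊ + 1)).image (fun y : ℕ => (y : ℤ)))
      (fun y => 4 * (1 + Real.sqrt (2 * C' * n) * (1 / Real.sqrt ((y : ℝ) + 1))))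
      (fun v hv => by
        have h1 : (v.2 : ℝ) ≤ Z := by
          refine hv.2.2.1.le.trans (Real.rpow_le_rpow ?_ (hxle v hv.1 hv.2.2.2) hθ0.le)
          exact_mod_cast hv.1.1.le
        obtain ⟨y, hy⟩ := Int.eq_ofNat_of_zero_le hv.1.2.1
        rw [hy, Finset.mem_image]
        refine ⟨y, ?_, rfl⟩
        rw [mem_range, Nat.lt_succ_iff]
        refine Nat.le_floor ?_
        rw [hy] at h1
        exact_mod_cast h1)
      (fun y hy S hS => by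
        by_cases hSe : S = ∅
        · rw [hSe]; simp only [Finset.card_empty, Nat.cast_zero]; positivity
        · obtain ⟨x, hx⟩ := Finset.nonempty_iff_ne_empty.2 hSe
          have hy0 : 0 ≤ y := (hS x hx).1.2.1
          have hrowy := (hS x hx).2.1
          simp only at hrowy
          obtain ⟨y', rfl⟩ := Int.eq_ofNat_of_zero_le hy0
          have h1 := hC' y' (by exact_mod_cast hrowy)
          have hy1 : (0 : ℝ) < (y' : ℝ) + 1 := by positivity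
          have h2 := h.line_D (D := 2) two_pos (by have := h.hd; omega) hDmax
            (y := (y' : ℤ)) (2 * ((y' : ℝ) + 1) / C') (by positivity) (by
              rw [Nat.factorial_two, Int.cast_natCast, div_le_iff₀ hC'0]
              push_cast
              nlinarith) (T := n) (by positivity) S
            (fun x hx => ⟨(hS x hx).1, (hS x hx).2.2.2⟩)
          refine h2.trans (le_of_eq ?_)
          have e1 : (2 : ℝ) ^ 2 * n / (2 * ((y' : ℝ) + 1) / C') = (2 * C' * n) / ((y' : ℝ) + 1) := by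
            field_simp
          have e2 : ((1 : ℝ) / ((2 : ℕ) : ℝ)) = 1 / 2 := by norm_num
          rw [e1, e2, ← Real.sqrt_eq_rpow, Real.sqrt_div (by positivity), Int.cast_natCast]
          ring)
  refine ⟨key.1, key.2.trans ?_⟩
  rw [Finset.sum_image (fun a _ b _ hab => by exact_mod_cast hab)]
  have e3 : ∑ y ∈ range (⌊Z⌋₊ + 1), (4 * (1 + Real.sqrt (2 * C' * n) *
      (1 / Real.sqrt ((((y : ℕ) : ℤ) : ℝ) + 1)))) = 4 * ((⌊Z⌋₊ : ℝ) + 1) +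
      4 * Real.sqrt (2 * C' * n) * ∑ y ∈ range (⌊Z⌋₊ + 1), (1 : ℝ) / Real.sqrt ((y : ℝ) + 1) := by
    simp only [mul_add, mul_one, Finset.sum_add_distrib, Finset.sum_const, card_range,
      nsmul_eq_mul, Int.cast_natCast]
    rw [Finset.mul_sum]
    push_cast
    congr 1
    · ring
    · exact Finset.sum_congr rfl fun y _ => by ring
  rw [e3]
  have h4 : ((⌊Z⌋₊ : ℕ) : ℝ) + 1 ≤ (C₁ ^ θ + 1) * (n : ℝ) ^ θ := by
    have h5 : ((⌊Z⌋₊ : ℕ) : ℝ) ≤ C₁ ^ θ * (n : ℝ) ^ θ :=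
      (Nat.floor_le hZ0).trans (le_of_eq (Real.mul_rpow hC₁0.le (by positivity)))
    have h6 : (1 : ℝ) ≤ (n : ℝ) ^ θ := Real.one_le_rpow hn1 hθ0.le
    linarith
  have h7 := sum_inv_sqrt_le ⌊Z⌋₊
  have h8 : Real.sqrt (((⌊Z⌋₊ : ℕ) : ℝ) + 1) ≤ Real.sqrt (C₁ ^ θ + 1) * (n : ℝ) ^ (θ / 2) := by
    refine (Real.sqrt_le_sqrt h4).trans (le_of_eq ?_)
    rw [Real.sqrt_mul (by positivity)]
    congr 1
    rw [Real.sqrt_eq_rpow, ← Real.rpow_mul (by positivity)]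
    congr 1; ring
  have h9 : Real.sqrt (2 * C' * n) = Real.sqrt (2 * C') * (n : ℝ) ^ ((1 : ℝ) / 2) := by
    rw [Real.sqrt_mul (by positivity), Real.sqrt_eq_rpow (n : ℝ)]
  have h10 : (n : ℝ) ^ θ ≤ (n : ℝ) ^ ((1 + θ) / 2) :=
    Real.rpow_le_rpow_of_exponent_le hn1 (by linarith)
  have h11 : (n : ℝ) ^ ((1 : ℝ) / 2) * (n : ℝ) ^ (θ / 2) = (n : ℝ) ^ ((1 + θ) / 2) := by
    rw [← Real.rpow_add (by linarith)]
    congr 1; ring
  rw [h9]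
  calc 4 * (((⌊Z⌋₊ : ℕ) : ℝ) + 1) + 4 * (Real.sqrt (2 * C') * (n : ℝ) ^ ((1 : ℝ) / 2)) *
        ∑ y ∈ range (⌊Z⌋₊ + 1), (1 : ℝ) / Real.sqrt ((y : ℝ) + 1)
      ≤ 4 * ((C₁ ^ θ + 1) * (n : ℝ) ^ ((1 + θ) / 2)) +
          4 * (Real.sqrt (2 * C') * (n : ℝ) ^ ((1 : ℝ) / 2)) *
            (2 * (Real.sqrt (C₁ ^ θ + 1) * (n : ℝ) ^ (θ / 2))) := by
        refine add_le_add ?_ ?_
        · refine mul_le_mul_of_nonneg_left ?_ (by norm_num)
          exact h4.trans (mul_le_mul_of_nonneg_left h10 (by positivity))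
        · refine mul_le_mul_of_nonneg_left ?_ (by positivity)
          exact h7.trans (mul_le_mul_of_nonneg_left h8 (by norm_num))
    _ = (4 * (C₁ ^ θ + 1) + 8 * Real.sqrt (2 * C') * Real.sqrt (C₁ ^ θ + 1)) *
        (n : ℝ) ^ ((1 + θ) / 2) := by rw [← h11]; ring

/-- The part away from the axis. -/
theorem part_far (h : Loc d c η) {D : ℕ} (hDd : D ≤ d) (hDmax : ∀ i j, D < i → c i j = 0)
    {θ : ℝ} (hθ0 : 0 < θ) (hθ : (D : ℝ) / (D + 2) < θ) (hθ1 : θ < 1)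
    (hcase : (3 ≤ D ∧ ∃ j, c D j ≠ 0) ∨ (D = 2 ∧ 1 ≤ (row d c 2).natDegree)) :
    ∃ K : ℝ, 0 ≤ K ∧ ∀ n : ℕ, 1 ≤ n →
      {v : ℤ × ℤ | v ∈ HC (η / 2) ∧ (v.1 : ℝ) ^ θ ≤ (v.2 : ℝ) ∧ ev d c v.1 v.2 ≤ n}.Finite ∧
      (({v : ℤ × ℤ | v ∈ HC (η / 2) ∧ (v.1 : ℝ) ^ θ ≤ (v.2 : ℝ) ∧
        ev d c v.1 v.2 ≤ n}.ncard : ℕ) : ℝ) ≤ K * (n : ℝ) ^ (2 / (2 + θ)) := by
  classical
  have hd := h.hd
  obtain ⟨κ, hκ, X₀, hX⟩ := lower_bound_W (by omega) h.hc h.hη h.hη1 hDmax hθ0 hθ hθ1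
    (fun x y hx hy hyx => h.nonneg (v := (x, y)) ⟨hx, hy, hyx⟩) h.topne
  -- a lower bound for the weight
  obtain ⟨c₂, hc₂, hwt⟩ : ∃ c₂ > 0, ∀ x y : ℝ, 1 ≤ x → x ^ θ ≤ y →
      c₂ * x ^ (2 + θ) ≤ wt d c x y := by
    rcases hcase with ⟨h3, j, hj⟩ | ⟨h2, hr⟩
    · refine ⟨|c D j|, abs_pos.2 hj, fun x y hx hxy => ?_⟩
      have hj' : j ≤ d := by
        by_contra hlt
        exact hj (h.hc D j (by omega))
      have hx0 : (0 : ℝ) ≤ x := by linarith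
      have hx1 : (1 : ℝ) ≤ x ^ θ := Real.one_le_rpow hx hθ0.le
      have hy1 : 1 ≤ y := hx1.trans hxy
      refine le_trans ?_ (term_le_wt c hx0 (by linarith) hDd hj')
      rw [mul_assoc]
      refine mul_le_mul_of_nonneg_left ?_ (abs_nonneg _)
      calc x ^ (2 + θ) ≤ x ^ ((3 : ℕ) : ℝ) :=
            Real.rpow_le_rpow_of_exponent_le hx (by push_cast; linarith)
        _ = x ^ 3 := Real.rpow_natCast _ _
        _ ≤ x ^ D := pow_le_pow_right₀ hx h3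
        _ ≤ x ^ D * y ^ j := le_mul_of_one_le_right (by positivity) (one_le_pow₀ hy1)
    · subst h2
      have hne : row d c 2 ≠ 0 := by
        intro h0; rw [h0] at hr; simp at hr
      set j := (row d c 2).natDegree with hjdef
      have hcj : c 2 j ≠ 0 := by
        have h1 := row_coeff d c 2 j
        have h2 : (row d c 2).coeff j ≠ 0 := by
          rw [hjdef]; exact leadingCoeff_ne_zero.2 hne
        rw [h1] at h2
        by_contra h0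
        rw [h0] at h2
        simp at h2
      have hj' : j ≤ d := row_natDegree_le d c 2
      refine ⟨|c 2 j|, abs_pos.2 hcj, fun x y hx hxy => ?_⟩
      have hx0 : (0 : ℝ) ≤ x := by linarith
      have hx1 : (1 : ℝ) ≤ x ^ θ := Real.one_le_rpow hx hθ0.le
      have hy1 : 1 ≤ y := hx1.trans hxy
      refine le_trans ?_ (term_le_wt c hx0 (by linarith) hDd hj')
      rw [mul_assoc]
      refine mul_le_mul_of_nonneg_left ?_ (abs_nonneg _)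
      rw [Real.rpow_add (by linarith), Real.rpow_two]
      refine mul_le_mul_of_nonneg_left ?_ (by positivity)
      calc x ^ θ ≤ y := hxy
        _ = y ^ 1 := (pow_one _).symm
        _ ≤ y ^ j := pow_le_pow_right₀ hy1 hr
  set X₁ : ℝ := max X₀ 1 with hX₁
  have hX₁1 : 1 ≤ X₁ := le_max_right _ _
  set B : ℝ := (1 / (κ * c₂)) ^ (1 / (2 + θ)) with hB
  have hB0 : 0 ≤ B := by positivity
  refine ⟨(X₁ + B + 1) ^ 2, by positivity, fun n hn => ?_⟩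
  have hn1 : (1 : ℝ) ≤ n := by exact_mod_cast hn
  set R : ℝ := (X₁ + B) * (n : ℝ) ^ (1 / (2 + θ)) with hR
  have hnp : (1 : ℝ) ≤ (n : ℝ) ^ (1 / (2 + θ)) := Real.one_le_rpow hn1 (by positivity)
  have hxle : ∀ v ∈ HC (η / 2), (v.1 : ℝ) ^ θ ≤ (v.2 : ℝ) → ev d c v.1 v.2 ≤ n →
      (v.1 : ℝ) ≤ R := by
    intro v hv hxy hle
    have hv1 : (1 : ℝ) ≤ v.1 := by exact_mod_cast hv.1
    rcases le_or_gt (v.1 : ℝ) X₁ with h1 | h1
    · rw [hR]; nlinarith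
    · have h2 := hX v.1 v.2 ((le_max_left _ _).trans h1.le) hxy (by
        have := hv.2.2; linarith)
      have h3 := hwt v.1 v.2 hv1 hxy
      have h4 : (v.1 : ℝ) ^ (2 + θ) ≤ (1 / (κ * c₂)) * n := by
        rw [div_mul_eq_mul_div, one_mul, le_div_iff₀ (by positivity)]
        nlinarith [mul_le_mul_of_nonneg_left h3 hκ.le]
      have h5 : (v.1 : ℝ) = ((v.1 : ℝ) ^ (2 + θ)) ^ (1 / (2 + θ)) := by
        rw [← Real.rpow_mul (by linarith), mul_one_div_cancel (by positivity), Real.rpow_one]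
      have h6 : ((v.1 : ℝ) ^ (2 + θ)) ^ (1 / (2 + θ)) ≤ ((1 / (κ * c₂)) * n) ^ (1 / (2 + θ)) :=
        Real.rpow_le_rpow (by positivity) h4 (by positivity)
      rw [Real.mul_rpow (by positivity) (by positivity), ← h5] at h6
      rw [hR]
      have : 0 ≤ X₁ * (n : ℝ) ^ (1 / (2 + θ)) := by positivity
      nlinarith
  have hR1 : 1 ≤ R := by
    rw [hR]; nlinarith
  have key := ncard_le_sum_fst {v : ℤ × ℤ | v ∈ HC (η / 2) ∧ (v.1 : ℝ) ^ θ ≤ (v.2 : ℝ) ∧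
      ev d c v.1 v.2 ≤ n} (Finset.Icc 1 ⌊R⌋) (fun _ => R + 1)
      (fun v hv => by
        rw [Finset.mem_Icc]
        exact ⟨hv.1.1, Int.le_floor.2 (hxle v hv.1 hv.2.1 hv.2.2)⟩)
      (fun x hx S hS => by
        rw [Finset.mem_Icc] at hx
        have hx1 : (0 : ℝ) < x := by exact_mod_cast (by omega : 0 < x)
        have hxR : (x : ℝ) ≤ R := Int.le_floor.1 hx.2
        have h1 := card_le_of_mem_Icc S 0 x (fun y hy => by
          have h2 := (hS y hy).1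
          have h3 : (0 : ℤ) ≤ y := h2.2.1
          have h4 := h2.2.2
          simp only at h4
          refine ⟨by exact_mod_cast h3, ?_⟩
          have := h.hη1
          nlinarith) hx1.le
        linarith)
  refine ⟨key.1, key.2.trans ?_⟩
  rw [Finset.sum_const, nsmul_eq_mul, Int.card_Icc]
  have h5 : (((⌊R⌋ + 1 - 1 : ℤ).toNat : ℕ) : ℝ) ≤ R := by
    have h6 : (0 : ℤ) ≤ ⌊R⌋ + 1 - 1 := by
      have : (0 : ℤ) ≤ ⌊R⌋ := Int.floor_nonneg.2 (by linarith)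
      omega
    have h7 : ((((⌊R⌋ + 1 - 1 : ℤ).toNat : ℤ)) : ℝ) = ((⌊R⌋ + 1 - 1 : ℤ) : ℝ) := by
      rw [Int.toNat_of_nonneg h6]
    rw [← Int.cast_natCast, h7]
    push_cast
    linarith [Int.floor_le R]
  have e2 : (n : ℝ) ^ (2 / (2 + θ)) = (n : ℝ) ^ (1 / (2 + θ)) * (n : ℝ) ^ (1 / (2 + θ)) := by
    rw [← Real.rpow_add (by linarith)]
    congr 1; ring
  calc (((⌊R⌋ + 1 - 1 : ℤ).toNat : ℕ) : ℝ) * (R + 1) ≤ R * (R + 1) :=
        mul_le_mul_of_nonneg_right h5 (by linarith)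
    _ ≤ ((X₁ + B + 1) * (n : ℝ) ^ (1 / (2 + θ))) * ((X₁ + B + 1) * (n : ℝ) ^ (1 / (2 + θ))) := by
        refine mul_le_mul ?_ ?_ (by linarith) (by positivity)
        · rw [hR]; nlinarith
        · rw [hR]; nlinarith
    _ = (X₁ + B + 1) ^ 2 * (n : ℝ) ^ (2 / (2 + θ)) := by rw [e2]; ring

/-- The generic case at a rational direction. -/
theorem negl_main (h : Loc d c η) {D : ℕ} (hD2 : 2 ≤ D) (hDd : D ≤ d) (hDne : ∃ j, c D j ≠ 0)
    (hDmax : ∀ i j, D < i → c i j = 0) (hcase : 3 ≤ D ∨ 1 ≤ (row d c D).natDegree)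
    {c₀ C₀ : ℝ} (hc₀ : 0 < c₀) (hgrow : ∀ v ∈ HC η, c₀ * v.1 - C₀ ≤ ev d c v.1 v.2)
    (ε : ℝ) (hε : 0 < ε) :
    ∀ᶠ n : ℕ in atTop,
      {v : ℤ × ℤ | v ∈ HC (η / 2) ∧ (hor d c (v.2 : ℝ)).natDegree ≠ 1 ∧
        ev d c v.1 v.2 ≤ n}.Finite ∧
      (({v : ℤ × ℤ | v ∈ HC (η / 2) ∧ (hor d c (v.2 : ℝ)).natDegree ≠ 1 ∧
        ev d c v.1 v.2 ≤ n}.ncard : ℕ) : ℝ) ≤ ε * n := by
  have hη2 : η / 2 ≤ η := by have := h.hη; linarith
  -- a uniform statement on the near part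
  obtain ⟨θ, a, hθ0, hθ, hθ1, ha, K₂, hK₂, h2⟩ : ∃ θ a : ℝ, 0 < θ ∧ (D : ℝ) / (D + 2) < θ ∧
      θ < 1 ∧ a < 1 ∧ ∃ K : ℝ, 0 ≤ K ∧ ∀ n : ℕ, 1 ≤ n →
      {v : ℤ × ℤ | v ∈ HC η ∧ (row d c D).eval (v.2 : ℝ) ≠ 0 ∧
        (v.2 : ℝ) < (v.1 : ℝ) ^ θ ∧ ev d c v.1 v.2 ≤ n}.Finite ∧
      (({v : ℤ × ℤ | v ∈ HC η ∧ (row d c D).eval (v.2 : ℝ) ≠ 0 ∧
        (v.2 : ℝ) < (v.1 : ℝ) ^ θ ∧ ev d c v.1 v.2 ≤ n}.ncard : ℕ) : ℝ) ≤
        K * (n : ℝ) ^ a := by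
    by_cases hD3 : 3 ≤ D
    · have hDr : (3 : ℝ) ≤ D := by exact_mod_cast hD3
      set lo : ℝ := (D : ℝ) / (D + 2) with hlo
      set hi : ℝ := 1 - 1 / D with hhi
      have hlohi : lo < hi := by
        rw [hlo, hhi, div_lt_iff₀ (by positivity)]
        have : (1 - 1 / (D : ℝ)) * (D + 2) = D + 1 - 2 / D := by
          field_simp; ring
        rw [this]
        have h1 : 2 / (D : ℝ) < 1 := by rw [div_lt_one (by positivity)]; linarith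
        linarith
      have hlo0 : 0 < lo := by positivity
      have hhi1 : hi < 1 := by
        rw [hhi]
        have : 0 < 1 / (D : ℝ) := by positivity
        linarith
      refine ⟨(lo + hi) / 2, (lo + hi) / 2 + 1 / D, by linarith, by linarith, by linarith, ?_, ?_⟩
      · rw [hhi]; rw [hhi] at hlohi; linarith
      · exact h.part_near (by omega) hDd hDmax (by linarith) hc₀ hgrow
    · have hDeq : D = 2 := by omega
      subst hDeq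
      have hr : 1 ≤ (row d c 2).natDegree := by
        rcases hcase with h1 | h1
        · omega
        · exact h1
      refine ⟨3 / 4, (1 + 3 / 4) / 2, by norm_num, by norm_num, by norm_num, by norm_num, ?_⟩
      exact h.part_near2 hDmax hr (by norm_num) (by norm_num) hc₀ hgrow
  obtain ⟨K₁, hK₁, h1⟩ := h.part_special hDne
  obtain ⟨K₃, hK₃, h3⟩ := h.part_far hDd hDmax hθ0 hθ hθ1 (by
    by_cases hD3 : 3 ≤ D
    · exact Or.inl ⟨hD3, hDne⟩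
    · have hDeq : D = 2 := by omega
      subst hDeq
      rcases hcase with h1 | h1
      · omega
      · exact Or.inr ⟨rfl, h1⟩)
  have hθ3 : 2 / (2 + θ) < 1 := by
    rw [div_lt_one (by linarith)]; linarith
  filter_upwards [rpow_small K₁ (1 / 2) (by norm_num) (ε / 3) (by linarith),
    rpow_small K₂ a ha (ε / 3) (by linarith), rpow_small K₃ (2 / (2 + θ)) hθ3 (ε / 3)
    (by linarith), eventually_ge_atTop 1] with n e1 e2 e3 hn
  obtain ⟨f1, g1⟩ := h1 n hn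
  obtain ⟨f2, g2⟩ := h2 n hn
  obtain ⟨f3, g3⟩ := h3 n hn
  have hsub : {v : ℤ × ℤ | v ∈ HC (η / 2) ∧ (hor d c (v.2 : ℝ)).natDegree ≠ 1 ∧
        ev d c v.1 v.2 ≤ n} ⊆
      ({v : ℤ × ℤ | v ∈ HC η ∧ (row d c D).eval (v.2 : ℝ) = 0 ∧
        (hor d c (v.2 : ℝ)).natDegree ≠ 1 ∧ ev d c v.1 v.2 ≤ n} ∪
      {v : ℤ × ℤ | v ∈ HC η ∧ (row d c D).eval (v.2 : ℝ) ≠ 0 ∧
        (v.2 : ℝ) < (v.1 : ℝ) ^ θ ∧ ev d c v.1 v.2 ≤ n}) ∪
      {v : ℤ × ℤ | v ∈ HC (η / 2) ∧ (v.1 : ℝ) ^ θ ≤ (v.2 : ℝ) ∧ ev d c v.1 v.2 ≤ n} := by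
    rintro v ⟨hv1, hv2, hv3⟩
    by_cases hr : (row d c D).eval (v.2 : ℝ) = 0
    · exact Or.inl (Or.inl ⟨HC_mono hη2 hv1, hr, hv2, hv3⟩)
    · rcases lt_or_ge (v.2 : ℝ) ((v.1 : ℝ) ^ θ) with hlt | hge
      · exact Or.inl (Or.inr ⟨HC_mono hη2 hv1, hr, hlt, hv3⟩)
      · exact Or.inr ⟨hv1, hge, hv3⟩
  refine ⟨((f1.union f2).union f3).subset hsub, ?_⟩
  have hcard := Set.ncard_le_ncard hsub ((f1.union f2).union f3)
  have hcard2 := hcard.trans ((Set.ncard_union_le _ _).trans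
    (Nat.add_le_add_right (Set.ncard_union_le _ _) _))
  have hcard3 := (Nat.cast_le (α := ℝ)).2 hcard2
  push_cast at hcard3
  linarith

end Loc

end Pool.Agent.Pack
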