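import Pool.Agent.Pack.Line
import Pool.Agent.Pack.LemW

/-!
# Rational directions: general estimates
-/

set_option autoImplicit false

open Polynomial Finset Filter Topology

namespace Pool.Agent.Pack

theorem row_eq_zero {d : ℕ} {c : ℕ → ℕ → ℝ} {i : ℕ} (h : ∀ j, c i j = 0) : row d c i = 0 := by
  ext j
  rw [row_coeff, h j]
  simp

namespace Loc

variable {d : ℕ} {c : ℕ → ℕ → ℝ} {η : ℝ}

theorem ev_linear {D : ℕ} (hd : 1 ≤ d) (hD : D ≤ 1) (hDmax : ∀ i j, D < i → c i j = 0) (x y : ℝ) :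
    ev d c x y = (row d c 1).eval y * x + (row d c 0).eval y := by
  have h1 : (hor d c y).natDegree < 2 :=
    lt_of_le_of_lt (hor_natDegree_le (D := 1) (fun i hi =>
      row_eq_zero (fun j => hDmax i j (by omega))) y) (by norm_num)
  rw [← hor_eval, eval_eq_sum_range' h1, Finset.sum_range_succ, Finset.sum_range_one,
    hor_coeff, hor_coeff, if_pos (by omega), if_pos (by omega)]
  ring

/-- The degree in the direction of the ray is at least two. -/
theorem two_le_D (h : Loc d c η) {D : ℕ} (hDmax : ∀ i j, D < i → c i j = 0) : 2 ≤ D := by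
  by_contra hcon
  push Not at hcon
  have hd := h.hd
  have hlin : ∀ x y : ℝ, ev d c x y = (row d c 1).eval y * x + (row d c 0).eval y :=
    ev_linear (by omega) (by omega) hDmax
  -- slopes are positive
  have hpos : ∀ y : ℕ, 0 < (row d c 1).eval (y : ℝ) := by
    intro y
    have h1 := h.hor_natDegree_pos y
    have h2 : (hor d c (y : ℝ)).natDegree ≤ 1 :=
      hor_natDegree_le (D := 1) (fun i hi => row_eq_zero (fun j => hDmax i j (by omega))) _
    have h3 : (hor d c (y : ℝ)).coeff 1 ≠ 0 := by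
      have h4 : (hor d c (y : ℝ)).natDegree = 1 := by omega
      have h5 : hor d c (y : ℝ) ≠ 0 := by
        intro h0; rw [h0] at h4; simp at h4
      have := leadingCoeff_ne_zero.2 h5
      rwa [leadingCoeff, h4] at this
    rw [hor_coeff, if_pos (by omega)] at h3
    by_contra hneg
    push Not at hneg
    have hlt : (row d c 1).eval (y : ℝ) < 0 := lt_of_le_of_ne hneg h3
    set a := (row d c 1).eval (y : ℝ) with ha
    set b := (row d c 0).eval (y : ℝ) with hb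
    obtain ⟨n, hn⟩ := exists_nat_gt (max ((y : ℝ) / η) (b / (-a)))
    have hn1 : (y : ℝ) / η < n := lt_of_le_of_lt (le_max_left _ _) hn
    have hn2 : b / (-a) < n := lt_of_le_of_lt (le_max_right _ _) hn
    have hn0 : (0 : ℝ) < n := lt_of_le_of_lt (div_nonneg (by positivity) h.hη.le) hn1
    have hv : (((n : ℤ), (y : ℤ)) : ℤ × ℤ) ∈ HC η :=
      mem_HC h.hη (by positivity) (by exact_mod_cast hn0) (by exact_mod_cast hn1.le)
    have h6 := h.nonneg hv
    simp only [Int.cast_natCast] at h6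
    rw [hlin, ← ha, ← hb] at h6
    rw [div_lt_iff₀ (by linarith)] at hn2
    nlinarith
  -- the slope on the axis is an integer
  have hv0 : ∀ n : ℕ, 0 < n → (((n : ℤ), (0 : ℤ)) : ℤ × ℤ) ∈ HC η := by
    intro n hn
    exact mem_HC h.hη le_rfl (by exact_mod_cast hn) (by simp)
  obtain ⟨m₁, hm₁⟩ := h.int _ (hv0 1 one_pos)
  obtain ⟨m₂, hm₂⟩ := h.int _ (hv0 2 two_pos)
  rw [hlin] at hm₁ hm₂
  push_cast at hm₁ hm₂
  have hp0 := hpos 0
  rw [Nat.cast_zero] at hp0
  set a₀ := (row d c 1).eval (0 : ℝ) with ha₀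
  set b₀ := (row d c 0).eval (0 : ℝ) with hb₀
  have hA : ∃ A : ℕ, 0 < A ∧ a₀ = A := by
    have h1 : a₀ = (((m₂ : ℤ) - m₁ : ℤ) : ℝ) := by push_cast; linarith
    have h2 : (0 : ℤ) < (m₂ : ℤ) - m₁ := by
      rw [h1] at hp0; exact_mod_cast hp0
    refine ⟨((m₂ : ℤ) - m₁).toNat, by omega, ?_⟩
    rw [h1]
    have h3 : (((m₂ : ℤ) - m₁).toNat : ℤ) = (m₂ : ℤ) - m₁ := Int.toNat_of_nonneg h2.le
    rw [← h3]; simp
  obtain ⟨A, hApos, hA⟩ := hA
  obtain ⟨q₁, hq₁⟩ := h.row_rat 1 (by omega)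
  obtain ⟨q₀, hq₀⟩ := h.row_rat 0 (by omega)
  obtain ⟨R₁, hR₁, hper₁⟩ := periodic_mod q₁ A hApos
  obtain ⟨R₀, hR₀, hper₀⟩ := periodic_mod q₀ A hApos
  obtain ⟨k₁, hk₁⟩ := hper₁ 0 R₀
  obtain ⟨k₀, hk₀⟩ := hper₀ 0 R₁
  rw [hq₁] at hk₁
  rw [hq₀] at hk₀
  set j : ℕ := R₀ * R₁ with hj
  have hjpos : 0 < j := Nat.mul_pos hR₀ hR₁
  have e1 : (row d c 1).eval (j : ℝ) = A + A * k₁ := by
    have : ((0 : ℕ) : ℝ) + (R₀ : ℝ) * R₁ = (j : ℝ) := by rw [hj]; push_cast; ring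
    rw [this, Nat.cast_zero, ← ha₀, hA] at hk₁
    linarith
  have e0 : (row d c 0).eval (j : ℝ) = b₀ + A * k₀ := by
    have : ((0 : ℕ) : ℝ) + (R₁ : ℝ) * R₀ = (j : ℝ) := by rw [hj]; push_cast; ring
    rw [this, Nat.cast_zero, ← hb₀] at hk₀
    linarith
  have hk₁pos : 0 ≤ k₁ := by
    have h1 := hpos j
    rw [e1] at h1
    have hA' : (0 : ℝ) < A := by exact_mod_cast hApos
    have h2 : (0 : ℝ) < 1 + k₁ := by
      by_contra hneg
      push Not at hneg
      nlinarith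
    have h3 : (0 : ℤ) < 1 + k₁ := by exact_mod_cast h2
    omega
  obtain ⟨n, hn⟩ := exists_nat_gt (max ((j : ℝ) / η) (|(k₀ : ℝ)| + 1))
  have hn1 : (j : ℝ) / η < n := lt_of_le_of_lt (le_max_left _ _) hn
  have hn2 : |(k₀ : ℝ)| + 1 < n := lt_of_le_of_lt (le_max_right _ _) hn
  have hn0 : (0 : ℝ) < n := lt_of_le_of_lt (div_nonneg (by positivity) h.hη.le) hn1
  have hv : (((n : ℤ), (j : ℤ)) : ℤ × ℤ) ∈ HC η :=
    mem_HC h.hη (by positivity) (by exact_mod_cast hn0) (by exact_mod_cast hn1.le)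
  set x' : ℤ := (1 + k₁) * n + k₀ with hx'
  have hx'pos : 0 < x' := by
    have h1 : (0 : ℝ) < (x' : ℝ) := by
      rw [hx']
      push_cast
      have h2 := neg_abs_le (k₀ : ℝ)
      have h3 : (0 : ℝ) ≤ k₁ := by exact_mod_cast hk₁pos
      nlinarith
    exact_mod_cast h1
  have hw : ((x', (0 : ℤ)) : ℤ × ℤ) ∈ HC η := mem_HC h.hη le_rfl hx'pos (by
    simp only [Int.cast_zero, zero_div]
    exact_mod_cast hx'pos.le)
  have h7 := h.inj _ hv _ hw (by
    simp only [Int.cast_natCast, Int.cast_zero]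
    rw [hlin, hlin, e1, e0, ← ha₀, ← hb₀, hA, hx']
    push_cast
    ring)
  have h8 := congrArg Prod.snd h7
  simp only at h8
  omega

end Loc

end Pool.Agent.Pack
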