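import Pool.Agent.Pack.Deg2
import Pool.Agent.Pack.Poly2

/-!
# One side of a rational direction
-/

set_option autoImplicit false

open Polynomial Finset Filter Topology

namespace Pool.Agent.Pack

/-- The lattice points of the sector. -/
def Sec (α : ℝ) : Set (ℤ × ℤ) := {v | 0 ≤ v.1 ∧ 0 ≤ v.2 ∧ (v.2 : ℝ) ≤ α * v.1}

/-- The global situation. -/
structure Pre (d : ℕ) (c : ℕ → ℕ → ℝ) (α : ℝ) : Prop where
  hc : ∀ i j, d < i + j → c i j = 0
  hd : 3 ≤ d
  hα : 0 < α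
  htop : top d c ≠ 0
  int : ∀ v ∈ Sec α, ∃ m : ℕ, ev d c v.1 v.2 = m
  inj : ∀ v ∈ Sec α, ∀ w ∈ Sec α, ev d c v.1 v.2 = ev d c w.1 w.2 → v = w
  surj : ∀ m : ℕ, ∃ v ∈ Sec α, ev d c v.1 v.2 = m

/-- The global situation with linear growth. -/
structure Glob (d : ℕ) (c : ℕ → ℕ → ℝ) (α c₀ C₀ : ℝ) : Prop extends Pre d c α where
  hc₀ : 0 < c₀
  grow : ∀ v ∈ Sec α, c₀ * v.1 - C₀ ≤ ev d c v.1 v.2

/-- At most `ε n` values below `n`. -/
def Small (F : ℤ × ℤ → ℝ) (ε : ℝ) (A : Set (ℤ × ℤ)) : Prop :=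
  ∀ᶠ n : ℕ in atTop, {v | v ∈ A ∧ F v ≤ n}.Finite ∧ (({v | v ∈ A ∧ F v ≤ n}.ncard : ℕ) : ℝ) ≤ ε * n

theorem Small.mono {F : ℤ × ℤ → ℝ} {ε : ℝ} {A B : Set (ℤ × ℤ)} (h : Small F ε B) (hAB : A ⊆ B) :
    Small F ε A := by
  filter_upwards [h] with n hn
  have hsub : {v | v ∈ A ∧ F v ≤ n} ⊆ {v | v ∈ B ∧ F v ≤ n} := fun v hv => ⟨hAB hv.1, hv.2⟩
  refine ⟨hn.1.subset hsub, le_trans ?_ hn.2⟩
  exact_mod_cast Set.ncard_le_ncard hsub hn.1

theorem Small.union {F : ℤ × ℤ → ℝ} {ε₁ ε₂ : ℝ} {A B : Set (ℤ × ℤ)} (hA : Small F ε₁ A)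
    (hB : Small F ε₂ B) : Small F (ε₁ + ε₂) (A ∪ B) := by
  filter_upwards [hA, hB] with n h1 h2
  have he : {v | v ∈ A ∪ B ∧ F v ≤ n} = {v | v ∈ A ∧ F v ≤ n} ∪ {v | v ∈ B ∧ F v ≤ n} := by
    ext v
    constructor
    · rintro ⟨h | h, h'⟩
      · exact Or.inl ⟨h, h'⟩
      · exact Or.inr ⟨h, h'⟩
    · rintro (⟨h, h'⟩ | ⟨h, h'⟩)
      · exact ⟨Or.inl h, h'⟩
      · exact ⟨Or.inr h, h'⟩
  rw [he]
  refine ⟨h1.1.union h2.1, ?_⟩
  have h3 := (Nat.cast_le (α := ℝ)).2 (Set.ncard_union_le {v | v ∈ A ∧ F v ≤ n}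
    {v | v ∈ B ∧ F v ≤ n})
  push_cast at h3
  linarith [h1.2, h2.2]

theorem Small.le {F : ℤ × ℤ → ℝ} {ε ε' : ℝ} {A : Set (ℤ × ℤ)} (h : Small F ε A) (he : ε ≤ ε') :
    Small F ε' A := by
  filter_upwards [h] with n hn
  exact ⟨hn.1, hn.2.trans (mul_le_mul_of_nonneg_right he (by positivity))⟩

/-- A line of the sector on which the values form an arithmetic progression. -/
def IsAPLine (F : ℤ × ℤ → ℝ) (α : ℝ) (L : Set (ℤ × ℤ)) : Prop :=
  ∃ (p r a b : ℤ) (A : ℕ) (B : ℤ), 0 < p ∧ 0 < A ∧ L = Set.range (fun x : ℤ => (a + p * x, b + r * x)) ∧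
    (∀ x : ℤ, F (a + p * x, b + r * x) = A * x + B) ∧
    ∃ N : ℤ, ∀ x, N ≤ x → (a + p * x, b + r * x) ∈ Sec α

/-- Isolation of zeros. -/
theorem isolated {g : ℝ[X]} (hg : g ≠ 0) (z : ℝ) :
    ∃ ρ > 0, ∀ t, t ≠ z → |t - z| < ρ → g.eval t ≠ 0 := by
  classical
  have h1 : ((g.roots.toFinset.erase z : Finset ℝ) : Set ℝ).Finite := Finset.finite_toSet _
  have h2 : ((g.roots.toFinset.erase z : Finset ℝ) : Set ℝ)ᶜ ∈ 𝓝 z :=
    h1.isClosed.isOpen_compl.mem_nhds (by simp)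
  obtain ⟨ρ, hρ, hb⟩ := Metric.mem_nhds_iff.1 h2
  refine ⟨ρ, hρ, fun t ht hd h0 => ?_⟩
  have h3 := hb (show t ∈ Metric.ball z ρ by rw [Metric.mem_ball, Real.dist_eq]; exact hd)
  apply h3
  rw [Finset.mem_coe, Finset.mem_erase, Multiset.mem_toFinset, mem_roots hg]
  exact ⟨ht, h0⟩

namespace Pre

variable {d : ℕ} {c : ℕ → ℕ → ℝ} {α : ℝ}

theorem nonneg (h : Pre d c α) {v : ℤ × ℤ} (hv : v ∈ Sec α) : 0 ≤ ev d c v.1 v.2 := by
  obtain ⟨m, hm⟩ := h.int v hv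
  rw [hm]; positivity

/-- The geometry of a half cone. -/
theorem geom {p r q s σ : ℤ} (hp : 0 < p) (hdet : p * s - q * r = σ) {η : ℝ} (hη : 0 < η)
    (hq : |(q : ℝ)| * η ≤ p / 2) {x y : ℝ} (hx : 0 < x) (hy : 0 ≤ y) (hyx : y ≤ η * x) :
    (p : ℝ) / 2 * x ≤ p * x + q * y ∧
    (r * x + s * y) - (r : ℝ) / p * (p * x + q * y) = σ * y / p ∧
    y / p ≤ 2 * η * (p * x + q * y) := by
  have hpr : (1 : ℝ) ≤ p := by exact_mod_cast hp
  have hp0 : (0 : ℝ) < p := by linarith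
  have h1 : -(|(q : ℝ)| * (η * x)) ≤ q * y := by
    have h2 := neg_abs_le (q : ℝ)
    have h3 := abs_nonneg (q : ℝ)
    nlinarith
  have h4 : |(q : ℝ)| * (η * x) ≤ p / 2 * x := by
    have : |(q : ℝ)| * (η * x) = |(q : ℝ)| * η * x := by ring
    rw [this]
    exact mul_le_mul_of_nonneg_right hq hx.le
  have h5 : (p : ℝ) / 2 * x ≤ p * x + q * y := by linarith
  refine ⟨h5, ?_, ?_⟩
  · have h6 : (p : ℝ) * s - q * r = σ := by exact_mod_cast hdet
    rw [← h6]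
    field_simp
    ring
  · rw [div_le_iff₀ hp0]
    have h7 : 2 * η * (p / 2 * x) ≤ 2 * η * (p * x + q * y) :=
      mul_le_mul_of_nonneg_left h5 (by linarith)
    have h8 : 2 * η * ((p : ℝ) / 2 * x) = η * x * p := by ring
    have h9 : η * x ≤ η * x * p := by nlinarith [mul_pos hη hx]
    have h10 : 0 ≤ 2 * η * (p * x + q * y) := by
      have : 0 ≤ (p : ℝ) / 2 * x := by positivity
      have : 0 ≤ (p : ℝ) * x + q * y := by linarith
      positivity
    nlinarith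

/-- One side of a rational zero direction: the local situation. -/
theorem side (h : Pre d c α) {p r q s σ : ℤ} (hp : 0 < p) (hσ : σ = 1 ∨ σ = -1)
    (hdet : p * s - q * r = σ) (hz0 : 0 ≤ (r : ℝ) / p) (hzα : (r : ℝ) / p ≤ α)
    (hs1 : σ = 1 → (r : ℝ) / p < α) (hs2 : σ = -1 → 0 < (r : ℝ) / p)
    (hzero : (top d c).eval ((r : ℝ) / p) = 0) :
    ∃ c' : ℕ → ℕ → ℝ, (∀ x y : ℝ, ev d c' x y = ev d c (p * x + q * y) (r * x + s * y)) ∧
      ∃ η : ℝ, Loc d c' η ∧ ∀ v ∈ HC η, (p * v.1 + q * v.2, r * v.1 + s * v.2) ∈ Sec α ∧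
        (p : ℝ) / 2 * v.1 ≤ p * v.1 + q * v.2 := by
  have hd := h.hd
  have hpr : (1 : ℝ) ≤ p := by exact_mod_cast hp
  have hp0 : (0 : ℝ) < p := by linarith
  obtain ⟨c', hc', hce⟩ := IsP.subst (F := fun x y => ev d c x y) ⟨c, h.hc, fun x y => rfl⟩
    (p : ℝ) q r s
  refine ⟨c', hce, ?_⟩
  obtain ⟨ρ₀, hρ₀, hiso⟩ := isolated h.htop ((r : ℝ) / p)
  -- the margin
  obtain ⟨m, hm, hm1, hm2⟩ : ∃ m : ℝ, 0 < m ∧ (σ = 1 → m ≤ α - (r : ℝ) / p) ∧
      (σ = -1 → m ≤ (r : ℝ) / p) := by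
    rcases hσ with hσ | hσ
    · exact ⟨α - (r : ℝ) / p, by have := hs1 hσ; linarith, fun _ => le_rfl,
        fun h' => by rw [hσ] at h'; norm_num at h'⟩
    · exact ⟨(r : ℝ) / p, hs2 hσ, fun h' => by rw [hσ] at h'; norm_num at h', fun _ => le_rfl⟩
  set η : ℝ := min (min 1 (p / (2 * (|(q : ℝ)| + 1)))) (min (ρ₀ / 4) (m / 2)) with hη
  have hq0 := abs_nonneg (q : ℝ)
  have hη0 : 0 < η := lt_min (lt_min one_pos (by positivity)) (lt_min (by linarith) (by linarith))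
  have hη1 : η ≤ 1 := (min_le_left _ _).trans (min_le_left _ _)
  have hη2 : η ≤ p / (2 * (|(q : ℝ)| + 1)) := (min_le_left _ _).trans (min_le_right _ _)
  have hη3 : η ≤ ρ₀ / 4 := (min_le_right _ _).trans (min_le_left _ _)
  have hη4 : η ≤ m / 2 := (min_le_right _ _).trans (min_le_right _ _)
  have hqη : |(q : ℝ)| * η ≤ p / 2 := by
    rw [le_div_iff₀ (by positivity)] at hη2
    nlinarith
  have hmem : ∀ v ∈ HC η, (p * v.1 + q * v.2, r * v.1 + s * v.2) ∈ Sec α ∧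
      (p : ℝ) / 2 * v.1 ≤ p * v.1 + q * v.2 := by
    rintro ⟨x, y⟩ ⟨hx, hy, hyx⟩
    simp only at hx hy hyx ⊢
    have hxr : (0 : ℝ) < x := by exact_mod_cast hx
    have hyr : (0 : ℝ) ≤ y := by exact_mod_cast hy
    obtain ⟨g1, g2, g3⟩ := geom hp hdet hη0 hqη hxr hyr hyx
    have hX : (0 : ℝ) < p * x + q * y := lt_of_lt_of_le (by positivity) g1
    refine ⟨?_, g1⟩
    have hX' : 0 < p * x + q * y := by
      have : (0 : ℝ) < ((p * x + q * y : ℤ) : ℝ) := by push_cast; exact hX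
      exact_mod_cast this
    have key : (0 : ℝ) ≤ r * x + s * y ∧ (r : ℝ) * x + s * y ≤ α * (p * x + q * y) := by
      have hyp : 0 ≤ (y : ℝ) / p := by positivity
      have hmX : 2 * η * (p * x + q * y) ≤ m * (p * x + q * y) :=
        mul_le_mul_of_nonneg_right (by linarith) hX.le
      rcases hσ with hσ | hσ
      · have hm' := hm1 hσ
        rw [hσ] at g2
        push_cast at g2
        rw [one_mul] at g2
        have hzX : 0 ≤ (r : ℝ) / p * (p * x + q * y) := mul_nonneg hz0 hX.le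
        constructor
        · linarith
        · have : m * ((p : ℝ) * x + q * y) ≤ (α - (r : ℝ) / p) * (p * x + q * y) :=
            mul_le_mul_of_nonneg_right hm' hX.le
          linarith
      · have hm' := hm2 hσ
        rw [hσ] at g2
        push_cast at g2
        have g2' : (r : ℝ) * x + s * y - (r : ℝ) / p * (p * x + q * y) = -(y / p) := by
          rw [g2]; ring
        have hzX : (r : ℝ) / p * (p * x + q * y) ≤ α * (p * x + q * y) :=
          mul_le_mul_of_nonneg_right hzα hX.le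
        have : m * ((p : ℝ) * x + q * y) ≤ ((r : ℝ) / p) * (p * x + q * y) :=
            mul_le_mul_of_nonneg_right hm' hX.le
        constructor
        · linarith
        · linarith
    refine ⟨hX'.le, ?_, ?_⟩
    · have : (0 : ℝ) ≤ ((r * x + s * y : ℤ) : ℝ) := by push_cast; exact key.1
      exact_mod_cast this
    · push_cast
      exact key.2
  refine ⟨η, ?_, hmem⟩
  have hev : ∀ v : ℤ × ℤ, ev d c' v.1 v.2 =
      ev d c ((p * v.1 + q * v.2, r * v.1 + s * v.2) : ℤ × ℤ).1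
        ((p * v.1 + q * v.2, r * v.1 + s * v.2) : ℤ × ℤ).2 := by
    intro v
    rw [hce]
    push_cast
    rfl
  refine ⟨hc', hd, hη0, hη1, ?_, ?_, ?_, ?_⟩
  · intro v hv
    rw [hev]
    exact h.int _ (hmem v hv).1
  · intro v hv w hw hvw
    rw [hev, hev] at hvw
    have h1 := h.inj _ (hmem v hv).1 _ (hmem w hw).1 hvw
    have h2 := congrArg Prod.fst h1
    have h3 := congrArg Prod.snd h1
    simp only at h2 h3
    have hσ2 : σ * σ = 1 := by rcases hσ with h' | h' <;> rw [h'] <;> norm_num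
    refine Prod.ext ?_ ?_
    · linear_combination (σ * s) * h2 - (σ * q) * h3 - (v.1 - w.1) * hσ2 -
        σ * (v.1 - w.1) * hdet
    · linear_combination (σ * p) * h3 - (σ * r) * h2 - (v.2 - w.2) * hσ2 -
        σ * (v.2 - w.2) * hdet
  · rw [top_subst (by omega) h.hc hc' p q r s hce (t := 0) (by linarith)]
    simp only [mul_zero, add_zero]
    rw [hzero, mul_zero]
  · intro t ht htη
    obtain ⟨g1, g2, g3⟩ := geom hp hdet hη0 hqη one_pos ht.le (by linarith : t ≤ η * 1)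
    simp only [mul_one] at g1 g2 g3
    have hX : (0 : ℝ) < p + q * t := lt_of_lt_of_le (by positivity) g1
    rw [top_subst (by omega) h.hc hc' p q r s hce hX]
    refine mul_ne_zero (by positivity) ?_
    have h1 : ((r : ℝ) + s * t) / (p + q * t) - (r : ℝ) / p = σ * t / p / (p + q * t) := by
      rw [eq_div_iff hX.ne', sub_mul, div_mul_cancel₀ _ hX.ne']
      exact g2
    apply hiso
    · intro heq
      rw [heq, sub_self] at h1
      have h2 : (σ : ℝ) * t / p / (p + q * t) ≠ 0 := by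
        have hσ0 : (σ : ℝ) ≠ 0 := by
          rcases hσ with h' | h' <;> rw [h'] <;> norm_num
        positivity
      exact h2 h1.symm
    · rw [h1, abs_div, abs_of_pos hX, div_lt_iff₀ hX, abs_div, abs_mul, abs_of_pos ht,
        abs_of_pos hp0]
      have hσ1 : |(σ : ℝ)| = 1 := by
        rcases hσ with h' | h' <;> rw [h'] <;> norm_num
      rw [hσ1, one_mul]
      have : 2 * η * (p + q * t) < ρ₀ * (p + q * t) :=
        mul_lt_mul_of_pos_right (by linarith) hX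
      linarith

end Pre

end Pool.Agent.Pack
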