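import Pool.Agent.Pack.Side
import Pool.Agent.Pack.Irr

/-!
# The counting function near a zero direction
-/

set_option autoImplicit false

open Polynomial Finset Filter Topology

namespace Pool.Agent.Pack

namespace Glob

variable {d : ℕ} {c : ℕ → ℕ → ℝ} {α c₀ C₀ : ℝ}

/-- The values of the polynomial. -/
noncomputable abbrev val (d : ℕ) (c : ℕ → ℕ → ℝ) : ℤ × ℤ → ℝ := fun v => ev d c v.1 v.2

/-- One side of a rational zero direction is negligible off finitely many lines. -/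
theorem side_small (h : Glob d c α c₀ C₀) {p r q s σ : ℤ} (hp : 0 < p) (hσ : σ = 1 ∨ σ = -1)
    (hdet : p * s - q * r = σ) (hz0 : 0 ≤ (r : ℝ) / p) (hzα : (r : ℝ) / p ≤ α)
    (hs1 : σ = 1 → (r : ℝ) / p < α) (hs2 : σ = -1 → 0 < (r : ℝ) / p)
    (hzero : (top d c).eval ((r : ℝ) / p) = 0) :
    ∃ 𝓛 : Set (Set (ℤ × ℤ)), 𝓛.Finite ∧ (∀ L ∈ 𝓛, IsAPLine (val d c) α L) ∧
      ∀ ε > 0, ∃ ρ > 0, Small (val d c) ε {v | v ∈ Sec α ∧ 0 < v.1 ∧
        0 ≤ σ * ((v.2 : ℝ) - (r : ℝ) / p * v.1) ∧ σ * ((v.2 : ℝ) - (r : ℝ) / p * v.1) ≤ ρ * v.1 ∧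
        ∀ L ∈ 𝓛, v ∉ L} := by
  classical
  have hd := h.hd
  have hpr : (1 : ℝ) ≤ p := by exact_mod_cast hp
  have hp0 : (0 : ℝ) < p := by linarith
  obtain ⟨c', hce, η, hloc, hmem⟩ := h.side hp hσ hdet hz0 hzα hs1 hs2 hzero
  have hη := hloc.hη
  have hσ2 : σ * σ = 1 := by rcases hσ with h' | h' <;> rw [h'] <;> norm_num
  -- the lines
  set Y : Set ℕ := {y : ℕ | (hor d c' (y : ℝ)).natDegree = 1} with hY
  have hYfin : Y.Finite := hloc.finite_affine
  set line : ℕ → Set (ℤ × ℤ) := fun y => Set.range (fun x : ℤ => (q * y + p * x, s * y + r * x))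
    with hline
  refine ⟨line '' Y, hYfin.image _, ?_, ?_⟩
  · rintro L ⟨y, hy, rfl⟩
    obtain ⟨A, B, hA, hAB⟩ := hloc.affine_values y hy
    refine ⟨p, r, q * y, s * y, A, B, hp, hA, rfl, fun x => ?_, ?_⟩
    · have h1 := hce (x : ℝ) (y : ℝ)
      have h2 := hAB (x : ℝ)
      rw [h1] at h2
      simp only [val]
      push_cast
      rw [← h2]
      congr 1 <;> ring
    · refine ⟨⌈(y : ℝ) / η⌉ + 1, fun x hx => ?_⟩
      have h1 : (y : ℝ) / η ≤ x := by
        have h2 := Int.le_ceil ((y : ℝ) / η)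
        have h3 : ((⌈(y : ℝ) / η⌉ + 1 : ℤ) : ℝ) ≤ x := by exact_mod_cast hx
        push_cast at h3
        linarith
      have hx0 : 0 < x := by
        have h4 : 0 ≤ ⌈(y : ℝ) / η⌉ := Int.ceil_nonneg (by positivity)
        omega
      have h5 := (hmem (x, (y : ℤ)) (mem_HC hη (by positivity) hx0 (by exact_mod_cast h1))).1
      simp only at h5
      have e1 : q * (y : ℤ) + p * x = p * x + q * y := by ring
      have e2 : s * (y : ℤ) + r * x = r * x + s * y := by ring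
      rw [e1, e2]
      exact h5
  · intro ε hε
    -- surjectivity and growth in the new coordinates
    have hsurj : ∀ m : ℕ, ∃ x y : ℤ, ev d c' x y = m := by
      intro m
      obtain ⟨v, hv, hvm⟩ := h.surj m
      refine ⟨σ * (s * v.1 - q * v.2), σ * (p * v.2 - r * v.1), ?_⟩
      rw [hce, ← hvm]
      have hdr : (p : ℝ) * s - q * r = σ := by exact_mod_cast hdet
      have hσr : (σ : ℝ) * σ = 1 := by exact_mod_cast hσ2
      push_cast
      congr 1
      · linear_combination (σ * v.1 : ℝ) * hdr + (v.1 : ℝ) * hσr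
      · linear_combination (σ * v.2 : ℝ) * hdr + (v.2 : ℝ) * hσr
    have hc₀ := h.hc₀
    have hgrow : ∀ v ∈ HC η, (c₀ * (p / 2)) * v.1 - C₀ ≤ ev d c' v.1 v.2 := by
      intro v hv
      obtain ⟨h1, h2⟩ := hmem v hv
      have h3 := h.grow _ h1
      rw [hce]
      push_cast at h3
      have h4 : c₀ * ((p : ℝ) / 2 * v.1) ≤ c₀ * (p * v.1 + q * v.2) :=
        mul_le_mul_of_nonneg_left h2 hc₀.le
      linarith
    obtain ⟨η', hη', hη'η, hsmall⟩ := hloc.negl (by positivity) hgrow hsurj ε hε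
    have hq0 := abs_nonneg (q : ℝ)
    set ρ : ℝ := min (1 / (2 * (|(q : ℝ)| + 1) * p)) (η' / (2 * p ^ 2)) with hρ
    have hρ0 : 0 < ρ := lt_min (by positivity) (by positivity)
    have hρ1 : ρ ≤ 1 / (2 * (|(q : ℝ)| + 1) * p) := min_le_left _ _
    have hρ2 : ρ ≤ η' / (2 * p ^ 2) := min_le_right _ _
    refine ⟨ρ, hρ0, ?_⟩
    filter_upwards [hsmall] with n hn
    set ψ : ℤ × ℤ → ℤ × ℤ := fun v => (σ * (s * v.1 - q * v.2), σ * (p * v.2 - r * v.1)) with hψ
    have hψinv : ∀ v : ℤ × ℤ, p * (ψ v).1 + q * (ψ v).2 = v.1 ∧ r * (ψ v).1 + s * (ψ v).2 = v.2 := by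
      intro v
      simp only [hψ]
      constructor
      · linear_combination (σ * v.1) * hdet + v.1 * hσ2
      · linear_combination (σ * v.2) * hdet + v.2 * hσ2
    have hψinj : Function.Injective ψ := by
      intro v w hvw
      have h1 := hψinv v
      have h2 := hψinv w
      rw [hvw] at h1
      exact Prod.ext (h1.1.symm.trans h2.1) (h1.2.symm.trans h2.2)
    have hmaps : ∀ v ∈ {v | v ∈ {v | v ∈ Sec α ∧ 0 < v.1 ∧
        0 ≤ σ * ((v.2 : ℝ) - (r : ℝ) / p * v.1) ∧ σ * ((v.2 : ℝ) - (r : ℝ) / p * v.1) ≤ ρ * v.1 ∧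
        ∀ L ∈ line '' Y, v ∉ L} ∧ val d c v ≤ n},
        ψ v ∈ {v : ℤ × ℤ | v ∈ HC η' ∧ (hor d c' (v.2 : ℝ)).natDegree ≠ 1 ∧
        ev d c' v.1 v.2 ≤ n} := by
      rintro v ⟨⟨hv1, hv2, hv3, hv4, hv5⟩, hv6⟩
      obtain ⟨i1, i2⟩ := hψinv v
      set x := (ψ v).1 with hx
      set y := (ψ v).2 with hy
      have i1r : (p : ℝ) * x + q * y = v.1 := by exact_mod_cast i1
      have i2r : (r : ℝ) * x + s * y = v.2 := by exact_mod_cast i2
      have hv2r : (0 : ℝ) < v.1 := by exact_mod_cast hv2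
      have hyr : (y : ℝ) = p * (σ * ((v.2 : ℝ) - (r : ℝ) / p * v.1)) := by
        have : (y : ℝ) = σ * (p * v.2 - r * v.1) := by rw [hy, hψ]; push_cast; ring
        rw [this]
        field_simp
      have hy0 : (0 : ℝ) ≤ y := by rw [hyr]; positivity
      have hyρ : (y : ℝ) ≤ p * (ρ * v.1) := by
        rw [hyr]; exact mul_le_mul_of_nonneg_left hv4 hp0.le
      have hqy : |(q : ℝ)| * (p * (ρ * v.1)) ≤ v.1 / 2 := by
        have h1 : |(q : ℝ)| * (p * ρ) ≤ 1 / 2 := by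
          rw [le_div_iff₀ (by positivity)] at hρ1
          nlinarith [mul_pos hp0 hρ0]
        nlinarith
      have hx1 : (v.1 : ℝ) / 2 ≤ p * x := by
        have h1 : (q : ℝ) * y ≤ |(q : ℝ)| * (p * (ρ * v.1)) :=
          (mul_le_mul_of_nonneg_right (le_abs_self _) hy0).trans
            (mul_le_mul_of_nonneg_left hyρ hq0)
        linarith
      have hx0 : (0 : ℝ) < x := by
        by_contra hneg
        push Not at hneg
        nlinarith
      refine ⟨⟨by exact_mod_cast hx0, by exact_mod_cast hy0, ?_⟩, ?_, ?_⟩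
      · rw [le_div_iff₀ (by positivity)] at hρ2
        have h1 : (v.1 : ℝ) ≤ 2 * p * x := by linarith
        have h2 : (y : ℝ) ≤ p * (ρ * (2 * p * x)) :=
          hyρ.trans (mul_le_mul_of_nonneg_left (mul_le_mul_of_nonneg_left h1 hρ0.le) hp0.le)
        have h3 : (p : ℝ) * (ρ * (2 * p * x)) = ρ * (2 * p ^ 2) * x := by ring
        rw [h3] at h2
        exact h2.trans (mul_le_mul_of_nonneg_right hρ2 hx0.le)
      · intro hdeg
        have hy0' : 0 ≤ y := by exact_mod_cast hy0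
        have hyn : ((y.toNat : ℕ) : ℤ) = y := Int.toNat_of_nonneg hy0'
        refine hv5 (line y.toNat) ⟨y.toNat, ?_, rfl⟩ ⟨x, ?_⟩
        · show (hor d c' ((y.toNat : ℕ) : ℝ)).natDegree = 1
          have : ((y.toNat : ℕ) : ℝ) = (y : ℝ) := by exact_mod_cast hyn
          rw [this]
          exact hdeg
        · simp only
          rw [hyn]
          refine Prod.ext ?_ ?_
          · simp only; rw [← i1]; ring
          · simp only; rw [← i2]; ring
      · rw [hce, i1r, i2r]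
        exact hv6
    refine ⟨Set.Finite.of_injOn hmaps hψinj.injOn hn.1, le_trans ?_ hn.2⟩
    exact_mod_cast Set.ncard_le_ncard_of_injOn ψ hmaps hψinj.injOn hn.1

/-- A zero direction is negligible off finitely many lines. -/
def NegAt (d : ℕ) (c : ℕ → ℕ → ℝ) (α z : ℝ) : Prop :=
  ∃ 𝓛 : Set (Set (ℤ × ℤ)), 𝓛.Finite ∧ (∀ L ∈ 𝓛, IsAPLine (val d c) α L) ∧
    ∀ ε > 0, ∃ ρ > 0, Small (val d c) ε {v | v ∈ Sec α ∧ 0 < v.1 ∧
      |(v.2 : ℝ) - z * v.1| ≤ ρ * v.1 ∧ ∀ L ∈ 𝓛, v ∉ L}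

theorem negAt_rat (h : Glob d c α c₀ C₀) {p r : ℤ} (hp : 0 < p) (hcop : IsCoprime p r)
    (hz0 : 0 ≤ (r : ℝ) / p) (hzα : (r : ℝ) / p ≤ α)
    (hzero : (top d c).eval ((r : ℝ) / p) = 0) : NegAt d c α ((r : ℝ) / p) := by
  obtain ⟨s, q', hsq⟩ := hcop
  have hd1 : p * s - (-q') * r = 1 := by linarith
  have hd2 : p * (-s) - q' * r = -1 := by linarith
  have hα := h.hα
  rcases lt_or_eq_of_le hzα with hlt | heq
  · obtain ⟨𝓛₁, hf1, hA1, hs1⟩ := h.side_small hp (Or.inl rfl) hd1 hz0 hzα (fun _ => hlt)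
      (fun h' => by norm_num at h') hzero
    rcases lt_or_eq_of_le hz0 with hpos | h0
    · obtain ⟨𝓛₂, hf2, hA2, hs2⟩ := h.side_small hp (Or.inr rfl) hd2 hz0 hzα
        (fun h' => by norm_num at h') (fun _ => hpos) hzero
      refine ⟨𝓛₁ ∪ 𝓛₂, hf1.union hf2, ?_, fun ε hε => ?_⟩
      · rintro L (hL | hL)
        · exact hA1 L hL
        · exact hA2 L hL
      · obtain ⟨ρ₁, hρ₁, hS1⟩ := hs1 (ε / 2) (by linarith)
        obtain ⟨ρ₂, hρ₂, hS2⟩ := hs2 (ε / 2) (by linarith)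
        refine ⟨min ρ₁ ρ₂, lt_min hρ₁ hρ₂, ?_⟩
        refine Small.le ((hS1.union hS2).mono ?_) (by linarith : ε / 2 + ε / 2 ≤ ε)
        rintro v ⟨hv1, hv2, hv3, hv4⟩
        have hv2r : (0 : ℝ) < v.1 := by exact_mod_cast hv2
        rw [abs_le] at hv3
        have m1 : min ρ₁ ρ₂ * (v.1 : ℝ) ≤ ρ₁ * v.1 :=
          mul_le_mul_of_nonneg_right (min_le_left _ _) hv2r.le
        have m2 : min ρ₁ ρ₂ * (v.1 : ℝ) ≤ ρ₂ * v.1 :=
          mul_le_mul_of_nonneg_right (min_le_right _ _) hv2r.le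
        rcases le_total 0 ((v.2 : ℝ) - (r : ℝ) / p * v.1) with hle | hle
        · left
          refine ⟨hv1, hv2, ?_, ?_, fun L hL => hv4 L (Or.inl hL)⟩
          · push_cast; linarith
          · push_cast; linarith [hv3.2]
        · right
          refine ⟨hv1, hv2, ?_, ?_, fun L hL => hv4 L (Or.inr hL)⟩
          · push_cast; linarith
          · push_cast; linarith [hv3.1]
    · refine ⟨𝓛₁, hf1, hA1, fun ε hε => ?_⟩
      obtain ⟨ρ₁, hρ₁, hS1⟩ := hs1 ε hε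
      refine ⟨ρ₁, hρ₁, hS1.mono ?_⟩
      rintro v ⟨hv1, hv2, hv3, hv4⟩
      rw [abs_le] at hv3
      refine ⟨hv1, hv2, ?_, ?_, hv4⟩
      · rw [← h0]
        push_cast
        have : (0 : ℝ) ≤ v.2 := by exact_mod_cast hv1.2.1
        linarith
      · push_cast; linarith [hv3.2]
  · obtain ⟨𝓛₂, hf2, hA2, hs2⟩ := h.side_small hp (Or.inr rfl) hd2 hz0 hzα
      (fun h' => by norm_num at h') (fun _ => by rw [heq]; exact hα) hzero
    refine ⟨𝓛₂, hf2, hA2, fun ε hε => ?_⟩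
    obtain ⟨ρ₁, hρ₁, hS1⟩ := hs2 ε hε
    refine ⟨ρ₁, hρ₁, hS1.mono ?_⟩
    rintro v ⟨hv1, hv2, hv3, hv4⟩
    rw [abs_le] at hv3
    refine ⟨hv1, hv2, ?_, ?_, hv4⟩
    · rw [heq]
      push_cast
      have := hv1.2.2
      linarith
    · push_cast; linarith [hv3.1]

end Glob

end Pool.Agent.Pack
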